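import Pool.Agent.W_7742k_h74.ENew

/-! # The first coefficients and the traces of the first powers

Newton's identities over a field of characteristic zero: the coefficients of `T ^ (n - j)`,
`1 ≤ j ≤ m`, of the characteristic polynomial are determined by the traces of the `j`-th powers,
`1 ≤ j ≤ m`: `j * e_j = ∑_{i=1}^{j} (-1)^(i-1) e_{j-i} p_i`. -/

set_option autoImplicit false

noncomputable section

namespace Pool.Agent.DZ74

theorem coeff_eq_of_traces {E : Type} [Field E] [CharZero E] {n m : ℕ} (hm : m ≤ n)
    (M M' : Matrix (Fin n) (Fin n) E)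
    (h : ∀ k, 0 < k → k ≤ m → (M ^ k).trace = (M' ^ k).trace) {j : ℕ} (hj : 0 < j) (hjm : j ≤ m) :
    M.charpoly.coeff (n - j) = M'.charpoly.coeff (n - j) := by
  obtain ⟨r, hr⟩ := Pool.Agent.GalMaass.powB_newton M m
  obtain ⟨s, hs⟩ := Pool.Agent.GalMaass.powB_newton M' m
  have hS : (∑ k ∈ Finset.range m, (Polynomial.X : Polynomial E) ^ k *
      Polynomial.C ((M ^ (k + 1)).trace)) =
      ∑ k ∈ Finset.range m, (Polynomial.X : Polynomial E) ^ k *
      Polynomial.C ((M' ^ (k + 1)).trace) := by
    refine Finset.sum_congr rfl fun k hk => ?_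
    rw [Finset.mem_range] at hk
    rw [h (k + 1) (Nat.succ_pos k) (by omega)]
  rw [hS] at hr
  set S : Polynomial E := ∑ k ∈ Finset.range m, (Polynomial.X : Polynomial E) ^ k *
      Polynomial.C ((M' ^ (k + 1)).trace)
  have h0 : ∀ Q : Matrix (Fin n) (Fin n) E, Q.charpolyRev.coeff 0 = 1 := fun Q => by
    rw [Polynomial.coeff_zero_eq_eval_zero, Matrix.eval_charpolyRev]
  have key : ∀ j, j ≤ m → ∀ i, i ≤ j → (M.charpolyRev - M'.charpolyRev).coeff i = 0 := by
    intro j
    induction j with
    | zero =>
      intro _ i hi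
      obtain rfl : i = 0 := by omega
      rw [Polynomial.coeff_sub, h0, h0, sub_self]
    | succ j ih =>
      intro hj i hi
      rcases Nat.lt_or_ge i (j + 1) with hi' | hi'
      · exact ih (by omega) i (by omega)
      obtain rfl : i = j + 1 := by omega
      have e : Polynomial.derivative (M.charpolyRev - M'.charpolyRev) =
          Polynomial.X ^ m * (r - s) - (M.charpolyRev - M'.charpolyRev) * S := by
        rw [Polynomial.derivative_sub]
        linear_combination hr - hs
      have e1 := congrArg (fun q => Polynomial.coeff q j) e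
      simp only [Polynomial.coeff_sub (Polynomial.X ^ m * (r - s)), Polynomial.coeff_derivative]
        at e1
      have e2 : (Polynomial.X ^ m * (r - s)).coeff j = 0 := by
        rw [mul_comm, Polynomial.coeff_mul_X_pow', if_neg (by omega)]
      have e3 : ((M.charpolyRev - M'.charpolyRev) * S).coeff j = 0 := by
        rw [Polynomial.coeff_mul]
        refine Finset.sum_eq_zero fun a ha => ?_
        rw [Finset.HasAntidiagonal.mem_antidiagonal] at ha
        rw [ih (by omega) a.1 (by omega), zero_mul]
      rw [e2, e3, sub_zero] at e1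
      have e4 : ((j : E) + 1) ≠ 0 := Nat.cast_add_one_ne_zero j
      exact (mul_eq_zero.1 e1).resolve_right e4
  have hrev : ∀ Q : Matrix (Fin n) (Fin n) E,
      Q.charpoly.coeff (n - j) = Q.charpolyRev.coeff j := by
    intro Q
    rw [← Matrix.reverse_charpoly, Polynomial.coeff_reverse, Matrix.charpoly_natDegree_eq_dim,
      Fintype.card_fin, Polynomial.revAt_le (hjm.trans hm)]
  rw [hrev M, hrev M']
  have e := key m le_rfl j hjm
  rw [Polynomial.coeff_sub] at e
  exact sub_eq_zero.1 e

end Pool.Agent.DZ74
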