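import Pool.Agent.W_7742z_h74.Main
import Pool.Agent.W_7742z_h74.Sub
import Pool.Agent.W_7742z_h74.Fin

/-! # The theorem for one ideal, with more information on the ideal

Copies of `exists_subgroup`, `exists_small`, `main`, `final` (W_7742z_h74) with the additional conclusion
`𝔟 ^ (n ^ 2 + 1) ≤ ker ι`. -/

set_option autoImplicit false

noncomputable section

open Filter Topology NumberField

namespace Pool.Agent.OneI74

open Pool.Agent.GalSide Pool.Agent.Cheb Pool.Agent.H74V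

theorem exists_subgroup2 {K : Type} [Field K] [NumberField K] {A : Type} [CommRing A]
    (ι : 𝓞 K →+* A) {n : ℕ} (hn : 0 < n)
    (hN : bound n (Module.finrank ℚ K) ≤ Ideal.absNorm (RingHom.ker ι))
    {Γ : Type} [Group Γ] [Finite Γ] (T : Γ → A) (hT : ∀ x y, T (x * y) = T (y * x))
    (hl : ∀ x, ∃ c, ι c = T x)
    (h1 : ∀ k x : Fin (n ^ 2 + 1) → Γ, (Matrix.of fun i j => T (k i * x j)).det = 0)
    (h2 : ∀ (z : Γ) (k x : Fin (n ^ 2 + 1) → Γ),
      (Matrix.of fun i j => T (k i * x j * z) - T (k i * x j)).det = 0)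
    (hbad : ∀ H : ℕ, 0 < H → H ^ 2 * Nat.card {x : Γ // ¬ ∃ w : 𝓞 K, Small H w ∧ ι w = T x} ≤
      3 * Module.finrank ℚ K * Nat.card Γ) :
    ∃ (𝔟 : Ideal (𝓞 K)) (N : Subgroup Γ) (_ : N.Normal), RingHom.ker ι ≤ 𝔟 ∧
      XX n (Module.finrank ℚ K) ^ Module.finrank ℚ K ≤ Ideal.absNorm 𝔟 ∧
      𝔟 ^ (n ^ 2 + 1) ≤ RingHom.ker ι ∧
      Nat.card (Γ ⧸ N) ≤ 2 * tt n (Module.finrank ℚ K) ^ n ^ 2 ∧
      ∀ z ∈ N, ∀ y c c', ι c = T (y * z) → ι c' = T y → c - c' ∈ 𝔟 := by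
  classical
  obtain ⟨d, hd⟩ : ∃ d, d = Module.finrank ℚ K := ⟨_, rfl⟩
  have hdpos : 0 < d := by
    rw [hd]
    exact Module.finrank_pos
  rw [← hd] at hN hbad ⊢
  have hX : 0 < XX n d := lt_of_le_of_lt (Nat.zero_le _) (lt_XX hn hdpos (le_refl (n ^ 2 + 1)))
  have hbp : 0 < bound n d := Nat.pow_pos hX
  have h𝔞 : RingHom.ker ι ≠ ⊥ := by
    intro h
    rw [h, Ideal.absNorm_bot] at hN
    omega
  obtain ⟨𝔟, hab, hbm, hroot⟩ := exists_root (RingHom.ker ι) h𝔞 (Nat.succ_pos (n ^ 2))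
  -- the norm of `𝔟`
  have hb0 : 𝔟 ≠ ⊥ := by
    intro h
    rw [h] at hab
    exact h𝔞 (le_bot_iff.1 hab)
  have hbN : XX n d ^ d ≤ Ideal.absNorm 𝔟 := by
    have e1 : Ideal.absNorm (RingHom.ker ι) ≤ Ideal.absNorm (𝔟 ^ (n ^ 2 + 1)) := by
      refine Nat.le_of_dvd (Nat.pos_of_ne_zero ?_) (Ideal.absNorm_dvd_absNorm_of_le hbm)
      rw [map_pow]
      refine pow_ne_zero _ ?_
      intro h
      exact hb0 (Ideal.absNorm_eq_zero_iff.1 h)
    rw [map_pow] at e1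
    have e2 : (XX n d ^ d) ^ (n ^ 2 + 1) ≤ Ideal.absNorm 𝔟 ^ (n ^ 2 + 1) := by
      rw [← pow_mul]
      exact hN.trans e1
    exact (Nat.pow_le_pow_iff_left (Nat.succ_ne_zero _)).1 e2
  -- the lifts
  obtain ⟨H, hH⟩ : ∃ H, H = HH n d := ⟨_, rfl⟩
  have hHpos : 0 < H := by
    rw [hH]
    exact HH_pos hdpos
  obtain ⟨S, hS⟩ : ∃ S : Set Γ, ∀ x, x ∈ S ↔ ∃ w : 𝓞 K, Small H w ∧ ι w = T x :=
    ⟨{x | ∃ w : 𝓞 K, Small H w ∧ ι w = T x}, fun _ => Iff.rfl⟩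
  obtain ⟨b, hbT, hbS⟩ : ∃ b : Γ → 𝓞 K, (∀ x, ι (b x) = T x) ∧ ∀ x ∈ S, Small H (b x) := by
    have e1 : ∀ x, ∃ c : 𝓞 K, ι c = T x ∧ (x ∈ S → Small H c) := by
      intro x
      by_cases hx : x ∈ S
      · obtain ⟨w, hw1, hw2⟩ := (hS x).1 hx
        exact ⟨w, hw2, fun _ => hw1⟩
      · obtain ⟨c, hc⟩ := hl x
        exact ⟨c, hc, fun h => absurd h hx⟩
    choose b hb using e1
    exact ⟨b, fun x => (hb x).1, fun x hx => (hb x).2 hx⟩
  -- the number of bad elements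
  obtain ⟨c, hc⟩ : ∃ c, c = Nat.card {x : Γ // x ∉ S} := ⟨_, rfl⟩
  have hΓ : 0 < Nat.card Γ := Nat.card_pos
  have hcs : (n ^ 2 + 2) ^ 4 * c < Nat.card Γ := by
    have e1 := hbad H hHpos
    have e2 : Nat.card {x : Γ // ¬ ∃ w : 𝓞 K, Small H w ∧ ι w = T x} = c := by
      rw [hc]
      refine Nat.card_congr (Equiv.subtypeEquivRight fun x => ?_)
      rw [hS x]
    rw [e2, hH] at e1
    have e3 : HH n d ^ 2 * c = d * (d * (4 * ((n ^ 2 + 2) ^ 4 * c))) := by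
      unfold HH
      ring
    have e4 : 3 * d * Nat.card Γ = d * (3 * Nat.card Γ) := by ring
    rw [e3, e4] at e1
    have e5 := Nat.le_of_mul_le_mul_left e1 hdpos
    have e6 : 4 * ((n ^ 2 + 2) ^ 4 * c) ≤ d * (4 * ((n ^ 2 + 2) ^ 4 * c)) :=
      Nat.le_mul_of_pos_left _ hdpos
    omega
  -- the determinants vanish
  have hmin : ∀ k x : Fin (n ^ 2 + 1) → Γ, (∀ i j, k i * x j ∈ S) →
      (Matrix.of fun i j => b (k i * x j)).det = 0 := by
    intro k x hkx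
    have e1 : (Matrix.of fun i j => b (k i * x j)).det ∈ RingHom.ker ι := by
      rw [RingHom.mem_ker, RingHom.map_det, ← h1 k x]
      congr 1
      ext i j
      exact hbT _
    refine eq_zero_of_small (RingHom.ker ι) e1
      (X := (((n ^ 2 + 1).factorial * H ^ (n ^ 2 + 1) : ℕ) : ℝ))
      (fun σ => Sub_det_small (Matrix.of fun i j => b (k i * x j))
        (fun i j => hbS _ (hkx i j)) σ) ?_
    have e2 : (n ^ 2 + 1).factorial * H ^ (n ^ 2 + 1) < XX n d := by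
      refine lt_of_le_of_lt ?_ (lt_XX hn hdpos (le_refl (n ^ 2 + 1)))
      refine Nat.mul_le_mul_left _ (Nat.pow_le_pow_left ?_ _)
      rw [hH]
      exact (HH_le_hh hn hdpos).trans (Nat.le_mul_of_pos_left _ two_pos)
    have e3 : ((n ^ 2 + 1).factorial * H ^ (n ^ 2 + 1)) ^ d < XX n d ^ d :=
      Nat.pow_lt_pow_left e2 hdpos.ne'
    have e4 : XX n d ^ d ≤ bound n d := by
      unfold bound
      exact Nat.pow_le_pow_right hX (Nat.le_mul_of_pos_right _ (Nat.succ_pos _))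
    have e5 := lt_of_lt_of_le e3 (e4.trans hN)
    rw [← hd]
    exact_mod_cast e5
  obtain ⟨m, k, x, hm, htest⟩ := exists_tests S b (n ^ 2) hmin
  -- the subgroup
  let N : Subgroup Γ :=
    { carrier := {z | ∀ y c c', ι c = T (y * z) → ι c' = T y → c - c' ∈ 𝔟}
      mul_mem' := by
        intro z z' hz hz' y c c' e1 e2
        obtain ⟨c'', hc''⟩ := hl (y * z)
        have e3 := hz' (y * z) c c'' (by rw [e1, mul_assoc]) hc''
        have e4 := hz y c'' c' hc'' e2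
        have e5 := 𝔟.add_mem e3 e4
        rwa [sub_add_sub_cancel] at e5
      one_mem' := by
        intro y c c' e1 e2
        refine hab ?_
        rw [RingHom.mem_ker, map_sub, e1, e2, mul_one, sub_self]
      inv_mem' := by
        intro z hz y c c' e1 e2
        have e3 := hz (y * z⁻¹) c' c (by rw [e2, inv_mul_cancel_right]) e1
        have e4 := 𝔟.neg_mem e3
        rwa [neg_sub] at e4 }
  have hNmem : ∀ z, z ∈ N ↔ ∀ y c c', ι c = T (y * z) → ι c' = T y → c - c' ∈ 𝔟 :=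
    fun z => Iff.rfl
  have hNn : N.Normal := by
    refine ⟨fun z hz g => ?_⟩
    rw [hNmem] at hz ⊢
    intro y c c' e1 e2
    refine hz (g⁻¹ * y * g) c c' ?_ ?_
    · rw [e1]
      have e3 : y * (g * z * g⁻¹) = (y * g * z) * g⁻¹ := by group
      have e4 : g⁻¹ * y * g * z = g⁻¹ * (y * g * z) := by group
      rw [e3, e4, hT]
    · rw [e2]
      have e3 : g⁻¹ * y * g = g⁻¹ * (y * g) := by group
      rw [e3, hT, mul_inv_cancel_right]
  -- the pairs with the same tests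
  have hsep : ∀ g g', (∀ j, g * x j ∈ S) → (∀ j, g' * x j ∈ S) →
      (∀ j, b (g * x j) = b (g' * x j)) → g'⁻¹ * g ∈ N := by
    intro g g' hg hg' hgg
    have hz0 : ∀ y, T (y * (g * g'⁻¹)) - T y ≠ 0 → ∃ i : Fin (m + 2),
        (Fin.cons 1 (Fin.cons (g * g'⁻¹) fun i => k i * g'⁻¹ : Fin (m + 1) → Γ) :
          Fin (m + 2) → Γ) i * y ∉ S := by
      intro y hy
      by_contra hne
      push Not at hne
      refine hy ?_
      have f1 := hne 0
      have f2 := hne (Fin.succ 0)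
      have f3 := fun i : Fin m => hne (Fin.succ (Fin.succ i))
      rw [Fin.cons_zero, one_mul] at f1
      rw [Fin.cons_succ, Fin.cons_zero] at f2
      simp only [Fin.cons_succ] at f3
      have f4 := htest g g' (g'⁻¹ * y) hg hg' hgg (fun i => by
        rw [← mul_assoc]
        exact f3 i) (by
        rw [← mul_assoc]
        exact f2) (by
        rw [mul_inv_cancel_left]
        exact f1)
      have f5 := congrArg ι f4
      rw [hbT, hbT, mul_inv_cancel_left, ← mul_assoc] at f5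
      rw [hT, f5, sub_self]
    have hcard := Sub_card_le S _ (fun y => T (y * (g * g'⁻¹)) - T y ≠ 0) hz0
    rw [← hc] at hcard
    have hsparse : (n ^ 2 + 1) ^ 2 * Nat.card {y // T (y * (g * g'⁻¹)) - T y ≠ 0} <
        Nat.card Γ := by
      refine lt_of_le_of_lt ?_ hcs
      refine (Nat.mul_le_mul_left _ hcard).trans ?_
      rw [← mul_assoc]
      refine Nat.mul_le_mul_right _ ?_
      have f1 : (n ^ 2 + 1) ^ 2 ≤ (n ^ 2 + 2) ^ 2 := Nat.pow_le_pow_left (by omega) 2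
      have f2 : m + 2 ≤ (n ^ 2 + 2) ^ 2 := by
        have f3 : n ^ 2 + 2 ≤ (n ^ 2 + 2) ^ 2 := Nat.le_self_pow two_ne_zero _
        omega
      calc (n ^ 2 + 1) ^ 2 * (m + 2) ≤ (n ^ 2 + 2) ^ 2 * (n ^ 2 + 2) ^ 2 := Nat.mul_le_mul f1 f2
        _ = (n ^ 2 + 2) ^ 4 := by ring
    have hzN : g * g'⁻¹ ∈ N := by
      rw [hNmem]
      intro y c1 c2 e1 e2
      refine hroot _ ?_
      rw [RingHom.mem_ker, map_pow, map_sub, e1, e2]
      exact pow_eq_zero_of_sparse (fun y => T (y * (g * g'⁻¹)) - T y) (n ^ 2 + 1)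
        (fun k x => h2 (g * g'⁻¹) k x) hsparse y
    have e1 := hNn.conj_mem _ hzN g'⁻¹
    have e2 : g'⁻¹ * (g * g'⁻¹) * g'⁻¹⁻¹ = g'⁻¹ * g := by group
    rwa [e2] at e1
  -- counting
  obtain ⟨hWfin, hWcard⟩ := Pool.Agent.OneP74.card_bounded K H hHpos
  have hW1 : ∀ g ∈ S, b g ∈ hWfin.toFinset := by
    intro g hg
    rw [Set.Finite.mem_toFinset]
    exact hbS g hg
  have hW2 : hWfin.toFinset.card ≤ tt n d := by
    rw [← Set.ncard_eq_toFinset_card _ hWfin]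
    refine hWcard.trans ?_
    rw [← hd, hH]
    exact le_rfl
  have hq := card_quot_le N S b hWfin.toFinset hW1 x hsep (by
    rw [← hc]
    refine le_of_lt (lt_of_le_of_lt ?_ hcs)
    refine Nat.mul_le_mul_right _ ?_
    have f1 : n ^ 2 + 2 ≤ (n ^ 2 + 2) ^ 2 := Nat.le_self_pow two_ne_zero _
    have f2 : (n ^ 2 + 2) ^ 2 * 2 ≤ (n ^ 2 + 2) ^ 2 * (n ^ 2 + 2) ^ 2 := by
      refine Nat.mul_le_mul_left _ ?_
      have f3 : 2 ≤ n ^ 2 + 2 := by omega
      exact f3.trans f1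
    have f4 : (n ^ 2 + 2) ^ 2 * (n ^ 2 + 2) ^ 2 = (n ^ 2 + 2) ^ 4 := by ring
    omega)
  refine ⟨𝔟, N, hNn, hab, hbN, hbm, ?_, fun z hz => (hNmem z).1 hz⟩
  refine hq.trans (Nat.mul_le_mul_left _ ?_)
  exact (Nat.pow_le_pow_left hW2 _).trans (Nat.pow_le_pow_right (tt_pos hdpos) hm)

variable {G : Type} [Group G] [TopologicalSpace G] [IsTopologicalGroup G] [CompactSpace G]

theorem exists_small2 (Φ : FrobeniusData G) {K : Type} [Field K] [NumberField K]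
    (b : Nat.Primes → 𝓞 K)
    (hRS : ∀ σ : K →+* ℂ, ∀ ε : ℝ, 0 < ε → LogBound (1 + ε) (fun p => ‖σ (b p : K)‖ ^ 2))
    {A : Type} [CommRing A] (ι : 𝓞 K →+* A) {n : ℕ} (hn : 0 < n)
    (hN : bound n (Module.finrank ℚ K) ≤ Ideal.absNorm (RingHom.ker ι))
    (r : G →* Matrix (Fin n) (Fin n) A) (hr : IsOpen ({g | r g = 1} : Set G))
    (hZ : HasDensity {p | (r (Φ.frob p)).trace ≠ ι (b p)} 0) :
    ∃ (𝔟 : Ideal (𝓞 K)) (U : Subgroup G) (_ : U.Normal) (β : G ⧸ U → 𝓞 K),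
      RingHom.ker ι ≤ 𝔟 ∧
      XX n (Module.finrank ℚ K) ^ Module.finrank ℚ K ≤ Ideal.absNorm 𝔟 ∧
      𝔟 ^ (n ^ 2 + 1) ≤ RingHom.ker ι ∧
      IsOpen (U : Set G) ∧ (∀ g, r g = 1 → g ∈ U) ∧
      Nat.card (G ⧸ U) ≤ 2 * tt n (Module.finrank ℚ K) ^ n ^ 2 ∧
      (∀ g, ∃ c, ι c = (r g).trace) ∧
      (∀ x, Small (hh n (Module.finrank ℚ K)) (β x)) ∧
      (∀ g c, ι c = (r g).trace → c - β (QuotientGroup.mk g) ∈ 𝔟) := by
  have hd : 0 < Module.finrank ℚ K := Module.finrank_pos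
  have hU₀ : IsOpen ((r.ker : Subgroup G) : Set G) := hr
  have hfin : Finite (G ⧸ r.ker) := Subgroup.quotient_finite_of_isOpen r.ker hU₀
  obtain ⟨ρ, hρ⟩ : ∃ ρ : G ⧸ r.ker →* Matrix (Fin n) (Fin n) A,
      ∀ g : G, ρ (QuotientGroup.mk g) = r g :=
    ⟨QuotientGroup.lift r.ker r le_rfl, fun g => rfl⟩
  obtain ⟨T, hT⟩ : ∃ T : G ⧸ r.ker → A, ∀ x, T x = (ρ x).trace := ⟨_, fun _ => rfl⟩
  have hTc : ∀ x y, T (x * y) = T (y * x) := by
    intro x y
    rw [hT, hT, map_mul, map_mul, Matrix.trace_mul_comm]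
  have hTf : ∀ p ∉ {p | (r (Φ.frob p)).trace ≠ ι (b p)},
      T (QuotientGroup.mk (Φ.frob p)) = ι (b p) := by
    intro p hp
    rw [hT, hρ]
    by_contra h
    exact hp h
  have hTconj : ∀ x y, IsConj x y → T x = T y := by
    intro x y h
    obtain ⟨c, hc⟩ := isConj_iff.1 h
    rw [← hc, mul_assoc, hTc, mul_assoc, inv_mul_cancel, mul_one]
  have hl : ∀ x, ∃ c, ι c = T x := by
    intro x
    obtain ⟨g, rfl⟩ := QuotientGroup.mk_surjective x
    obtain ⟨p, hp, hc⟩ := exists_frob Φ r.ker hU₀ g hZ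
    exact ⟨b p, by rw [← hTconj _ _ hc, hTf p hp]⟩
  have h1 : ∀ k x : Fin (n ^ 2 + 1) → G ⧸ r.ker,
      (Matrix.of fun i j => T (k i * x j)).det = 0 := by
    intro k x
    have h := det_gram (Nat.lt_succ_self (n ^ 2)) (fun i => ρ (k i)) (fun j => ρ (x j))
    simp only [hT, map_mul]
    exact h
  have h2 : ∀ (z : G ⧸ r.ker) (k x : Fin (n ^ 2 + 1) → G ⧸ r.ker),
      (Matrix.of fun i j => T (k i * x j * z) - T (k i * x j)).det = 0 := by
    intro z k x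
    have h := det_gram (Nat.lt_succ_self (n ^ 2)) (fun i => ρ (k i))
      (fun j => ρ (x j) * (ρ z - 1))
    have h3 : ∀ i j, T (k i * x j * z) - T (k i * x j) =
        (ρ (k i) * (ρ (x j) * (ρ z - 1))).trace := by
      intro i j
      rw [hT, hT, map_mul, map_mul, ← Matrix.trace_sub, mul_sub, mul_sub, mul_one, mul_assoc]
    simp only [h3]
    exact h
  have hbad : ∀ H : ℕ, 0 < H →
      H ^ 2 * Nat.card {x : G ⧸ r.ker // ¬ ∃ w : 𝓞 K, Small H w ∧ ι w = T x} ≤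
      3 * Module.finrank ℚ K * Nat.card (G ⧸ r.ker) := fun H hH =>
    card_bad Φ b hRS r.ker hU₀ ι T hTc hZ hTf hH
  obtain ⟨𝔟, N, hNn, hker, hX, hbm, hcard, hinv⟩ :=
    exists_subgroup2 ι hn hN T hTc hl h1 h2 hbad
  obtain ⟨β₀, hβ₀, hβ₁⟩ := exists_beta ι hn 𝔟 T N hcard hinv (hbad _ (hh_pos hn hd))
  obtain ⟨U, hU⟩ : ∃ U : Subgroup G, U = N.comap (QuotientGroup.mk' r.ker) := ⟨_, rfl⟩
  have hUn : U.Normal := by rw [hU]; exact hNn.comap _
  have hmem : ∀ g : G, g ∈ U ↔ (QuotientGroup.mk g : G ⧸ r.ker) ∈ N := by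
    intro g
    rw [hU, Subgroup.mem_comap]
    rfl
  have hkU : r.ker ≤ U := by
    intro g hg
    rw [hmem, (QuotientGroup.eq_one_iff g).2 hg]
    exact N.one_mem
  obtain ⟨f, hf⟩ : ∃ f : G ⧸ U →* (G ⧸ r.ker) ⧸ N,
      ∀ g : G, f (QuotientGroup.mk g) = QuotientGroup.mk (QuotientGroup.mk g : G ⧸ r.ker) :=
    ⟨QuotientGroup.lift U ((QuotientGroup.mk' N).comp (QuotientGroup.mk' r.ker)) (by
      intro g hg
      rw [MonoidHom.mem_ker, MonoidHom.comp_apply]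
      exact (QuotientGroup.eq_one_iff _).2 ((hmem g).1 hg)), fun g => rfl⟩
  have hfi : Function.Injective f := by
    rw [injective_iff_map_eq_one]
    intro x hx
    obtain ⟨g, rfl⟩ := QuotientGroup.mk_surjective x
    rw [hf] at hx
    exact (QuotientGroup.eq_one_iff g).2 ((hmem g).2 ((QuotientGroup.eq_one_iff _).1 hx))
  refine ⟨𝔟, U, hUn, fun x => β₀ (f x), hker, hX, hbm, Subgroup.isOpen_mono hkU hU₀,
    fun g hg => hkU hg, (Nat.card_le_card_of_injective f hfi).trans hcard, ?_,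
    fun x => hβ₀ (f x), ?_⟩
  · intro g
    obtain ⟨c, hc⟩ := hl (QuotientGroup.mk g)
    exact ⟨c, by rw [hc, hT, hρ]⟩
  · intro g c hc
    have h3 := hβ₁ (QuotientGroup.mk g) c (by rw [hT, hρ]; exact hc)
    rw [← hf] at h3
    exact h3

theorem main2 (Φ : FrobeniusData G) {K : Type} [Field K] [NumberField K]
    (b : Nat.Primes → 𝓞 K)
    (hRS : ∀ σ : K →+* ℂ, ∀ ε : ℝ, 0 < ε → LogBound (1 + ε) (fun p => ‖σ (b p : K)‖ ^ 2))
    {A : Type} [CommRing A] (ι : 𝓞 K →+* A) {n : ℕ} (hn : 0 < n)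
    (hN : bound n (Module.finrank ℚ K) ≤ Ideal.absNorm (RingHom.ker ι))
    (r : G →* Matrix (Fin n) (Fin n) A) (hr : IsOpen ({g | r g = 1} : Set G))
    (hZ : HasDensity {p | (r (Φ.frob p)).trace ≠ ι (b p)} 0) :
    ∃ (𝔟 : Ideal (𝓞 K)) (U : Subgroup G) (_ : U.Normal) (β : G ⧸ U → 𝓞 K),
      RingHom.ker ι ≤ 𝔟 ∧
      XX n (Module.finrank ℚ K) ^ Module.finrank ℚ K ≤ Ideal.absNorm 𝔟 ∧
      𝔟 ^ (n ^ 2 + 1) ≤ RingHom.ker ι ∧
      IsOpen (U : Set G) ∧ (∀ g, r g = 1 → g ∈ U) ∧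
      Nat.card (G ⧸ U) ≤ 2 * tt n (Module.finrank ℚ K) ^ n ^ 2 ∧
      (∀ g, ∃ c, ι c = (r g).trace) ∧
      (∀ g c, ι c = (r g).trace → c - β (QuotientGroup.mk g) ∈ 𝔟) ∧
      HasDensity {p | b p ≠ β (QuotientGroup.mk (Φ.frob p))} 0 ∧
      (∀ s : K →+* ℂ, ∃ R : G ⧸ U →* Matrix (Fin n) (Fin n) ℂ,
        (∀ x, (R x).trace = s (β x : K)) ∧
        ∀ W : Submodule ℂ (Fin n → ℂ), (∀ g, ∀ w ∈ W, (R g).mulVec w ∈ W) → W = ⊥ ∨ W = ⊤) ∧
      ¬ ∀ g h : Fin (n ^ 2) → G, (Matrix.of fun i j => (r (g i * h j)).trace).det = 0 := by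
  classical
  have hd : 0 < Module.finrank ℚ K := Module.finrank_pos
  obtain ⟨𝔟, U, hUn, β, h𝔟, hN𝔟, hbm, hUo, hUr, hcard, hl, hβ, hc⟩ :=
    exists_small2 Φ b hRS ι hn hN r hr hZ
  have : Finite (G ⧸ U) := Subgroup.quotient_finite_of_isOpen U hUo
  let _ : Fintype (G ⧸ U) := Fintype.ofFinite _
  have hq : Function.Surjective (QuotientGroup.mk' U) := QuotientGroup.mk'_surjective U
  have hc' : ∀ g c, ι c = (r g).trace → c - β (QuotientGroup.mk' U g) ∈ 𝔟 := hc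
  have hcomm := beta_comm ι (QuotientGroup.mk' U) r β hn hN𝔟 hq hl hβ hc'
  have hone := beta_one ι (QuotientGroup.mk' U) r β hn hN𝔟 hβ hc'
  have hpol := beta_pol ι (QuotientGroup.mk' U) r β hn h𝔟 hN𝔟 hq hl hβ hc'
  have hrep : ∀ s : K →+* ℂ, ∃ R : G ⧸ U →* Matrix (Fin n) (Fin n) ℂ,
      ∀ x, (R x).trace = s (β x : K) := by
    intro s
    refine exists_rep (fun x => s (β x : K)) ?_ ?_ ?_
    · intro x y
      rw [hcomm x y]
    · rw [hone]
      simp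
    · intro x
      have h1 := pol_map (s.comp (algebraMap (𝓞 K) K)) β (n + 1) x
      rw [hpol x, map_zero] at h1
      exact h1.symm
  choose R hR using hrep
  have hnorm : ∀ (s : K →+* ℂ) (x : G ⧸ U), ‖s (β x : K)‖ ≤ n := by
    intro s x
    have hm : 0 < Fintype.card (G ⧸ U) := Fintype.card_pos
    have hpow : (R s x) ^ Fintype.card (G ⧸ U) = 1 := by
      rw [← map_pow, pow_card_eq_one, map_one]
    obtain ⟨a, ha⟩ := Pool.Agent.OneP74.exists_exponents hm (R s x) hpow _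
      (Complex.isPrimitiveRoot_exp _ hm.ne')
    have h1 := ha 1
    rw [pow_one, hR] at h1
    rw [h1]
    refine (norm_sum_le _ _).trans ?_
    have h2 : ∀ i ∈ (Finset.univ : Finset (Fin n)),
        ‖Complex.exp (2 * Real.pi * Complex.I / (Fintype.card (G ⧸ U) : ℕ)) ^ (1 * a i)‖ ≤ 1 := by
      intro i _
      rw [norm_pow, (Complex.isPrimitiveRoot_exp _ hm.ne').norm'_eq_one hm.ne', one_pow]
    refine (Finset.sum_le_sum h2).trans ?_
    rw [Finset.sum_const, Finset.card_univ, Fintype.card_fin, nsmul_eq_mul, mul_one]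
  set Z : Set Nat.Primes := {p | (r (Φ.frob p)).trace ≠ ι (b p)} with hZdef
  set E : Set Nat.Primes := {p | p ∉ Z ∧ b p - β (QuotientGroup.mk (Φ.frob p)) ≠ 0} with hEdef
  have hn1 : (1 : ℝ) ≤ n := by exact_mod_cast hn
  have h3n : ((3 * n : ℕ) : ℝ) ^ Module.finrank ℚ K ≤ (Ideal.absNorm 𝔟 : ℝ) := by
    have h1 : 3 * n ≤ XX n (Module.finrank ℚ K) := by
      have h2 : 3 * n ≤ 3 * hh n (Module.finrank ℚ K) := Nat.mul_le_mul_left 3 (le_hh hn hd)
      have h3 : 3 * hh n (Module.finrank ℚ K) ≤ (3 * hh n (Module.finrank ℚ K)) ^ (n ^ 2 + 1) :=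
        Nat.le_self_pow (Nat.succ_ne_zero _) _
      have h4 : (3 * hh n (Module.finrank ℚ K)) ^ (n ^ 2 + 1) ≤ XX n (Module.finrank ℚ K) :=
        Nat.le_mul_of_pos_left _ (Nat.factorial_pos _)
      exact h2.trans (h3.trans h4)
    exact_mod_cast (Nat.pow_le_pow_left h1 _).trans hN𝔟
  have hE : ∀ p ∈ E, (Fintype.card (K →+* ℂ) : ℝ) * (4 * (n : ℝ) ^ 2 + 1) ≤
      ∑ τ : K →+* ℂ, ‖τ (b p : K) - τ (β (QuotientGroup.mk (Φ.frob p)) : K)‖ ^ 2 := by
    intro p hpE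
    have hmem : b p - β (QuotientGroup.mk (Φ.frob p)) ∈ 𝔟 := by
      refine hc _ _ ?_
      exact (not_not.1 hpE.1).symm
    have h4 := sum_sq_ge 𝔟 hmem hpE.2 (Nat.cast_nonneg (3 * n)) h3n
    rw [NumberField.Embeddings.card]
    have h5 : (Module.finrank ℚ K : ℝ) * (4 * (n : ℝ) ^ 2 + 1) ≤
        (Module.finrank ℚ K : ℝ) * ((3 * n : ℕ) : ℝ) ^ 2 := by
      refine mul_le_mul_of_nonneg_left ?_ (Nat.cast_nonneg _)
      push_cast
      nlinarith
    refine h5.trans (h4.trans_eq ?_)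
    refine Finset.sum_congr rfl fun τ _ => ?_
    rw [← map_sub]
    rfl
  have hne : Nonempty (K →+* ℂ) := by
    rw [← Fintype.card_pos_iff, NumberField.Embeddings.card]
    exact hd
  have himp := Pool.Agent.OneP74.improve Φ U hUo (ι := K →+* ℂ) (n := n)
    (fun τ x => τ (β x : K))
    (fun τ x y hxy => by
      obtain ⟨c, hcxy⟩ := isConj_iff.1 hxy
      have h1 : β y = β x := by
        rw [← hcxy, hcomm, ← mul_assoc, inv_mul_cancel, one_mul]
      rw [h1])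
    (fun τ x => hnorm τ x)
    (fun τ => by
      have h1 := Pool.Agent.OneP74.card_le_sum hn (R τ)
      simp only [hR] at h1
      exact h1)
    (fun τ p => τ (b p : K)) (fun τ ε hε => hRS τ ε hε) Z E hZ hE
    (by
      intro p hpZ hpE τ
      have h1 : b p - β (QuotientGroup.mk (Φ.frob p)) = 0 := by
        by_contra h
        exact hpE ⟨hpZ, h⟩
      rw [sub_eq_zero] at h1
      simp only [h1])
  obtain ⟨hEd, hms⟩ := himp
  have hirr : ∀ s : K →+* ℂ, ∀ W : Submodule ℂ (Fin n → ℂ),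
      (∀ g, ∀ w ∈ W, (R s g).mulVec w ∈ W) → W = ⊥ ∨ W = ⊤ := by
    intro s W hW
    refine eq_bot_or_eq_top (R s) ?_ W hW
    have h1 := hms s
    simp only [← hR] at h1
    exact h1
  refine ⟨𝔟, U, hUn, β, h𝔟, hN𝔟, hbm, hUo, hUr, hcard, hl, hc, ?_, fun s => ⟨R s, hR s, hirr s⟩, ?_⟩
  · have hsub : {p | b p ≠ β (QuotientGroup.mk (Φ.frob p))} ⊆ E ∪ Z := by
      intro p hp'
      by_contra hcon
      rw [Set.mem_union, not_or] at hcon
      apply hp'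
      by_contra h
      exact hcon.1 ⟨hcon.2, fun h' => h (sub_eq_zero.1 h')⟩
    have h3 : Tendsto (fun s : ℝ => primeSum E s / Real.log (1 / (s - 1)) +
        primeSum Z s / Real.log (1 / (s - 1))) (𝓝[>] 1) (𝓝 0) := by
      have := hEd.add hZ
      rwa [add_zero] at this
    refine squeeze_zero' ?_ ?_ h3
    · filter_upwards [Chb_log.eventually_gt_atTop 0] with s hs
      exact div_nonneg (Chb_nonneg s _) hs.le
    · filter_upwards [Chb_log.eventually_gt_atTop 0, Chb_gt] with s hs hs1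
      rw [← add_div]
      exact div_le_div_of_nonneg_right ((Chb_mono hs1 hsub).trans (Chb_union hs1 E Z)) hs.le
  · intro hm
    obtain ⟨s⟩ := hne
    obtain ⟨g, h, hdet⟩ := exists_det_ne_zero hn (R s) (hirr s)
    have h1 := beta_minor ι (QuotientGroup.mk' U) r β hn h𝔟 hN𝔟 hq hl hβ hc' hm g h
    apply hdet
    have h2 := congrArg (s.comp (algebraMap (𝓞 K) K)) h1
    rw [RingHom.map_det, map_zero] at h2
    rw [← h2]
    congr 1
    ext i j
    rw [Matrix.of_apply, hR]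
    rfl

/-- The main theorem for a system of Satake classes. -/
theorem final2 {K : Type} [Field K] [NumberField K] {n : ℕ} (hn : 2 ≤ n)
    (π : SatakeSystem K n) (h : ∀ σ : K →+* ℂ, π.IsCuspidal σ)
    (Fr : Nat.Primes → AbsGal ℚ) (hFr : OneP74.IsFrobeniusFamily Fr)
    {A : Type} [CommRing A] (ι : 𝓞 K →+* A)
    (hN : bound n (Module.finrank ℚ K) ≤ Ideal.absNorm (RingHom.ker ι))
    (r : AbsGal ℚ →* Matrix (Fin n) (Fin n) A)
    (hr : IsOpen ({g | r g = 1} : Set (AbsGal ℚ)))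
    (hc : Congruent π Fr ι fun g => (r g).trace) :
    ∃ (𝔟 : Ideal (𝓞 K)) (U : Subgroup (AbsGal ℚ)) (_ : U.Normal) (β : AbsGal ℚ ⧸ U → 𝓞 K),
      RingHom.ker ι ≤ 𝔟 ∧
      XX n (Module.finrank ℚ K) ^ Module.finrank ℚ K ≤ Ideal.absNorm 𝔟 ∧
      𝔟 ^ (n ^ 2 + 1) ≤ RingHom.ker ι ∧
      IsOpen (U : Set (AbsGal ℚ)) ∧ (∀ g, r g = 1 → g ∈ U) ∧
      (∀ g, ∃ c, ι c = (r g).trace) ∧
      (∀ g c, ι c = (r g).trace → c - β (QuotientGroup.mk g) ∈ 𝔟) ∧
      HasDensity {p : Nat.Primes | (β (QuotientGroup.mk (Fr p)) : K) ≠ (π.A p).trace} 0 ∧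
      (∀ s : K →+* ℂ, ∃ R : AbsGal ℚ ⧸ U →* Matrix (Fin n) (Fin n) ℂ,
        (∀ x, (R x).trace = s (β x : K)) ∧
        ∀ W : Submodule ℂ (Fin n → ℂ), (∀ g, ∀ w ∈ W, (R g).mulVec w ∈ W) → W = ⊥ ∨ W = ⊤) ∧
      ¬ ∀ g h : Fin (n ^ 2) → AbsGal ℚ,
        (Matrix.of fun i j => (r (g i * h j)).trace).det = 0 := by
  obtain ⟨b, hb, hb0⟩ := OneP74.exists_trace (by omega) π
  choose 𝔓 h𝔓 hp hF using hFr
  have hlev := OneP74.finite_level π.level_pos
  obtain ⟨𝔟, U, hU, β, k1, k2, kb, k3, k4, -, k5, k6, k7, k8, k9⟩ :=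
    main2 (frobeniusData 𝔓 h𝔓 hp Fr hF) b
    (fun σ ε hε => OneP74.logBound_trace hn π σ (h σ) b hb hb0 ε hε) ι (by omega) hN r hr
    (OneP74.density_union hc hlev (by
      intro p hp'
      by_cases hpl : (p : ℕ) ∣ π.level
      · exact Or.inr hpl
      · refine Or.inl fun hx => hp' ?_
        obtain ⟨x, hx1, hx2⟩ := hx
        have : x = b p := by
          apply RingOfIntegers.ext
          rw [hx1, hb p hpl]
        rw [← this]
        exact hx2))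
  refine ⟨𝔟, U, hU, β, k1, k2, kb, k3, k4, k5, k6, OneP74.density_union k7 hlev ?_, k8, k9⟩
  intro p hp'
  by_cases hpl : (p : ℕ) ∣ π.level
  · exact Or.inr hpl
  · refine Or.inl fun hx => hp' ?_
    rw [← hb p hpl, hx]
    rfl

end Pool.Agent.OneI74
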