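import Pool.Agent.W_7742k_h74.ESta
import Pool.Agent.W_7742k_h74.FMod

/-! # Definitions for the statement: values of the representation over `ℂ` -/

set_option autoImplicit false

noncomputable section

namespace Pool.Agent.DZ74

open NumberField Pool.Agent.Cheb Pool.Agent.GalSide Pool.Agent.H74V Pool.Agent.OneI74

variable {K : Type} [Field K] [NumberField K] {n : ℕ}

/-- `tr R(g) = s x` for all `g` and `x` with `tr r(g) = ι x` such that all conjugates of `x` have
absolute value at most `B`, where `(B + n) ^ (d (n ^ 2 + 1))` is smaller than the norm of `ker ι`,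
`d = [K : ℚ]`. -/
def LiftsTr {A : Type} [CommRing A] (ι : 𝓞 K →+* A) (r : AbsGal ℚ →* GL (Fin n) A)
    (s : K →+* ℂ) (R : AbsGal ℚ →* GL (Fin n) ℂ) : Prop :=
  ∀ (g : AbsGal ℚ) (x : 𝓞 K) (B : ℝ), 0 ≤ B → (∀ σ : K →+* ℂ, ‖σ (x : K)‖ ≤ B) →
    (B + n) ^ (Module.finrank ℚ K * (n ^ 2 + 1)) < (Ideal.absNorm (RingHom.ker ι) : ℝ) →
    (r g).val.trace = ι x → (R g).val.trace = s (x : K)

/-- The characteristic polynomial of `R(g)` is `s P` for all `g` and all monic polynomials `P` of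
degree `n` over `𝓞 K` such that the characteristic polynomial of `r(g)` is `ι P` and the roots of all
conjugates of `P` have absolute value at most `ρ`, where `(n (ρ ^ n + 1)) ^ (d (n ^ 2 + 1))` is smaller
than the norm of `ker ι`, `ρ ≥ 1`, `d = [K : ℚ]`. -/
def LiftsCh {A : Type} [CommRing A] (ι : 𝓞 K →+* A) (r : AbsGal ℚ →* GL (Fin n) A)
    (s : K →+* ℂ) (R : AbsGal ℚ →* GL (Fin n) ℂ) : Prop :=
  ∀ (g : AbsGal ℚ) (P : Polynomial (𝓞 K)) (ρ : ℝ), P.Monic → P.natDegree = n → 1 ≤ ρ →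
    (∀ σ : K →+* ℂ, ∀ α ∈ ((P.map (algebraMap (𝓞 K) K)).map σ).roots, ‖α‖ ≤ ρ) →
    (n * (ρ ^ n + 1)) ^ (Module.finrank ℚ K * (n ^ 2 + 1)) <
      (Ideal.absNorm (RingHom.ker ι) : ℝ) →
    (r g).val.charpoly = P.map ι → (R g).val.charpoly = (P.map (algebraMap (𝓞 K) K)).map s

theorem liftsCh_of_liftsTr {A : Type} [CommRing A] {ι : 𝓞 K →+* A}
    {r : AbsGal ℚ →* GL (Fin n) A} {s : K →+* ℂ} {R : AbsGal ℚ →* GL (Fin n) ℂ}
    (h : LiftsTr ι r s R) : LiftsCh ι r s R := by
  classical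
  intro g P ρ hP hdeg hρ hroots hN hr
  obtain ⟨D, hD⟩ := Pool.Agent.GalMaass.exists_matrix_charpoly P hP n hdeg
  have hmap : ∀ {B : Type} [CommRing B] (φ : 𝓞 K →+* B) (k : ℕ), φ ((D ^ k).trace) =
      ((D.map φ) ^ k).trace := by
    intro B _ φ k
    have e : (D.map φ) ^ k = (D ^ k).map φ := by
      rw [← RingHom.mapMatrix_apply, ← RingHom.mapMatrix_apply, map_pow]
    rw [e, Matrix.trace, Matrix.trace, map_sum]
    rfl
  have hs : ∀ (σ : K →+* ℂ) (k : ℕ), σ (((D ^ k).trace : 𝓞 K) : K) =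
      ((D.map (σ.comp (algebraMap (𝓞 K) K))) ^ k).trace := fun σ k =>
    hmap (σ.comp (algebraMap (𝓞 K) K)) k
  have hch : ∀ σ : K →+* ℂ, (D.map (σ.comp (algebraMap (𝓞 K) K))).charpoly =
      (P.map (algebraMap (𝓞 K) K)).map σ := by
    intro σ
    rw [Matrix.charpoly_map, hD, Polynomial.map_map]
  rw [← hch s]
  refine charpoly_eq_of_traces _ _ fun k hk hkn => ?_
  have h1 : ((R g).val ^ k).trace = ((R (g ^ k)).val).trace := by
    rw [map_pow]
    rfl
  rw [h1, ← hs s k]
  refine h (g ^ k) ((D ^ k).trace) (n * ρ ^ n) (by positivity) (fun σ => ?_) ?_ ?_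
  · rw [hs σ k, EDic_trace_pow, hch σ]
    have h2 : ∀ m : Multiset ℂ, (∀ α ∈ m, ‖α‖ ≤ ρ) →
        ‖(m.map (fun z => z ^ k)).sum‖ ≤ (Multiset.card m : ℝ) * ρ ^ n := by
      intro m
      induction m using Multiset.induction_on with
      | empty => simp
      | cons a m ih =>
        intro hm
        rw [Multiset.map_cons, Multiset.sum_cons, Multiset.card_cons]
        have h2 := ih fun α hα => hm α (Multiset.mem_cons_of_mem hα)
        have h3 : ‖a ^ k‖ ≤ ρ ^ n := by
          rw [norm_pow]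
          exact (pow_le_pow_left₀ (norm_nonneg _) (hm a (Multiset.mem_cons_self a m)) k).trans
            (pow_le_pow_right₀ hρ hkn)
        push_cast
        linarith [norm_add_le (a ^ k) (m.map (fun z => z ^ k)).sum]
    refine (h2 _ (hroots σ)).trans ?_
    have h4 : Multiset.card ((P.map (algebraMap (𝓞 K) K)).map σ).roots ≤ n := by
      refine (Polynomial.card_roots' _).trans ?_
      rw [Polynomial.map_map]
      exact (Polynomial.natDegree_map_le).trans hdeg.le
    exact mul_le_mul_of_nonneg_right (by exact_mod_cast h4) (by positivity)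
  · have h5 : (n : ℝ) * ρ ^ n + n = n * (ρ ^ n + 1) := by ring
    rw [h5]
    exact hN
  · have h6 : (r (g ^ k)).val.trace = ((r g).val ^ k).trace := by
      rw [map_pow]
      rfl
    rw [h6, hmap ι k]
    refine Pool.Agent.GalMaass.trace_pow_congr _ _ ?_ k
    rw [Matrix.charpoly_map, hD, hr]

end Pool.Agent.DZ74
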