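import Pool.Agent.W_7742k_h74.DCut
import Pool.Agent.W_7742v_h74.Van

/-! # The bound of Jacquet and Shalika

`H74V.SatakeSystem.weakRS_of_isCuspidal` and `GL74.WeakRS.summable`: `∑ π.T s x * pk σ x` converges for
`σ > 1`; restrict to one prime `p` and apply `cut` with `β₀ = 1` to `(π.A p).map s`. -/

set_option autoImplicit false

noncomputable section

namespace Pool.Agent.DZ74

open NumberField Pool.Agent.H74V

theorem js_bound {K : Type} [Field K] [NumberField K] {n : ℕ} (hn : 2 ≤ n)
    {π : SatakeSystem K n} {s : K →+* ℂ} (h : π.IsCuspidal s) {p : Nat.Primes} (hp : π.Good p)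
    {α : ℂ} (hα : α ∈ ((π.A p).charpoly.map s).roots) :
    ‖α‖ ≤ ((p : ℕ) : ℝ) ^ ((1 : ℝ) / 2) := by
  have hw := SatakeSystem.weakRS_of_isCuspidal hn h
  refine cut ((π.A p).map s) p (β₀ := 1) (fun σ hσ => ?_) ?_
  · have h1 := hw.summable (SatakeSystem.T_nonneg π s) hσ
    have hinj : Function.Injective fun k : ℕ => ((p, k) : Nat.Primes × ℕ) :=
      fun a b hab => (Prod.mk.injEq _ _ _ _ ▸ hab).2
    refine (h1.comp_injective hinj).congr fun k => ?_
    have h2 : π.T s (p, k) = ‖((((π.A p).map s) ^ (k + 1)).trace : ℂ)‖ ^ 2 := by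
      unfold SatakeSystem.T SatakeSystem.coeff
      rw [if_pos hp]
      have h3 : ((k : ℝ) + 1) ≠ 0 := by positivity
      have h4 : ((((π.A p).map s) ^ (k + 1)).trace : ℂ) = s ((π.A p) ^ (k + 1)).trace := by
        have h5 : ((π.A p).map s) ^ (k + 1) = ((π.A p) ^ (k + 1)).map s :=
          (map_pow s.mapMatrix (π.A p) (k + 1)).symm
        rw [h5]
        exact (AddMonoidHom.map_trace s.toAddMonoidHom _).symm
      rw [h4]
      push_cast
      field_simp
    show π.T s (p, k) * Pool.Agent.H74E.pk σ (p, k) = _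
    rw [h2]
  · have h6 : ((π.A p).map s).charpoly = (π.A p).charpoly.map s := Matrix.charpoly_map _ _
    rw [h6]
    exact hα

end Pool.Agent.DZ74
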