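import Pool.Agent.W_7742k_h74.ENew
import Pool.Agent.W_7742y_h74.Fin
import Pool.Agent.W_7742z_h74.Fin

/-! # Two representations with the same traces at density one

`eq_one_of_trace`: the eigenvalues of `M` are roots of unity (`M ^ m = 1`) with sum `n`, so all are `1`, and
`M` is diagonalizable (its minimal polynomial divides `X ^ m - 1`, which has distinct roots), so `M = 1`.
(Or: the mean of the powers of `M` is a projection with trace `n`.)

`same_charpoly`: by `OneI74.exists_frob` (W_7742z_h74/Frb.lean, `frobeniusData`) applied to the open normal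
subgroup `R.ker ⊓ R'.ker` the traces of `R g` and `R' g` are equal for all `g`; apply it to the powers of
`g` and use `charpoly_eq_of_traces`.  `R' g = 1` gives `tr R g = n`, and `R g` has finite order, so
`R g = 1`. -/

set_option autoImplicit false

noncomputable section

namespace Pool.Agent.DZ74

open NumberField Pool.Agent.Cheb Pool.Agent.GalSide Pool.Agent.H74V Pool.Agent.OneI74

theorem FIdn_root {n m : ℕ} (M : Matrix (Fin n) (Fin n) ℂ) (hM : M ^ m = 1) {α : ℂ}
    (hα : α ∈ M.charpoly.roots) : α ^ m = 1 := by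
  have h1 : M.charpoly.IsRoot α := Polynomial.isRoot_of_mem_roots hα
  obtain ⟨v, hv0, hv⟩ : ∃ v : Fin n → ℂ, v ≠ 0 ∧ M.mulVec v = α • v := by
    have h2 : (Matrix.scalar (Fin n) α - M).det = 0 := by
      rw [← Matrix.eval_charpoly]
      exact h1
    obtain ⟨v, hv0, hv⟩ := Matrix.exists_mulVec_eq_zero_iff.2 h2
    refine ⟨v, hv0, ?_⟩
    rw [Matrix.sub_mulVec, sub_eq_zero] at hv
    rw [← hv]
    simp [Matrix.scalar_apply]
  have h4 : ∀ k : ℕ, (M ^ k).mulVec v = α ^ k • v := by
    intro k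
    induction k with
    | zero => simp
    | succ k ih =>
      rw [pow_succ, ← Matrix.mulVec_mulVec, hv, Matrix.mulVec_smul, ih, smul_smul, pow_succ,
        mul_comm]
  have h5 := h4 m
  rw [hM, Matrix.one_mulVec] at h5
  have h6 : (α ^ m - 1) • v = 0 := by
    rw [sub_smul, one_smul, ← h5, sub_self]
  rcases smul_eq_zero.1 h6 with h | h
  · exact sub_eq_zero.1 h
  · exact absurd h hv0

theorem eq_one_of_trace {n m : ℕ} (hm : 0 < m) (M : Matrix (Fin n) (Fin n) ℂ) (hM : M ^ m = 1)
    (ht : M.trace = n) : M = 1 := by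
  have hcard : Multiset.card M.charpoly.roots = n := by
    have h1 := (IsAlgClosed.splits M.charpoly).natDegree_eq_card_roots
    rw [Matrix.charpoly_natDegree_eq_dim, Fintype.card_fin] at h1
    exact h1.symm
  have hone : ∀ α ∈ M.charpoly.roots, α = 1 := by
    have hnorm : ∀ α ∈ M.charpoly.roots, ‖α‖ = 1 := fun α hα =>
      Complex.norm_eq_one_of_pow_eq_one (FIdn_root M hM hα) hm.ne'
    have hsum : (M.charpoly.roots.map fun α : ℂ => 1 - α.re).sum = 0 := by
      have h1 : M.trace = M.charpoly.roots.sum := Matrix.trace_eq_sum_roots_charpoly M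
      have h2 : (M.charpoly.roots.map fun α : ℂ => α.re).sum = n := by
        have h3 : (M.charpoly.roots.map fun α : ℂ => α.re).sum = (M.charpoly.roots.sum).re := by
          have := (Multiset.sum_hom M.charpoly.roots Complex.reAddGroupHom)
          simpa using this
        rw [h3, ← h1, ht, Complex.natCast_re]
      rw [Multiset.sum_map_sub, h2, Multiset.map_const', Multiset.sum_replicate, hcard]
      simp
    have hnn : ∀ x ∈ M.charpoly.roots.map fun α : ℂ => 1 - α.re, 0 ≤ x := by
      intro x hx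
      obtain ⟨α, hα, rfl⟩ := Multiset.mem_map.1 hx
      have := Complex.re_le_norm α
      rw [hnorm α hα] at this
      linarith
    intro α hα
    have h1 : 1 - α.re = 0 :=
      Multiset.all_zero_of_le_zero_le_of_sum_eq_zero hnn hsum _
        (Multiset.mem_map_of_mem (fun α : ℂ => 1 - α.re) hα)
    have h2 : α.re = 1 := by linarith
    have h3 := Complex.sq_norm_sub_sq_re α
    rw [hnorm α hα, h2] at h3
    have h4 : α.im = 0 := by
      have : α.im ^ 2 = 0 := by linarith
      exact pow_eq_zero_iff two_ne_zero |>.1 this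
    exact Complex.ext (by simpa using h2) (by simpa using h4)
  have hroots : M.charpoly.roots = Multiset.replicate n 1 :=
    Multiset.eq_replicate.2 ⟨hcard, hone⟩
  have hcp : M.charpoly = (Polynomial.X - Polynomial.C 1) ^ n := by
    have h1 := (IsAlgClosed.splits M.charpoly).eq_prod_roots_of_monic M.charpoly_monic
    rw [hroots] at h1
    simpa using h1
  rcases Nat.eq_zero_or_pos n with rfl | hn
  · exact Subsingleton.elim _ _
  have h1 : minpoly ℂ M ∣ Polynomial.X ^ m - Polynomial.C 1 := by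
    refine minpoly.dvd _ _ ?_
    simp [hM]
  have h2 : minpoly ℂ M ∣ (Polynomial.X - Polynomial.C 1) ^ n := by
    rw [← hcp]
    exact minpoly.dvd _ _ (Matrix.aeval_self_charpoly M)
  have h3 : Squarefree (minpoly ℂ M) := by
    refine Squarefree.squarefree_of_dvd h1 ?_
    exact (Polynomial.separable_X_pow_sub_C (1 : ℂ) (Nat.cast_ne_zero.2 hm.ne')
      one_ne_zero).squarefree
  have h4 : minpoly ℂ M ∣ Polynomial.X - Polynomial.C 1 :=
    (h3.dvd_pow_iff_dvd hn.ne').1 h2
  have h5 : Polynomial.aeval M (Polynomial.X - Polynomial.C (1 : ℂ)) = 0 := by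
    obtain ⟨q, hq⟩ := h4
    rw [hq, map_mul, minpoly.aeval, zero_mul]
  simpa [sub_eq_zero] using h5

theorem same_charpoly {n : ℕ} {Fr : Nat.Primes → AbsGal ℚ}
    (hFr : Pool.Agent.OneP74.IsFrobeniusFamily Fr) {R R' : AbsGal ℚ →* GL (Fin n) ℂ}
    (hR : IsOpen (R.ker : Set (AbsGal ℚ))) (hR' : IsOpen (R'.ker : Set (AbsGal ℚ)))
    {Z : Set Nat.Primes} (hZ : HasDensity Z 0)
    (h : ∀ p, p ∉ Z → (R (Fr p)).val.trace = (R' (Fr p)).val.trace) (g : AbsGal ℚ) :
    (R g).val.charpoly = (R' g).val.charpoly ∧ (R' g = 1 → R g = 1) := by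
  classical
  choose 𝔓 h𝔓 hp hF using hFr
  obtain ⟨U, hUdef⟩ : ∃ U : Subgroup (AbsGal ℚ), U = R.ker ⊓ R'.ker := ⟨_, rfl⟩
  have hUn : U.Normal := by
    rw [hUdef]
    infer_instance
  have hUo : IsOpen (U : Set (AbsGal ℚ)) := by
    rw [hUdef, Subgroup.coe_inf]
    exact hR.inter hR'
  have hfin : Finite (AbsGal ℚ ⧸ U) := Subgroup.quotient_finite_of_isOpen U hUo
  have hconj : ∀ x y : AbsGal ℚ, IsConj (QuotientGroup.mk x : AbsGal ℚ ⧸ U)
      (QuotientGroup.mk y) → (R x).val.trace = (R y).val.trace ∧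
        (R' x).val.trace = (R' y).val.trace := by
    intro x y hxy
    obtain ⟨c, hc⟩ := isConj_iff.1 hxy
    obtain ⟨c, rfl⟩ := QuotientGroup.mk_surjective c
    have h1 : (QuotientGroup.mk (c * x * c⁻¹) : AbsGal ℚ ⧸ U) = QuotientGroup.mk y := hc
    have h2 : (c * x * c⁻¹)⁻¹ * y ∈ U := QuotientGroup.eq.1 h1
    rw [hUdef, Subgroup.mem_inf] at h2
    have aux : ∀ S : AbsGal ℚ →* GL (Fin n) ℂ, (c * x * c⁻¹)⁻¹ * y ∈ S.ker →
        (S x).val.trace = (S y).val.trace := by
      intro S hS
      have h3 : S y = S (c * x * c⁻¹) := by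
        have h4 := MonoidHom.mem_ker.1 hS
        rw [map_mul, map_inv, inv_mul_eq_one] at h4
        exact h4.symm
      rw [h3, map_mul, map_mul, map_inv, Units.val_mul, Units.val_mul, Matrix.trace_mul_comm,
        ← mul_assoc, Units.inv_mul, one_mul]
    exact ⟨aux R h2.1, aux R' h2.2⟩
  have htr : ∀ x : AbsGal ℚ, (R x).val.trace = (R' x).val.trace := by
    intro x
    obtain ⟨p, hpZ, hpg⟩ := exists_frob (frobeniusData 𝔓 h𝔓 hp Fr hF) U hUo x hZ
    have h1 := hconj _ _ hpg
    rw [← h1.1, ← h1.2]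
    exact h p hpZ
  refine ⟨charpoly_eq_of_traces _ _ fun k _ _ => ?_, fun h1 => ?_⟩
  · have h1 := htr (g ^ k)
    rw [map_pow, map_pow, Units.val_pow_eq_pow_val, Units.val_pow_eq_pow_val] at h1
    exact h1
  · apply Units.ext
    refine eq_one_of_trace (m := Nat.card (AbsGal ℚ ⧸ U)) Nat.card_pos _ ?_ ?_
    · have h2 : g ^ Nat.card (AbsGal ℚ ⧸ U) ∈ U := by
        rw [← QuotientGroup.eq_one_iff, QuotientGroup.mk_pow, pow_card_eq_one']
      have h3 := MonoidHom.mem_ker.1 ((hUdef.le.trans inf_le_left) h2)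
      rw [← Units.val_pow_eq_pow_val, ← map_pow, h3, Units.val_one]
    · rw [htr g, h1, Units.val_one, Matrix.trace_one, Fintype.card_fin]

end Pool.Agent.DZ74
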