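import Pool.Agent.W_7742k_h74.FFin
import Pool.Agent.W_7742k_h74.FIdn
import Pool.Agent.W_7742k_h74.FBnd

/-! # Families of representations modulo ideals of unbounded norm

Take `j₀` with norm at least `bound n d` and `R = R_{j₀}` from `final_one_two`; for every other such `j`
the representation `R_j` has the same traces at density one, so by `same_charpoly` the same
characteristic polynomials and the same kernel.  Let `g`, `P` be as in the last claim.  There is `ρ ≥ 1`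
which bounds the roots of all conjugates of `P` (finitely many), and then `j` with norm larger than
`bound n d` and `(n (ρ ^ n + 1)) ^ (d (n ^ 2 + 1))` with `char r_j(g) = ι_j P`; `LiftsCh` for `R_j`. -/

set_option autoImplicit false

noncomputable section

namespace Pool.Agent.DZ74

open NumberField Pool.Agent.Cheb Pool.Agent.GalSide Pool.Agent.H74V Pool.Agent.OneI74

theorem final_family {K : Type} [Field K] [NumberField K] {n : ℕ} (hn : 2 ≤ n)
    (π : SatakeSystem K n) (h : ∀ σ : K →+* ℂ, π.IsCuspidal σ)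
    (Fr : Nat.Primes → AbsGal ℚ) (hFr : Pool.Agent.OneP74.IsFrobeniusFamily Fr)
    {J : Type} (A : J → Type) [∀ j, CommRing (A j)] (ι : ∀ j, 𝓞 K →+* A j)
    (hN : ∀ B : ℕ, ∃ j, B ≤ Ideal.absNorm (RingHom.ker (ι j)))
    (r : ∀ j, AbsGal ℚ →* GL (Fin n) (A j)) (hr : ∀ j, IsOpen ((r j).ker : Set (AbsGal ℚ)))
    (hc : ∀ j, Congruent π Fr (ι j) fun g => (r j g).val.trace) (s : K →+* ℂ) :
    ∃ R : AbsGal ℚ →* GL (Fin n) ℂ, IsArtin R ∧
      (∀ j, bound n (Module.finrank ℚ K) ≤ Ideal.absNorm (RingHom.ker (ι j)) →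
        (r j).ker ≤ R.ker) ∧
      ∀ (g : AbsGal ℚ) (P : Polynomial (𝓞 K)), P.Monic → P.natDegree = n →
        (∀ B : ℕ, ∃ j, B ≤ Ideal.absNorm (RingHom.ker (ι j)) ∧
          (r j g).val.charpoly = P.map (ι j)) →
        (R g).val.charpoly = (P.map (algebraMap (𝓞 K) K)).map s := by
  classical
  obtain ⟨j₀, hj₀⟩ := hN (bound n (Module.finrank ℚ K))
  choose R hA hk hd hTr hDet h3 hCh hAll using
    fun j : {j : J // bound n (Module.finrank ℚ K) ≤ Ideal.absNorm (RingHom.ker (ι j))} =>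
      final_one_two hn π h Fr hFr (ι j.1) j.2 (r j.1) (hr j.1) (hc j.1) s
  have key : ∀ (j : {j : J // bound n (Module.finrank ℚ K) ≤ Ideal.absNorm (RingHom.ker (ι j))})
      (g : AbsGal ℚ), (R ⟨j₀, hj₀⟩ g).val.charpoly = (R j g).val.charpoly ∧
        (R j g = 1 → R ⟨j₀, hj₀⟩ g = 1) := by
    intro j g
    refine same_charpoly hFr (hA _).1 (hA j).1
      (Pool.Agent.OneP74.density_union' (hd ⟨j₀, hj₀⟩) (hd j) (subset_refl _)) ?_ g
    intro p hp
    rw [Set.mem_union, not_or] at hp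
    exact (not_not.1 hp.1).trans (not_not.1 hp.2).symm
  refine ⟨R ⟨j₀, hj₀⟩, hA _, fun j hj g hg => ?_, fun g P hP hdeg hB => ?_⟩
  · exact MonoidHom.mem_ker.2 ((key ⟨j, hj⟩ g).2 (MonoidHom.mem_ker.1 (hk ⟨j, hj⟩ hg)))
  · obtain ⟨ρ, hρ1, hρ⟩ : ∃ ρ : ℝ, 1 ≤ ρ ∧ ∀ σ : K →+* ℂ,
        ∀ α ∈ ((P.map (algebraMap (𝓞 K) K)).map σ).roots, ‖α‖ ≤ ρ := by
      have hfin : (⋃ σ : K →+* ℂ,
          {α : ℂ | α ∈ ((P.map (algebraMap (𝓞 K) K)).map σ).roots}).Finite :=
        Set.finite_iUnion fun σ => Multiset.finite_toSet _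
      obtain ⟨C, hC⟩ := (hfin.image fun α : ℂ => ‖α‖).bddAbove
      refine ⟨max 1 C, le_max_left _ _, fun σ α hα => le_trans ?_ (le_max_right _ _)⟩
      exact hC (Set.mem_image_of_mem _ (Set.mem_iUnion.2 ⟨σ, hα⟩))
    obtain ⟨B, hB'⟩ := exists_nat_gt
      (((n : ℝ) * (ρ ^ n + 1)) ^ (Module.finrank ℚ K * (n ^ 2 + 1)))
    obtain ⟨j, hj1, hj2⟩ := hB (max B (bound n (Module.finrank ℚ K)))
    have hj3 := (le_max_right _ _).trans hj1
    rw [(key ⟨j, hj3⟩ g).1]
    refine hCh ⟨j, hj3⟩ g P ρ hP hdeg hρ1 hρ (hB'.trans_le ?_) hj2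
    exact_mod_cast (le_max_left _ _).trans hj1

end Pool.Agent.DZ74
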