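import Pool.Agent.W_7742k_h74.BDef

/-! # Fields of definition, and the ramified primes

`exists_field`: `IntermediateField.fixedField H`; it is finite over `ℚ` because `H` is open, so closed of
finite index (`InfiniteGalois.isOpen_iff_finite`, `InfiniteGalois.fixingSubgroup_fixedField`; see
`Cheb.AppC2_main` in Chebotarev_h15/AppC2.lean for the Galois case).

`finite_ramified`: let `K` be the fixed field of `U`, `α` an algebraic integer with `K = ℚ(α)`.  For
`g ∉ U`, `g α ≠ α`; the product `N` of the `g α - α` over all `g` in `Γ ⧸ U`, `g ≠ 1`, and of all its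
conjugates is a nonzero integer (there are only finitely many values).  If `g ∈ inertiaAt (𝔓 p)`,
`g ∉ U` then `g α - α ∈ 𝔓 p`, so `N ∈ 𝔓 p ∩ ℤ = p ℤ` (`𝔓 p` is a proper ideal which contains `p`).  Or use
`frob_unique` (Chebotarev_h15). -/

set_option autoImplicit false

noncomputable section

open scoped Classical

namespace Pool.Agent.DZ74

open NumberField IsDedekindDomain Pool.Agent.Cheb

/-- generic form of `exists_field` -/
theorem BRam_field (k : Type) [Field k] [NumberField k] (H : Subgroup (AbsGal k))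
    (hH : IsOpen (H : Set (AbsGal k))) :
    ∃ (F : Type) (_ : Field F) (_ : NumberField F) (i : F →+* AlgebraicClosure k),
      ∀ x : AlgebraicClosure k, x ∈ Set.range i ↔ ∀ g ∈ H, g x = x := by
  have hHc : IsClosed (H : Set (AbsGal k)) := Subgroup.isClosed_of_isOpen H hH
  obtain ⟨K, hK⟩ : ∃ K : IntermediateField k (AlgebraicClosure k),
    K = IntermediateField.fixedField H := ⟨_, rfl⟩
  have hfix : K.fixingSubgroup = H := by
    rw [hK]
    exact InfiniteGalois.fixingSubgroup_fixedField (⟨H, hHc⟩ : ClosedSubgroup (AbsGal k))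
  have h1 : IsOpen K.fixingSubgroup.carrier := by
    rw [hfix]
    exact hH
  have hfd : FiniteDimensional k K := (InfiniteGalois.isOpen_iff_finite K).1 h1
  have hNF : NumberField K := NumberField.of_module_finite k K
  refine ⟨K, inferInstance, hNF, algebraMap K (AlgebraicClosure k), ?_⟩
  intro x
  rw [Set.mem_range]
  constructor
  · rintro ⟨y, rfl⟩ g hg
    obtain ⟨z, hy⟩ := y
    rw [hK] at hy
    exact (IntermediateField.mem_fixedField_iff H _).1 hy g hg
  · intro h
    refine ⟨⟨x, ?_⟩, rfl⟩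
    rw [hK]
    exact (IntermediateField.mem_fixedField_iff H x).2 h

/-- An algebraic integer moved by `g` and fixed by `U`. -/
theorem BRam_move (k : Type) [Field k] [NumberField k] (U : Subgroup (AbsGal k))
    (hU : IsOpen (U : Set (AbsGal k))) (g : AbsGal k) (hg : g ∉ U) :
    ∃ x : Zbar k, (∀ u ∈ U, u (x : AlgebraicClosure k) = x) ∧
      g (x : AlgebraicClosure k) ≠ x := by
  have hUc : IsClosed (U : Set (AbsGal k)) := Subgroup.isClosed_of_isOpen U hU
  obtain ⟨K, hK⟩ : ∃ K : IntermediateField k (AlgebraicClosure k),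
    K = IntermediateField.fixedField U := ⟨_, rfl⟩
  have hfix : K.fixingSubgroup = U := by
    rw [hK]
    exact InfiniteGalois.fixingSubgroup_fixedField (⟨U, hUc⟩ : ClosedSubgroup (AbsGal k))
  rw [← hfix] at hg
  have hg' := (IntermediateField.mem_fixingSubgroup_iff K g).not.1 hg
  push Not at hg'
  obtain ⟨y, hy, hgy⟩ := hg'
  have hal : Algebra.IsAlgebraic ℚ (AlgebraicClosure k) := Algebra.IsAlgebraic.trans ℚ k _
  have hyal : IsAlgebraic ℤ y := (IsFractionRing.isAlgebraic_iff ℤ ℚ (AlgebraicClosure k)).2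
    (Algebra.IsAlgebraic.isAlgebraic y)
  obtain ⟨n, hn, hny⟩ := hyal.exists_integral_multiple
  refine ⟨⟨n • y, hny⟩, ?_, ?_⟩
  · intro u hu
    rw [hK] at hy
    have h1 := (IntermediateField.mem_fixedField_iff U y).1 hy u hu
    show u (n • y) = n • y
    rw [map_zsmul, h1]
  · show g (n • y) ≠ n • y
    rw [map_zsmul]
    intro h
    exact hgy (smul_right_injective _ hn h)

theorem BRam_quot (k : Type) [Field k] [NumberField k] (U : Subgroup (AbsGal k))
    (hU : IsOpen (U : Set (AbsGal k))) : Finite (AbsGal k ⧸ U) :=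
  Subgroup.quotient_finite_of_isOpen U hU

theorem exists_field (H : Subgroup (AbsGal ℚ)) (hH : IsOpen (H : Set (AbsGal ℚ))) :
    ∃ (F : Type) (_ : Field F) (_ : NumberField F) (i : F →+* AlgebraicClosure ℚ),
      IsFixedBy i H := BRam_field ℚ H hH

theorem finite_ramified (𝔓 : Nat.Primes → Ideal (Zbar ℚ)) (h𝔓 : ∀ p, (𝔓 p).IsPrime)
    (hp : ∀ p : Nat.Primes, ((p : ℕ) : Zbar ℚ) ∈ 𝔓 p) (U : Subgroup (AbsGal ℚ)) [U.Normal]
    (hU : IsOpen (U : Set (AbsGal ℚ))) : {p : Nat.Primes | ¬ inertiaAt (𝔓 p) ≤ U}.Finite := by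
  have hfq : Finite (AbsGal ℚ ⧸ U) := BRam_quot ℚ U hU
  have hfq' : Fintype (AbsGal ℚ ⧸ U) := Fintype.ofFinite _
  have hx := BRam_move ℚ U hU
  choose! x hxU hxg using hx
  set g0 : AbsGal ℚ ⧸ U → AbsGal ℚ := Quotient.out with hg0
  have hg0' : ∀ q : AbsGal ℚ ⧸ U, (QuotientGroup.mk (g0 q) : AbsGal ℚ ⧸ U) = q :=
    fun q => Quotient.out_eq' q
  set D : Zbar ℚ := ∏ q ∈ Finset.univ.filter (fun q : AbsGal ℚ ⧸ U => q ≠ 1),
    (g0 q • x (g0 q) - x (g0 q)) with hD
  have hD0 : D ≠ 0 := by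
    rw [hD]
    refine Finset.prod_ne_zero_iff.2 fun q hq => ?_
    have hq1 : q ≠ 1 := (Finset.mem_filter.1 hq).2
    have hgU : g0 q ∉ U := by
      intro h
      apply hq1
      rw [← hg0' q]
      exact (QuotientGroup.eq_one_iff _).2 h
    intro h
    apply hxg _ hgU
    have h2 := congrArg (fun z : Zbar ℚ => (z : AlgebraicClosure ℚ)) (sub_eq_zero.1 h)
    exact h2
  have hDint : IsIntegral ℤ D := Algebra.IsIntegral.isIntegral D
  have hP0 : minpoly ℤ D ≠ 0 := minpoly.ne_zero hDint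
  set N : ℤ := ∏ i ∈ (minpoly ℤ D).support, (minpoly ℤ D).coeff i with hN
  have hN0 : N ≠ 0 := Finset.prod_ne_zero_iff.2 fun i hi => Polynomial.mem_support_iff.1 hi
  have key : ∀ p : Nat.Primes, ¬ inertiaAt (𝔓 p) ≤ U → ((p : ℕ) : ℤ) ∣ N := by
    intro p hpU
    obtain ⟨h, hh, hhU⟩ := SetLike.not_le_iff_exists.1 hpU
    have hDmem : D ∈ 𝔓 p := by
      set q : AbsGal ℚ ⧸ U := QuotientGroup.mk h with hq
      have hq1 : q ≠ 1 := by
        intro e
        exact hhU ((QuotientGroup.eq_one_iff _).1 e)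
      have hgU : g0 q ∉ U := by
        intro h'
        apply hq1
        rw [← hg0' q]
        exact (QuotientGroup.eq_one_iff _).2 h'
      have hu : (g0 q)⁻¹ * h ∈ U := by
        rw [← QuotientGroup.eq, hg0' q]
      have h3 : h (x (g0 q) : AlgebraicClosure ℚ) = g0 q (x (g0 q) : AlgebraicClosure ℚ) := by
        have h4 := hxU _ hgU _ hu
        rw [AlgEquiv.mul_apply] at h4
        have h5 := congrArg (g0 q) h4
        rw [← AlgEquiv.mul_apply, mul_inv_cancel, AlgEquiv.one_apply] at h5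
        exact h5
      obtain ⟨y, hy, hy'⟩ := hh (x (g0 q))
      have h6 : g0 q • x (g0 q) - x (g0 q) = y := by
        apply Subtype.ext
        show g0 q (x (g0 q) : AlgebraicClosure ℚ) - (x (g0 q) : AlgebraicClosure ℚ) = y
        rw [← h3, hy']
        ring
      rw [hD]
      refine Ideal.mem_of_dvd (𝔓 p) (Finset.dvd_prod_of_mem _
        (Finset.mem_filter.2 ⟨Finset.mem_univ q, hq1⟩)) ?_
      rw [h6]
      exact hy
    have hNmem : (algebraMap ℤ (Zbar ℚ)) N ∈ 𝔓 p := by
      obtain ⟨i, hi0, hi⟩ := Ideal.exists_coeff_ne_zero_mem_comap_of_root_mem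
        (f := algebraMap ℤ (Zbar ℚ)) (I := 𝔓 p) hD0 hDmem hP0 (by
          have := minpoly.aeval ℤ D
          rwa [Polynomial.aeval_def] at this)
      have h8 : (minpoly ℤ D).coeff i ∣ N :=
        Finset.dvd_prod_of_mem _ (Polynomial.mem_support_iff.2 hi0)
      exact Ideal.mem_of_dvd (𝔓 p) (map_dvd _ h8) (Ideal.mem_comap.1 hi)
    by_contra hnd
    have hpp : Prime ((p : ℕ) : ℤ) := Nat.prime_iff_prime_int.1 p.2
    have hcop : IsCoprime ((p : ℕ) : ℤ) N := (Prime.coprime_iff_not_dvd hpp).2 hnd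
    obtain ⟨a, b, hab⟩ := hcop
    apply (h𝔓 p).ne_top
    rw [Ideal.eq_top_iff_one]
    have h7 : (1 : Zbar ℚ) = algebraMap ℤ (Zbar ℚ) a * ((p : ℕ) : Zbar ℚ) +
        algebraMap ℤ (Zbar ℚ) b * algebraMap ℤ (Zbar ℚ) N := by
      have := congrArg (algebraMap ℤ (Zbar ℚ)) hab
      rw [map_add, map_mul, map_mul, map_one] at this
      rw [← this]
      simp
    rw [h7]
    exact (𝔓 p).add_mem ((𝔓 p).mul_mem_left _ (hp p)) ((𝔓 p).mul_mem_left _ hNmem)
  have hfin : (N.natAbs.primeFactors : Set ℕ).Finite := Finset.finite_toSet _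
  refine (hfin.preimage (f := fun p : Nat.Primes => (p : ℕ))
    (fun a _ b _ hab => Subtype.ext hab)).subset ?_
  intro p hpm
  rw [Set.mem_preimage, Finset.mem_coe, Nat.mem_primeFactors]
  refine ⟨p.2, ?_, by simpa using hN0⟩
  exact Int.natCast_dvd.1 (key p hpm)

end Pool.Agent.DZ74
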