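import Pool.Agent.W_7742k_h74.AZet
import Pool.Agent.W_7742k_h74.BRam

/-! # A common zero free interval

`zeroFree_iff`: two functions `g` with `ZetaExt F g` agree on `(0, ∞)` (analytic on the connected set
`(0, ∞)`, equal for `σ > 1`; `AnalyticOnNhd.eqOn_of_preconnected_of_eventuallyEq`).

`zetaExt_congr`: an isomorphism `F ≃+* F'` induces a bijection between the ideals of the rings of integers
with the same norms, so `dedekindZeta F = dedekindZeta F'`.

`exists_zeroFree`: the image of `i` is a finite extension of `ℚ` in the algebraic closure, so by Galois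
theory it is the fixed field of the subgroup `H ⊇ U` of the elements which fix it; there are only
finitely many subgroups `H ⊇ U` (`U` has finite index); for every `H` let `F_H` be the field from
`exists_field`; `F ≃+* F_H` if the images of `F` and `F_H` are equal.  `g_H 1 > 0` and `g_H` is
continuous, so `g_H ≠ 0` on `(β_H, 1)` for some `β_H < 1`, `β_H ≥ 0`; take the maximum. -/

set_option autoImplicit false

noncomputable section

open scoped Classical

namespace Pool.Agent.DZ74

open NumberField IsDedekindDomain Pool.Agent.Cheb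

theorem zetaExt_unique {F : Type} [Field F] [NumberField F] {g g' : ℝ → ℝ} (h : ZetaExt F g)
    (h' : ZetaExt F g') {σ : ℝ} (hσ : 0 < σ) : g σ = g' σ := by
  have h1 : AnalyticOnNhd ℝ g (Set.Ioi 0) := fun x hx => h.1 x hx
  have h2 : AnalyticOnNhd ℝ g' (Set.Ioi 0) := fun x hx => h'.1 x hx
  have h3 : g =ᶠ[nhds 2] g' := by
    filter_upwards [lt_mem_nhds (show (1 : ℝ) < 2 by norm_num)] with x hx
    have := (h.2 x hx).trans (h'.2 x hx).symm
    exact_mod_cast this
  exact h1.eqOn_of_preconnected_of_eventuallyEq h2 isPreconnected_Ioi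
    (show (2 : ℝ) ∈ Set.Ioi 0 by norm_num) h3 hσ

theorem CExi_zeta {F F' : Type} [Field F] [NumberField F] [Field F'] [NumberField F']
    (e : F ≃+* F') (s : ℂ) : dedekindZeta F s = dedekindZeta F' s := by
  unfold dedekindZeta
  congr 1
  funext n
  congr 1
  set f : 𝓞 F ≃+* 𝓞 F' := RingOfIntegers.mapRingEquiv e with hf
  have key : ∀ I : Ideal (𝓞 F), Ideal.absNorm (Ideal.map (f : 𝓞 F →+* 𝓞 F') I) =
      Ideal.absNorm I := by
    intro I
    rw [Ideal.absNorm_apply, Ideal.absNorm_apply, Submodule.cardQuot_apply,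
      Submodule.cardQuot_apply]
    exact (Nat.card_congr (Ideal.quotientEquiv I (Ideal.map (f : 𝓞 F →+* 𝓞 F') I) f
      rfl).toEquiv).symm
  refine Nat.card_congr ?_
  refine
    { toFun := fun I => ⟨Ideal.map (f : 𝓞 F →+* 𝓞 F') I.1, (key I.1).trans I.2⟩
      invFun := fun J => ⟨Ideal.comap (f : 𝓞 F →+* 𝓞 F') J.1, ?_⟩
      left_inv := ?_
      right_inv := ?_ }
  · have h1 := key (Ideal.comap (f : 𝓞 F →+* 𝓞 F') J.1)
    have h2 := Ideal.map_comap_of_surjective (f : 𝓞 F →+* 𝓞 F') f.surjective J.1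
    exact (h1.symm.trans (congrArg Ideal.absNorm h2)).trans J.2
  · intro I
    apply Subtype.ext
    exact Ideal.comap_map_of_bijective _ f.bijective
  · intro J
    apply Subtype.ext
    exact Ideal.map_comap_of_surjective _ f.surjective _

theorem zetaExt_congr {F F' : Type} [Field F] [NumberField F] [Field F'] [NumberField F']
    (e : F ≃+* F') {g : ℝ → ℝ} (h : ZetaExt F g) : ZetaExt F' g :=
  ⟨h.1, fun σ hσ => by rw [h.2 σ hσ, CExi_zeta e]⟩

/-- Every field has a zero free interval. -/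
theorem CExi_one (F : Type) [Field F] [NumberField F] : ∃ β : ℝ, 0 ≤ β ∧ β < 1 ∧ ZeroFree F β := by
  obtain ⟨g, hg, h1⟩ := exists_zetaExt F
  have hc : ContinuousAt g 1 := (hg.1 1 one_pos).continuousAt
  have h2 : ∀ᶠ x in nhds (1 : ℝ), 0 < g x := hc.eventually (lt_mem_nhds h1)
  obtain ⟨ε, hε, h3⟩ := Metric.eventually_nhds_iff.1 h2
  refine ⟨max 0 (1 - ε), le_max_left _ _, max_lt one_pos (by linarith), ?_⟩
  intro g' hg' σ hσ1 hσ2
  have h4 : 0 < σ := lt_of_le_of_lt (le_max_left _ _) hσ1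
  rw [zetaExt_unique hg' hg h4]
  refine (h3 ?_).ne'
  rw [Real.dist_eq, abs_lt]
  have := lt_of_le_of_lt (le_max_right 0 (1 - ε)) hσ1
  constructor <;> linarith

theorem CExi_finite (U : Subgroup (AbsGal ℚ)) (hU : IsOpen (U : Set (AbsGal ℚ))) :
    {H : Subgroup (AbsGal ℚ) | U ≤ H}.Finite := by
  have hf : Finite (AbsGal ℚ ⧸ U) := Subgroup.quotient_finite_of_isOpen U hU
  have h1 : Finite (Set (AbsGal ℚ ⧸ U)) := inferInstance
  let φ : Subgroup (AbsGal ℚ) → Set (AbsGal ℚ ⧸ U) := fun H => QuotientGroup.mk '' (H : Set _)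
  have h2 : (φ '' {H : Subgroup (AbsGal ℚ) | U ≤ H}).Finite := Set.toFinite _
  refine Set.Finite.of_finite_image h2 ?_
  have h3 : ∀ H K : Subgroup (AbsGal ℚ), U ≤ K → φ H = φ K → H ≤ K := by
    intro H K hK h g hg
    have h4 : (QuotientGroup.mk g : AbsGal ℚ ⧸ U) ∈ φ H := ⟨g, hg, rfl⟩
    rw [h] at h4
    obtain ⟨k, hk, h5⟩ := h4
    have h6 : k⁻¹ * g ∈ U := QuotientGroup.eq.1 h5
    have h7 := K.mul_mem hk (hK h6)
    rwa [mul_inv_cancel_left] at h7
  intro H hH K hK h
  exact le_antisymm (h3 H K hK h) (h3 K H hH h.symm)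

theorem CExi_gal (k : Type) [Field k] [CharZero k] (L : Subfield (AlgebraicClosure k))
    (hL : ∀ q : k, algebraMap k (AlgebraicClosure k) q ∈ L) (x : AlgebraicClosure k)
    (hx : ∀ g : AbsGal k, (∀ y ∈ L, g y = y) → g x = x) : x ∈ L := by
  let K : IntermediateField k (AlgebraicClosure k) := { L with algebraMap_mem' := hL }
  have hfix : IntermediateField.fixedField K.fixingSubgroup = K :=
    InfiniteGalois.fixedField_fixingSubgroup K
  have h1 : x ∈ IntermediateField.fixedField K.fixingSubgroup := by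
    rw [IntermediateField.mem_fixedField_iff]
    intro g hg
    refine hx g fun y hy => ?_
    rw [IntermediateField.mem_fixingSubgroup_iff] at hg
    exact hg y hy
  rw [hfix] at h1
  exact h1

/-- The elements which fix the image of `i`. -/
def CExi_H {F : Type} [Field F] (i : F →+* AlgebraicClosure ℚ) : Subgroup (AbsGal ℚ) where
  carrier := {g | ∀ a : F, g (i a) = i a}
  one_mem' := fun _ => rfl
  mul_mem' := fun {g h} hg hh a => by
    rw [AlgEquiv.mul_apply, hh a, hg a]
  inv_mem' := fun {g} hg a => by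
    have h1 := hg a
    have h2 : g⁻¹ (g (i a)) = i a := g.symm_apply_apply (i a)
    rwa [h1] at h2

theorem CExi_fixed {F : Type} [Field F] (i : F →+* AlgebraicClosure ℚ) :
    IsFixedBy i (CExi_H i) := by
  intro x
  constructor
  · rintro ⟨a, rfl⟩ g hg
    exact hg a
  · intro h
    have h1 : x ∈ i.fieldRange := by
      refine CExi_gal ℚ i.fieldRange (fun q => ?_) x fun g hg => h g fun a => hg (i a) ⟨a, rfl⟩
      exact ⟨(q : F), (map_ratCast i q).trans (eq_ratCast _ q).symm⟩
    exact h1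

theorem exists_zeroFree (U : Subgroup (AbsGal ℚ)) [U.Normal]
    (hU : IsOpen (U : Set (AbsGal ℚ))) : ∃ β₀ : ℝ, 0 ≤ β₀ ∧ β₀ < 1 ∧
      ∀ (F : Type) [Field F] [NumberField F] (i : F →+* AlgebraicClosure ℚ),
        (∀ g ∈ U, ∀ a : F, g (i a) = i a) → ZeroFree F β₀ := by
  have hex : ∀ H : Subgroup (AbsGal ℚ), ∃ β : ℝ, 0 ≤ β ∧ β < 1 ∧ (U ≤ H →
      ∃ (F : Type) (_ : Field F) (_ : NumberField F) (i : F →+* AlgebraicClosure ℚ),
        IsFixedBy i H ∧ ZeroFree F β) := by
    intro H
    by_cases hH : U ≤ H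
    · obtain ⟨F, h1, h2, i, h3⟩ := exists_field H (Subgroup.isOpen_mono hH hU)
      obtain ⟨β, h4, h5, h6⟩ := CExi_one F
      exact ⟨β, h4, h5, fun _ => ⟨F, h1, h2, i, h3, h6⟩⟩
    · exact ⟨0, le_refl _, one_pos, fun h => absurd h hH⟩
  choose β hβ0 hβ1 hβ using hex
  have hfin := CExi_finite U hU
  set T := hfin.toFinset with hT
  have hTm : ∀ H, H ∈ T ↔ U ≤ H := fun H => by rw [hT, Set.Finite.mem_toFinset]; rfl
  have hTne : T.Nonempty := ⟨U, (hTm U).2 le_rfl⟩
  refine ⟨T.sup' hTne β, ?_, ?_, ?_⟩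
  · exact (hβ0 U).trans (Finset.le_sup' β ((hTm U).2 le_rfl))
  · rw [Finset.sup'_lt_iff]
    exact fun H _ => hβ1 H
  · intro F _ _ i hi
    have hUH : U ≤ CExi_H i := fun g hg => hi g hg
    obtain ⟨F', h1, h2, i', h3, h4⟩ := hβ (CExi_H i) hUH
    have hran : i'.fieldRange = i.fieldRange := by
      ext x
      have e1 : x ∈ i'.fieldRange ↔ x ∈ Set.range i' := Iff.rfl
      have e2 : x ∈ i.fieldRange ↔ x ∈ Set.range i := Iff.rfl
      rw [e1, h3 x, e2, CExi_fixed i x]
    let e : F' ≃+* F :=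
      ((RingHom.rangeRestrictFieldEquiv i').trans (RingEquiv.subfieldCongr hran)).trans
        (RingHom.rangeRestrictFieldEquiv i).symm
    intro g hg σ hσ1 hσ2
    have h5 : β (CExi_H i) ≤ T.sup' hTne β := Finset.le_sup' β ((hTm _).2 hUH)
    exact h4 g (zetaExt_congr e.symm hg) σ (lt_of_le_of_lt h5 hσ1) hσ2

end Pool.Agent.DZ74
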