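import Mathlib

/-! # Laplace transforms are real analytic

As `analytic_lap` in `W_7742x_h74/PSca.lean`: with `μ' = μ.withDensity u` the function is the moment
generating function of `X`, which is real analytic in the interior of its domain. -/

set_option autoImplicit false

noncomputable section

namespace Pool.Agent.DZ74

open MeasureTheory Set
open scoped ENNReal

theorem lap_analytic {α : Type} [MeasurableSpace α] (μ : Measure α) [SFinite μ] {u : α → ℝ≥0∞}
    (hu : Measurable u) {X : α → ℝ} (hX : Measurable X) {a b : ℝ}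
    (hfin : ∀ σ ∈ Ioo a b, ∫⁻ x, u x * ENNReal.ofReal (Real.exp (σ * X x)) ∂μ ≠ ∞) :
    ∀ σ ∈ Ioo a b, AnalyticAt ℝ
      (fun σ : ℝ => (∫⁻ x, u x * ENNReal.ofReal (Real.exp (σ * X x)) ∂μ).toReal) σ := by
  obtain ⟨ν, hν⟩ : ∃ ν : Measure α, ν = μ.withDensity u := ⟨_, rfl⟩
  have hE : ∀ σ : ℝ, Measurable fun x : α => Real.exp (σ * X x) := fun σ =>
    Real.measurable_exp.comp (measurable_const.mul hX)
  have h1 : ∀ σ : ℝ, ∫⁻ x, ENNReal.ofReal (Real.exp (σ * X x)) ∂ν =
      ∫⁻ x, u x * ENNReal.ofReal (Real.exp (σ * X x)) ∂μ := by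
    intro σ
    rw [hν, lintegral_withDensity_eq_lintegral_mul _ hu (hE σ).ennreal_ofReal]
    rfl
  have h2 : (fun σ : ℝ => (∫⁻ x, u x * ENNReal.ofReal (Real.exp (σ * X x)) ∂μ).toReal) =
      ProbabilityTheory.mgf X ν := by
    funext σ
    rw [ProbabilityTheory.mgf, integral_eq_lintegral_of_nonneg_ae
      (Filter.Eventually.of_forall fun x => (Real.exp_pos _).le) (hE σ).aestronglyMeasurable, h1]
  intro σ hσ
  rw [h2]
  apply ProbabilityTheory.analyticAt_mgf
  have h3 : Ioo a b ⊆ ProbabilityTheory.integrableExpSet X ν := by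
    intro τ hτ
    show Integrable (fun x : α => Real.exp (τ * X x)) ν
    refine ⟨(hE τ).aestronglyMeasurable, ?_⟩
    rw [hasFiniteIntegral_iff_ofReal (Filter.Eventually.of_forall fun x => (Real.exp_pos _).le),
      h1]
    exact lt_top_iff_ne_top.2 (hfin τ hτ)
  exact interior_maximal h3 isOpen_Ioo hσ

end Pool.Agent.DZ74
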