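import Pool.Agent.W_7742k_h74.AHom
import Pool.Agent.W_7742k_h74.ALap

/-! # The constant `CC`

`CC σ = ∫_c ∫_{t > 0} exp (-π t² ∑_w exp (2 yl c w)) t ^ (n σ - 1)`.  With `u = log t` and
`x_w = u + yl c w` we have `n u = ∑_w mult w x_w` (`sum_yl`, `n = ∑ mult w`), so the integrand is
`∏_w ψ_w (x_w)`, `ψ_w (x) = exp (-π exp (2 x)) exp (mult w σ x)`, and `(u, c) ↦ x` is a linear
isomorphism `ℝ × ℝ^r → ℝ^places` (injective by `sum_yl` and `coord_sc` or directly; the dimensions
agree).  So `CC σ` is a constant times `∏_w ∫ ψ_w`, finite for `σ > 0`.  It is not zero since the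
integrand is positive.  Analytic: `lap_analytic` on `(Fin r → ℝ) × ℝ`, `X = n log t`.

In the proof of the finiteness the change of variables is not needed: `ψ_w x ≤ C exp (-σ |x|)` and an
injective linear map is bounded below. -/

set_option autoImplicit false

noncomputable section

open scoped Classical

namespace Pool.Agent.DZ74

open MeasureTheory Set NumberField NumberField.mixedEmbedding NumberField.Units
open Pool.Agent.Cheb
open scoped ENNReal nonZeroDivisors

/-- The substitution `t = exp s`. -/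
theorem ACon_exp (f : ℝ → ℝ≥0∞) :
    ∫⁻ t in Ioi (0 : ℝ), f t = ∫⁻ s : ℝ, ENNReal.ofReal (Real.exp s) * f (Real.exp s) := by
  have h := lintegral_image_eq_lintegral_abs_deriv_mul (s := (univ : Set ℝ)) (f := Real.exp)
    (f' := Real.exp) MeasurableSet.univ (fun x _ => (Real.hasDerivAt_exp x).hasDerivWithinAt)
    Real.exp_injective.injOn f
  rw [image_univ, Real.range_exp, Measure.restrict_univ] at h
  rw [h]
  exact lintegral_congr fun s => by rw [abs_of_pos (Real.exp_pos s)]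

/-- `exp (-b ‖x‖)` is integrable. -/
theorem ACon_int {E : Type} [NormedAddCommGroup E] [NormedSpace ℝ E] [FiniteDimensional ℝ E]
    [MeasurableSpace E] [BorelSpace E] (μ : Measure E) [μ.IsAddHaarMeasure] {b : ℝ} (hb : 0 < b) :
    ∫⁻ x : E, ENNReal.ofReal (Real.exp (-(b * ‖x‖))) ∂μ ≠ ∞ := by
  set k : ℕ := Module.finrank ℝ E + 1 with hk
  have hfin : (∫⁻ x : E, ENNReal.ofReal ((1 + ‖x‖) ^ (-(k : ℝ))) ∂μ) < ∞ :=
    finite_integral_one_add_norm (by rw [hk]; push_cast; linarith)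
  set A : ℝ := (k.factorial : ℝ) * Real.exp b / b ^ k with hA
  have hA0 : 0 ≤ A := by positivity
  have hle : ∀ x : E, Real.exp (-(b * ‖x‖)) ≤ A * (1 + ‖x‖) ^ (-(k : ℝ)) := by
    intro x
    have hx : 0 < 1 + ‖x‖ := by positivity
    have h1 := Real.pow_div_factorial_le_exp (x := b * (1 + ‖x‖)) (by positivity) k
    have h2 : Real.exp (b * (1 + ‖x‖)) = Real.exp b * Real.exp (b * ‖x‖) := by
      rw [← Real.exp_add]
      congr 1
      ring
    rw [h2, mul_pow, div_le_iff₀ (by positivity)] at h1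
    rw [Real.rpow_neg hx.le, Real.rpow_natCast, Real.exp_neg, hA, ← div_eq_mul_inv,
      inv_le_comm₀ (Real.exp_pos _) (by positivity), inv_div, div_le_iff₀ (by positivity)]
    rw [mul_div_assoc', le_div_iff₀ (by positivity)]
    calc (1 + ‖x‖) ^ k * b ^ k = b ^ k * (1 + ‖x‖) ^ k := by ring
      _ ≤ Real.exp b * Real.exp (b * ‖x‖) * (k.factorial : ℝ) := h1
      _ = Real.exp (b * ‖x‖) * ((k.factorial : ℝ) * Real.exp b) := by ring
  refine ne_top_of_le_ne_top (b := ENNReal.ofReal A *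
    ∫⁻ x : E, ENNReal.ofReal ((1 + ‖x‖) ^ (-(k : ℝ))) ∂μ)
    (ENNReal.mul_ne_top ENNReal.ofReal_ne_top hfin.ne) ?_
  rw [← lintegral_const_mul' _ _ ENNReal.ofReal_ne_top]
  refine lintegral_mono fun x => ?_
  rw [← ENNReal.ofReal_mul hA0]
  exact ENNReal.ofReal_le_ofReal (hle x)

/-- The bound of one factor. -/
theorem ACon_one {σ : ℝ} (hσ : 0 < σ) {m : ℝ} (hm : 1 ≤ m) (x : ℝ) :
    -(Real.pi * Real.exp x ^ 2) + σ * (m * x) ≤ (σ * m + σ) ^ 2 - σ * |x| := by
  rcases le_total x 0 with hx | hx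
  · rw [abs_of_nonpos hx]
    have h1 : 0 ≤ Real.pi * Real.exp x ^ 2 := by positivity
    have h2 : 0 ≤ σ * (m - 1) * (-x) :=
      mul_nonneg (mul_nonneg hσ.le (by linarith)) (by linarith)
    nlinarith [sq_nonneg (σ * m + σ)]
  · rw [abs_of_nonneg hx]
    have h1 : x ≤ Real.exp x := by
      have := Real.add_one_le_exp x
      linarith
    have h2 : x ^ 2 ≤ Real.exp x ^ 2 := pow_le_pow_left₀ hx h1 2
    have h3 : Real.exp x ^ 2 ≤ Real.pi * Real.exp x ^ 2 := by
      have := Real.pi_gt_three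
      nlinarith [sq_nonneg (Real.exp x)]
    nlinarith [sq_nonneg (x - (σ * m + σ)), sq_nonneg (σ * m + σ), sq_nonneg x,
      sq_nonneg (x - 2 * (σ * m + σ))]

variable (F : Type) [Field F] [NumberField F]

theorem ACon_lc_smul (a : ℝ) (c : Fin (Units.rank F) → ℝ) : lc F (a • c) = a • lc F c := by
  unfold lc
  rw [Finset.smul_sum]
  exact Finset.sum_congr rfl fun i _ => by rw [Pi.smul_apply, smul_smul, smul_eq_mul]

theorem ACon_yl_smul (a : ℝ) (c : Fin (Units.rank F) → ℝ) (w : InfinitePlace F) :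
    yl F (a • c) w = a * yl F c w := by
  unfold yl
  rw [ACon_lc_smul]
  by_cases h : w = dirichletUnitTheorem.w₀
  · rw [dif_pos h, dif_pos h, ← mul_div_assoc]
    congr 1
    simp only [Pi.smul_apply, smul_eq_mul, ← Finset.mul_sum]
    ring
  · rw [dif_neg h, dif_neg h, Pi.smul_apply, smul_eq_mul, mul_div_assoc]

/-- The linear map `(c, s) ↦ s + yl c`. -/
def ACon_L : ((Fin (Units.rank F) → ℝ) × ℝ) →ₗ[ℝ] (InfinitePlace F → ℝ) where
  toFun p := fun w => p.2 + yl F p.1 w
  map_add' p q := by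
    funext w
    simp only [Prod.fst_add, Prod.snd_add, Pi.add_apply, yl_add]
    ring
  map_smul' a p := by
    funext w
    simp only [Prod.smul_fst, Prod.smul_snd, Pi.smul_apply, smul_eq_mul, ACon_yl_smul,
      RingHom.id_apply]
    ring

theorem ACon_L_apply (p : (Fin (Units.rank F) → ℝ) × ℝ) (w : InfinitePlace F) :
    ACon_L F p w = p.2 + yl F p.1 w := rfl

theorem ACon_sum (s : ℝ) (c : Fin (Units.rank F) → ℝ) :
    ∑ w : InfinitePlace F, (w.mult : ℝ) * (s + yl F c w) = (Module.finrank ℚ F : ℝ) * s := by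
  have h2 : ∑ w : InfinitePlace F, (w.mult : ℝ) = Module.finrank ℚ F := by
    exact_mod_cast InfinitePlace.sum_mult_eq (K := F)
  simp only [mul_add, Finset.sum_add_distrib, sum_yl, add_zero]
  rw [← Finset.sum_mul, h2]

theorem ACon_ker : LinearMap.ker (ACon_L F) = ⊥ := by
  rw [LinearMap.ker_eq_bot']
  intro p hp
  have hn : (Module.finrank ℚ F : ℝ) ≠ 0 := Nat.cast_ne_zero.2 Module.finrank_pos.ne'
  have h0 : ∀ w, p.2 + yl F p.1 w = 0 := fun w => by
    rw [← ACon_L_apply, hp, Pi.zero_apply]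
  have hs : p.2 = 0 := by
    have h1 := ACon_sum F p.2 p.1
    rw [Finset.sum_eq_zero fun w _ => by rw [h0 w, mul_zero]] at h1
    rcases mul_eq_zero.1 h1.symm with h | h
    · exact absurd h hn
    · exact h
  have hy : ∀ w, yl F p.1 w = 0 := fun w => by
    have := h0 w
    rw [hs, zero_add] at this
    exact this
  have hl : lc F p.1 = 0 := by
    funext v
    have hv : ((v : InfinitePlace F).mult : ℝ) ≠ 0 := by
      exact_mod_cast InfinitePlace.mult_ne_zero
    have h3 := hy v.1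
    unfold yl at h3
    rw [dif_neg v.2, div_eq_zero_iff] at h3
    exact h3.resolve_right hv
  have hc : p.1 = 0 := by
    funext i
    have h4 : (PhiB_bas F).repr (lc F p.1) i = p.1 i := by
      unfold lc
      rw [(PhiB_bas F).repr_sum_self]
    rw [← h4, hl, map_zero]
    rfl
  exact Prod.ext hc hs

/-- The sum of the squares of the scaling factors. -/
def ACon_Q (c : Fin (Units.rank F) → ℝ) : ℝ := ∑ w, Real.exp (yl F c w) ^ 2

theorem ACon_Q_eq (c : Fin (Units.rank F) → ℝ) :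
    qf (sc (yl F c) ((fun _ => 1, fun _ => 1) : mixedSpace F)) = ACon_Q F c := by
  rw [qf_eq]
  unfold ACon_Q
  refine Finset.sum_congr rfl fun w _ => ?_
  rw [normAtPlace_sc]
  have h1 : normAtPlace w ((fun _ => 1, fun _ => 1) : mixedSpace F) = 1 := by
    have := normAtPlace_real (K := F) w 1
    rw [abs_one] at this
    convert this using 2
    ext <;> simp
  rw [h1, mul_one]

theorem ACon_Q_cont : Continuous (ACon_Q F) :=
  continuous_finsetSum _ fun w _ => (Real.continuous_exp.comp (yl_continuous w)).pow 2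

/-- The exponent of the integrand. -/
def ACon_e (σ : ℝ) (p : (Fin (Units.rank F) → ℝ) × ℝ) : ℝ :=
  -(Real.pi * (Real.exp p.2 ^ 2 * ACon_Q F p.1)) + σ * ((Module.finrank ℚ F : ℝ) * p.2)

theorem ACon_e_cont (σ : ℝ) : Continuous (ACon_e F σ) := by
  have h := (ACon_Q_cont F).comp (continuous_fst (X := Fin (Units.rank F) → ℝ) (Y := ℝ))
  have h2 : Continuous fun p : (Fin (Units.rank F) → ℝ) × ℝ => Real.exp p.2 :=
    Real.continuous_exp.comp continuous_snd
  exact ((continuous_const.mul ((h2.pow 2).mul h)).neg).add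
    (continuous_const.mul (continuous_const.mul continuous_snd))

theorem ACon_cc (σ : ℝ) : CC F σ = ∫⁻ c : Fin (Units.rank F) → ℝ, ∫⁻ s : ℝ,
    ENNReal.ofReal (Real.exp (ACon_e F σ (c, s))) := by
  unfold CC HH GG
  refine lintegral_congr fun c => ?_
  rw [ACon_exp]
  refine lintegral_congr fun s => ?_
  rw [← ENNReal.ofReal_mul (Real.exp_pos _).le, ACon_Q_eq]
  congr 1
  unfold ACon_e
  rw [← Real.exp_mul, ← Real.exp_add, ← Real.exp_add]
  congr 1
  ring

theorem ACon_cc_prod (σ : ℝ) : CC F σ = ∫⁻ p : (Fin (Units.rank F) → ℝ) × ℝ,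
    ENNReal.ofReal (Real.exp (ACon_e F σ p)) ∂(volume.prod volume) := by
  rw [ACon_cc, lintegral_prod]
  exact ((Real.continuous_exp.comp (ACon_e_cont F σ)).measurable.ennreal_ofReal).aemeasurable

theorem ACon_bound {σ : ℝ} (hσ : 0 < σ) : ∃ C b : ℝ, 0 < b ∧
    ∀ p : (Fin (Units.rank F) → ℝ) × ℝ, ACon_e F σ p ≤ C + (-(b * ‖p.1‖) + -(b * ‖p.2‖)) := by
  obtain ⟨K, hK, hL⟩ := (ACon_L F).exists_antilipschitzWith (ACon_ker F)
  refine ⟨∑ w : InfinitePlace F, (σ * (w.mult : ℝ) + σ) ^ 2, σ / (2 * K), by positivity,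
    fun p => ?_⟩
  have hKr : (0 : ℝ) < K := hK
  have h1 : ACon_e F σ p = ∑ w, (-(Real.pi * Real.exp (ACon_L F p w) ^ 2) +
      σ * ((w.mult : ℝ) * ACon_L F p w)) := by
    rw [Finset.sum_add_distrib, ← Finset.mul_sum]
    simp only [ACon_L_apply]
    rw [ACon_sum]
    unfold ACon_e ACon_Q
    congr 1
    rw [Finset.sum_neg_distrib, ← Finset.mul_sum, Finset.mul_sum]
    congr 2
    refine Finset.sum_congr rfl fun w _ => ?_
    rw [Real.exp_add, mul_pow]
  have h2 : ACon_e F σ p ≤ ∑ w : InfinitePlace F, ((σ * (w.mult : ℝ) + σ) ^ 2 -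
      σ * |ACon_L F p w|) := by
    rw [h1]
    refine Finset.sum_le_sum fun w _ => ACon_one hσ ?_ _
    exact_mod_cast InfinitePlace.mult_pos (w := w)
  have h3 : ‖ACon_L F p‖ ≤ ∑ w : InfinitePlace F, |ACon_L F p w| := by
    rw [pi_norm_le_iff_of_nonneg (Finset.sum_nonneg fun w _ => abs_nonneg _)]
    intro w
    rw [Real.norm_eq_abs]
    exact Finset.single_le_sum (f := fun w => |ACon_L F p w|) (fun w _ => abs_nonneg _)
      (Finset.mem_univ w)
  have h4 : ‖p‖ ≤ K * ‖ACon_L F p‖ := by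
    have := hL.le_mul_dist p 0
    rwa [map_zero, dist_zero_right, dist_zero_right] at this
  have h5 : ‖p.1‖ ≤ ‖p‖ := norm_fst_le p
  have h6 : ‖p.2‖ ≤ ‖p‖ := norm_snd_le p
  rw [Finset.sum_sub_distrib, ← Finset.mul_sum] at h2
  have h7 : σ / (2 * K) * ‖p.1‖ + σ / (2 * K) * ‖p.2‖ ≤
      σ * ∑ w : InfinitePlace F, |ACon_L F p w| := by
    calc σ / (2 * K) * ‖p.1‖ + σ / (2 * K) * ‖p.2‖ = σ / (2 * K) * (‖p.1‖ + ‖p.2‖) := by ring
      _ ≤ σ / (2 * K) * (2 * (K * ∑ w : InfinitePlace F, |ACon_L F p w|)) := by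
          refine mul_le_mul_of_nonneg_left ?_ (by positivity)
          have := mul_le_mul_of_nonneg_left h3 hKr.le
          linarith
      _ = σ * ∑ w : InfinitePlace F, |ACon_L F p w| := by
          field_simp
  linarith

theorem cc_ne_top {σ : ℝ} (hσ : 0 < σ) : CC F σ ≠ ∞ := by
  obtain ⟨C, b, hb, hle⟩ := ACon_bound F hσ
  have h1 := ACon_int (volume : Measure (Fin (Units.rank F) → ℝ)) hb
  have h2 := ACon_int (volume : Measure ℝ) hb
  rw [ACon_cc]
  refine ne_top_of_le_ne_top (b := ∫⁻ c : Fin (Units.rank F) → ℝ, ∫⁻ s : ℝ,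
    ENNReal.ofReal (Real.exp C) * ENNReal.ofReal (Real.exp (-(b * ‖c‖))) *
      ENNReal.ofReal (Real.exp (-(b * ‖s‖)))) ?_ ?_
  · have h3 : ∀ c : Fin (Units.rank F) → ℝ, ∫⁻ s : ℝ,
        ENNReal.ofReal (Real.exp C) * ENNReal.ofReal (Real.exp (-(b * ‖c‖))) *
        ENNReal.ofReal (Real.exp (-(b * ‖s‖))) =
        ENNReal.ofReal (Real.exp C) * ENNReal.ofReal (Real.exp (-(b * ‖c‖))) *
        ∫⁻ s : ℝ, ENNReal.ofReal (Real.exp (-(b * ‖s‖))) := fun c =>
      lintegral_const_mul' _ _ (ENNReal.mul_ne_top ENNReal.ofReal_ne_top ENNReal.ofReal_ne_top)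
    rw [lintegral_congr h3, lintegral_mul_const' _ _ h2,
      lintegral_const_mul' _ _ ENNReal.ofReal_ne_top]
    exact ENNReal.mul_ne_top (ENNReal.mul_ne_top ENNReal.ofReal_ne_top h1) h2
  · refine lintegral_mono fun c => lintegral_mono fun s => ?_
    rw [← ENNReal.ofReal_mul (Real.exp_pos _).le, ← ENNReal.ofReal_mul (by positivity),
      ← Real.exp_add, ← Real.exp_add]
    refine ENNReal.ofReal_le_ofReal (Real.exp_le_exp.2 ?_)
    have h4 : ACon_e F σ (c, s) ≤ C + (-(b * ‖c‖) + -(b * ‖s‖)) := hle (c, s)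
    linarith

theorem cc_ne_zero (σ : ℝ) : CC F σ ≠ 0 := by
  rw [ACon_cc_prod]
  intro h
  have hm : Measurable fun p : (Fin (Units.rank F) → ℝ) × ℝ =>
      ENNReal.ofReal (Real.exp (ACon_e F σ p)) :=
    (Real.continuous_exp.comp (ACon_e_cont F σ)).measurable.ennreal_ofReal
  rw [lintegral_eq_zero_iff hm] at h
  have h1 : ∀ᵐ p : (Fin (Units.rank F) → ℝ) × ℝ ∂((volume : Measure
      (Fin (Units.rank F) → ℝ)).prod (volume : Measure ℝ)), False := by
    filter_upwards [h] with p hp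
    rw [Pi.zero_apply, ENNReal.ofReal_eq_zero] at hp
    exact absurd (Real.exp_pos _) (not_lt.2 hp)
  rw [Filter.eventually_false_iff_eq_bot, ae_eq_bot] at h1
  have h2 : ((volume : Measure (Fin (Units.rank F) → ℝ)).prod (volume : Measure ℝ)) univ = 0 := by
    rw [h1]
    rfl
  rw [← univ_prod_univ, Measure.prod_prod, mul_eq_zero] at h2
  rcases h2 with h2 | h2
  · exact (isOpen_univ.measure_ne_zero (volume : Measure (Fin (Units.rank F) → ℝ))
      univ_nonempty) h2
  · exact (isOpen_univ.measure_ne_zero (volume : Measure ℝ) univ_nonempty) h2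

theorem cc_analytic {σ : ℝ} (hσ : 0 < σ) : AnalyticAt ℝ (fun σ => (CC F σ).toReal) σ := by
  have h1 : ∀ τ : ℝ, CC F τ = ∫⁻ p : (Fin (Units.rank F) → ℝ) × ℝ,
      ENNReal.ofReal (Real.exp (ACon_e F 0 p)) *
        ENNReal.ofReal (Real.exp (τ * ((Module.finrank ℚ F : ℝ) * p.2))) ∂(volume.prod volume) := by
    intro τ
    rw [ACon_cc_prod]
    refine lintegral_congr fun p => ?_
    rw [← ENNReal.ofReal_mul (Real.exp_pos _).le, ← Real.exp_add]
    congr 2
    unfold ACon_e
    ring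
  simp_rw [h1]
  refine lap_analytic (volume.prod volume)
    (Real.continuous_exp.comp (ACon_e_cont F 0)).measurable.ennreal_ofReal
    (X := fun p : (Fin (Units.rank F) → ℝ) × ℝ => (Module.finrank ℚ F : ℝ) * p.2)
    (measurable_const.mul measurable_snd) (a := 0) (b := σ + 1) ?_ σ ⟨hσ, by linarith⟩
  intro τ hτ
  have h2 := cc_ne_top F hτ.1
  rw [h1] at h2
  exact h2

end Pool.Agent.DZ74
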