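import Pool.Agent.Chebotarev_h15.DefsB
import Pool.Agent.Chebotarev_h15.PhiB
import Pool.Agent.W_7742x_h74.PPoi

/-! # The Dedekind zeta function on the positive real axis: definitions

`F` is a number field, `r` the rank of its units.  For `c : Fin r → ℝ` let `yl c w`, `w` an infinite
place, be the logarithm of the scaling factor: `c ↦ (mult w * yl c w)` is the parametrization of the
hyperplane `∑ mult w * y w = 0` by the coordinates in the basis of the lattice of the units
(`PhiB_bas`; `coord F x` are the coordinates of `logMap x` in this basis).  `sc u x` is the point `x`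
of the mixed space with the coordinate at `w` multiplied by `exp (u w)`.  So `coord F (sc (yl c) x) =
coord F x + c`. -/

set_option autoImplicit false

noncomputable section

open scoped Classical

namespace Pool.Agent.DZ74

open MeasureTheory Set NumberField NumberField.mixedEmbedding NumberField.Units
open Pool.Agent.Cheb Pool.Agent.GL74
open scoped ENNReal nonZeroDivisors

variable (F : Type) [Field F] [NumberField F]

/-- The point of the log space with coordinates `c`. -/
def lc (c : Fin (Units.rank F) → ℝ) : dirichletUnitTheorem.logSpace F :=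
  ∑ i, c i • PhiB_bas F i

/-- The logarithm of the scaling factor at the place `w`. -/
def yl (c : Fin (Units.rank F) → ℝ) (w : InfinitePlace F) : ℝ :=
  if h : w = dirichletUnitTheorem.w₀ then -(∑ v, lc F c v) / (w.mult : ℝ)
  else lc F c ⟨w, h⟩ / (w.mult : ℝ)

variable {F}

/-- The coordinate at `w` is multiplied by `exp (u w)`. -/
def sc (u : InfinitePlace F → ℝ) (x : mixedSpace F) : mixedSpace F :=
  (fun w => Real.exp (u w.1) * x.1 w, fun w => (Real.exp (u w.1) : ℂ) * x.2 w)

/-- The sum of the squares of the absolute values of the coordinates. -/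
def qf (x : mixedSpace F) : ℝ := ∑ w, x.1 w ^ 2 + ∑ w, ‖x.2 w‖ ^ 2

/-- The Mellin transform of the Gauss function at `x`. -/
def GG (σ : ℝ) (x : mixedSpace F) : ℝ≥0∞ :=
  ∫⁻ t in Ioi (0 : ℝ), ENNReal.ofReal (Real.exp (-(Real.pi * (t ^ 2 * qf x))) *
    t ^ ((Module.finrank ℚ F : ℝ) * σ - 1))

/-- The integral over all scalings. -/
def HH (σ : ℝ) (x : mixedSpace F) : ℝ≥0∞ :=
  ∫⁻ c : Fin (Units.rank F) → ℝ, GG σ (sc (yl F c) x)

variable (F)

/-- The value at the point with all coordinates `1`. -/
def CC (σ : ℝ) : ℝ≥0∞ := HH (F := F) σ (fun _ => 1, fun _ => 1)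

/-- The sum over the nonzero elements of an ideal, modulo the units by the weight `phi`. -/
def SJ (J : (Ideal (𝓞 F))⁰) (σ : ℝ) : ℝ :=
  ∑' a : Pts J, phi F (mixedEmbedding F (a.1 : F)) *
    (mixedEmbedding.norm (mixedEmbedding F (a.1 : F))) ^ (-σ)

/-- `g` is analytic for positive arguments and `g σ = (σ - 1) ζ_F(σ)` for `σ > 1`. -/
def ZetaExt (g : ℝ → ℝ) : Prop :=
  (∀ σ : ℝ, 0 < σ → AnalyticAt ℝ g σ) ∧
    ∀ σ : ℝ, 1 < σ → (g σ : ℂ) = ((σ : ℂ) - 1) * dedekindZeta F (σ : ℂ)

/-- The Dedekind zeta function of `F` has no zeros in the interval `(β, 1)`. -/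
def ZeroFree (β : ℝ) : Prop :=
  ∀ g : ℝ → ℝ, ZetaExt F g → ∀ σ : ℝ, β < σ → σ < 1 → g σ ≠ 0

end Pool.Agent.DZ74
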