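import Pool.Agent.W_7742k_h74.ADef

/-! # Scalings

`normAtPlace w (sc u x) = exp (u w) normAtPlace w x`, `qf x = ∑ (normAtPlace w x)²`,
`logMap x w = mult w (log (normAtPlace w x) - log (norm x) / n)`; so `logMap (sc (yl c) x) =
logMap x + lc c` and `coord (sc (yl c) x) = coord x + c`.

`hh_eq`: let `ν = norm x`, `c' i = - coord F x i`, so `yl c' w = -(log (normAtPlace w x) - log ν / n)`
for all `w` (also `w₀`, since `∑ mult w (log (normAtPlace w x) - log ν / n) = 0`).  Then
`qf (sc (yl c) x) = ν ^ (2/n) qf (sc (yl (c - c')) 1)`, `GG σ (sc (yl c) x) = ν ^ (-σ) GG σ (sc (yl (c - c')) 1)`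
(substitute `t ↦ ν ^ (-1/n) t`), and the integral over `c` is translation invariant. -/

set_option autoImplicit false

noncomputable section

open scoped Classical

namespace Pool.Agent.DZ74

open MeasureTheory Set NumberField NumberField.mixedEmbedding NumberField.Units
open Pool.Agent.Cheb
open scoped ENNReal nonZeroDivisors

variable {F : Type} [Field F] [NumberField F]

theorem sum_yl (c : Fin (Units.rank F) → ℝ) : ∑ w, (w.mult : ℝ) * yl F c w = 0 := by
  rw [Fintype.sum_eq_add_sum_subtype_ne _ dirichletUnitTheorem.w₀]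
  have hm : ((dirichletUnitTheorem.w₀ : InfinitePlace F).mult : ℝ) ≠ 0 := by
    exact_mod_cast InfinitePlace.mult_ne_zero
  have h1 : ((dirichletUnitTheorem.w₀ : InfinitePlace F).mult : ℝ) *
      yl F c dirichletUnitTheorem.w₀ = -(∑ v, lc F c v) := by
    unfold yl
    rw [dif_pos rfl, mul_div_cancel₀ _ hm]
  have h2 : ∀ v : {w : InfinitePlace F // w ≠ dirichletUnitTheorem.w₀},
      ((v : InfinitePlace F).mult : ℝ) * yl F c v = lc F c v := by
    intro v
    have hv : ((v : InfinitePlace F).mult : ℝ) ≠ 0 := by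
      exact_mod_cast InfinitePlace.mult_ne_zero
    unfold yl
    rw [dif_neg v.2, mul_div_cancel₀ _ hv]
  rw [h1, Finset.sum_congr rfl fun v _ => h2 v]
  exact neg_add_cancel _

theorem lc_add (c c' : Fin (Units.rank F) → ℝ) : lc F (c + c') = lc F c + lc F c' := by
  unfold lc
  rw [← Finset.sum_add_distrib]
  exact Finset.sum_congr rfl fun i _ => by rw [Pi.add_apply, add_smul]

theorem yl_add (c c' : Fin (Units.rank F) → ℝ) (w : InfinitePlace F) :
    yl F (c + c') w = yl F c w + yl F c' w := by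
  unfold yl
  rw [lc_add]
  by_cases h : w = dirichletUnitTheorem.w₀
  · rw [dif_pos h, dif_pos h, dif_pos h, ← add_div]
    congr 1
    simp only [Pi.add_apply, Finset.sum_add_distrib]
    ring
  · rw [dif_neg h, dif_neg h, dif_neg h, ← add_div]
    rfl

theorem lc_continuous : Continuous fun c : Fin (Units.rank F) → ℝ => lc F c := by
  unfold lc
  exact continuous_finset_sum _ fun i _ => (continuous_apply i).smul continuous_const

theorem yl_continuous (w : InfinitePlace F) : Continuous fun c => yl F c w := by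
  unfold yl
  by_cases h : w = dirichletUnitTheorem.w₀
  · simp only [dif_pos h]
    exact ((continuous_finset_sum _ fun v _ =>
      (continuous_apply v).comp lc_continuous).neg).div_const _
  · simp only [dif_neg h]
    exact ((continuous_apply _).comp lc_continuous).div_const _

theorem normAtPlace_sc (u : InfinitePlace F → ℝ) (x : mixedSpace F) (w : InfinitePlace F) :
    normAtPlace w (sc u x) = Real.exp (u w) * normAtPlace w x := by
  rcases w.isReal_or_isComplex with hw | hw
  · rw [normAtPlace_apply_of_isReal hw, normAtPlace_apply_of_isReal hw]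
    unfold sc
    rw [norm_mul, Real.norm_of_nonneg (Real.exp_pos _).le]
  · rw [normAtPlace_apply_of_isComplex hw, normAtPlace_apply_of_isComplex hw]
    unfold sc
    rw [norm_mul, Complex.norm_real, Real.norm_of_nonneg (Real.exp_pos _).le]

theorem qf_eq (x : mixedSpace F) : qf x = ∑ w, (normAtPlace w x) ^ 2 := by
  have key : ∀ f : InfinitePlace F → ℝ,
      ∑ w, f w = ∑ w : {w : InfinitePlace F // w.IsReal}, f w.1 +
        ∑ w : {w : InfinitePlace F // w.IsComplex}, f w.1 := by
    intro f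
    rw [← Fintype.sum_subtype_add_sum_subtype (fun w : InfinitePlace F => w.IsReal) f]
    congr 1
    refine Fintype.sum_equiv (Equiv.subtypeEquivRight fun w => ?_) _ _ fun w => rfl
    exact InfinitePlace.not_isReal_iff_isComplex
  rw [key]
  unfold qf
  congr 1
  · refine Finset.sum_congr rfl fun w _ => ?_
    rw [normAtPlace_apply_of_isReal w.2, Real.norm_eq_abs, sq_abs]
  · refine Finset.sum_congr rfl fun w _ => ?_
    rw [normAtPlace_apply_of_isComplex w.2]

theorem norm_sc (c : Fin (Units.rank F) → ℝ) (x : mixedSpace F) :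
    mixedEmbedding.norm (sc (yl F c) x) = mixedEmbedding.norm x := by
  rw [mixedEmbedding.norm_apply, mixedEmbedding.norm_apply]
  have h1 : ∀ w : InfinitePlace F, normAtPlace w (sc (yl F c) x) ^ w.mult =
      Real.exp ((w.mult : ℝ) * yl F c w) * normAtPlace w x ^ w.mult := by
    intro w
    rw [normAtPlace_sc, mul_pow, ← Real.exp_nat_mul]
  rw [Finset.prod_congr rfl fun w _ => h1 w, Finset.prod_mul_distrib, ← Real.exp_sum, sum_yl,
    Real.exp_zero, one_mul]

theorem logMap_sc (c : Fin (Units.rank F) → ℝ) {x : mixedSpace F}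
    (hx : mixedEmbedding.norm x ≠ 0) : logMap (sc (yl F c) x) = logMap x + lc F c := by
  funext w
  rw [Pi.add_apply, logMap_apply, logMap_apply, norm_sc, normAtPlace_sc,
    Real.log_mul (Real.exp_pos _).ne' (mixedEmbedding.norm_ne_zero_iff.1 hx _), Real.log_exp]
  have hv : ((w : InfinitePlace F).mult : ℝ) ≠ 0 := by
    exact_mod_cast InfinitePlace.mult_ne_zero
  have h2 : ((w : InfinitePlace F).mult : ℝ) * yl F c w = lc F c w := by
    unfold yl
    rw [dif_neg w.2, mul_div_cancel₀ _ hv]
  rw [← h2]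
  ring

theorem coord_sc (c : Fin (Units.rank F) → ℝ) {x : mixedSpace F} (hx : mixedEmbedding.norm x ≠ 0)
    (i : Fin (Units.rank F)) : coord F (sc (yl F c) x) i = coord F x i + c i := by
  have h1 : (PhiB_bas F).repr (lc F c) i = c i := by
    unfold lc
    rw [(PhiB_bas F).repr_sum_self]
  unfold coord
  rw [logMap_sc c hx, map_add, Finsupp.add_apply]
  congr 1

theorem lc_coord (x : mixedSpace F) : lc F (coord F x) = logMap x :=
  (PhiB_bas F).sum_repr (logMap x)

theorem yl_coord {x : mixedSpace F} (hx : mixedEmbedding.norm x ≠ 0) (w : InfinitePlace F) :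
    yl F (coord F x) w = Real.log (normAtPlace w x) -
      Real.log (mixedEmbedding.norm x) * (Module.finrank ℚ F : ℝ)⁻¹ := by
  have hne : ∀ v : {w : InfinitePlace F // w ≠ dirichletUnitTheorem.w₀},
      lc F (coord F x) v = ((v : InfinitePlace F).mult : ℝ) * (Real.log (normAtPlace v.1 x) -
      Real.log (mixedEmbedding.norm x) * (Module.finrank ℚ F : ℝ)⁻¹) := by
    intro v
    rw [lc_coord, logMap_apply]
  have hm : (w.mult : ℝ) ≠ 0 := by
    exact_mod_cast InfinitePlace.mult_ne_zero
  by_cases h : w = dirichletUnitTheorem.w₀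
  · have hn : (Module.finrank ℚ F : ℝ) ≠ 0 := Nat.cast_ne_zero.2 Module.finrank_pos.ne'
    have hsum : ∑ w : InfinitePlace F, (w.mult : ℝ) * (Real.log (normAtPlace w x) -
        Real.log (mixedEmbedding.norm x) * (Module.finrank ℚ F : ℝ)⁻¹) = 0 := by
      have h1 : Real.log (mixedEmbedding.norm x) =
          ∑ w : InfinitePlace F, (w.mult : ℝ) * Real.log (normAtPlace w x) := by
        rw [mixedEmbedding.norm_apply, Real.log_prod fun w _ =>
          pow_ne_zero _ (mixedEmbedding.norm_ne_zero_iff.1 hx w)]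
        exact Finset.sum_congr rfl fun w _ => Real.log_pow _ _
      have h2 : ∑ w : InfinitePlace F, (w.mult : ℝ) = Module.finrank ℚ F := by
        exact_mod_cast InfinitePlace.sum_mult_eq (K := F)
      simp only [mul_sub, Finset.sum_sub_distrib]
      rw [← h1, ← Finset.sum_mul, h2]
      field_simp
      ring
    rw [Fintype.sum_eq_add_sum_subtype_ne _ dirichletUnitTheorem.w₀] at hsum
    unfold yl
    rw [dif_pos h, Finset.sum_congr rfl fun v _ => hne v, div_eq_iff hm, h]
    linarith
  · unfold yl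
    rw [dif_neg h, hne, mul_div_cancel_left₀ _ hm]

theorem normAtPlace_eq_exp {x : mixedSpace F} (hx : mixedEmbedding.norm x ≠ 0)
    (w : InfinitePlace F) : normAtPlace w x = Real.exp (yl F (coord F x) w) *
      Real.exp (Real.log (mixedEmbedding.norm x) * (Module.finrank ℚ F : ℝ)⁻¹) := by
  rw [yl_coord hx, ← Real.exp_add, sub_add_cancel, Real.exp_log]
  exact lt_of_le_of_ne (normAtPlace_nonneg _ _) (mixedEmbedding.norm_ne_zero_iff.1 hx w).symm

theorem qf_sc {x : mixedSpace F} (hx : mixedEmbedding.norm x ≠ 0)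
    (c : Fin (Units.rank F) → ℝ) : qf (sc (yl F c) x) =
      Real.exp (Real.log (mixedEmbedding.norm x) * (Module.finrank ℚ F : ℝ)⁻¹) ^ 2 *
      qf (sc (yl F (c + coord F x)) ((fun _ => 1, fun _ => 1) : mixedSpace F)) := by
  rw [qf_eq, qf_eq, Finset.mul_sum]
  refine Finset.sum_congr rfl fun w _ => ?_
  rw [normAtPlace_sc, normAtPlace_sc, normAtPlace_eq_exp hx w, yl_add, Real.exp_add]
  have h1 : normAtPlace w ((fun _ => 1, fun _ => 1) : mixedSpace F) = 1 := by
    have := normAtPlace_real (K := F) w 1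
    rw [abs_one] at this
    convert this using 2
    ext <;> simp
  rw [h1]
  ring

theorem lint_scale {s : ℝ} (hs : 0 < s) (f : ℝ → ℝ≥0∞) :
    ∫⁻ t in Ioi (0 : ℝ), f (s * t) = ENNReal.ofReal s⁻¹ * ∫⁻ t in Ioi (0 : ℝ), f t := by
  rw [← lintegral_indicator measurableSet_Ioi, ← lintegral_indicator measurableSet_Ioi]
  have h1 : ∀ t, (Ioi (0 : ℝ)).indicator (fun t => f (s * t)) t =
      (Ioi (0 : ℝ)).indicator f (s * t) := by
    intro t
    by_cases ht : 0 < t
    · rw [indicator_of_mem (mem_Ioi.2 ht), indicator_of_mem (mem_Ioi.2 (mul_pos hs ht))]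
    · rw [indicator_of_notMem (by simpa using ht), indicator_of_notMem]
      simp only [mem_Ioi, not_lt]
      exact mul_nonpos_of_nonneg_of_nonpos hs.le (not_lt.1 ht)
  simp_rw [h1]
  have h2 : ∫⁻ t, (Ioi (0 : ℝ)).indicator f (s * t) =
      ∫⁻ u, (Ioi (0 : ℝ)).indicator f u ∂(Measure.map (s * ·) volume) :=
    (MeasurableEmbedding.lintegral_map (measurableEmbedding_mulLeft₀ hs.ne') _).symm
  rw [h2, Real.map_volume_mul_left hs.ne', lintegral_smul_measure, abs_of_pos (inv_pos.2 hs)]
  rfl

theorem GG_scale (σ : ℝ) {x y : mixedSpace F} {s : ℝ} (hs : 0 < s) (h : qf x = s ^ 2 * qf y) :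
    GG σ x = ENNReal.ofReal (s ^ (-((Module.finrank ℚ F : ℝ) * σ))) * GG σ y := by
  unfold GG
  set a : ℝ := (Module.finrank ℚ F : ℝ) * σ with ha
  have h1 : ∫⁻ t in Ioi (0 : ℝ), ENNReal.ofReal (Real.exp (-(Real.pi * (t ^ 2 * qf x))) *
      t ^ (a - 1)) = ∫⁻ t in Ioi (0 : ℝ), ENNReal.ofReal (s ^ (1 - a)) *
      (fun u : ℝ => ENNReal.ofReal (Real.exp (-(Real.pi * (u ^ 2 * qf y))) * u ^ (a - 1)))
        (s * t) := by
    refine setLIntegral_congr_fun measurableSet_Ioi fun t ht => ?_
    have ht0 : (0 : ℝ) < t := ht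
    simp only
    rw [← ENNReal.ofReal_mul (Real.rpow_nonneg hs.le _)]
    congr 1
    rw [Real.mul_rpow hs.le ht0.le, h]
    have h3 : s ^ (1 - a) * s ^ (a - 1) = 1 := by
      rw [← Real.rpow_add hs]
      norm_num
    have h4 : s ^ (1 - a) * (Real.exp (-(Real.pi * ((s * t) ^ 2 * qf y))) *
        (s ^ (a - 1) * t ^ (a - 1))) = (s ^ (1 - a) * s ^ (a - 1)) *
        (Real.exp (-(Real.pi * ((s * t) ^ 2 * qf y))) * t ^ (a - 1)) := by ring
    rw [h4, h3, one_mul]
    congr 3
    ring
  rw [h1, lintegral_const_mul' _ _ ENNReal.ofReal_ne_top, lint_scale hs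
    (fun u : ℝ => ENNReal.ofReal (Real.exp (-(Real.pi * (u ^ 2 * qf y))) * u ^ (a - 1))),
    ← mul_assoc, ← ENNReal.ofReal_mul (Real.rpow_nonneg hs.le _)]
  congr 2
  rw [show (1 : ℝ) - a = 1 + -a by ring, Real.rpow_add hs, Real.rpow_one]
  field_simp

theorem hh_eq (σ : ℝ) {x : mixedSpace F} (hx : mixedEmbedding.norm x ≠ 0) :
    HH σ x = ENNReal.ofReal ((mixedEmbedding.norm x) ^ (-σ)) * CC F σ := by
  have hpos : 0 < mixedEmbedding.norm x :=
    lt_of_le_of_ne (mixedEmbedding.norm_nonneg _) hx.symm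
  have hn : (Module.finrank ℚ F : ℝ) ≠ 0 := Nat.cast_ne_zero.2 Module.finrank_pos.ne'
  set s : ℝ := Real.exp (Real.log (mixedEmbedding.norm x) * (Module.finrank ℚ F : ℝ)⁻¹) with hs
  have hs0 : 0 < s := Real.exp_pos _
  have h1 : s ^ (-((Module.finrank ℚ F : ℝ) * σ)) = (mixedEmbedding.norm x) ^ (-σ) := by
    rw [hs, ← Real.exp_mul, Real.rpow_def_of_pos hpos]
    congr 1
    field_simp
  have h2 : ∀ c : Fin (Units.rank F) → ℝ, GG σ (sc (yl F c) x) =
      ENNReal.ofReal ((mixedEmbedding.norm x) ^ (-σ)) *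
      (fun c' => GG σ (sc (yl F c') ((fun _ => 1, fun _ => 1) : mixedSpace F)))
        (c + coord F x) := by
    intro c
    rw [← h1]
    exact GG_scale σ hs0 (qf_sc hx c)
  unfold CC HH
  simp_rw [h2]
  rw [lintegral_const_mul' _ _ ENNReal.ofReal_ne_top]
  congr 1
  exact lintegral_add_right_eq_self
    (fun c' => GG σ (sc (yl F c') ((fun _ => 1, fun _ => 1) : mixedSpace F))) (coord F x)

end Pool.Agent.DZ74
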