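import Pool.Agent.W_7742k_h74.AHom
import Pool.Agent.W_7742x_h74.PMai

/-! # The lattice of an ideal as a family of matrices

Let `b 0, ..., b (n-1)` be a `ℤ`-basis of the ideal `J` (`n = [F : ℚ]`; for instance
`mixedEmbedding.fractionalIdealLatticeBasis` or a basis of the free `ℤ`-module `J`); its image in the mixed
space is a basis over `ℝ`.  Take the coordinates in `mixedEmbedding.stdBasis F` (indexed by `index F`,
reindexed by `Fin n`; the sum of the squares of the coordinates is `qf`).  `g c i j` is the `j`-th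
coordinate of `sc (yl F c) (b i)`: the matrix `g c` is `g 0` times the diagonal matrix of the
`exp (yl c w)`, whose determinant is `exp (∑ mult w yl c w) = 1`.  On the compact cube the diagonal
entries and their inverses are bounded, so the two lower bounds hold with some `m > 0` (`v ↦ v g 0` and
`v ↦ v (gd (g 0))` are invertible; `gd (g c)` is `gd (g 0)` times the inverse diagonal matrix). -/

set_option autoImplicit false

noncomputable section

open scoped Classical

namespace Pool.Agent.DZ74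

open MeasureTheory Set NumberField NumberField.mixedEmbedding NumberField.Units
open Pool.Agent.Cheb Pool.Agent.GL74
open scoped ENNReal nonZeroDivisors

variable (F : Type) [Field F] [NumberField F]

/-! ### The lower bound for an invertible matrix -/

/-- The linear map `v ↦ v g`. -/
def AMat_lin {n : ℕ} (g : X n) : (Fin n → ℝ) →ₗ[ℝ] (Fin n → ℝ) where
  toFun v := rv v g
  map_add' v w := by
    funext j
    simp only [rv, Pi.add_apply, add_mul, Finset.sum_add_distrib]
  map_smul' a v := by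
    funext j
    simp only [rv, Pi.smul_apply, smul_eq_mul, RingHom.id_apply, Finset.mul_sum]
    exact Finset.sum_congr rfl fun i _ => by ring

theorem AMat_inj {n : ℕ} {g : X n} (hg : dt g ≠ 0) : Function.Injective (AMat_lin g) := by
  have h1 : ∀ v, AMat_lin g v = Matrix.vecMul v (Matrix.of g) := by
    intro v
    funext j
    rfl
  intro v w h
  rw [h1, h1] at h
  have hu : IsUnit (Matrix.of g) := by
    rw [Matrix.isUnit_iff_isUnit_det]
    exact isUnit_iff_ne_zero.2 hg
  exact Matrix.vecMul_injective_of_isUnit hu h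

theorem AMat_low {n : ℕ} {g : X n} (hg : dt g ≠ 0) :
    ∃ m : ℝ, 0 < m ∧ ∀ v, m * ‖v‖ ≤ ‖rv v g‖ := by
  obtain ⟨K, hK, h⟩ := (AMat_lin g).exists_antilipschitzWith
    (LinearMap.ker_eq_bot.2 (AMat_inj hg))
  have hK' : (0 : ℝ) < K := by exact_mod_cast hK
  refine ⟨(K : ℝ)⁻¹, inv_pos.2 hK', fun v => ?_⟩
  have h1 := h.le_mul_dist v 0
  rw [map_zero, dist_zero_right, dist_zero_right] at h1
  rw [inv_mul_le_iff₀ hK']
  exact h1

/-- Multiplication of the columns by numbers bounded from below. -/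
theorem AMat_scale {n : ℕ} {g g' : X n} {d : Fin n → ℝ} (h : ∀ i j, g' i j = d j * g i j)
    {δ m : ℝ} (hδ : 0 < δ) (hd : ∀ j, δ ≤ |d j|) (hm : ∀ v, m * ‖v‖ ≤ ‖rv v g‖)
    (v : Fin n → ℝ) : δ * m * ‖v‖ ≤ ‖rv v g'‖ := by
  have h1 : ∀ j, rv v g' j = d j * rv v g j := by
    intro j
    show ∑ i, v i * g' i j = d j * ∑ i, v i * g i j
    rw [Finset.mul_sum]
    exact Finset.sum_congr rfl fun i _ => by rw [h]; ring
  have h2 : δ * ‖rv v g‖ ≤ ‖rv v g'‖ := by
    rw [mul_comm, ← le_div_iff₀ hδ]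
    refine (pi_norm_le_iff_of_nonneg (by positivity)).2 fun j => ?_
    rw [le_div_iff₀ hδ]
    have h3 : ‖rv v g' j‖ ≤ ‖rv v g'‖ := norm_le_pi_norm _ j
    rw [h1, norm_mul, Real.norm_eq_abs (d j)] at h3
    nlinarith [hd j, norm_nonneg (rv v g j)]
  calc δ * m * ‖v‖ = δ * (m * ‖v‖) := by ring
    _ ≤ δ * ‖rv v g‖ := mul_le_mul_of_nonneg_left (hm v) hδ.le
    _ ≤ _ := h2

theorem AMat_gd {n : ℕ} {g g' : X n} {d : Fin n → ℝ} (h : ∀ i j, g' i j = d j * g i j)
    (hd : ∀ j, d j ≠ 0) (i j : Fin n) : gd g' i j = (d j)⁻¹ * gd g i j := by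
  have h1 : Matrix.of g' = Matrix.of g * Matrix.diagonal d := by
    ext i j
    rw [Matrix.mul_diagonal]
    show g' i j = g i j * d j
    rw [h, mul_comm]
  have h2 : (Matrix.diagonal d)⁻¹ = Matrix.diagonal fun j => (d j)⁻¹ := by
    refine Matrix.inv_eq_left_inv ?_
    rw [Matrix.diagonal_mul_diagonal, ← Matrix.diagonal_one]
    congr 1
    funext j
    exact inv_mul_cancel₀ (hd j)
  show (Matrix.of g')⁻¹ j i = (d j)⁻¹ * (Matrix.of g)⁻¹ j i
  rw [h1, Matrix.mul_inv_rev, h2, Matrix.diagonal_mul]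

/-! ### The coordinates -/

variable {F}

/-- The place of a coordinate. -/
def AMat_pl : index F → InfinitePlace F
  | Sum.inl w => w.1
  | Sum.inr w => w.1.1

theorem AMat_repr (u : InfinitePlace F → ℝ) (x : mixedSpace F) (k : index F) :
    (stdBasis F).repr (sc u x) k = Real.exp (u (AMat_pl k)) * (stdBasis F).repr x k := by
  rcases k with w | ⟨w, j⟩
  · rfl
  · have hj : j = 0 ∨ j = 1 := by omega
    rcases hj with hj | hj
    · subst hj
      rw [stdBasis_apply_isComplex_fst, stdBasis_apply_isComplex_fst]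
      show ((Real.exp (u w.1) : ℂ) * x.2 w).re = Real.exp (u w.1) * (x.2 w).re
      rw [Complex.re_ofReal_mul]
    · subst hj
      rw [stdBasis_apply_isComplex_snd, stdBasis_apply_isComplex_snd]
      show ((Real.exp (u w.1) : ℂ) * x.2 w).im = Real.exp (u w.1) * (x.2 w).im
      rw [Complex.im_ofReal_mul]

theorem AMat_qf (x : mixedSpace F) : qf x = ∑ k, ((stdBasis F).repr x k) ^ 2 := by
  unfold qf
  rw [Fintype.sum_sum_type, Fintype.sum_prod_type]
  congr 1
  refine Finset.sum_congr rfl fun w _ => ?_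
  rw [Fin.sum_univ_two, stdBasis_apply_isComplex_fst, stdBasis_apply_isComplex_snd,
    ← Complex.normSq_eq_norm_sq, Complex.normSq_apply]
  ring

theorem AMat_sum (f : InfinitePlace F → ℝ) :
    ∑ k : index F, f (AMat_pl k) = ∑ w, (w.mult : ℝ) * f w := by
  have key : ∀ f : InfinitePlace F → ℝ,
      ∑ w, f w = ∑ w : {w : InfinitePlace F // w.IsReal}, f w.1 +
        ∑ w : {w : InfinitePlace F // w.IsComplex}, f w.1 := by
    intro f
    rw [← Fintype.sum_subtype_add_sum_subtype (fun w : InfinitePlace F => w.IsReal) f]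
    congr 1
    refine Fintype.sum_equiv (Equiv.subtypeEquivRight fun w => ?_) _ _ fun w => rfl
    exact InfinitePlace.not_isReal_iff_isComplex
  rw [key, Fintype.sum_sum_type, Fintype.sum_prod_type]
  congr 1
  · refine Finset.sum_congr rfl fun w _ => ?_
    rw [InfinitePlace.mult_isReal, Nat.cast_one, one_mul]
    rfl
  · refine Finset.sum_congr rfl fun w _ => ?_
    rw [Fin.sum_univ_two, InfinitePlace.mult_isComplex]
    show f w.1 + f w.1 = _
    push_cast
    ring

theorem AMat_prod (c : Fin (Units.rank F) → ℝ) :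
    ∏ k : index F, Real.exp (yl F c (AMat_pl k)) = 1 := by
  rw [← Real.exp_sum, AMat_sum, sum_yl, Real.exp_zero]

/-! ### The points of the ideal -/

theorem AMat_card (J : (Ideal (𝓞 F))⁰) :
    Nonempty (Module.Free.ChooseBasisIndex ℤ (FractionalIdeal.mk0 F J : FractionalIdeal (𝓞 F)⁰ F) ≃
      Fin (Module.finrank ℚ F)) := by
  refine ⟨Fintype.equivOfCardEq ?_⟩
  rw [Fintype.card_fin, ← Module.finrank_eq_card_chooseBasisIndex, fractionalIdeal_rank,
    RingOfIntegers.rank]

theorem AMat_mem (J : (Ideal (𝓞 F))⁰) (a : Pts J) :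
    (a.1 : F) ∈ (FractionalIdeal.mk0 F J : FractionalIdeal (𝓞 F)⁰ F) := by
  rw [FractionalIdeal.coe_mk0]
  exact FractionalIdeal.mem_coeIdeal_of_mem _ a.2.2

/-- A basis and the bijection with the nonzero integral vectors. -/
theorem AMat_pts (J : (Ideal (𝓞 F))⁰) :
    ∃ (b : Module.Basis (Fin (Module.finrank ℚ F)) ℝ (mixedSpace F))
      (e : {v : Fin (Module.finrank ℚ F) → ℤ // v ≠ 0} ≃ Pts J),
      ∀ v, mixedEmbedding F ((e v).1 : F) = ∑ i, (v.1 i : ℝ) • b i := by
  obtain ⟨e0⟩ := AMat_card J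
  set I : (FractionalIdeal (𝓞 F)⁰ F)ˣ := FractionalIdeal.mk0 F J with hI
  set B : Module.Basis (Fin (Module.finrank ℚ F)) ℤ (I : FractionalIdeal (𝓞 F)⁰ F) :=
    (fractionalIdealBasis F I.1).reindex e0 with hB
  let q : Pts J → {v : Fin (Module.finrank ℚ F) → ℤ // v ≠ 0} := fun a =>
    ⟨B.equivFun ⟨(a.1 : F), AMat_mem J a⟩, by
      intro h
      have h1 := B.equivFun.map_eq_zero_iff.1 h
      have h2 : (a.1 : F) = 0 := congrArg Subtype.val h1
      exact a.2.1 (by exact_mod_cast h2)⟩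
  have hq : Function.Bijective q := by
    constructor
    · intro a a' h
      have h1 : B.equivFun ⟨(a.1 : F), AMat_mem J a⟩ = B.equivFun ⟨(a'.1 : F), AMat_mem J a'⟩ :=
        congrArg Subtype.val h
      have h2 := congrArg Subtype.val (B.equivFun.injective h1)
      have h3 : (a.1 : F) = (a'.1 : F) := h2
      exact Subtype.ext (by exact_mod_cast h3)
    · intro v
      set x := B.equivFun.symm v.1 with hx
      have h0 : (I : FractionalIdeal (𝓞 F)⁰ F) =
          ((J : Ideal (𝓞 F)) : FractionalIdeal (𝓞 F)⁰ F) := FractionalIdeal.coe_mk0 F J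
      have hx1 : (x : F) ∈ ((J : Ideal (𝓞 F)) : FractionalIdeal (𝓞 F)⁰ F) := by
        rw [← h0]
        exact x.2
      obtain ⟨a, ha, hax⟩ := (FractionalIdeal.mem_coeIdeal _).1 hx1
      have hax' : (a : F) = (x : F) := hax
      have ha0 : a ≠ 0 := by
        rintro rfl
        have h1 : x = 0 := Subtype.ext (by rw [← hax']; simp)
        have h2 : v.1 = 0 := by
          have := congrArg B.equivFun h1
          rwa [hx, LinearEquiv.apply_symm_apply, map_zero] at this
        exact v.2 h2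
      refine ⟨⟨a, ha0, ha⟩, Subtype.ext ?_⟩
      show B.equivFun ⟨(a : F), _⟩ = v.1
      have h3 : (⟨(a : F), AMat_mem J ⟨a, ha0, ha⟩⟩ : (I : FractionalIdeal (𝓞 F)⁰ F)) = x :=
        Subtype.ext hax'
      rw [h3, hx, LinearEquiv.apply_symm_apply]
  refine ⟨(fractionalIdealLatticeBasis F I).reindex e0, (Equiv.ofBijective q hq).symm,
    fun v => ?_⟩
  set a := (Equiv.ofBijective q hq).symm v with ha
  have h1 : q a = v := (Equiv.ofBijective q hq).apply_symm_apply v
  have h2 : B.equivFun ⟨(a.1 : F), AMat_mem J a⟩ = v.1 := congrArg Subtype.val h1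
  have h3 : (a.1 : F) = ∑ i, v.1 i • ((B i : (I : FractionalIdeal (𝓞 F)⁰ F)) : F) := by
    have h4 := B.sum_equivFun ⟨(a.1 : F), AMat_mem J a⟩
    rw [h2] at h4
    have h5 : (a.1 : F) = Subtype.val (∑ i, v.1 i • B i) :=
      (congrArg Subtype.val h4).symm
    rw [h5, AddSubmonoidClass.coe_finsetSum]
    rfl
  rw [h3, map_sum]
  refine Finset.sum_congr rfl fun i _ => ?_
  have h6 : ((fractionalIdealLatticeBasis F I).reindex e0) i =
      mixedEmbedding F ((B i : (I : FractionalIdeal (𝓞 F)⁰ F)) : F) := by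
    rw [Module.Basis.reindex_apply, fractionalIdealLatticeBasis_apply,
      basisOfFractionalIdeal_apply, hB, Module.Basis.reindex_apply]
  rw [h6, map_zsmul, Int.cast_smul_eq_zsmul]

variable (F)

theorem exists_matrix (J : (Ideal (𝓞 F))⁰) :
    ∃ (g : (Fin (Units.rank F) → ℝ) → X (Module.finrank ℚ F)) (D m : ℝ), Measurable g ∧ 0 < D ∧
      0 < m ∧ (∀ c, |dt (g c)| = D) ∧
      (∀ c ∈ Icc (0 : Fin (Units.rank F) → ℝ) 1, ∀ v, m * ‖v‖ ≤ ‖rv v (g c)‖) ∧
      (∀ c ∈ Icc (0 : Fin (Units.rank F) → ℝ) 1, ∀ v, m * ‖v‖ ≤ ‖rv v (gd (g c))‖) ∧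
      ∃ e : {v : Fin (Module.finrank ℚ F) → ℤ // v ≠ 0} ≃ Pts J, ∀ c v (t : ℝ),
        gs (rv (zr v.1) (t • g c)) = Real.exp (-(Real.pi * (t ^ 2 *
          qf (sc (yl F c) (mixedEmbedding F ((e v).1 : F)))))) := by
  obtain ⟨b, e, he⟩ := AMat_pts J
  have hc : Fintype.card (index F) = Module.finrank ℚ F := by
    rw [← mixedEmbedding.finrank F, Module.finrank_eq_card_basis (stdBasis F)]
  let e1 : index F ≃ Fin (Module.finrank ℚ F) := Fintype.equivOfCardEq (by
    rw [hc, Fintype.card_fin])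
  let sB : Module.Basis (Fin (Module.finrank ℚ F)) ℝ (mixedSpace F) := (stdBasis F).reindex e1
  let d : (Fin (Units.rank F) → ℝ) → Fin (Module.finrank ℚ F) → ℝ := fun c j =>
    Real.exp (yl F c (AMat_pl (e1.symm j)))
  let g0 : X (Module.finrank ℚ F) := fun i j => sB.repr (b i) j
  let g : (Fin (Units.rank F) → ℝ) → X (Module.finrank ℚ F) := fun c i j => d c j * g0 i j
  have hd0 : ∀ c j, 0 < d c j := fun c j => Real.exp_pos _
  have hg0 : dt g0 ≠ 0 := by
    have h1 : Matrix.of g0 = (sB.toMatrix b).transpose := by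
      ext i j
      rfl
    show (Matrix.of g0).det ≠ 0
    rw [h1, Matrix.det_transpose]
    have h2 := sB.toMatrix_mul_toMatrix_flip b
    have h3 := congrArg Matrix.det h2
    rw [Matrix.det_mul, Matrix.det_one] at h3
    exact left_ne_zero_of_mul_eq_one h3
  have hgd0 : dt (gd g0) ≠ 0 := by
    have h1 : Matrix.of (gd g0) = ((Matrix.of g0)⁻¹).transpose := by
      ext i j
      rfl
    show (Matrix.of (gd g0)).det ≠ 0
    rw [h1, Matrix.det_transpose, Matrix.det_nonsing_inv, Ring.inverse_eq_inv']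
    exact inv_ne_zero hg0
  obtain ⟨m0, hm0, hm0'⟩ := AMat_low hg0
  obtain ⟨m1, hm1, hm1'⟩ := AMat_low hgd0
  have hdc : ∀ j, Continuous fun c => d c j := fun j =>
    Real.continuous_exp.comp (yl_continuous _)
  have hcomp : IsCompact (Icc (0 : Fin (Units.rank F) → ℝ) 1) := isCompact_Icc
  have hbd : ∀ f : (Fin (Units.rank F) → ℝ) → Fin (Module.finrank ℚ F) → ℝ,
      (∀ j, Continuous fun c => f c j) → (∀ c j, 0 < f c j) →
      ∃ δ : ℝ, 0 < δ ∧ ∀ c ∈ Icc (0 : Fin (Units.rank F) → ℝ) 1, ∀ j, δ ≤ |f c j| := by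
    intro f hf hpos
    have h1 : ∀ j, ∃ δ : ℝ, 0 < δ ∧ ∀ c ∈ Icc (0 : Fin (Units.rank F) → ℝ) 1, δ ≤ f c j := by
      intro j
      obtain ⟨c0, -, h⟩ := hcomp.exists_isMinOn ⟨0, ⟨le_refl _, zero_le_one⟩⟩ (hf j).continuousOn
      exact ⟨f c0 j, hpos _ _, fun c hc => h hc⟩
    choose δ hδ hδ' using h1
    obtain ⟨η, hη, hη'⟩ : ∃ η : ℝ, 0 < η ∧ ∀ j, η ≤ δ j := by
      have : ∀ S : Finset (Fin (Module.finrank ℚ F)), ∃ η : ℝ, 0 < η ∧ ∀ j ∈ S, η ≤ δ j := by
        intro S
        induction S using Finset.induction_on with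
        | empty => exact ⟨1, one_pos, by simp⟩
        | insert a S _ ih =>
          obtain ⟨η, hη, h⟩ := ih
          refine ⟨min η (δ a), lt_min hη (hδ a), fun j hj => ?_⟩
          rcases Finset.mem_insert.1 hj with rfl | hj
          · exact min_le_right _ _
          · exact (min_le_left _ _).trans (h j hj)
      obtain ⟨η, hη, h⟩ := this Finset.univ
      exact ⟨η, hη, fun j => h j (Finset.mem_univ _)⟩
    exact ⟨η, hη, fun c hc j => (hη' j).trans ((hδ' j c hc).trans (le_abs_self _))⟩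
  obtain ⟨δ0, hδ0, hδ0'⟩ := hbd d hdc hd0
  obtain ⟨δ1, hδ1, hδ1'⟩ := hbd (fun c j => (d c j)⁻¹)
    (fun j => (hdc j).inv₀ fun c => (hd0 c j).ne') (fun c j => inv_pos.2 (hd0 c j))
  have hprod : ∀ c, ∏ j, d c j = 1 := by
    intro c
    rw [← AMat_prod c]
    exact Fintype.prod_equiv e1.symm _ _ fun j => rfl
  refine ⟨g, |dt g0|, min (δ0 * m0) (δ1 * m1), ?_, abs_pos.2 hg0,
    lt_min (mul_pos hδ0 hm0) (mul_pos hδ1 hm1), ?_, ?_, ?_, e, ?_⟩
  · refine measurable_pi_iff.2 fun i => measurable_pi_iff.2 fun j => ?_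
    exact ((hdc j).mul continuous_const).measurable
  · intro c
    have h1 : dt (g c) = (∏ j, d c j) * dt g0 := by
      show (Matrix.of fun i j => d c j * g0 i j).det = _
      exact Matrix.det_mul_row (d c) (Matrix.of g0)
    rw [h1, hprod, one_mul]
  · intro c hc v
    refine le_trans (mul_le_mul_of_nonneg_right (min_le_left _ _) (norm_nonneg _)) ?_
    exact AMat_scale (g := g0) (g' := g c) (d := d c) (fun i j => rfl) hδ0 (hδ0' c hc) hm0' v
  · intro c hc v
    refine le_trans (mul_le_mul_of_nonneg_right (min_le_right _ _) (norm_nonneg _)) ?_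
    exact AMat_scale (g := gd g0) (g' := gd (g c)) (d := fun j => (d c j)⁻¹)
      (fun i j => AMat_gd (g := g0) (g' := g c) (d := d c) (fun i j => rfl)
        (fun j => (hd0 c j).ne') i j) hδ1 (hδ1' c hc) hm1' v
  · intro c v t
    have h1 : ∀ j, rv (zr v.1) (t • g c) j =
        t * (stdBasis F).repr (sc (yl F c) (mixedEmbedding F ((e v).1 : F))) (e1.symm j) := by
      intro j
      rw [AMat_repr, he v]
      have h2 : (stdBasis F).repr (∑ i, (v.1 i : ℝ) • b i) (e1.symm j) =
          ∑ i, (v.1 i : ℝ) * g0 i j := by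
        rw [map_sum, Finsupp.finsetSum_apply]
        refine Finset.sum_congr rfl fun i _ => ?_
        rw [map_smul, Finsupp.smul_apply, smul_eq_mul]
        congr 1
      rw [h2]
      show ∑ i, (v.1 i : ℝ) * (t * (d c j * g0 i j)) = t * (d c j * ∑ i, (v.1 i : ℝ) * g0 i j)
      rw [Finset.mul_sum, Finset.mul_sum]
      exact Finset.sum_congr rfl fun i _ => by ring
    unfold gs
    congr 3
    rw [AMat_qf, Finset.mul_sum]
    refine Fintype.sum_equiv e1.symm _ _ fun j => ?_
    rw [h1, mul_pow]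

end Pool.Agent.DZ74
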