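import Pool.Agent.W_7742k_h74.ADef
import Pool.Agent.W_7742k_h74.ALap
import Pool.Agent.W_7742x_h74.PMai

/-! # Epstein zeta functions, averaged over a bounded family of lattices

`1 + Th g = |dt g|⁻¹ (1 + Sd g)` (`PMai_theta`), `dt (t • g) = t ^ n dt g`, `gd (t • g) = t⁻¹ • gd g`.

* `K₂ σ = ∫∫_{t ≥ 1} Th (t • g y) t ^ (n σ - 1)` is finite for all real `σ`: for `t ≥ 1`,
  `Th (t • g) ≤ ∑_{v ≠ 0} exp (-π t² m² ‖v‖²) ≤ exp (-π m² (t² - 1)) ∑_{v ≠ 0} exp (-π m² ‖v‖²)`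
  (`‖v‖ ≥ 1` for `0 ≠ v ∈ ℤ^n`, sup norm; the sum of the squares is at least `‖·‖²`).
* `K₁ σ = ∫∫_{t < 1} Sd (t • g y) t ^ (n (σ - 1) - 1)` is finite for all real `σ`:
  `Sd (t • g) ≤ exp (-π m² (t⁻² - 1)) ∑_{v ≠ 0} exp (-π m² ‖v‖²)`.
* For `σ > 1`: `∫_0^1 (Th + 1) t ^ (n σ - 1) = D⁻¹ / (n (σ - 1)) + D⁻¹ ∫_0^1 Sd (t g) t ^ (n (σ-1) - 1)`,
  so `EE σ = K₂ σ + D⁻¹ K₁ σ + ν(Y) (D⁻¹ / (n (σ - 1)) - 1 / (n σ))`.
* `K₁, K₂` are real analytic (`lap_analytic` on `Y × (0, ∞)`, `X = n log t`). -/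

set_option autoImplicit false

noncomputable section

namespace Pool.Agent.DZ74

open MeasureTheory Set Pool.Agent.GL74
open scoped ENNReal

/-- The theta sum without its constant term. -/
def Th {n : ℕ} (g : X n) : ℝ≥0∞ :=
  ∑' v : {v : Fin n → ℤ // v ≠ 0}, ENNReal.ofReal (gs (rv (zr v.1) g))

/-- The averaged Epstein zeta function. -/
def EE {n : ℕ} {Y : Type} [MeasurableSpace Y] (ν : Measure Y) (g : Y → X n) (σ : ℝ) : ℝ≥0∞ :=
  ∫⁻ y, (∫⁻ t in Ioi (0 : ℝ), Th (t • g y) * ENNReal.ofReal (t ^ ((n : ℝ) * σ - 1))) ∂ν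

theorem ATh_meas_Th {n : ℕ} : Measurable (Th : X n → ℝ≥0∞) := PDua_meas_T

theorem ATh_bd {c : ℝ} (hc : 0 < c) (a : ℝ) {x : ℝ} (hx : 1 ≤ x) :
    x ^ a * Real.exp (-(c * x ^ 2)) ≤ Real.exp (a ^ 2 / (4 * c)) := by
  have hx0 : 0 < x := lt_of_lt_of_le one_pos hx
  rw [Real.rpow_def_of_pos hx0, ← Real.exp_add]
  apply Real.exp_le_exp.2
  have h1 : Real.log x * a ≤ |a| * x := by
    have h2 : Real.log x ≤ x := (Real.log_le_sub_one_of_pos hx0).trans (by linarith)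
    have h3 : 0 ≤ Real.log x := Real.log_nonneg hx
    calc Real.log x * a ≤ Real.log x * |a| := mul_le_mul_of_nonneg_left (le_abs_self a) h3
      _ ≤ x * |a| := mul_le_mul_of_nonneg_right h2 (abs_nonneg a)
      _ = |a| * x := mul_comm _ _
  have h4 : |a| * x - c * x ^ 2 ≤ a ^ 2 / (4 * c) := by
    rw [le_div_iff₀ (by positivity), ← sq_abs a]
    nlinarith [sq_nonneg (|a| - 2 * c * x)]
  linarith

/-- The majorant of the sums. -/
def ATh_T (n : ℕ) (m : ℝ) : ℝ≥0∞ :=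
  ∑' v : {v : Fin n → ℤ // v ≠ 0},
    ENNReal.ofReal (Real.exp (-(Real.pi * (m ^ 2 * ‖(zr v.1 : Fin n → ℝ)‖ ^ 2))))

theorem ATh_sq_le {n : ℕ} (x : Fin n → ℝ) : ‖x‖ ^ 2 ≤ ∑ i, x i ^ 2 := by
  have h0 : (0 : ℝ) ≤ ∑ i, x i ^ 2 := Finset.sum_nonneg fun i _ => sq_nonneg _
  have h1 : ‖x‖ ≤ Real.sqrt (∑ i, x i ^ 2) := by
    rw [pi_norm_le_iff_of_nonneg (Real.sqrt_nonneg _)]
    intro i
    apply Real.le_sqrt_of_sq_le
    rw [Real.norm_eq_abs, sq_abs]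
    exact Finset.single_le_sum (f := fun i => x i ^ 2) (fun i _ => sq_nonneg _) (Finset.mem_univ i)
  calc ‖x‖ ^ 2 ≤ Real.sqrt (∑ i, x i ^ 2) ^ 2 := by gcongr
    _ = ∑ i, x i ^ 2 := Real.sq_sqrt h0

theorem ATh_sum_le {n : ℕ} (x : Fin n → ℝ) : ∑ i, x i ^ 2 ≤ n * ‖x‖ ^ 2 := by
  calc ∑ i, x i ^ 2 ≤ ∑ _i : Fin n, ‖x‖ ^ 2 := by
        apply Finset.sum_le_sum
        intro i _
        rw [← sq_abs, ← Real.norm_eq_abs]
        have h1 := norm_le_pi_norm x i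
        gcongr
    _ = n * ‖x‖ ^ 2 := by simp

theorem ATh_T_fin {n : ℕ} (hn : 0 < n) {m : ℝ} (hm : 0 < m) : ATh_T n m ≠ ∞ := by
  have hnR : (0 : ℝ) < n := by exact_mod_cast hn
  obtain ⟨c, hc0, hc⟩ : ∃ c : ℝ, 0 < c ∧ c ^ 2 * n = m ^ 2 := by
    refine ⟨m / Real.sqrt n, by positivity, ?_⟩
    rw [div_pow, Real.sq_sqrt hnR.le]
    field_simp
  obtain ⟨g, hg⟩ : ∃ g : X n, g = c • (fun i j => (1 : Matrix (Fin n) (Fin n) ℝ) i j) := ⟨_, rfl⟩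
  have hdt : dt g ≠ 0 := by
    rw [hg, dt_smul]
    have h1 : dt (fun i j => (1 : Matrix (Fin n) (Fin n) ℝ) i j : X n) = 1 := by
      unfold dt
      exact Matrix.det_one
    rw [h1, mul_one]
    positivity
  have hrv : ∀ x : Fin n → ℝ, ∀ j, rv x g j = c * x j := by
    intro x j
    unfold rv
    rw [hg]
    simp only [Pi.smul_apply, smul_eq_mul, Matrix.one_apply, mul_ite, mul_one, mul_zero]
    simp [mul_comm]
  have h1 : ATh_T n m ≤ PDua_T g := by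
    unfold ATh_T PDua_T
    apply ENNReal.tsum_le_tsum
    intro v
    apply ENNReal.ofReal_le_ofReal
    unfold gs
    apply Real.exp_le_exp.2
    have h2 : ∑ j, rv (zr v.1) g j ^ 2 = c ^ 2 * ∑ j, (zr v.1 : Fin n → ℝ) j ^ 2 := by
      rw [Finset.mul_sum]
      exact Finset.sum_congr rfl fun j _ => by rw [hrv]; ring
    have h3 := ATh_sum_le (zr v.1 : Fin n → ℝ)
    have h4 : c ^ 2 * ∑ j, (zr v.1 : Fin n → ℝ) j ^ 2 ≤ m ^ 2 * ‖(zr v.1 : Fin n → ℝ)‖ ^ 2 := by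
      rw [← hc, mul_assoc]
      exact mul_le_mul_of_nonneg_left h3 (sq_nonneg _)
    rw [h2]
    have := mul_le_mul_of_nonneg_left h4 Real.pi_pos.le
    linarith
  have h5 : 1 + PDua_T g ≠ ∞ := by
    have h6 : ENNReal.ofReal (∑' v : Fin n → ℤ, gs (rv (zr v) g)) = 1 + PDua_T g := by
      rw [ENNReal.ofReal_tsum_of_nonneg (fun v => PDua_gs_nonneg _) (summable_gs hdt), PDua_split,
        PDua_gs_zero, ENNReal.ofReal_one]
      rfl
    rw [← h6]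
    exact ENNReal.ofReal_ne_top
  intro h7
  apply h5
  rw [h7] at h1
  rw [top_le_iff.1 h1, add_top]

theorem ATh_norm_zr {n : ℕ} {v : Fin n → ℤ} (hv : v ≠ 0) : 1 ≤ ‖(zr v : Fin n → ℝ)‖ := by
  obtain ⟨i, hi⟩ : ∃ i, v i ≠ 0 := by
    by_contra h
    push Not at h
    exact hv (funext h)
  have h1 := norm_le_pi_norm (zr v : Fin n → ℝ) i
  have h2 : (1 : ℝ) ≤ ‖(zr v : Fin n → ℝ) i‖ := by
    unfold zr
    rw [Real.norm_eq_abs, ← Int.cast_abs]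
    exact_mod_cast Int.one_le_abs hi
  exact h2.trans h1

theorem ATh_rv_smul {n : ℕ} (v : Fin n → ℝ) (s : ℝ) (g : X n) : rv v (s • g) = s • rv v g := by
  funext j
  unfold rv
  rw [Pi.smul_apply, smul_eq_mul, Finset.mul_sum]
  exact Finset.sum_congr rfl fun i _ => by
    show v i * (s * g i j) = s * (v i * g i j)
    ring

theorem ATh_term {n : ℕ} {g : X n} {m : ℝ} (hm : 0 < m)
    (h : ∀ v : Fin n → ℝ, m * ‖v‖ ≤ ‖rv v g‖) {s : ℝ} (hs : 1 ≤ s) {v : Fin n → ℤ} (hv : v ≠ 0) :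
    gs (rv (zr v) (s • g)) ≤ Real.exp (-(Real.pi * (m ^ 2 * (s ^ 2 - 1)))) *
      Real.exp (-(Real.pi * (m ^ 2 * ‖(zr v : Fin n → ℝ)‖ ^ 2))) := by
  rw [← Real.exp_add]
  unfold gs
  apply Real.exp_le_exp.2
  have h1 := ATh_sq_le (rv (zr v) (s • g))
  have h2 : ‖rv (zr v) (s • g)‖ = s * ‖rv (zr v) g‖ := by
    rw [ATh_rv_smul, norm_smul, Real.norm_eq_abs, abs_of_pos (by linarith)]
  have h3 := h (zr v)
  have h4 := ATh_norm_zr hv
  have h5 : s * (m * ‖(zr v : Fin n → ℝ)‖) ≤ s * ‖rv (zr v) g‖ :=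
    mul_le_mul_of_nonneg_left h3 (by linarith)
  have h6 : (s * (m * ‖(zr v : Fin n → ℝ)‖)) ^ 2 ≤ (s * ‖rv (zr v) g‖) ^ 2 := by
    have : 0 ≤ s * (m * ‖(zr v : Fin n → ℝ)‖) := by positivity
    gcongr
  have h7 : m ^ 2 * (s ^ 2 - 1) + m ^ 2 * ‖(zr v : Fin n → ℝ)‖ ^ 2 ≤
      (s * (m * ‖(zr v : Fin n → ℝ)‖)) ^ 2 := by
    have h8 : 0 ≤ m ^ 2 * ((s ^ 2 - 1) * (‖(zr v : Fin n → ℝ)‖ ^ 2 - 1)) := by
      apply mul_nonneg (sq_nonneg _)
      apply mul_nonneg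
      · nlinarith
      · nlinarith
    nlinarith
  rw [h2] at h1
  have h9 := mul_le_mul_of_nonneg_left ((h7.trans h6).trans h1) Real.pi_pos.le
  linarith

theorem ATh_sum {n : ℕ} {g : X n} {m : ℝ} (hm : 0 < m)
    (h : ∀ v : Fin n → ℝ, m * ‖v‖ ≤ ‖rv v g‖) {s : ℝ} (hs : 1 ≤ s) :
    Th (s • g) ≤ ENNReal.ofReal (Real.exp (-(Real.pi * (m ^ 2 * (s ^ 2 - 1))))) * ATh_T n m := by
  unfold Th ATh_T
  rw [← ENNReal.tsum_mul_left]
  apply ENNReal.tsum_le_tsum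
  intro v
  rw [← ENNReal.ofReal_mul (Real.exp_pos _).le]
  exact ENNReal.ofReal_le_ofReal (ATh_term hm h hs v.2)

theorem ATh_Sd {n : ℕ} {g : X n} (hg : dt g ≠ 0) {t : ℝ} (ht : 0 < t) :
    Sd (t • g) = Th (t⁻¹ • gd g) := by
  unfold Sd Th
  rw [gd_smul ht.ne' hg]

/-- The bound for the integrals over large `t`. -/
theorem ATh_big {m : ℝ} (hm : 0 < m) (a : ℝ) :
    ∫⁻ t in Ioi (1 : ℝ), ENNReal.ofReal (Real.exp (-(Real.pi * (m ^ 2 * (t ^ 2 - 1))))) *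
      ENNReal.ofReal (t ^ a) ≠ ∞ := by
  have hc : 0 < Real.pi * m ^ 2 := by positivity
  obtain ⟨C, hC⟩ : ∃ C : ℝ, C = Real.exp (Real.pi * m ^ 2) *
      Real.exp ((a + 2) ^ 2 / (4 * (Real.pi * m ^ 2))) := ⟨_, rfl⟩
  have hC0 : 0 ≤ C := by rw [hC]; positivity
  have h1 : ∀ t ∈ Ioi (1 : ℝ), ENNReal.ofReal (Real.exp (-(Real.pi * (m ^ 2 * (t ^ 2 - 1))))) *
      ENNReal.ofReal (t ^ a) ≤ ENNReal.ofReal (C * t ^ (-2 : ℝ)) := by
    intro t ht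
    have ht1 : (1 : ℝ) < t := ht
    have ht0 : 0 < t := lt_trans one_pos ht1
    rw [← ENNReal.ofReal_mul (Real.exp_pos _).le]
    apply ENNReal.ofReal_le_ofReal
    have h2 := ATh_bd hc (a + 2) ht1.le
    have h3 : t ^ a = t ^ (a + 2) * t ^ (-2 : ℝ) := by
      rw [← Real.rpow_add ht0]
      congr 1
      ring
    have h4 : Real.exp (-(Real.pi * (m ^ 2 * (t ^ 2 - 1)))) =
        Real.exp (Real.pi * m ^ 2) * Real.exp (-(Real.pi * m ^ 2 * t ^ 2)) := by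
      rw [← Real.exp_add]
      congr 1
      ring
    rw [h3, h4, hC]
    have h5 : 0 ≤ t ^ (-2 : ℝ) := Real.rpow_nonneg ht0.le _
    calc Real.exp (Real.pi * m ^ 2) * Real.exp (-(Real.pi * m ^ 2 * t ^ 2)) *
          (t ^ (a + 2) * t ^ (-2 : ℝ)) =
          Real.exp (Real.pi * m ^ 2) * (t ^ (a + 2) * Real.exp (-(Real.pi * m ^ 2 * t ^ 2))) *
            t ^ (-2 : ℝ) := by ring
      _ ≤ Real.exp (Real.pi * m ^ 2) * Real.exp ((a + 2) ^ 2 / (4 * (Real.pi * m ^ 2))) *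
            t ^ (-2 : ℝ) := by gcongr
  have h6 : IntegrableOn (fun t : ℝ => C * t ^ (-2 : ℝ)) (Ioi 1) :=
    (integrableOn_Ioi_rpow_of_lt (by norm_num) one_pos).const_mul C
  have h7 : ∫⁻ t in Ioi (1 : ℝ), ENNReal.ofReal (C * t ^ (-2 : ℝ)) ≠ ∞ := by
    have h8 := h6.2
    rw [hasFiniteIntegral_iff_ofReal] at h8
    · exact h8.ne
    · filter_upwards [ae_restrict_mem measurableSet_Ioi] with t ht
      have ht0 : (0 : ℝ) < t := lt_trans one_pos ht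
      exact mul_nonneg hC0 (Real.rpow_nonneg ht0.le _)
  exact ne_top_of_le_ne_top h7 (setLIntegral_mono' measurableSet_Ioi h1)

/-- The bound for the integrals over small `t`. -/
theorem ATh_small {m : ℝ} (hm : 0 < m) (a : ℝ) :
    ∫⁻ t in Ioc (0 : ℝ) 1, ENNReal.ofReal (Real.exp (-(Real.pi * (m ^ 2 * (t⁻¹ ^ 2 - 1))))) *
      ENNReal.ofReal (t ^ a) ≠ ∞ := by
  have hc : 0 < Real.pi * m ^ 2 := by positivity
  obtain ⟨C, hC⟩ : ∃ C : ℝ, C = Real.exp (Real.pi * m ^ 2) *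
      Real.exp ((-a) ^ 2 / (4 * (Real.pi * m ^ 2))) := ⟨_, rfl⟩
  have h1 : ∀ t ∈ Ioc (0 : ℝ) 1,
      ENNReal.ofReal (Real.exp (-(Real.pi * (m ^ 2 * (t⁻¹ ^ 2 - 1))))) *
      ENNReal.ofReal (t ^ a) ≤ ENNReal.ofReal C := by
    intro t ht
    have ht0 : 0 < t := ht.1
    have ht1 : 1 ≤ t⁻¹ := (one_le_inv₀ ht0).2 ht.2
    rw [← ENNReal.ofReal_mul (Real.exp_pos _).le]
    apply ENNReal.ofReal_le_ofReal
    have h2 := ATh_bd hc (-a) ht1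
    have h3 : t ^ a = t⁻¹ ^ (-a) := by
      rw [Real.inv_rpow ht0.le, Real.rpow_neg ht0.le, inv_inv]
    have h4 : Real.exp (-(Real.pi * (m ^ 2 * (t⁻¹ ^ 2 - 1)))) =
        Real.exp (Real.pi * m ^ 2) * Real.exp (-(Real.pi * m ^ 2 * t⁻¹ ^ 2)) := by
      rw [← Real.exp_add]
      congr 1
      ring
    rw [h3, h4, hC]
    calc Real.exp (Real.pi * m ^ 2) * Real.exp (-(Real.pi * m ^ 2 * t⁻¹ ^ 2)) * t⁻¹ ^ (-a) =
          Real.exp (Real.pi * m ^ 2) * (t⁻¹ ^ (-a) * Real.exp (-(Real.pi * m ^ 2 * t⁻¹ ^ 2))) := by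
            ring
      _ ≤ Real.exp (Real.pi * m ^ 2) * Real.exp ((-a) ^ 2 / (4 * (Real.pi * m ^ 2))) := by gcongr
  have h7 : ∫⁻ _t in Ioc (0 : ℝ) 1, ENNReal.ofReal C ≠ ∞ := by
    rw [setLIntegral_const, Real.volume_Ioc]
    exact ENNReal.mul_ne_top ENNReal.ofReal_ne_top ENNReal.ofReal_ne_top
  exact ne_top_of_le_ne_top h7 (setLIntegral_mono' measurableSet_Ioc h1)

/-- The integral over large `t`. -/
def ATh_K2 {n : ℕ} {Y : Type} [MeasurableSpace Y] (ν : Measure Y) (g : Y → X n) (σ : ℝ) : ℝ≥0∞ :=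
  ∫⁻ y, (∫⁻ t in Ioi (1 : ℝ), Th (t • g y) * ENNReal.ofReal (t ^ ((n : ℝ) * σ - 1))) ∂ν

/-- The integral over small `t`. -/
def ATh_K1 {n : ℕ} {Y : Type} [MeasurableSpace Y] (ν : Measure Y) (g : Y → X n) (σ : ℝ) : ℝ≥0∞ :=
  ∫⁻ y, (∫⁻ t in Ioc (0 : ℝ) 1,
    Sd (t • g y) * ENNReal.ofReal (t ^ ((n : ℝ) * (σ - 1) - 1))) ∂ν

section

variable {n : ℕ} {Y : Type} [MeasurableSpace Y] (ν : Measure Y) [IsFiniteMeasure ν]

theorem ATh_K2_fin (hn : 0 < n) {g : Y → X n} {m : ℝ} (hm : 0 < m)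
    (h1 : ∀ᵐ y ∂ν, ∀ v : Fin n → ℝ, m * ‖v‖ ≤ ‖rv v (g y)‖) (σ : ℝ) : ATh_K2 ν g σ ≠ ∞ := by
  obtain ⟨I, hI⟩ : ∃ I : ℝ≥0∞, I = ∫⁻ t in Ioi (1 : ℝ),
      ENNReal.ofReal (Real.exp (-(Real.pi * (m ^ 2 * (t ^ 2 - 1))))) *
        ENNReal.ofReal (t ^ ((n : ℝ) * σ - 1)) := ⟨_, rfl⟩
  have hI1 : I ≠ ∞ := by
    rw [hI]
    exact ATh_big hm _
  have h2 : ATh_K2 ν g σ ≤ ∫⁻ _y, ATh_T n m * I ∂ν := by
    unfold ATh_K2
    apply lintegral_mono_ae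
    filter_upwards [h1] with y hy
    rw [hI, ← lintegral_const_mul' _ _ (ATh_T_fin hn hm)]
    apply setLIntegral_mono' measurableSet_Ioi
    intro t ht
    have h3 := ATh_sum hm hy (show (1 : ℝ) ≤ t from le_of_lt ht)
    calc Th (t • g y) * ENNReal.ofReal (t ^ ((n : ℝ) * σ - 1)) ≤
        (ENNReal.ofReal (Real.exp (-(Real.pi * (m ^ 2 * (t ^ 2 - 1))))) * ATh_T n m) *
          ENNReal.ofReal (t ^ ((n : ℝ) * σ - 1)) := by gcongr
      _ = _ := by ring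
  refine ne_top_of_le_ne_top ?_ h2
  rw [lintegral_const]
  exact ENNReal.mul_ne_top (ENNReal.mul_ne_top (ATh_T_fin hn hm) hI1) (measure_ne_top ν _)

theorem ATh_K1_fin (hn : 0 < n) {g : Y → X n} {m : ℝ} (hm : 0 < m)
    (h0 : ∀ᵐ y ∂ν, dt (g y) ≠ 0)
    (h1 : ∀ᵐ y ∂ν, ∀ v : Fin n → ℝ, m * ‖v‖ ≤ ‖rv v (gd (g y))‖) (σ : ℝ) :
    ATh_K1 ν g σ ≠ ∞ := by
  obtain ⟨I, hI⟩ : ∃ I : ℝ≥0∞, I = ∫⁻ t in Ioc (0 : ℝ) 1,
      ENNReal.ofReal (Real.exp (-(Real.pi * (m ^ 2 * (t⁻¹ ^ 2 - 1))))) *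
        ENNReal.ofReal (t ^ ((n : ℝ) * (σ - 1) - 1)) := ⟨_, rfl⟩
  have hI1 : I ≠ ∞ := by
    rw [hI]
    exact ATh_small hm _
  have h2 : ATh_K1 ν g σ ≤ ∫⁻ _y, ATh_T n m * I ∂ν := by
    unfold ATh_K1
    apply lintegral_mono_ae
    filter_upwards [h0, h1] with y hy0 hy
    rw [hI, ← lintegral_const_mul' _ _ (ATh_T_fin hn hm)]
    apply setLIntegral_mono' measurableSet_Ioc
    intro t ht
    have ht0 : 0 < t := ht.1
    have ht1 : 1 ≤ t⁻¹ := (one_le_inv₀ ht0).2 ht.2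
    have h3 := ATh_sum hm hy ht1
    rw [ATh_Sd hy0 ht0]
    calc Th (t⁻¹ • gd (g y)) * ENNReal.ofReal (t ^ ((n : ℝ) * (σ - 1) - 1)) ≤
        (ENNReal.ofReal (Real.exp (-(Real.pi * (m ^ 2 * (t⁻¹ ^ 2 - 1))))) * ATh_T n m) *
          ENNReal.ofReal (t ^ ((n : ℝ) * (σ - 1) - 1)) := by gcongr
      _ = _ := by ring
  refine ne_top_of_le_ne_top ?_ h2
  rw [lintegral_const]
  exact ENNReal.mul_ne_top (ENNReal.mul_ne_top (ATh_T_fin hn hm) hI1) (measure_ne_top ν _)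

/-- An integral with a power of `t` is real analytic. -/
theorem ATh_an (S : Set ℝ) (hS : MeasurableSet S) (hS0 : S ⊆ Ioi 0) {f : X n → ℝ≥0∞}
    (hf : Measurable f) {g : Y → X n} (hg : Measurable g) (a : ℝ)
    (hfin : ∀ σ : ℝ, ∫⁻ y, (∫⁻ t in S, f (t • g y) * ENNReal.ofReal (t ^ ((n : ℝ) * σ + a))) ∂ν ≠ ∞)
    (σ : ℝ) : AnalyticAt ℝ (fun σ : ℝ =>
      (∫⁻ y, (∫⁻ t in S, f (t • g y) * ENNReal.ofReal (t ^ ((n : ℝ) * σ + a))) ∂ν).toReal) σ := by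
  obtain ⟨u, hu⟩ : ∃ u : Y × ℝ → ℝ≥0∞,
      u = fun p => f (p.2 • g p.1) * ENNReal.ofReal (p.2 ^ a) := ⟨_, rfl⟩
  have hu1 : Measurable u := by
    rw [hu]
    have h1 : Measurable fun p : Y × ℝ => p.2 • g p.1 :=
      measurable_snd.smul (hg.comp measurable_fst)
    exact (hf.comp h1).mul (measurable_snd.pow_const a).ennreal_ofReal
  have hX : Measurable fun p : Y × ℝ => (n : ℝ) * Real.log p.2 :=
    measurable_const.mul (Real.measurable_log.comp measurable_snd)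
  have key : ∀ σ : ℝ, ∫⁻ y, (∫⁻ t in S, f (t • g y) * ENNReal.ofReal (t ^ ((n : ℝ) * σ + a))) ∂ν =
      ∫⁻ p, u p * ENNReal.ofReal (Real.exp (σ * ((n : ℝ) * Real.log p.2)))
        ∂(ν.prod (volume.restrict S)) := by
    intro σ
    have hm0 : Measurable fun p : Y × ℝ =>
        u p * ENNReal.ofReal (Real.exp (σ * ((n : ℝ) * Real.log p.2))) :=
      hu1.mul (Real.measurable_exp.comp (measurable_const.mul hX)).ennreal_ofReal
    rw [lintegral_prod _ hm0.aemeasurable]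
    apply lintegral_congr
    intro y
    apply setLIntegral_congr_fun hS
    intro t ht
    have ht0 : 0 < t := hS0 ht
    have h2 : Real.exp (σ * ((n : ℝ) * Real.log t)) = t ^ ((n : ℝ) * σ) := by
      rw [Real.rpow_def_of_pos ht0]
      congr 1
      ring
    show f (t • g y) * ENNReal.ofReal (t ^ ((n : ℝ) * σ + a)) =
      u (y, t) * ENNReal.ofReal (Real.exp (σ * ((n : ℝ) * Real.log t)))
    rw [h2, hu]
    show f (t • g y) * ENNReal.ofReal (t ^ ((n : ℝ) * σ + a)) =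
      f (t • g y) * ENNReal.ofReal (t ^ a) * ENNReal.ofReal (t ^ ((n : ℝ) * σ))
    rw [Real.rpow_add ht0, ENNReal.ofReal_mul (Real.rpow_nonneg ht0.le _)]
    ring
  have h3 := lap_analytic (ν.prod (volume.restrict S)) hu1 hX (a := σ - 1) (b := σ + 1)
    (fun τ _ => by
      rw [← key τ]
      exact hfin τ) σ ⟨by linarith, by linarith⟩
  have h4 : (fun σ : ℝ =>
      (∫⁻ y, (∫⁻ t in S, f (t • g y) * ENNReal.ofReal (t ^ ((n : ℝ) * σ + a))) ∂ν).toReal) =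
      fun σ : ℝ => (∫⁻ p, u p * ENNReal.ofReal (Real.exp (σ * ((n : ℝ) * Real.log p.2)))
        ∂(ν.prod (volume.restrict S))).toReal := by
    funext σ
    rw [key σ]
  rw [h4]
  exact h3

end

theorem ATh_pow {b : ℝ} (hb : 0 < b) :
    ∫⁻ t in Ioc (0 : ℝ) 1, ENNReal.ofReal (t ^ (b - 1)) = ENNReal.ofReal b⁻¹ := by
  have h0 : IntervalIntegrable (fun t : ℝ => t ^ (b - 1)) volume 0 1 :=
    intervalIntegral.intervalIntegrable_rpow' (by linarith)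
  have h1 : IntegrableOn (fun t : ℝ => t ^ (b - 1)) (Ioc 0 1) :=
    (intervalIntegrable_iff_integrableOn_Ioc_of_le zero_le_one).1 h0
  rw [← ofReal_integral_eq_lintegral_ofReal h1]
  · congr 1
    rw [← intervalIntegral.integral_of_le zero_le_one, integral_rpow (Or.inl (by linarith))]
    have h2 : b - 1 + 1 = b := by ring
    rw [h2, Real.one_rpow, Real.zero_rpow hb.ne', sub_zero, one_div]
  · filter_upwards [ae_restrict_mem measurableSet_Ioc] with t ht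
    exact Real.rpow_nonneg ht.1.le _

theorem ATh_pt {n : ℕ} {g : X n} {D : ℝ} (hD : 0 < D) (hg : |dt g| = D) {t : ℝ} (ht : 0 < t)
    (σ : ℝ) : Th (t • g) * ENNReal.ofReal (t ^ ((n : ℝ) * σ - 1)) +
      ENNReal.ofReal (t ^ ((n : ℝ) * σ - 1)) =
      ENNReal.ofReal D⁻¹ * (ENNReal.ofReal (t ^ ((n : ℝ) * (σ - 1) - 1)) +
        Sd (t • g) * ENNReal.ofReal (t ^ ((n : ℝ) * (σ - 1) - 1))) := by
  have hdt : dt (t • g) ≠ 0 := by
    rw [dt_smul]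
    have h0 : dt g ≠ 0 := by
      intro h
      rw [h, abs_zero] at hg
      exact hD.ne hg
    exact mul_ne_zero (pow_pos ht n).ne' h0
  have habs : |dt (t • g)| = t ^ n * D := by
    rw [dt_smul, abs_mul, hg, abs_of_pos (pow_pos ht n)]
  have h1 := PDua_poisson hdt
  have h2 : PDua_T (t • g) = Th (t • g) := rfl
  rw [h2, habs] at h1
  have hpos : 0 < t ^ n * D := by positivity
  have h3 : ENNReal.ofReal (t ^ ((n : ℝ) * σ - 1)) =
      ENNReal.ofReal D⁻¹ * ENNReal.ofReal (t ^ ((n : ℝ) * (σ - 1) - 1)) *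
        ENNReal.ofReal (t ^ n * D) := by
    rw [← ENNReal.ofReal_mul (inv_nonneg.2 hD.le), ← ENNReal.ofReal_mul (by positivity)]
    congr 1
    have h4 : t ^ ((n : ℝ) * σ - 1) = t ^ ((n : ℝ) * (σ - 1) - 1) * t ^ n := by
      rw [← Real.rpow_natCast t n, ← Real.rpow_add ht]
      congr 1
      ring
    rw [h4]
    field_simp
  calc Th (t • g) * ENNReal.ofReal (t ^ ((n : ℝ) * σ - 1)) +
      ENNReal.ofReal (t ^ ((n : ℝ) * σ - 1)) =
      ENNReal.ofReal (t ^ ((n : ℝ) * σ - 1)) * (1 + Th (t • g)) := by ring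
    _ = ENNReal.ofReal D⁻¹ * ENNReal.ofReal (t ^ ((n : ℝ) * (σ - 1) - 1)) *
        (ENNReal.ofReal (t ^ n * D) * (1 + Th (t • g))) := by
          rw [h3]
          ring
    _ = ENNReal.ofReal D⁻¹ * ENNReal.ofReal (t ^ ((n : ℝ) * (σ - 1) - 1)) * (1 + Sd (t • g)) := by
          rw [← h1]
    _ = _ := by ring

theorem ATh_main {n : ℕ} (hn : 0 < n) {Y : Type} [MeasurableSpace Y] (ν : Measure Y)
    {g : Y → X n} (hg : Measurable g) {D : ℝ} (hD : 0 < D)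
    (hdet : ∀ᵐ y ∂ν, |dt (g y)| = D) {σ : ℝ} (hσ : 1 < σ) :
    EE ν g σ + ENNReal.ofReal ((n : ℝ) * σ)⁻¹ * ν univ =
      ATh_K2 ν g σ + ENNReal.ofReal D⁻¹ *
        (ENNReal.ofReal ((n : ℝ) * (σ - 1))⁻¹ * ν univ + ATh_K1 ν g σ) := by
  have hnR : (0 : ℝ) < n := by exact_mod_cast hn
  have hTm : Measurable fun p : Y × ℝ => Th (p.2 • g p.1) :=
    ATh_meas_Th.comp (measurable_snd.smul (hg.comp measurable_fst))
  have hSm : Measurable fun p : Y × ℝ => Sd (p.2 • g p.1) :=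
    measurable_Sd.comp (measurable_snd.smul (hg.comp measurable_fst))
  have hpm : ∀ a : ℝ, Measurable fun t : ℝ => ENNReal.ofReal (t ^ a) := fun a =>
    (measurable_id.pow_const a).ennreal_ofReal
  obtain ⟨A, hA⟩ : ∃ A : Y → ℝ≥0∞, A = fun y => ∫⁻ t in Ioc (0 : ℝ) 1,
      Th (t • g y) * ENNReal.ofReal (t ^ ((n : ℝ) * σ - 1)) := ⟨_, rfl⟩
  obtain ⟨B, hB⟩ : ∃ B : Y → ℝ≥0∞, B = fun y => ∫⁻ t in Ioi (1 : ℝ),
      Th (t • g y) * ENNReal.ofReal (t ^ ((n : ℝ) * σ - 1)) := ⟨_, rfl⟩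
  obtain ⟨S, hS⟩ : ∃ S : Y → ℝ≥0∞, S = fun y => ∫⁻ t in Ioc (0 : ℝ) 1,
      Sd (t • g y) * ENNReal.ofReal (t ^ ((n : ℝ) * (σ - 1) - 1)) := ⟨_, rfl⟩
  have hAm : Measurable A := by
    rw [hA]
    exact (hTm.mul ((hpm _).comp measurable_snd)).lintegral_prod_right'
      (ν := volume.restrict (Ioc (0 : ℝ) 1))
  have hBm : Measurable B := by
    rw [hB]
    exact (hTm.mul ((hpm _).comp measurable_snd)).lintegral_prod_right'
      (ν := volume.restrict (Ioi (1 : ℝ)))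
  have hSm' : Measurable S := by
    rw [hS]
    exact (hSm.mul ((hpm _).comp measurable_snd)).lintegral_prod_right'
      (ν := volume.restrict (Ioc (0 : ℝ) 1))
  have hE : EE ν g σ = ∫⁻ y, A y ∂ν + ATh_K2 ν g σ := by
    have h1 : ATh_K2 ν g σ = ∫⁻ y, B y ∂ν := by
      rw [hB]
      rfl
    rw [h1, ← lintegral_add_left hAm]
    unfold EE
    apply lintegral_congr
    intro y
    rw [hA, hB, ← Ioc_union_Ioi_eq_Ioi (zero_le_one (α := ℝ)),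
      lintegral_union measurableSet_Ioi]
    exact Set.disjoint_left.2 fun t h1 h2 => absurd h1.2 (not_le.2 h2)
  have hcon : ENNReal.ofReal ((n : ℝ) * σ)⁻¹ * ν univ =
      ∫⁻ _y, ENNReal.ofReal ((n : ℝ) * σ)⁻¹ ∂ν := (lintegral_const _).symm
  have hcon2 : ENNReal.ofReal ((n : ℝ) * (σ - 1))⁻¹ * ν univ =
      ∫⁻ _y, ENNReal.ofReal ((n : ℝ) * (σ - 1))⁻¹ ∂ν := (lintegral_const _).symm
  have hK1 : ATh_K1 ν g σ = ∫⁻ y, S y ∂ν := by
    rw [hS]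
    rfl
  have hmain : ∫⁻ y, (A y + ENNReal.ofReal ((n : ℝ) * σ)⁻¹) ∂ν =
      ∫⁻ y, ENNReal.ofReal D⁻¹ * (ENNReal.ofReal ((n : ℝ) * (σ - 1))⁻¹ + S y) ∂ν := by
    apply lintegral_congr_ae
    filter_upwards [hdet] with y hy
    have hl : A y + ENNReal.ofReal ((n : ℝ) * σ)⁻¹ = ∫⁻ t in Ioc (0 : ℝ) 1,
        (Th (t • g y) * ENNReal.ofReal (t ^ ((n : ℝ) * σ - 1)) +
          ENNReal.ofReal (t ^ ((n : ℝ) * σ - 1))) := by
      rw [lintegral_add_right _ (hpm _), ATh_pow (by positivity), hA]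
    have hr : ENNReal.ofReal ((n : ℝ) * (σ - 1))⁻¹ + S y = ∫⁻ t in Ioc (0 : ℝ) 1,
        (ENNReal.ofReal (t ^ ((n : ℝ) * (σ - 1) - 1)) +
          Sd (t • g y) * ENNReal.ofReal (t ^ ((n : ℝ) * (σ - 1) - 1))) := by
      rw [lintegral_add_left (hpm _), ATh_pow (mul_pos hnR (by linarith)), hS]
    show A y + ENNReal.ofReal ((n : ℝ) * σ)⁻¹ =
      ENNReal.ofReal D⁻¹ * (ENNReal.ofReal ((n : ℝ) * (σ - 1))⁻¹ + S y)
    rw [hl, hr, ← lintegral_const_mul' _ _ ENNReal.ofReal_ne_top]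
    apply setLIntegral_congr_fun measurableSet_Ioc
    intro t ht
    exact ATh_pt hD hy ht.1 σ
  rw [lintegral_add_right _ measurable_const, lintegral_const_mul' _ _ ENNReal.ofReal_ne_top,
    lintegral_add_left measurable_const] at hmain
  rw [hE, hcon, hcon2, hK1, ← hmain]
  ring

theorem theta_ext {n : ℕ} (hn : 0 < n) {Y : Type} [MeasurableSpace Y] (ν : Measure Y)
    [IsFiniteMeasure ν] {g : Y → X n} (hg : Measurable g) {D m : ℝ} (hD : 0 < D) (hm : 0 < m)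
    (hdet : ∀ᵐ y ∂ν, |dt (g y)| = D) (h1 : ∀ᵐ y ∂ν, ∀ v : Fin n → ℝ, m * ‖v‖ ≤ ‖rv v (g y)‖)
    (h2 : ∀ᵐ y ∂ν, ∀ v : Fin n → ℝ, m * ‖v‖ ≤ ‖rv v (gd (g y))‖) :
    ∃ G : ℝ → ℝ, (∀ σ : ℝ, 0 < σ → AnalyticAt ℝ G σ) ∧ ∀ σ : ℝ, 1 < σ →
      EE ν g σ ≠ ∞ ∧ G σ = (σ - 1) * (EE ν g σ).toReal := by
  have hnR : (0 : ℝ) < n := by exact_mod_cast hn
  have h0 : ∀ᵐ y ∂ν, dt (g y) ≠ 0 := by
    filter_upwards [hdet] with y hy h
    rw [h, abs_zero] at hy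
    exact hD.ne hy
  have hK2 := ATh_K2_fin ν hn hm h1
  have hK1 := ATh_K1_fin ν hn hm h0 h2
  obtain ⟨N, hN⟩ : ∃ N : ℝ, N = (ν univ).toReal := ⟨_, rfl⟩
  have hνN : ν univ = ENNReal.ofReal N := by
    rw [hN, ENNReal.ofReal_toReal (measure_ne_top ν _)]
  have hN0 : 0 ≤ N := by
    rw [hN]
    exact ENNReal.toReal_nonneg
  refine ⟨fun σ => (σ - 1) * (ATh_K2 ν g σ).toReal + D⁻¹ * N / n +
    (σ - 1) * D⁻¹ * (ATh_K1 ν g σ).toReal - (σ - 1) * N / (n * σ), ?_, ?_⟩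
  · intro σ hσ
    have ha2 : AnalyticAt ℝ (fun σ : ℝ => (ATh_K2 ν g σ).toReal) σ := by
      have h3 := ATh_an ν (Ioi (1 : ℝ)) measurableSet_Ioi (fun t ht => lt_trans one_pos (show (1 : ℝ) < t from ht))
        ATh_meas_Th hg (-1) (fun σ => by
          have h4 := hK2 σ
          unfold ATh_K2 at h4
          simpa only [sub_eq_add_neg] using h4) σ
      unfold ATh_K2
      simpa only [sub_eq_add_neg] using h3
    have ha1 : AnalyticAt ℝ (fun σ : ℝ => (ATh_K1 ν g σ).toReal) σ := by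
      have h5 : ∀ σ : ℝ, (n : ℝ) * (σ - 1) - 1 = (n : ℝ) * σ + (-n - 1) := fun σ => by ring
      have h3 := ATh_an ν (Ioc (0 : ℝ) 1) measurableSet_Ioc (fun t ht => ht.1)
        measurable_Sd hg (-n - 1) (fun σ => by
          have h4 := hK1 σ
          unfold ATh_K1 at h4
          simpa only [h5] using h4) σ
      unfold ATh_K1
      simpa only [h5] using h3
    have hs : AnalyticAt ℝ (fun σ : ℝ => σ - 1) σ := analyticAt_id.sub analyticAt_const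
    have hns : AnalyticAt ℝ (fun σ : ℝ => (n : ℝ) * σ) σ := analyticAt_const.mul analyticAt_id
    have hne : (n : ℝ) * σ ≠ 0 := (mul_pos hnR hσ).ne'
    exact (((hs.mul ha2).add analyticAt_const).add ((hs.mul analyticAt_const).mul ha1)).sub
      ((hs.mul analyticAt_const).div hns hne)
  · intro σ hσ
    have hm1 := ATh_main hn ν hg hD hdet hσ
    have hσ1 : 0 < σ - 1 := by linarith
    have hσ0 : 0 < σ := by linarith
    have hR : ATh_K2 ν g σ + ENNReal.ofReal D⁻¹ *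
        (ENNReal.ofReal ((n : ℝ) * (σ - 1))⁻¹ * ν univ + ATh_K1 ν g σ) ≠ ∞ := by
      refine ENNReal.add_ne_top.2 ⟨hK2 σ, ENNReal.mul_ne_top ENNReal.ofReal_ne_top
        (ENNReal.add_ne_top.2 ⟨ENNReal.mul_ne_top ENNReal.ofReal_ne_top (measure_ne_top ν _),
          hK1 σ⟩)⟩
    have hE : EE ν g σ ≠ ∞ := by
      intro h
      apply hR
      rw [← hm1, h, top_add]
    refine ⟨hE, ?_⟩
    have h3 := congrArg ENNReal.toReal hm1
    rw [ENNReal.toReal_add hE (ENNReal.mul_ne_top ENNReal.ofReal_ne_top (measure_ne_top ν _)),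
      ENNReal.toReal_add (hK2 σ) (ENNReal.mul_ne_top ENNReal.ofReal_ne_top
        (ENNReal.add_ne_top.2 ⟨ENNReal.mul_ne_top ENNReal.ofReal_ne_top (measure_ne_top ν _),
          hK1 σ⟩)),
      ENNReal.toReal_mul, ENNReal.toReal_mul,
      ENNReal.toReal_add (ENNReal.mul_ne_top ENNReal.ofReal_ne_top (measure_ne_top ν _)) (hK1 σ),
      ENNReal.toReal_mul, ENNReal.toReal_ofReal (by positivity),
      ENNReal.toReal_ofReal (by positivity), ENNReal.toReal_ofReal (by positivity), ← hN] at h3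
    have h4 : (EE ν g σ).toReal = (ATh_K2 ν g σ).toReal +
        D⁻¹ * (((n : ℝ) * (σ - 1))⁻¹ * N + (ATh_K1 ν g σ).toReal) - ((n : ℝ) * σ)⁻¹ * N := by
      linarith
    show (σ - 1) * (ATh_K2 ν g σ).toReal + D⁻¹ * N / n +
      (σ - 1) * D⁻¹ * (ATh_K1 ν g σ).toReal - (σ - 1) * N / (n * σ) =
      (σ - 1) * (EE ν g σ).toReal
    rw [h4]
    field_simp
    ring

end Pool.Agent.DZ74
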