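import Pool.Agent.W_7742k_h74.AHom
import Pool.Agent.Chebotarev_h15.PhiC

/-! # Unfolding the units

For `k : Fin r → ℤ` let `u k = ∏ (fundSystem F i) ^ (k i)`.  Its absolute value at `w` is
`exp (yl k w)` (`logEmbedding` of `u k` is `lc k`: see `PhiC_logEmbedding`, and the product formula for
`w₀`), so `GG σ (sc (yl (c + k)) x) = GG σ (sc (yl c) (u k • x))` (both sides only depend on the
absolute values of the coordinates).  `phi (u k • x) = ∏ T (coord x i + k i)` and
`∑_k phi (u (-k) • x) = 1` for `norm x ≠ 0` (`hasSum_prod_T`, `PhiC_phi`).  So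
`∑_a phi a HH a = ∑_a phi a ∑_k ∫_{c ∈ [0,1]^r} GG (sc (yl c) (u k • a))
  = ∫_{c ∈ [0,1]^r} ∑_b GG (sc (yl c) b) ∑_k phi (u (-k) • b)`, `b = u k • a`, all terms are
nonnegative.  (`ℝ^r` is the union of the translates of the cube, up to a set of measure zero.) -/

set_option autoImplicit false

noncomputable section

open scoped Classical

namespace Pool.Agent.DZ74

open MeasureTheory Set NumberField NumberField.mixedEmbedding NumberField.Units
open NumberField.Units.dirichletUnitTheorem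
open Pool.Agent.Cheb
open scoped ENNReal nonZeroDivisors

variable (F : Type) [Field F] [NumberField F]

/-- The unit with exponents `k`. -/
def AUnf_u (k : Fin (Units.rank F) → ℤ) : (𝓞 F)ˣ := ∏ i, (fundSystem F i) ^ (k i)

theorem AUnf_log (k : Fin (Units.rank F) → ℤ) (w : InfinitePlace F)
    (hw : w ≠ dirichletUnitTheorem.w₀) :
    lc F (fun i => (k i : ℝ)) ⟨w, hw⟩ = w.mult * Real.log (w ((AUnf_u F k : 𝓞 F) : F)) := by
  have h := PhiC_logEmbedding F (AUnf_u F k) 1 (torsion F).one_mem k (by rw [one_mul]; rfl)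
  have h2 : logEmbedding F (Additive.ofMul (AUnf_u F k)) = lc F (fun i => (k i : ℝ)) := by
    rw [h, lc, AddSubmonoidClass.coe_finsetSum]
    refine Finset.sum_congr rfl fun i _ => ?_
    rw [PhiB_bas, Module.Basis.ofZLatticeBasis_apply]
    push_cast
    rw [← Int.cast_smul_eq_zsmul ℝ]
  rw [← h2]
  exact logEmbedding_component (AUnf_u F k) ⟨w, hw⟩

theorem AUnf_abs (k : Fin (Units.rank F) → ℤ) (w : InfinitePlace F) :
    Real.exp (yl F (fun i => (k i : ℝ)) w) = w ((AUnf_u F k : 𝓞 F) : F) := by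
  have hpos : ∀ w : InfinitePlace F, 0 < w ((AUnf_u F k : 𝓞 F) : F) := by
    intro w
    rw [InfinitePlace.pos_iff]
    exact_mod_cast (AUnf_u F k).ne_zero
  have hm : ∀ w : InfinitePlace F, (0 : ℝ) < w.mult := by
    intro w
    exact_mod_cast InfinitePlace.mult_pos
  have hlog : yl F (fun i => (k i : ℝ)) w = Real.log (w ((AUnf_u F k : 𝓞 F) : F)) := by
    unfold yl
    split_ifs with h
    · have h1 := Units.sum_mult_mul_log (K := F) (AUnf_u F k)
      rw [← Finset.sum_erase_add _ _ (Finset.mem_univ (dirichletUnitTheorem.w₀ : InfinitePlace F))]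
        at h1
      have h2 : ∑ v, lc F (fun i => (k i : ℝ)) v =
          ∑ v ∈ Finset.univ.erase (dirichletUnitTheorem.w₀ : InfinitePlace F),
            (v.mult : ℝ) * Real.log (v ((AUnf_u F k : 𝓞 F) : F)) := by
        rw [Finset.sum_subtype (Finset.univ.erase (dirichletUnitTheorem.w₀ : InfinitePlace F))
          (p := fun v => v ≠ dirichletUnitTheorem.w₀) (by intro x; simp)
          (f := fun v => (v.mult : ℝ) * Real.log (v ((AUnf_u F k : 𝓞 F) : F)))]
        refine Finset.sum_congr rfl fun v _ => ?_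
        exact AUnf_log F k v.1 v.2
      rw [h2, h, div_eq_iff (hm _).ne']
      linarith
    · rw [AUnf_log F k w h]
      field_simp [(hm w).ne']
  rw [hlog, Real.exp_log (hpos w)]

theorem AUnf_GG (σ : ℝ) (c : Fin (Units.rank F) → ℝ) (k : Fin (Units.rank F) → ℤ)
    (x : mixedSpace F) :
    GG σ (sc (yl F (c + fun i => (k i : ℝ))) x) = GG σ (sc (yl F c) (AUnf_u F k • x)) := by
  have h : qf (sc (yl F (c + fun i => (k i : ℝ))) x) = qf (sc (yl F c) (AUnf_u F k • x)) := by
    rw [qf_eq, qf_eq]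
    refine Finset.sum_congr rfl fun w _ => ?_
    rw [normAtPlace_sc, normAtPlace_sc, yl_add, Real.exp_add, AUnf_abs,
      mixedEmbedding.unitSMul_smul, map_mul, normAtPlace_apply]
    ring
  unfold GG
  rw [h]

theorem AUnf_meas (σ : ℝ) (x : mixedSpace F) :
    Measurable fun c : Fin (Units.rank F) → ℝ => GG σ (sc (yl F c) x) := by
  unfold GG
  apply Measurable.lintegral_prod_right'
    (f := fun p : (Fin (Units.rank F) → ℝ) × ℝ =>
      ENNReal.ofReal (Real.exp (-(Real.pi * (p.2 ^ 2 * qf (sc (yl F p.1) x)))) *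
      p.2 ^ ((Module.finrank ℚ F : ℝ) * σ - 1)))
  have h1 : Continuous fun p : (Fin (Units.rank F) → ℝ) × ℝ => qf (sc (yl F p.1) x) := by
    have h2 : (fun p : (Fin (Units.rank F) → ℝ) × ℝ => qf (sc (yl F p.1) x)) =
        fun p => ∑ w, (Real.exp (yl F p.1 w) * normAtPlace w x) ^ 2 := by
      funext p
      rw [qf_eq]
      refine Finset.sum_congr rfl fun w _ => ?_
      rw [normAtPlace_sc]
    rw [h2]
    refine continuous_finsetSum _ fun w _ => ?_
    exact (((Real.continuous_exp.comp ((yl_continuous w).comp continuous_fst)).mul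
      continuous_const).pow 2)
  have h3 : Measurable fun p : (Fin (Units.rank F) → ℝ) × ℝ => qf (sc (yl F p.1) x) :=
    h1.measurable
  exact ((Real.measurable_exp.comp ((((measurable_snd.pow_const 2).mul h3).const_mul
    Real.pi).neg)).mul (measurable_snd.pow_const _)).ennreal_ofReal

theorem AUnf_cubes {r : ℕ} (f : (Fin r → ℝ) → ℝ≥0∞) :
    ∫⁻ c, f c = ∑' k : Fin r → ℤ, ∫⁻ c in Icc (0 : Fin r → ℝ) 1, f (c + fun i => (k i : ℝ)) := by
  let S : (Fin r → ℤ) → Set (Fin r → ℝ) := fun k => pi univ fun i => Ico (k i : ℝ) ((k i : ℝ) + 1)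
  have hS : ∀ k, MeasurableSet (S k) := fun k =>
    MeasurableSet.univ_pi fun i => measurableSet_Ico
  have hmem : ∀ k c, c ∈ S k ↔ ∀ i, ⌊c i⌋ = k i := by
    intro k c
    constructor
    · intro h i
      exact Int.floor_eq_iff.2 (h i (mem_univ i))
    · intro h i _
      exact Int.floor_eq_iff.1 (h i)
  have hd : Pairwise (Function.onFun Disjoint S) := by
    intro k l hkl
    rw [Function.onFun, Set.disjoint_left]
    intro c hc hc'
    apply hkl
    funext i
    rw [← (hmem k c).1 hc i, (hmem l c).1 hc' i]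
  have hu : (⋃ k, S k) = univ := by
    rw [eq_univ_iff_forall]
    intro c
    rw [mem_iUnion]
    exact ⟨fun i => ⌊c i⌋, (hmem _ c).2 fun i => rfl⟩
  rw [← setLIntegral_univ, ← hu, lintegral_iUnion hS hd]
  refine tsum_congr fun k => ?_
  have hmp : MeasurePreserving (fun c : Fin r → ℝ => c + fun i => (k i : ℝ)) volume volume :=
    measurePreserving_add_right _ _
  have he : MeasurableEmbedding (fun c : Fin r → ℝ => c + fun i => (k i : ℝ)) :=
    measurableEmbedding_addRight _
  have h1 := hmp.setLIntegral_comp_preimage_emb he f (S k)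
  rw [← h1]
  have h2 : (fun c : Fin r → ℝ => c + fun i => (k i : ℝ)) ⁻¹' (S k) =
      pi univ fun i => Ico ((0 : Fin r → ℝ) i) ((1 : Fin r → ℝ) i) := by
    ext c
    simp only [S, mem_preimage, mem_pi, mem_univ, forall_const, mem_Ico, Pi.add_apply,
      Pi.zero_apply, Pi.one_apply]
    refine forall_congr' fun i => ?_
    constructor
    · rintro ⟨h, h'⟩
      exact ⟨by linarith, by linarith⟩
    · rintro ⟨h, h'⟩
      exact ⟨by linarith, by linarith⟩
  rw [h2]
  exact setLIntegral_congr Measure.univ_pi_Ico_ae_eq_Icc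

/-- Multiplication by a unit on the nonzero elements of `J`. -/
def AUnf_mul (J : (Ideal (𝓞 F))⁰) (u : (𝓞 F)ˣ) : Pts J ≃ Pts J where
  toFun a := ⟨u * a.1, mul_ne_zero u.ne_zero a.2.1, Ideal.mul_mem_left _ _ a.2.2⟩
  invFun a := ⟨(u⁻¹ : (𝓞 F)ˣ) * a.1, mul_ne_zero (Units.ne_zero _) a.2.1,
    Ideal.mul_mem_left _ _ a.2.2⟩
  left_inv a := by
    apply Subtype.ext
    simp
  right_inv a := by
    apply Subtype.ext
    simp

theorem AUnf_emb (J : (Ideal (𝓞 F))⁰) (u : (𝓞 F)ˣ) (a : Pts J) :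
    mixedEmbedding F ((AUnf_mul F J u a).1 : F) = u • mixedEmbedding F (a.1 : F) := by
  rw [mixedEmbedding.unitSMul_smul, ← map_mul]
  rfl

theorem AUnf_norm (J : (Ideal (𝓞 F))⁰) (a : Pts J) :
    mixedEmbedding.norm (mixedEmbedding F (a.1 : F)) ≠ 0 := by
  rw [mixedEmbedding.norm_eq_norm]
  have h : (a.1 : F) ≠ 0 := by
    exact_mod_cast a.2.1
  simpa using h

theorem AUnf_coord {x : mixedSpace F} (hx : mixedEmbedding.norm x ≠ 0)
    (k : Fin (Units.rank F) → ℤ) (i : Fin (Units.rank F)) :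
    coord F (AUnf_u F k • x) i = coord F x i + k i :=
  PhiC_coord F hx (AUnf_u F k) 1 (torsion F).one_mem k (by rw [one_mul]; rfl) i

theorem AUnf_one {x : mixedSpace F} :
    ∑' k : Fin (Units.rank F) → ℤ, ENNReal.ofReal (∏ i, T (coord F x i - k i)) = 1 := by
  have h := hasSum_prod_T (Units.rank F) (coord F x)
  have h1 : HasSum (fun k : Fin (Units.rank F) → ℤ => ∏ i, T (coord F x i - k i)) 1 := by
    rw [← (Equiv.neg (Fin (Units.rank F) → ℤ)).hasSum_iff]
    convert h using 1
    funext k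
    simp [sub_neg_eq_add]
  rw [← ENNReal.ofReal_tsum_of_nonneg (fun k => Finset.prod_nonneg fun i _ => T_nonneg _)
    h1.summable, h1.tsum_eq, ENNReal.ofReal_one]

theorem AUnf_countable (J : (Ideal (𝓞 F))⁰) : Countable (Pts J) := by
  have h : Countable (𝓞 F) :=
    (RingOfIntegers.basis F).equivFun.toEquiv.injective.countable
  exact Subtype.countable

theorem unfolding (J : (Ideal (𝓞 F))⁰) (σ : ℝ) :
    ∑' a : Pts J, ENNReal.ofReal (phi F (mixedEmbedding F (a.1 : F))) *
      HH σ (mixedEmbedding F (a.1 : F)) =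
    ∫⁻ c in Icc (0 : Fin (Units.rank F) → ℝ) 1,
      ∑' b : Pts J, GG σ (sc (yl F c) (mixedEmbedding F (b.1 : F))) := by
  have h1 : ∀ a : Pts J, ENNReal.ofReal (phi F (mixedEmbedding F (a.1 : F))) *
      HH σ (mixedEmbedding F (a.1 : F)) =
      ∑' k : Fin (Units.rank F) → ℤ, ENNReal.ofReal (phi F (mixedEmbedding F (a.1 : F))) *
        ∫⁻ c in Icc (0 : Fin (Units.rank F) → ℝ) 1,
          GG σ (sc (yl F c) (AUnf_u F k • mixedEmbedding F (a.1 : F))) := by
    intro a
    have h3 : HH σ (mixedEmbedding F (a.1 : F)) = ∑' k : Fin (Units.rank F) → ℤ,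
        ∫⁻ c in Icc (0 : Fin (Units.rank F) → ℝ) 1,
          GG σ (sc (yl F c) (AUnf_u F k • mixedEmbedding F (a.1 : F))) := by
      unfold HH
      rw [AUnf_cubes]
      refine tsum_congr fun k => ?_
      refine lintegral_congr fun c => ?_
      exact AUnf_GG F σ c k _
    rw [ENNReal.tsum_mul_left, h3]
  rw [tsum_congr h1, ENNReal.tsum_comm]
  have h2 : ∀ k : Fin (Units.rank F) → ℤ,
      ∑' a : Pts J, ENNReal.ofReal (phi F (mixedEmbedding F (a.1 : F))) *
        ∫⁻ c in Icc (0 : Fin (Units.rank F) → ℝ) 1,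
          GG σ (sc (yl F c) (AUnf_u F k • mixedEmbedding F (a.1 : F))) =
      ∑' b : Pts J, ENNReal.ofReal (∏ i, T (coord F (mixedEmbedding F (b.1 : F)) i - k i)) *
        ∫⁻ c in Icc (0 : Fin (Units.rank F) → ℝ) 1,
          GG σ (sc (yl F c) (mixedEmbedding F (b.1 : F))) := by
    intro k
    refine Eq.trans ?_ ((AUnf_mul F J (AUnf_u F k)).tsum_eq _)
    refine tsum_congr fun a => ?_
    rw [AUnf_emb]
    congr 2
    unfold phi
    rw [if_neg (AUnf_norm F J a)]
    refine Finset.prod_congr rfl fun i _ => ?_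
    rw [AUnf_coord F (AUnf_norm F J a), add_sub_cancel_right]
  rw [tsum_congr h2, ENNReal.tsum_comm]
  have hc := AUnf_countable F J
  rw [lintegral_tsum fun b => (AUnf_meas F σ _).aemeasurable]
  refine tsum_congr fun b => ?_
  rw [ENNReal.tsum_mul_right, AUnf_one, one_mul]

end Pool.Agent.DZ74
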