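import Pool.Agent.W_7742k_h74.ACon
import Pool.Agent.W_7742k_h74.ATh
import Pool.Agent.W_7742k_h74.AMat
import Pool.Agent.W_7742k_h74.AUnf

/-! # The sum over an ideal

With `g, D, m, e` from `exists_matrix` and `ν` the restriction of the Lebesgue measure to the cube
`[0, 1]^r`: `∑_b GG σ (sc (yl c) b) = ∫_{t > 0} Th (t • g c) t ^ (n σ - 1)` (Tonelli), so by `unfolding`
and `hh_eq` (`norm (mixedEmbedding a) ≠ 0` for `a ≠ 0`) `EE ν g σ = CC σ * ∑_a phi a (norm a) ^ (-σ)` in
`[0, ∞]`.  For `σ > 1` this is finite (`theta_ext`), so the sum is the real sum `SJ`.  The function is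
`G σ / (CC σ).toReal`. -/

set_option autoImplicit false

noncomputable section

open scoped Classical

namespace Pool.Agent.DZ74

open MeasureTheory Set NumberField NumberField.mixedEmbedding NumberField.Units
open Pool.Agent.Cheb Pool.Agent.GL74
open scoped ENNReal nonZeroDivisors

variable (F : Type) [Field F] [NumberField F]

theorem ASer_inner (J : (Ideal (𝓞 F))⁰) (σ : ℝ) (g : (Fin (Units.rank F) → ℝ) → X (Module.finrank ℚ F))
    (e : {v : Fin (Module.finrank ℚ F) → ℤ // v ≠ 0} ≃ Pts J)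
    (he : ∀ c v (t : ℝ), gs (rv (zr v.1) (t • g c)) = Real.exp (-(Real.pi * (t ^ 2 *
          qf (sc (yl F c) (mixedEmbedding F ((e v).1 : F))))))) (c : Fin (Units.rank F) → ℝ) :
    (∫⁻ t in Ioi (0 : ℝ), Th (t • g c) *
        ENNReal.ofReal (t ^ ((Module.finrank ℚ F : ℝ) * σ - 1))) =
      ∑' b : Pts J, GG σ (sc (yl F c) (mixedEmbedding F (b.1 : F))) := by
  have hc := AUnf_countable F J
  have h1 : ∀ t : ℝ, Th (t • g c) * ENNReal.ofReal (t ^ ((Module.finrank ℚ F : ℝ) * σ - 1)) =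
      ∑' b : Pts J, ENNReal.ofReal (Real.exp (-(Real.pi * (t ^ 2 *
        qf (sc (yl F c) (mixedEmbedding F (b.1 : F)))))) *
        t ^ ((Module.finrank ℚ F : ℝ) * σ - 1)) := by
    intro t
    unfold Th
    rw [← ENNReal.tsum_mul_right]
    rw [← e.tsum_eq (fun b : Pts J => ENNReal.ofReal (Real.exp (-(Real.pi * (t ^ 2 *
        qf (sc (yl F c) (mixedEmbedding F (b.1 : F)))))) *
        t ^ ((Module.finrank ℚ F : ℝ) * σ - 1)))]
    refine tsum_congr fun v => ?_
    rw [he c v t, ENNReal.ofReal_mul (Real.exp_nonneg _)]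
  rw [lintegral_congr h1, lintegral_tsum]
  · rfl
  · intro b
    refine Measurable.aemeasurable ?_
    fun_prop

theorem class_ext (J : (Ideal (𝓞 F))⁰) : ∃ g : ℝ → ℝ, (∀ σ : ℝ, 0 < σ → AnalyticAt ℝ g σ) ∧
    ∀ σ : ℝ, 1 < σ → g σ = (σ - 1) * SJ F J σ := by
  obtain ⟨g, D, m, hgm, hD, hm, hdet, h1, h2, e, he⟩ := exists_matrix F J
  have hfin : IsFiniteMeasure ((volume : Measure (Fin (Units.rank F) → ℝ)).restrict (Icc 0 1)) :=
    ⟨by rw [Measure.restrict_apply_univ]; exact isCompact_Icc.measure_lt_top⟩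
  obtain ⟨G, hG1, hG2⟩ := theta_ext (n := Module.finrank ℚ F) Module.finrank_pos
    ((volume : Measure (Fin (Units.rank F) → ℝ)).restrict (Icc 0 1)) hgm hD hm
    (Filter.Eventually.of_forall hdet) ((ae_restrict_mem measurableSet_Icc).mono h1)
    ((ae_restrict_mem measurableSet_Icc).mono h2)
  refine ⟨fun σ => G σ / (CC F σ).toReal, ?_, ?_⟩
  · intro σ hσ
    exact (hG1 σ hσ).div (cc_analytic F hσ)
      (ENNReal.toReal_ne_zero.2 ⟨cc_ne_zero F σ, cc_ne_top F hσ⟩)
  · intro σ hσ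
    obtain ⟨h3, h4⟩ := hG2 σ hσ
    have hC0 : (CC F σ).toReal ≠ 0 :=
      ENNReal.toReal_ne_zero.2 ⟨cc_ne_zero F σ, cc_ne_top F (by linarith)⟩
    have h5 : EE ((volume : Measure (Fin (Units.rank F) → ℝ)).restrict (Icc 0 1)) g σ =
        (∑' a : Pts J, ENNReal.ofReal (phi F (mixedEmbedding F (a.1 : F)) *
          (mixedEmbedding.norm (mixedEmbedding F (a.1 : F))) ^ (-σ))) * CC F σ := by
      unfold EE
      rw [lintegral_congr (ASer_inner F J σ g e he), ← unfolding, ← ENNReal.tsum_mul_right]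
      refine tsum_congr fun a => ?_
      rw [hh_eq σ (AUnf_norm F J a), ENNReal.ofReal_mul (phi_nonneg F _), mul_assoc]
    have h6 : (∑' a : Pts J, ENNReal.ofReal (phi F (mixedEmbedding F (a.1 : F)) *
          (mixedEmbedding.norm (mixedEmbedding F (a.1 : F))) ^ (-σ))).toReal = SJ F J σ := by
      rw [ENNReal.tsum_toReal_eq (fun a => ENNReal.ofReal_ne_top)]
      unfold SJ
      refine tsum_congr fun a => ?_
      rw [ENNReal.toReal_ofReal]
      exact mul_nonneg (phi_nonneg F _) (Real.rpow_nonneg (mixedEmbedding.norm_nonneg _) _)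
    change G σ / (CC F σ).toReal = _
    rw [h4, h5, ENNReal.toReal_mul, h6]
    field_simp

end Pool.Agent.DZ74
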