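import Pool.Agent.W_7742k_h74.ADef
import Pool.Agent.Chebotarev_h15.Sum

/-! # The Dedekind zeta function as a sum over ideals

`dedekindZeta F s` is the `L`-series with coefficients the numbers of ideals of norm `n`
(`LSeries`; the term for `n = 0` is zero).  `summable_ideals` (Chebotarev_h15/Sum.lean), fibres of the
norm (`Summable.tsum_sigma` or `Equiv.sigmaFiberEquiv`; finitely many ideals of given norm,
`Ideal.finite_setOf_absNorm_eq`). -/

set_option autoImplicit false

noncomputable section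

namespace Pool.Agent.DZ74

open NumberField
open scoped nonZeroDivisors

variable (F : Type) [Field F] [NumberField F]

/-- The ideals of norm `n > 0` are the nonzero ideals of norm `n`. -/
def AZId_equiv (n : ℕ) (hn : n ≠ 0) :
    {I : (Ideal (𝓞 F))⁰ // Ideal.absNorm (I : Ideal (𝓞 F)) = n} ≃
      {I : Ideal (𝓞 F) // Ideal.absNorm I = n} where
  toFun I := ⟨I.1.1, I.2⟩
  invFun I := ⟨⟨I.1, mem_nonZeroDivisors_of_ne_zero (fun h => hn (by
    rw [← I.2, h]
    exact Ideal.absNorm_bot))⟩, I.2⟩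
  left_inv I := by ext; rfl
  right_inv I := by ext; rfl

theorem zeta_ideals {σ : ℝ} (hσ : 1 < σ) : dedekindZeta F (σ : ℂ) =
    ((∑' I : (Ideal (𝓞 F))⁰, (Ideal.absNorm (I : Ideal (𝓞 F)) : ℝ) ^ (-σ) : ℝ) : ℂ) := by
  have hs := Pool.Agent.Cheb.summable_ideals F hσ
  set nm : (Ideal (𝓞 F))⁰ → ℕ := fun I => Ideal.absNorm (I : Ideal (𝓞 F)) with hnm
  set f : (Ideal (𝓞 F))⁰ → ℝ := fun I => (nm I : ℝ) ^ (-σ) with hf
  have h1 : Summable (f ∘ (Equiv.sigmaFiberEquiv nm)) :=
    (Equiv.sigmaFiberEquiv nm).summable_iff.2 hs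
  have h2 : ∑' I, f I = ∑' n : ℕ, ∑' I : {I // nm I = n}, f I.1 := by
    rw [← (Equiv.sigmaFiberEquiv nm).tsum_eq f]
    exact h1.tsum_sigma
  have h3 : ∀ n : ℕ, ∑' I : {I // nm I = n}, f I.1 =
      (Nat.card {I // nm I = n} : ℝ) * (n : ℝ) ^ (-σ) := by
    intro n
    have h4 : ∀ I : {I // nm I = n}, f I.1 = (n : ℝ) ^ (-σ) := fun I => by
      rw [hf]; simp only; rw [I.2]
    rw [tsum_congr h4, tsum_const, nsmul_eq_mul]
  change _ = ((∑' I, f I : ℝ) : ℂ)
  rw [h2, tsum_congr h3, Complex.ofReal_tsum]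
  unfold dedekindZeta LSeries
  refine tsum_congr fun n => ?_
  rcases Nat.eq_zero_or_pos n with h0 | h0
  · have h5 : Nat.card {I // nm I = n} = 0 := by
      rw [Nat.card_eq_zero]
      left
      refine ⟨fun I => ?_⟩
      have h6 : nm I.1 = 0 := I.2.trans h0
      exact nonZeroDivisors.ne_zero I.1.2 (Ideal.absNorm_eq_zero_iff.1 h6)
    rw [h5, h0]
    simp
  · have h7 : Nat.card {I // nm I = n} = Nat.card {I : Ideal (𝓞 F) // Ideal.absNorm I = n} :=
      Nat.card_congr (AZId_equiv F n h0.ne')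
    rw [LSeries.term_of_ne_zero h0.ne', h7]
    push_cast
    rw [div_eq_mul_inv, ← Complex.cpow_neg]
    congr 1
    rw [Complex.ofReal_cpow (by positivity)]
    push_cast
    rfl

end Pool.Agent.DZ74
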