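import Pool.Agent.W_7742k_h74.ASer
import Pool.Agent.W_7742k_h74.AZId
import Pool.Agent.Chebotarev_h15.ClC
import Pool.Agent.Chebotarev_h15.NormMod

/-! # The analytic continuation of the Dedekind zeta function to the positive real axis

`Lser_eq` (Chebotarev_h15/ClC.lean) for `m = 1` and the trivial character `1`:
`∑_I N(I) ^ (-σ) = (torsionOrder F)⁻¹ ∑_C N(J C) ^ σ SJ (J C) σ` for `σ > 1`
(`Lterm_prin` in NormMod.lean, `Asum`, ideals `J C` with `mk0 (J C) = C⁻¹` from
`exists_coprime_rep` in ClA.lean).  So `g σ = (torsionOrder F)⁻¹ ∑_C N(J C) ^ σ g_C σ` with `g_C` from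
`class_ext`.  `g 1` is the limit of `(σ - 1) ζ_F(σ)` for `σ → 1+`, the residue, which is positive
(`NumberField.tendsto_sub_one_mul_dedekindZeta_nhdsGT`, `dedekindZeta_residue_pos`). -/

set_option autoImplicit false

noncomputable section

open scoped Classical

namespace Pool.Agent.DZ74

open NumberField Pool.Agent.Cheb
open scoped nonZeroDivisors

variable (F : Type) [Field F] [NumberField F]

theorem AZet_zeta {σ : ℝ} (hσ : 1 < σ) :
    dedekindZeta F (σ : ℂ) = Lser F (1 : DirichletCharacter ℂ 1) σ := by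
  rw [zeta_ideals F hσ, Complex.ofReal_tsum]
  unfold Lser
  refine tsum_congr fun I => ?_
  unfold Lterm
  rw [MulChar.one_apply (isUnit_of_subsingleton _), one_mul]

theorem AZet_asum (J : (Ideal (𝓞 F))⁰) (σ : ℝ) :
    Asum F (1 : DirichletCharacter ℂ 1) J σ =
      (((Ideal.absNorm (J : Ideal (𝓞 F)) : ℝ) ^ σ * SJ F J σ : ℝ) : ℂ) := by
  unfold Asum SJ
  rw [Complex.ofReal_mul, Complex.ofReal_tsum]
  congr 1
  refine tsum_congr fun a => ?_
  rw [Lterm_prin, MulChar.one_apply (isUnit_of_subsingleton _), one_mul, Complex.ofReal_mul]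

theorem exists_zetaExt : ∃ g : ℝ → ℝ, ZetaExt F g ∧ 0 < g 1 := by
  choose J hJ hcop using fun C : ClassGroup (𝓞 F) => exists_coprime_rep F 1 C
  choose gC hA hE using fun C : ClassGroup (𝓞 F) => class_ext F (J C)
  set g : ℝ → ℝ := fun σ => (NumberField.Units.torsionOrder F : ℝ)⁻¹ *
    ∑ C, (Ideal.absNorm (J C : Ideal (𝓞 F)) : ℝ) ^ σ * gC C σ with hg
  have hpos : ∀ C, (0 : ℝ) < (Ideal.absNorm (J C : Ideal (𝓞 F)) : ℝ) := fun C => by
    have h := ClC_absNorm_ne F (J C)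
    positivity
  have han : ∀ σ : ℝ, 0 < σ → AnalyticAt ℝ g σ := by
    intro σ hσ
    refine AnalyticAt.mul analyticAt_const ?_
    refine Finset.analyticAt_fun_sum _ fun C _ => ?_
    have h1 : (fun σ : ℝ => (Ideal.absNorm (J C : Ideal (𝓞 F)) : ℝ) ^ σ) =
        fun σ : ℝ => Real.exp (Real.log (Ideal.absNorm (J C : Ideal (𝓞 F)) : ℝ) * σ) := by
      funext τ
      rw [Real.rpow_def_of_pos (hpos C)]
    have h2 : AnalyticAt ℝ (fun σ : ℝ => (Ideal.absNorm (J C : Ideal (𝓞 F)) : ℝ) ^ σ) σ := by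
      rw [h1]
      exact (analyticAt_const.mul analyticAt_id).rexp
    exact h2.mul (hA C σ hσ)
  have hz : ∀ σ : ℝ, 1 < σ → (g σ : ℂ) = ((σ : ℂ) - 1) * dedekindZeta F (σ : ℂ) := by
    intro σ hσ
    rw [AZet_zeta F hσ, Lser_eq F 1 1 J hJ hcop hσ, hg]
    simp only
    rw [Complex.ofReal_mul, Complex.ofReal_sum, Complex.ofReal_inv, mul_left_comm,
      Complex.ofReal_natCast]
    congr 1
    rw [Finset.mul_sum]
    refine Finset.sum_congr rfl fun C _ => ?_
    rw [AZet_asum, MulChar.one_apply (isUnit_of_subsingleton _), inv_one, one_mul, hE C σ hσ]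
    push_cast
    ring
  refine ⟨g, ⟨han, hz⟩, ?_⟩
  have hc : Filter.Tendsto g (nhdsWithin 1 (Set.Ioi 1)) (nhds (g 1)) :=
    (han 1 one_pos).continuousAt.tendsto.mono_left nhdsWithin_le_nhds
  have hc2 : Filter.Tendsto (fun σ : ℝ => (g σ : ℂ)) (nhdsWithin 1 (Set.Ioi 1))
      (nhds ((g 1 : ℝ) : ℂ)) :=
    (Complex.continuous_ofReal.tendsto _).comp hc
  have hr := tendsto_sub_one_mul_dedekindZeta_nhdsGT F
  have hr2 : Filter.Tendsto (fun σ : ℝ => (g σ : ℂ)) (nhdsWithin 1 (Set.Ioi 1))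
      (nhds ((dedekindZeta_residue F : ℝ) : ℂ)) := by
    refine hr.congr' ?_
    filter_upwards [self_mem_nhdsWithin] with σ hσ
    exact (hz σ hσ).symm
  have he : ((g 1 : ℝ) : ℂ) = ((dedekindZeta_residue F : ℝ) : ℂ) :=
    tendsto_nhds_unique hc2 hr2
  have he2 : g 1 = dedekindZeta_residue F := by exact_mod_cast he
  rw [he2]
  exact dedekindZeta_residue_pos F

end Pool.Agent.DZ74
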