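import Pool.Agent.W_7742k_h74.BDef

/-! # The residue field of the ring of all algebraic integers

`exists_residue`: `κ = Zbar ℚ ⧸ 𝔓` is a domain, integral over `ZMod p`, so a field (or: `𝔓` is maximal,
`Zbar ℚ` is integral over `ℤ`); a monic polynomial of positive degree over `κ` lifts to a monic
polynomial over `Zbar ℚ`, it has a root in `AlgebraicClosure ℚ`, which is integral over `Zbar ℚ`, so over
`ℤ`, so in `Zbar ℚ`; its image is a root.

`exists_extend`: lying over for the integral extension `oi i` (the kernel of `φ` is a prime `P`,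
`𝔔` a prime of `Zbar ℚ` over `P`), `Zbar ℚ ⧸ 𝔔` is algebraic over `𝓞 F ⧸ P`, `IsAlgClosed.lift`
(`𝓞 F ⧸ P` is a domain, pass to the fraction fields, or see that both are fields unless `P = 0`; in
characteristic `p` they are fields). -/

set_option autoImplicit false

noncomputable section

open scoped Classical

namespace Pool.Agent.DZ74

open NumberField IsDedekindDomain Pool.Agent.Cheb

theorem BKap_integral : Algebra.IsIntegral ℤ (Zbar ℚ) :=
  integralClosure.AlgebraIsIntegral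

theorem BKap_root (q : Polynomial (Zbar ℚ)) (hq : q.Monic) (hd : q.natDegree ≠ 0) :
    ∃ x : Zbar ℚ, q.eval x = 0 := by
  have hI : Algebra.IsIntegral ℤ (Zbar ℚ) := BKap_integral
  have h1 : (q.map (algebraMap (Zbar ℚ) (AlgebraicClosure ℚ))).degree ≠ 0 := by
    rw [Polynomial.degree_map_eq_of_injective Subtype.val_injective]
    intro h
    exact hd (Polynomial.natDegree_eq_of_degree_eq_some h)
  obtain ⟨y, hy⟩ := IsAlgClosed.exists_root _ h1
  have h2 : IsIntegral (Zbar ℚ) y := by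
    refine ⟨q, hq, ?_⟩
    rw [Polynomial.IsRoot.def, Polynomial.eval_map] at hy
    exact hy
  have h3 : IsIntegral ℤ y := isIntegral_trans y h2
  refine ⟨⟨y, h3⟩, ?_⟩
  apply Subtype.ext
  rw [Polynomial.IsRoot.def, Polynomial.eval_map] at hy
  have h4 := Polynomial.hom_eval₂ q (RingHom.id (Zbar ℚ))
    (algebraMap (Zbar ℚ) (AlgebraicClosure ℚ)) ⟨y, h3⟩
  rw [RingHom.comp_id] at h4
  have h5 : (q.eval (⟨y, h3⟩ : Zbar ℚ)) = Polynomial.eval₂ (RingHom.id (Zbar ℚ)) ⟨y, h3⟩ q := rfl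
  rw [h5]
  exact h4.trans hy

theorem BKap_maximal {p : ℕ} (hp : p.Prime) (𝔓 : Ideal (Zbar ℚ)) (h : 𝔓.IsPrime)
    (h1 : (p : Zbar ℚ) ∈ 𝔓) : 𝔓.IsMaximal := by
  have hI : Algebra.IsIntegral ℤ (Zbar ℚ) := BKap_integral
  refine Ideal.isMaximal_of_isIntegral_of_isMaximal_comap (R := ℤ) 𝔓 ?_
  have h2 : (𝔓.comap (algebraMap ℤ (Zbar ℚ))).IsPrime := Ideal.comap_isPrime _ _
  refine Ideal.IsPrime.isMaximal h2 ?_
  intro h3
  have h4 : (p : ℤ) ∈ 𝔓.comap (algebraMap ℤ (Zbar ℚ)) := by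
    rw [Ideal.mem_comap, map_natCast]
    exact h1
  rw [h3, Ideal.mem_bot] at h4
  exact hp.ne_zero (by exact_mod_cast h4)

theorem exists_residue {p : ℕ} (hp : p.Prime) (𝔓 : Ideal (Zbar ℚ)) (h : 𝔓.IsPrime)
    (h1 : (p : Zbar ℚ) ∈ 𝔓) :
    ∃ (κ : Type) (_ : Field κ) (_ : IsAlgClosed κ) (_ : CharP κ p) (π : Zbar ℚ →+* κ),
      Function.Surjective π ∧ ∀ x, π x = 0 ↔ x ∈ 𝔓 := by
  have hM : 𝔓.IsMaximal := BKap_maximal hp 𝔓 h h1
  let _ : Field (Zbar ℚ ⧸ 𝔓) := Ideal.Quotient.field 𝔓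
  refine ⟨Zbar ℚ ⧸ 𝔓, inferInstance, ?_, ?_, Ideal.Quotient.mk 𝔓,
    Ideal.Quotient.mk_surjective, fun x => Ideal.Quotient.eq_zero_iff_mem⟩
  · refine IsAlgClosed.of_exists_root _ fun f hf hi => ?_
    have hl : f ∈ Polynomial.lifts (Ideal.Quotient.mk 𝔓) := by
      rw [Polynomial.lifts_iff_coeff_lifts]
      intro n
      exact Ideal.Quotient.mk_surjective _
    obtain ⟨q, hq1, hq2, hq3⟩ := Polynomial.lifts_and_natDegree_eq_and_monic hl hf
    obtain ⟨x, hx⟩ := BKap_root q hq3 (by rw [hq2]; exact hi.natDegree_pos.ne')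
    refine ⟨Ideal.Quotient.mk 𝔓 x, ?_⟩
    rw [← hq1, Polynomial.eval_map, Polynomial.eval₂_at_apply, hx, map_zero]
  · refine (CharP.charP_iff_prime_eq_zero hp).2 ?_
    have h2 : ((p : ℕ) : Zbar ℚ ⧸ 𝔓) = Ideal.Quotient.mk 𝔓 (p : Zbar ℚ) := by
      rw [map_natCast]
    rw [h2]
    exact Ideal.Quotient.eq_zero_iff_mem.2 h1

theorem BKap_oi_integral {F : Type} [Field F] [NumberField F] (i : F →+* AlgebraicClosure ℚ) :
    (oi i).IsIntegral := by
  intro x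
  have hI : Algebra.IsIntegral ℤ (Zbar ℚ) := BKap_integral
  obtain ⟨p, hp, hp'⟩ := Algebra.IsIntegral.isIntegral (R := ℤ) x
  refine ⟨p.map (algebraMap ℤ (𝓞 F)), hp.map _, ?_⟩
  rw [Polynomial.eval₂_map]
  have h2 : (oi i).comp (algebraMap ℤ (𝓞 F)) = algebraMap ℤ (Zbar ℚ) := RingHom.ext_int _ _
  rw [h2]
  exact hp'

theorem BKap_oi_injective {F : Type} [Field F] [NumberField F] (i : F →+* AlgebraicClosure ℚ) :
    Function.Injective (oi i) := by
  intro a b hab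
  have h1 : i (a : F) = i (b : F) := by
    rw [← oi_coe, ← oi_coe, hab]
  exact RingOfIntegers.ext (i.injective h1)

theorem exists_extend {F : Type} [Field F] [NumberField F] (i : F →+* AlgebraicClosure ℚ)
    {p : ℕ} (hp : p.Prime) (κ : Type) [Field κ] [IsAlgClosed κ] [CharP κ p] (φ : 𝓞 F →+* κ) :
    ∃ ψ : Zbar ℚ →+* κ, ∀ x, ψ (oi i x) = φ x := by
  let _ : Algebra (𝓞 F) (Zbar ℚ) := (oi i).toAlgebra
  have hint : Algebra.IsIntegral (𝓞 F) (Zbar ℚ) := ⟨BKap_oi_integral i⟩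
  have hP : (RingHom.ker φ).IsPrime := RingHom.ker_isPrime φ
  obtain ⟨Q, -, hQ, hQ'⟩ := Ideal.exists_ideal_over_prime_of_isIntegral (RingHom.ker φ)
    (⊥ : Ideal (Zbar ℚ)) (by
      intro a ha
      rw [Ideal.mem_comap, Ideal.mem_bot] at ha
      have h1 : a = 0 := BKap_oi_injective i (by
        rw [map_zero]
        exact ha)
      rw [h1]
      exact (RingHom.ker φ).zero_mem)
  have hcomap : Q.comap (oi i) = RingHom.ker φ := hQ'
  -- the quotient rings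
  let g : (𝓞 F ⧸ RingHom.ker φ) →+* (Zbar ℚ ⧸ Q) :=
    Ideal.quotientMap Q (oi i) hcomap.ge
  have hg : Function.Injective g := Ideal.quotientMap_injective' hcomap.le
  let _ : Algebra (𝓞 F ⧸ RingHom.ker φ) (Zbar ℚ ⧸ Q) := g.toAlgebra
  let _ : Algebra (𝓞 F ⧸ RingHom.ker φ) κ := (RingHom.kerLift φ).toAlgebra
  have hg' : Function.Injective (algebraMap (𝓞 F ⧸ RingHom.ker φ) (Zbar ℚ ⧸ Q)) := hg
  have hk' : Function.Injective (algebraMap (𝓞 F ⧸ RingHom.ker φ) κ) :=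
    RingHom.kerLift_injective φ
  have hD : IsDomain (𝓞 F ⧸ RingHom.ker φ) := Ideal.Quotient.isDomain _
  have hD2 : IsDomain (Zbar ℚ ⧸ Q) := Ideal.Quotient.isDomain _
  have hf1 : Module.IsTorsionFree (𝓞 F ⧸ RingHom.ker φ) (Zbar ℚ ⧸ Q) := by
    have : FaithfulSMul (𝓞 F ⧸ RingHom.ker φ) (Zbar ℚ ⧸ Q) :=
      (faithfulSMul_iff_algebraMap_injective _ _).2 hg'
    infer_instance
  have hf2 : Module.IsTorsionFree (𝓞 F ⧸ RingHom.ker φ) κ := by
    have : FaithfulSMul (𝓞 F ⧸ RingHom.ker φ) κ :=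
      (faithfulSMul_iff_algebraMap_injective _ _).2 hk'
    infer_instance
  have hI2 : Algebra.IsIntegral (𝓞 F ⧸ RingHom.ker φ) (Zbar ℚ ⧸ Q) := by
    refine ⟨fun x => ?_⟩
    obtain ⟨y, rfl⟩ := Ideal.Quotient.mk_surjective x
    obtain ⟨q, hq1, hq2⟩ := BKap_oi_integral i y
    refine ⟨q.map (Ideal.Quotient.mk _), hq1.map _, ?_⟩
    rw [Polynomial.eval₂_map]
    have h2 : (algebraMap (𝓞 F ⧸ RingHom.ker φ) (Zbar ℚ ⧸ Q)).comp
        (Ideal.Quotient.mk (RingHom.ker φ)) = (Ideal.Quotient.mk Q).comp (oi i) := by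
      ext a
      rfl
    rw [h2, ← Polynomial.hom_eval₂, hq2, map_zero]
  let L : (Zbar ℚ ⧸ Q) →ₐ[𝓞 F ⧸ RingHom.ker φ] κ := IsAlgClosed.lift
  refine ⟨(L : (Zbar ℚ ⧸ Q) →+* κ).comp (Ideal.Quotient.mk Q), fun x => ?_⟩
  have h3 : L (algebraMap (𝓞 F ⧸ RingHom.ker φ) (Zbar ℚ ⧸ Q) (Ideal.Quotient.mk _ x)) =
      algebraMap (𝓞 F ⧸ RingHom.ker φ) κ (Ideal.Quotient.mk _ x) := L.commutes _
  exact h3

end Pool.Agent.DZ74
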