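import Pool.Agent.W_7742k_h74.BDef

/-! # Two homomorphisms which agree on the fixed points of a subgroup

`A` the subring of the `x : Zbar ℚ` fixed by `H` (`FixedPoints.subring` or by hand), `B = Zbar ℚ`, the
profinite group `H` acts on `B` with `A` as the ring of the invariants, continuously for the discrete
topology of `B` (see `Cheb.AppA2_main` in Chebotarev_h15/AppA2.lean for the instances with the whole
group).  The kernels of `ψ` and `π` lie over the same prime of `A`, so
(`Ideal.exists_smul_of_under_eq_of_profinite` in `Mathlib/RingTheory/Invariant/Profinite.lean`) there is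
`h ∈ H` such that `ψ' x = ψ (h • x)` has the same kernel as `π`.  As `π` is surjective, `ψ' = τ ∘ π`
for a homomorphism `τ : κ → κ` which is the identity on the image of `A`; `κ` is algebraic over this image,
so `τ` is bijective; by `Ideal.Quotient.stabilizerHom_surjective_of_profinite` (with `Q` the kernel
of `π`, `B ⧸ Q ≃ κ`) there is `h' ∈ H` with `τ (π x) = π (h' • x)`. -/

set_option autoImplicit false

noncomputable section

open scoped Classical

namespace Pool.Agent.DZ74

open NumberField IsDedekindDomain Pool.Agent.Cheb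

theorem BTra_bij (R L : Type) [CommRing R] [IsDomain R] [CommRing L] (hL : IsField L)
    [Algebra R L] [Algebra.IsIntegral R L] (hinj : Function.Injective (algebraMap R L))
    (f : L →ₐ[R] L) : Function.Bijective f := by
  letI : Field L := hL.toField
  haveI : Algebra.IsAlgebraic R L := Algebra.IsIntegral.isAlgebraic
  haveI : Module.IsTorsionFree R L := Module.isTorsionFree_iff_algebraMap_injective.2 hinj
  exact Algebra.IsAlgebraic.algHom_bijective f

theorem BTra_gen (k : Type) [Field k] [NumberField k] (H : Subgroup (AbsGal k))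
    (hH : IsClosed (H : Set (AbsGal k)))
    (κ : Type) [Field κ] (π ψ : Zbar k →+* κ) (hπ : Function.Surjective π)
    (h : ∀ x : Zbar k, (∀ g ∈ H, g • x = x) → ψ x = π x) :
    ∃ g ∈ H, ∀ x, ψ x = π (g • x) := by
  classical
  have hact : ∀ (σ : AbsGal k) (x : Zbar k),
      ((σ • x : Zbar k) : AlgebraicClosure k) = σ (x : AlgebraicClosure k) := fun _ _ => rfl
  let A : Subring (Zbar k) :=
    { carrier := {x | ∀ g ∈ H, g • x = x}
      one_mem' := fun g _ => smul_one g
      zero_mem' := fun g _ => smul_zero g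
      mul_mem' := fun {a b} ha hb g hg => by rw [smul_mul', ha g hg, hb g hg]
      add_mem' := fun {a b} ha hb g hg => by rw [smul_add, ha g hg, hb g hg]
      neg_mem' := fun {a} ha g hg => by rw [smul_neg, ha g hg] }
  have hA : ∀ x : Zbar k, x ∈ A ↔ ∀ g ∈ H, g • x = x := fun _ => Iff.rfl
  haveI : CompactSpace H := isCompact_iff_compactSpace.mp hH.isCompact
  letI : TopologicalSpace (Zbar k) := ⊥
  haveI : DiscreteTopology (Zbar k) := ⟨rfl⟩
  haveI : ContinuousSMul (AbsGal k) (Zbar k) := by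
    rw [continuousSMul_iff_stabilizer_isOpen]
    intro x
    have h1 := stabilizer_isOpen_of_isIntegral (K := k) (x : AlgebraicClosure k)
    convert h1 using 1
    ext σ
    change σ • x = x ↔ σ (x : AlgebraicClosure k) = (x : AlgebraicClosure k)
    rw [← hact, Subtype.ext_iff]
  haveI : ContinuousSMul H (Zbar k) := ⟨by
    have h1 : Continuous fun p : H × Zbar k => ((p.1 : AbsGal k), p.2) := by fun_prop
    exact (continuous_smul (M := AbsGal k) (X := Zbar k)).comp h1⟩
  haveI : SMulCommClass H A (Zbar k) := ⟨fun σ a x => by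
    have h1 : ∀ y : Zbar k, a • y = (a : Zbar k) * y := fun y => rfl
    have h2 : ∀ y : Zbar k, σ • y = (σ : AbsGal k) • y := fun y => rfl
    rw [h1, h1, h2, h2, smul_mul', (hA _).1 a.2 σ σ.2]⟩
  haveI : Algebra.IsInvariant A (Zbar k) H := ⟨fun b hb =>
    ⟨⟨b, fun g hg => hb ⟨g, hg⟩⟩, rfl⟩⟩
  haveI hπp : (RingHom.ker π).IsPrime := RingHom.ker_isPrime π
  haveI hψp : (RingHom.ker ψ).IsPrime := RingHom.ker_isPrime ψ
  have hunder : (RingHom.ker π).under A = (RingHom.ker ψ).under A := by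
    ext a
    change π (a : Zbar k) = 0 ↔ ψ (a : Zbar k) = 0
    rw [h (a : Zbar k) ((hA _).1 a.2)]
  obtain ⟨g, hg⟩ := Algebra.IsInvariant.exists_smul_of_under_eq_of_profinite (G := H)
    (RingHom.ker π) (RingHom.ker ψ) hunder
  have hker : ∀ x : Zbar k, π x = 0 ↔ ψ ((g : AbsGal k) • x) = 0 := by
    intro x
    have h1 : ψ ((g : AbsGal k) • x) = 0 ↔ g • x ∈ RingHom.ker ψ := Iff.rfl
    rw [h1, hg, Ideal.smul_mem_pointwise_smul_iff, RingHom.mem_ker]
  set Q : Ideal (Zbar k) := RingHom.ker π with hQ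
  set P : Ideal A := Q.under A with hP
  haveI : Q.LiesOver P := ⟨rfl⟩
  haveI : Algebra.IsIntegral A (Zbar k) :=
    Algebra.IsInvariant.isIntegral_of_profinite (G := H)
  haveI : Algebra.IsIntegral (A ⧸ P) (Zbar k ⧸ Q) :=
    Ideal.Quotient.algebra_isIntegral_of_liesOver Q P
  let e : (Zbar k ⧸ Q) ≃+* κ := RingHom.quotientKerEquivOfSurjective hπ
  have he : ∀ x : Zbar k, e (Ideal.Quotient.mk Q x) = π x := fun x => rfl
  let ψ' : Zbar k →+* κ := ψ.comp (MulSemiringAction.toRingHom (AbsGal k) (Zbar k) (g : AbsGal k))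
  have hψ' : ∀ x, ψ' x = ψ ((g : AbsGal k) • x) := fun x => rfl
  let τ : (Zbar k ⧸ Q) →+* κ := Ideal.Quotient.lift Q ψ' (fun x hx => (hker x).1 hx)
  have hτ : ∀ x : Zbar k, τ (Ideal.Quotient.mk Q x) = ψ ((g : AbsGal k) • x) := fun x => rfl
  let σ₀ : (Zbar k ⧸ Q) →ₐ[A ⧸ P] (Zbar k ⧸ Q) :=
    { toRingHom := (e.symm : κ →+* (Zbar k ⧸ Q)).comp τ
      commutes' := by
        intro a
        obtain ⟨a, rfl⟩ := Ideal.Quotient.mk_surjective a
        change e.symm (τ (Ideal.Quotient.mk Q (a : Zbar k))) = Ideal.Quotient.mk Q (a : Zbar k)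
        rw [RingEquiv.symm_apply_eq, he, hτ, (hA _).1 a.2 g g.2, h _ ((hA _).1 a.2)] }
  have hσ₀ : ∀ x : Zbar k, e (σ₀ (Ideal.Quotient.mk Q x)) = ψ ((g : AbsGal k) • x) := by
    intro x
    change e (e.symm (τ (Ideal.Quotient.mk Q x))) = _
    rw [RingEquiv.apply_symm_apply, hτ]
  have hbij : Function.Bijective σ₀ := by
    haveI : P.IsPrime := inferInstance
    haveI : IsDomain (A ⧸ P) := Ideal.Quotient.isDomain P
    exact BTra_bij (A ⧸ P) (Zbar k ⧸ Q) (e.toMulEquiv.isField (Field.toIsField κ))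
      Ideal.algebraMap_quotient_injective σ₀
  obtain ⟨s, hs⟩ := Ideal.Quotient.stabilizerHom_surjective_of_profinite (G := H) P Q
    (AlgEquiv.ofBijective σ₀ hbij)
  refine ⟨((s : H) : AbsGal k) * (g : AbsGal k)⁻¹, H.mul_mem (s : H).2 (H.inv_mem g.2), fun x => ?_⟩
  have h1 := DFunLike.congr_fun hs (Ideal.Quotient.mk Q ((g : AbsGal k)⁻¹ • x))
  have h2 : e (Ideal.Quotient.mk Q (((s : H) : AbsGal k) • ((g : AbsGal k)⁻¹ • x))) =
      e (σ₀ (Ideal.Quotient.mk Q ((g : AbsGal k)⁻¹ • x))) := congrArg e h1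
  rw [hσ₀, he, smul_inv_smul, ← mul_smul] at h2
  exact h2.symm

theorem exists_mem_of_agree (H : Subgroup (AbsGal ℚ)) (hH : IsClosed (H : Set (AbsGal ℚ)))
    (κ : Type) [Field κ] (π ψ : Zbar ℚ →+* κ) (hπ : Function.Surjective π)
    (h : ∀ x : Zbar ℚ, (∀ g ∈ H, g • x = x) → ψ x = π x) :
    ∃ g ∈ H, ∀ x, ψ x = π (g • x) := by
  exact BTra_gen ℚ H hH κ π ψ hπ h

end Pool.Agent.DZ74
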