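import Pool.Agent.W_7742k_h74.BHom
import Pool.Agent.W_7742k_h74.BKap
import Pool.Agent.W_7742k_h74.BTra

/-! # The degrees of the primes over `p` and the fixed points of the Frobenius element

`κ`, `π` from `exists_residue`.  For `g ∈ G` let `φ_g : 𝓞 F → κ`, `x ↦ π (g • oi i x)`.  Every
homomorphism `𝓞 F → κ` is some `φ_g`: extend it to `Zbar ℚ` (`exists_extend`), it agrees with `π` on the
elements fixed by `G`, which are integers; so `exists_mem_of_agree` for `H = ⊤`.  `φ_g = φ_g'` iff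
`g⁻¹ g' ∈ H`: if `φ_g = φ_g'` then `π` and `x ↦ π (g' g⁻¹ • x)` agree on the elements fixed by
`g H g⁻¹` (`x = g • oi i a`, an integral element of the image of `i` comes from `𝓞 F`), so there is
`h ∈ H` such that `π (g' g⁻¹ • x) = π (g h g⁻¹ • x)` for all `x`, so `g' g⁻¹ (g h g⁻¹)⁻¹ ∈ inertiaAt 𝔓 ≤ U`
and `g' ∈ U g h = g U h ⊆ g H`.  `π y ^ p = π (Fr • y)`, so `φ_g x ^ (p ^ k) = φ_{Fr ^ k g} x` for all `x`.
So by `card_hom` the number `dg F p k` is the number of the `g H` with `Fr ^ k g H = g H`. -/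

set_option autoImplicit false

noncomputable section

open scoped Classical

namespace Pool.Agent.DZ74

open NumberField IsDedekindDomain Pool.Agent.Cheb

/-- An algebraic integer fixed by `H` comes from the ring of integers of `F`. -/
theorem BFix_range {F : Type} [Field F] [NumberField F] (i : F →+* AlgebraicClosure ℚ)
    (H : Subgroup (AbsGal ℚ)) (hi : IsFixedBy i H) (x : Zbar ℚ) (hx : ∀ g ∈ H, g • x = x) :
    ∃ a : 𝓞 F, oi i a = x := by
  have h1 : (x : AlgebraicClosure ℚ) ∈ Set.range i := by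
    rw [hi]
    intro g hg
    rw [← smul_coe, hx g hg]
  obtain ⟨y, hy⟩ := h1
  have h2 : IsIntegral ℤ y := by
    have h3 : IsIntegral ℤ (i.toIntAlgHom y) := by
      have h4 : i.toIntAlgHom y = (x : AlgebraicClosure ℚ) := hy
      rw [h4]
      exact x.2
    exact (isIntegral_algHom_iff i.toIntAlgHom i.injective).1 h3
  refine ⟨⟨y, h2⟩, ?_⟩
  apply Subtype.ext
  exact hy

theorem BFix_fixed {F : Type} [Field F] [NumberField F] (i : F →+* AlgebraicClosure ℚ)
    (H : Subgroup (AbsGal ℚ)) (hi : IsFixedBy i H) (a : 𝓞 F) (g : AbsGal ℚ) (hg : g ∈ H) :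
    g • oi i a = oi i a := by
  apply Subtype.ext
  rw [smul_coe, oi_coe]
  exact (hi _).1 ⟨_, rfl⟩ g hg

theorem BFix_gen (k : Type) [Field k] [NumberField k] (x : Zbar k)
    (hx : ∀ g : AbsGal k, g • x = x) :
    ∃ q : k, IsIntegral ℤ q ∧ algebraMap k (AlgebraicClosure k) q = (x : AlgebraicClosure k) := by
  have h1 : (x : AlgebraicClosure k) ∈ (⊥ : IntermediateField k (AlgebraicClosure k)) := by
    rw [InfiniteGalois.mem_bot_iff_fixed]
    intro g
    exact congrArg Subtype.val (hx g)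
  rw [IntermediateField.mem_bot] at h1
  obtain ⟨q, hq⟩ := h1
  refine ⟨q, ?_, hq⟩
  have h3 : IsIntegral ℤ (algebraMap k (AlgebraicClosure k) q) := by
    rw [hq]
    exact x.2
  exact (isIntegral_algebraMap_iff (algebraMap k (AlgebraicClosure k)).injective).1 h3

/-- An algebraic integer fixed by the whole group is a rational integer. -/
theorem BFix_int (x : Zbar ℚ) (hx : ∀ g : AbsGal ℚ, g • x = x) : ∃ n : ℤ, x = (n : Zbar ℚ) := by
  obtain ⟨q, h2, hq⟩ := BFix_gen ℚ x hx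
  obtain ⟨n, hn⟩ := IsIntegrallyClosed.isIntegral_iff.1 h2
  refine ⟨n, ?_⟩
  apply Subtype.ext
  rw [← hq, ← hn]
  simp

/-- The homomorphism of an element of the group. -/
def BFix_phi {F : Type} [Field F] [NumberField F] (i : F →+* AlgebraicClosure ℚ)
    {κ : Type} [Field κ] (π : Zbar ℚ →+* κ) (g : AbsGal ℚ) : 𝓞 F →+* κ :=
  (π.comp (MulSemiringAction.toRingHom (AbsGal ℚ) (Zbar ℚ) g)).comp (oi i)

theorem BFix_phi_apply {F : Type} [Field F] [NumberField F] (i : F →+* AlgebraicClosure ℚ)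
    {κ : Type} [Field κ] (π : Zbar ℚ →+* κ) (g : AbsGal ℚ) (x : 𝓞 F) :
    BFix_phi i π g x = π (g • oi i x) := rfl

theorem BFix_surj {F : Type} [Field F] [NumberField F] (i : F →+* AlgebraicClosure ℚ)
    {p : ℕ} (hp : p.Prime) {κ : Type} [Field κ] [IsAlgClosed κ] [CharP κ p]
    (π : Zbar ℚ →+* κ) (hπ : Function.Surjective π) (φ : 𝓞 F →+* κ) :
    ∃ g : AbsGal ℚ, BFix_phi i π g = φ := by
  obtain ⟨ψ, hψ⟩ := exists_extend i hp κ φ
  obtain ⟨g, -, hg⟩ := exists_mem_of_agree ⊤ isClosed_univ κ π ψ hπ (by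
    intro x hx
    obtain ⟨n, rfl⟩ := BFix_int x (fun g => hx g (Subgroup.mem_top g))
    rw [map_intCast, map_intCast])
  refine ⟨g, ?_⟩
  ext x
  rw [BFix_phi_apply, ← hg, hψ]

theorem BFix_inj {F : Type} [Field F] [NumberField F] (i : F →+* AlgebraicClosure ℚ)
    (U H : Subgroup (AbsGal ℚ)) [U.Normal] (hUH : U ≤ H) (hH : IsClosed (H : Set (AbsGal ℚ)))
    (hi : IsFixedBy i H) (𝔓 : Ideal (Zbar ℚ)) (hI : inertiaAt 𝔓 ≤ U)
    {κ : Type} [Field κ] (π : Zbar ℚ →+* κ) (hπ : Function.Surjective π)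
    (hπ0 : ∀ x, π x = 0 ↔ x ∈ 𝔓) (g g' : AbsGal ℚ) :
    BFix_phi i π g = BFix_phi i π g' ↔ g⁻¹ * g' ∈ H := by
  constructor
  · intro h
    have hs : Function.Surjective
        (π.comp (MulSemiringAction.toRingHom (AbsGal ℚ) (Zbar ℚ) g)) := by
      intro y
      obtain ⟨x, rfl⟩ := hπ y
      refine ⟨g⁻¹ • x, ?_⟩
      show π (g • g⁻¹ • x) = π x
      rw [smul_inv_smul]
    obtain ⟨h', hh', h2⟩ := exists_mem_of_agree H hH κ
      (π.comp (MulSemiringAction.toRingHom (AbsGal ℚ) (Zbar ℚ) g))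
      (π.comp (MulSemiringAction.toRingHom (AbsGal ℚ) (Zbar ℚ) g')) hs (by
        intro x hx
        obtain ⟨a, rfl⟩ := BFix_range i H hi x hx
        exact (RingHom.congr_fun h a).symm)
    have h3 : ∀ x, π (g' • x) = π (g • h' • x) := h2
    have h4 : g' * (g * h')⁻¹ ∈ inertiaAt 𝔓 := by
      intro x
      have h5 : π (g' • (g * h')⁻¹ • x) = π x := by
        rw [h3, ← mul_smul, smul_inv_smul]
      refine ⟨(g' * (g * h')⁻¹) • x - x, ?_, ?_⟩
      · rw [← hπ0, map_sub, mul_smul, h5, sub_self]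
      · have h6 : (((g' * (g * h')⁻¹) • x - x : Zbar ℚ) : AlgebraicClosure ℚ) =
            (g' * (g * h')⁻¹) (x : AlgebraicClosure ℚ) - (x : AlgebraicClosure ℚ) := rfl
        rw [h6]
        ring
    have h7 := hI h4
    have h8 : g⁻¹ * (g' * (g * h')⁻¹) * g ∈ U := by
      have h9 := (inferInstance : U.Normal).conj_mem _ h7 g⁻¹
      rwa [inv_inv] at h9
    have h10 : g⁻¹ * g' = g⁻¹ * (g' * (g * h')⁻¹) * g * h' := by group
    rw [h10]
    exact H.mul_mem (hUH h8) hh'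
  · intro h
    ext x
    rw [BFix_phi_apply, BFix_phi_apply]
    have h1 := BFix_fixed i H hi x _ h
    rw [mul_smul] at h1
    conv_lhs => rw [← h1]
    rw [smul_inv_smul]

theorem BFix_frob (𝔓 : Ideal (Zbar ℚ)) {p : ℕ} (Fr : AbsGal ℚ) (hFr : IsFrobAt 𝔓 p Fr)
    {κ : Type} [Field κ] (π : Zbar ℚ →+* κ) (hπ0 : ∀ x, π x = 0 ↔ x ∈ 𝔓) (k : ℕ) :
    ∀ y : Zbar ℚ, π (Fr ^ k • y) = π y ^ (p ^ k) := by
  induction k with
  | zero => intro y; simp
  | succ k ih =>
    intro y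
    rw [pow_succ, mul_smul, ih]
    obtain ⟨z, hz, hz'⟩ := hFr y
    have h1 : Fr • y = y ^ p + z := Subtype.ext hz'
    rw [h1, map_add, (hπ0 z).2 hz, add_zero, map_pow, ← pow_mul, ← pow_succ']

theorem dg_eq_fxp {F : Type} [Field F] [NumberField F] (i : F →+* AlgebraicClosure ℚ)
    (U H : Subgroup (AbsGal ℚ)) [U.Normal] (hUH : U ≤ H) (hH : IsClosed (H : Set (AbsGal ℚ)))
    (hi : IsFixedBy i H) {p : ℕ} (hp : p.Prime) (𝔓 : Ideal (Zbar ℚ)) (h𝔓 : 𝔓.IsPrime)
    (h1 : (p : Zbar ℚ) ∈ 𝔓) (Fr : AbsGal ℚ) (hFr : IsFrobAt 𝔓 p Fr) (hI : inertiaAt 𝔓 ≤ U)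
    {k : ℕ} (hk : 0 < k) : dg F p k = fxp H (Fr ^ k) := by
  obtain ⟨κ, _, _, _, π, hπ, hπ0⟩ := exists_residue hp 𝔓 h𝔓 h1
  have hinj := BFix_inj i U H hUH hH hi 𝔓 hI π hπ hπ0
  have hsurj := BFix_surj i hp π hπ
  let e : AbsGal ℚ ⧸ H → (𝓞 F →+* κ) := Quotient.lift (BFix_phi i π) (by
    intro a b hab
    exact (hinj a b).2 (QuotientGroup.leftRel_apply.1 hab))
  have he : ∀ g : AbsGal ℚ, e (QuotientGroup.mk g) = BFix_phi i π g := fun _ => rfl
  have hb : Function.Bijective e := by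
    constructor
    · intro a b
      induction a using QuotientGroup.induction_on with
      | H a =>
        induction b using QuotientGroup.induction_on with
        | H b =>
          intro h
          rw [he, he] at h
          exact QuotientGroup.eq.2 ((hinj a b).1 h)
    · intro φ
      obtain ⟨g, hg⟩ := hsurj φ
      exact ⟨QuotientGroup.mk g, hg⟩
  have hfr : ∀ (y : AbsGal ℚ ⧸ H) (x : 𝓞 F), e (Fr ^ k • y) x = e y x ^ (p ^ k) := by
    intro y x
    induction y using QuotientGroup.induction_on with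
    | H g =>
      have h2 : Fr ^ k • (QuotientGroup.mk g : AbsGal ℚ ⧸ H) = QuotientGroup.mk (Fr ^ k * g) := rfl
      rw [h2, he, he, BFix_phi_apply, BFix_phi_apply, mul_smul, BFix_frob 𝔓 Fr hFr π hπ0]
  rw [← card_hom F hp κ hk, fxp]
  refine (Nat.card_congr ((Equiv.ofBijective e hb).subtypeEquiv ?_)).symm
  intro y
  show Fr ^ k • y = y ↔ ∀ x, e y x ^ (p ^ k) = e y x
  constructor
  · intro h x
    rw [← hfr, h]
  · intro h
    apply hb.1
    ext x
    rw [hfr, h]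

end Pool.Agent.DZ74
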