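import Pool.Agent.W_7742k_h74.BDef
import Pool.Agent.W_7742k_h74.AZId
import Pool.Agent.Chebotarev_h15.LogL
import Pool.Agent.Chebotarev_h15.LoA

/-! # The logarithm of the Dedekind zeta function

`dedekindZeta F σ = ∑_I N(I) ^ (-σ)` (AZId.lean) `= Lser F 1 σ` (`m = 1`) `= exp (logL F 1 σ)`
(`Cheb.Lser_eq_exp`, Chebotarev_h15/LoA.lean), `logL F 1 σ = -∑_P log (1 - N(P) ^ (-σ))
= ∑_P ∑_m N(P) ^ (-m σ) / m` (`m ≥ 1`).  The pairs `(P, m)` with `N(P) ^ m = p ^ k` are the pairs with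
`P ∣ p`, `f m = k`, where `N(P) = p ^ f`; their terms are `p ^ (-k σ) / m = f * (p ^ (-k σ) / k)`.  All
terms are nonnegative.  Only finitely many `P` contain `p`, and the sum of their degrees is at most
`[F : ℚ]` (`Ideal.sum_ramification_inertia` or the norm of `(p)`). -/

set_option autoImplicit false

noncomputable section

open scoped Classical

namespace Pool.Agent.DZ74

open NumberField IsDedekindDomain Pool.Agent.Cheb
open Pool.Agent.H74E (pk)

variable (F : Type) [Field F] [NumberField F]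

/-- The norm of a prime is a prime power. -/
theorem BLog_pp (P : HeightOneSpectrum (𝓞 F)) :
    ∃ (p : Nat.Primes) (f : ℕ), 0 < f ∧ Ideal.absNorm P.asIdeal = (p : ℕ) ^ f := by
  have hP : P.asIdeal.IsMaximal := P.isMaximal
  let _ : Field (𝓞 F ⧸ P.asIdeal) := Ideal.Quotient.field P.asIdeal
  have : Finite (𝓞 F ⧸ P.asIdeal) := Ideal.finiteQuotientOfFreeOfNeBot P.asIdeal P.ne_bot
  let _ : Fintype (𝓞 F ⧸ P.asIdeal) := Fintype.ofFinite _
  have h := Fintype.isPrimePow_card_of_field (α := 𝓞 F ⧸ P.asIdeal)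
  rw [← Nat.card_eq_fintype_card] at h
  obtain ⟨p, f, hp, hf, h1⟩ := h
  refine ⟨⟨p, Nat.prime_iff.2 hp⟩, f, hf, ?_⟩
  rw [Ideal.absNorm_apply, Submodule.cardQuot_apply]
  exact h1.symm

theorem BLog_ne_one (P : HeightOneSpectrum (𝓞 F)) : Ideal.absNorm P.asIdeal ≠ 1 := by
  rw [Ne, Ideal.absNorm_eq_one_iff]
  exact P.isPrime.ne_top

theorem BLog_mem {p f : ℕ} (P : HeightOneSpectrum (𝓞 F))
    (h : Ideal.absNorm P.asIdeal = p ^ f) : P.asIdeal ∣ Ideal.span {(p : 𝓞 F)} := by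
  rw [Ideal.dvd_span_singleton]
  have h1 := Ideal.absNorm_mem P.asIdeal
  rw [h] at h1
  push_cast at h1
  exact P.isPrime.mem_of_pow_mem f h1

theorem BLog_fin (p : Nat.Primes) :
    {P : HeightOneSpectrum (𝓞 F) | ∃ f : ℕ, Ideal.absNorm P.asIdeal = (p : ℕ) ^ f}.Finite := by
  have h0 : Ideal.span {((p : ℕ) : 𝓞 F)} ≠ 0 := by
    rw [Ne, Ideal.zero_eq_bot, Ideal.span_singleton_eq_bot]
    exact_mod_cast p.2.ne_zero
  refine (Ideal.finite_factors h0).subset ?_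
  rintro P ⟨f, hf⟩
  exact BLog_mem F P hf

/-- The term of the sum. -/
def BLog_t (p k : ℕ) (P : HeightOneSpectrum (𝓞 F)) : ℕ :=
  if ∃ f : ℕ, Ideal.absNorm P.asIdeal = p ^ f ∧ f ∣ k then
      Nat.log p (Ideal.absNorm P.asIdeal) else 0

theorem BLog_supp (p : Nat.Primes) (k : ℕ) :
    Function.support (BLog_t F p k) ⊆
      {P : HeightOneSpectrum (𝓞 F) | ∃ f : ℕ, Ideal.absNorm P.asIdeal = (p : ℕ) ^ f} := by
  intro P hP
  rw [Function.mem_support, BLog_t] at hP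
  by_cases h : ∃ f : ℕ, Ideal.absNorm P.asIdeal = (p : ℕ) ^ f ∧ f ∣ k
  · obtain ⟨f, h1, _⟩ := h
    exact ⟨f, h1⟩
  · rw [if_neg h] at hP
    exact absurd rfl hP

theorem BLog_sum (p : Nat.Primes) (k : ℕ) :
    dg F (p : ℕ) k = ∑ P ∈ (BLog_fin F p).toFinset, BLog_t F p k P := by
  refine finsum_eq_sum_of_support_subset (BLog_t F p k) ?_
  rw [Set.Finite.coe_toFinset]
  exact BLog_supp F p k

theorem dg_le (p : Nat.Primes) (k : ℕ) : dg F (p : ℕ) k ≤ Module.finrank ℚ F := by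
  rw [BLog_sum]
  set S := (BLog_fin F p).toFinset with hS
  have hmem : ∀ P ∈ S, ∃ f : ℕ, Ideal.absNorm P.asIdeal = (p : ℕ) ^ f := fun P hP => by
    rw [hS, Set.Finite.mem_toFinset] at hP
    exact hP
  have h1 : (∏ P ∈ S, P.asIdeal) ∣ Ideal.span {((p : ℕ) : 𝓞 F)} := by
    refine Finset.prod_dvd_of_coprime ?_ ?_
    · intro P _ Q _ hPQ
      change IsCoprime P.asIdeal Q.asIdeal
      rw [Ideal.isCoprime_iff_sup_eq]
      exact P.isMaximal.coprime_of_ne Q.isMaximal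
        (fun h => hPQ (HeightOneSpectrum.ext h))
    · intro P hP
      obtain ⟨f, hf⟩ := hmem P hP
      exact BLog_mem F P hf
  have h2 : Ideal.absNorm (Ideal.span {((p : ℕ) : 𝓞 F)}) = (p : ℕ) ^ Module.finrank ℚ F := by
    rw [Ideal.absNorm_span_natCast]
    congr 1
    exact RingOfIntegers.rank F
  have h3 := Ideal.absNorm_dvd_absNorm_of_le (Ideal.le_of_dvd h1)
  rw [h2, map_prod] at h3
  have h4 : ∏ P ∈ S, Ideal.absNorm P.asIdeal =
      (p : ℕ) ^ (∑ P ∈ S, Nat.log p (Ideal.absNorm P.asIdeal)) := by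
    rw [← Finset.prod_pow_eq_pow_sum]
    refine Finset.prod_congr rfl fun P hP => ?_
    obtain ⟨f, hf⟩ := hmem P hP
    rw [hf, Nat.log_pow p.2.one_lt]
  rw [h4] at h3
  have h5 := (Nat.pow_dvd_pow_iff_le_right p.2.one_lt).1 h3
  refine le_trans (Finset.sum_le_sum fun P _ => ?_) h5
  rw [BLog_t]
  split_ifs
  · exact le_rfl
  · exact Nat.zero_le _

/-- The term of the double sum. -/
def BLog_g (σ : ℝ) (P : HeightOneSpectrum (𝓞 F)) (x : Nat.Primes × ℕ) : ℝ :=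
  (BLog_t F x.1 (x.2 + 1) P : ℝ) * pk σ x

theorem BLog_g_nonneg (σ : ℝ) (P : HeightOneSpectrum (𝓞 F)) (x : Nat.Primes × ℕ) :
    0 ≤ BLog_g F σ P x :=
  mul_nonneg (Nat.cast_nonneg _) (Pool.Agent.H74E.pk_nonneg σ x)

theorem BLog_row {σ : ℝ} (h : 1 < σ) (P : HeightOneSpectrum (𝓞 F)) :
    HasSum (BLog_g F σ P) (-Real.log (1 - (Ideal.absNorm P.asIdeal : ℝ) ^ (-σ))) := by
  obtain ⟨p, f, hf, hN⟩ := BLog_pp F P
  set i : ℕ → Nat.Primes × ℕ := fun m => (p, f * (m + 1) - 1) with hi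
  have hi1 : ∀ m, f * (m + 1) - 1 + 1 = f * (m + 1) := fun m =>
    Nat.succ_pred_eq_of_pos (Nat.mul_pos hf m.succ_pos)
  have hinj : Function.Injective i := by
    intro a b hab
    have h1 : f * (a + 1) - 1 = f * (b + 1) - 1 := (Prod.mk.inj hab).2
    have h2 : f * (a + 1) = f * (b + 1) := by rw [← hi1 a, ← hi1 b, h1]
    have h3 := Nat.eq_of_mul_eq_mul_left hf h2
    omega
  have hz : ∀ x ∉ Set.range i, BLog_g F σ P x = 0 := by
    rintro ⟨q, k⟩ hx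
    have : BLog_t F q (k + 1) P = 0 := by
      rw [BLog_t]
      refine if_neg ?_
      rintro ⟨g, hg, hgk⟩
      apply hx
      have hg0 : g ≠ 0 := by
        rintro rfl
        rw [pow_zero] at hg
        exact BLog_ne_one F P hg
      have hpq : (p : ℕ) = (q : ℕ) := by
        have h1 : (p : ℕ) ∣ (q : ℕ) ^ g := by
          rw [← hg, hN]
          exact dvd_pow_self _ hf.ne'
        exact (Nat.prime_dvd_prime_iff_eq p.2 q.2).1 (p.2.dvd_of_dvd_pow h1)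
      have hfg : f = g := by
        rw [hN, hpq] at hg
        exact Nat.pow_right_injective q.2.two_le hg
      subst hfg
      obtain ⟨c, hc⟩ := hgk
      have hc0 : c ≠ 0 := by
        rintro rfl
        omega
      refine ⟨c - 1, ?_⟩
      rw [hi]
      refine Prod.ext (Subtype.ext hpq) ?_
      change f * (c - 1 + 1) - 1 = k
      rw [Nat.sub_add_cancel (Nat.one_le_iff_ne_zero.2 hc0), ← hc]
      rfl
    rw [BLog_g]
    change (BLog_t F q (k + 1) P : ℝ) * _ = 0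
    rw [this, Nat.cast_zero, zero_mul]
  rw [← hinj.hasSum_iff hz]
  have hp0 : (0 : ℝ) < ((p : ℕ) : ℝ) := by exact_mod_cast p.2.pos
  set y : ℝ := (Ideal.absNorm P.asIdeal : ℝ) ^ (-σ) with hy
  have hyp : y = (((p : ℕ) : ℝ) ^ (-σ)) ^ f := by
    rw [hy, hN]
    push_cast
    rw [← Real.rpow_natCast, ← Real.rpow_mul hp0.le, ← Real.rpow_natCast, ← Real.rpow_mul hp0.le]
    congr 1
    ring
  have hterm : ∀ m, (BLog_g F σ P ∘ i) m = y ^ (m + 1) / ((m : ℝ) + 1) := by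
    intro m
    have ht : BLog_t F p (f * (m + 1) - 1 + 1) P = f := by
      rw [BLog_t, if_pos ⟨f, hN, by rw [hi1]; exact dvd_mul_right _ _⟩, hN,
        Nat.log_pow p.2.one_lt]
    change (BLog_t F p (f * (m + 1) - 1 + 1) P : ℝ) * pk σ (p, f * (m + 1) - 1) = _
    rw [ht, Pool.Agent.H74E.pk_eq, hi1, hyp, ← pow_mul]
    have h1 : (((f * (m + 1) - 1 : ℕ) : ℝ) + 1) = (f : ℝ) * ((m : ℝ) + 1) := by
      have := hi1 m
      exact_mod_cast this
    rw [h1]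
    have h2 : (f : ℝ) ≠ 0 := by exact_mod_cast hf.ne'
    have h3 : (m : ℝ) + 1 ≠ 0 := by positivity
    field_simp
  have hfun : (BLog_g F σ P ∘ i) = fun m : ℕ => y ^ (m + 1) / ((m : ℝ) + 1) := funext hterm
  rw [hfun]
  refine Real.hasSum_pow_div_log_of_abs_lt_one ?_
  have hN1 : (1 : ℝ) < (Ideal.absNorm P.asIdeal : ℝ) := by
    have : 1 < Ideal.absNorm P.asIdeal := by
      rw [hN]
      exact Nat.one_lt_pow hf.ne' p.2.one_lt
    exact_mod_cast this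
  have hy0 : 0 < y := Real.rpow_pos_of_pos (by linarith) _
  rw [abs_of_pos hy0]
  exact Real.rpow_lt_one_of_one_lt_of_neg hN1 (by linarith)

theorem BLog_half {σ : ℝ} (h : 1 < σ) (P : HeightOneSpectrum (𝓞 F)) :
    0 < (Ideal.absNorm P.asIdeal : ℝ) ^ (-σ) ∧ (Ideal.absNorm P.asIdeal : ℝ) ^ (-σ) ≤ 1 / 2 := by
  obtain ⟨p, f, hf, hN⟩ := BLog_pp F P
  have h2 : (2 : ℝ) ≤ (Ideal.absNorm P.asIdeal : ℝ) := by
    have h1 : 1 < Ideal.absNorm P.asIdeal := by
      rw [hN]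
      exact Nat.one_lt_pow hf.ne' p.2.one_lt
    exact_mod_cast h1
  refine ⟨Real.rpow_pos_of_pos (by linarith) _, ?_⟩
  calc (Ideal.absNorm P.asIdeal : ℝ) ^ (-σ) ≤ (2 : ℝ) ^ (-σ) :=
        Real.rpow_le_rpow_of_nonpos (by norm_num) h2 (by linarith)
    _ ≤ (2 : ℝ) ^ (-1 : ℝ) := Real.rpow_le_rpow_of_exponent_le (by norm_num) (by linarith)
    _ = 1 / 2 := by rw [Real.rpow_neg_one]; norm_num

theorem BLog_logle {σ : ℝ} (h : 1 < σ) (P : HeightOneSpectrum (𝓞 F)) :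
    -Real.log (1 - (Ideal.absNorm P.asIdeal : ℝ) ^ (-σ)) ≤
      2 * (Ideal.absNorm P.asIdeal : ℝ) ^ (-σ) := by
  obtain ⟨h0, h1⟩ := BLog_half F h P
  set x := (Ideal.absNorm P.asIdeal : ℝ) ^ (-σ)
  have h3 : 1 - (1 - x)⁻¹ ≤ Real.log (1 - x) := Real.one_sub_inv_le_log_of_pos (by linarith)
  have h4 : (1 - x)⁻¹ ≤ 1 + 2 * x := by
    rw [inv_le_iff_one_le_mul₀ (by linarith)]
    nlinarith
  linarith

theorem BLog_summable {σ : ℝ} (h : 1 < σ) :
    Summable (Function.uncurry (BLog_g F σ)) := by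
  refine (summable_prod_of_nonneg (f := Function.uncurry (BLog_g F σ))
    (fun y => BLog_g_nonneg F σ y.1 y.2)).2 ⟨fun P => (BLog_row F h P).summable, ?_⟩
  have h1 : (fun P => ∑' x, Function.uncurry (BLog_g F σ) (P, x)) =
      fun P : HeightOneSpectrum (𝓞 F) =>
        -Real.log (1 - (Ideal.absNorm P.asIdeal : ℝ) ^ (-σ)) :=
    funext fun P => (BLog_row F h P).tsum_eq
  rw [h1]
  refine Summable.of_nonneg_of_le (fun P => ?_) (fun P => BLog_logle F h P)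
    ((summable_primes F h).mul_left 2)
  exact (BLog_row F h P).nonneg (BLog_g_nonneg F σ P)

theorem BLog_col (σ : ℝ) (x : Nat.Primes × ℕ) :
    HasSum (fun P => BLog_g F σ P x) ((dg F x.1 (x.2 + 1) : ℝ) * pk σ x) := by
  have h1 : ((dg F x.1 (x.2 + 1) : ℝ) * pk σ x) =
      ∑ P ∈ (BLog_fin F x.1).toFinset, BLog_g F σ P x := by
    rw [BLog_sum, Nat.cast_sum, Finset.sum_mul]
    rfl
  rw [h1]
  refine hasSum_sum_of_ne_finset_zero fun P hP => ?_
  have h2 : BLog_t F x.1 (x.2 + 1) P = 0 := by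
    by_contra hne
    exact hP ((Set.Finite.mem_toFinset _).2 (BLog_supp F x.1 (x.2 + 1) hne))
  rw [BLog_g, h2, Nat.cast_zero, zero_mul]

theorem BLog_ser {σ : ℝ} (h : 1 < σ) : dedekindZeta F (σ : ℂ) =
    (Real.exp (∑' P : HeightOneSpectrum (𝓞 F),
      -Real.log (1 - (Ideal.absNorm P.asIdeal : ℝ) ^ (-σ))) : ℂ) := by
  rw [zeta_ideals F h]
  have h1 : (((∑' I : nonZeroDivisors (Ideal (𝓞 F)),
      (Ideal.absNorm (I : Ideal (𝓞 F)) : ℝ) ^ (-σ) : ℝ)) : ℂ) =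
      Lser F (1 : DirichletCharacter ℂ 1) σ := by
    rw [Complex.ofReal_tsum]
    unfold Lser Lterm
    refine tsum_congr fun I => ?_
    have h2 : ((Ideal.absNorm (I : Ideal (𝓞 F)) : ℕ) : ZMod 1) = 1 := Subsingleton.elim _ _
    rw [h2, map_one, one_mul]
  rw [h1, Lser_eq_exp F _ h]
  have h3 : logL F (1 : DirichletCharacter ℂ 1) σ = ((∑' P : HeightOneSpectrum (𝓞 F),
      -Real.log (1 - (Ideal.absNorm P.asIdeal : ℝ) ^ (-σ)) : ℝ) : ℂ) := by
    unfold logL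
    rw [Complex.ofReal_tsum, ← tsum_neg]
    refine tsum_congr fun P => ?_
    have h2 : ((Ideal.absNorm P.asIdeal : ℕ) : ZMod 1) = 1 := Subsingleton.elim _ _
    obtain ⟨h4, h5⟩ := BLog_half F h P
    rw [pw, h2, map_one, one_mul, Complex.ofReal_neg, Complex.ofReal_log (by linarith)]
    push_cast
    rfl
  rw [h3, ← Complex.ofReal_exp]

theorem dg_log {σ : ℝ} (h : 1 < σ) :
    (Summable fun x : Nat.Primes × ℕ => (dg F x.1 (x.2 + 1) : ℝ) * pk σ x) ∧
      dedekindZeta F (σ : ℂ) =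
        (Real.exp (∑' x : Nat.Primes × ℕ, (dg F x.1 (x.2 + 1) : ℝ) * pk σ x) : ℂ) := by
  have hs := BLog_summable F h
  have hs2 : Summable (fun y : (Nat.Primes × ℕ) × HeightOneSpectrum (𝓞 F) =>
      BLog_g F σ y.2 y.1) := hs.prod_symm
  have h1 := hs2.prod
  have h2 : (fun x : Nat.Primes × ℕ => ∑' P, BLog_g F σ P x) =
      fun x : Nat.Primes × ℕ => (dg F x.1 (x.2 + 1) : ℝ) * pk σ x :=
    funext fun x => (BLog_col F σ x).tsum_eq
  have h3 : Summable (fun x : Nat.Primes × ℕ => ∑' P, BLog_g F σ P x) := h1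
  rw [h2] at h3
  refine ⟨h3, ?_⟩
  rw [BLog_ser F h]
  have h4 : ∑' P : HeightOneSpectrum (𝓞 F),
      -Real.log (1 - (Ideal.absNorm P.asIdeal : ℝ) ^ (-σ)) =
      ∑' x : Nat.Primes × ℕ, (dg F x.1 (x.2 + 1) : ℝ) * pk σ x := by
    rw [← h2]
    have h5 : ∀ P : HeightOneSpectrum (𝓞 F), -Real.log (1 - (Ideal.absNorm P.asIdeal : ℝ) ^ (-σ)) =
        ∑' x, BLog_g F σ P x := fun P => (BLog_row F h P).tsum_eq.symm
    rw [tsum_congr h5]
    exact hs.tsum_comm.symm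
  rw [h4]

end Pool.Agent.DZ74
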