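import Pool.Agent.W_7742k_h74.AZet
import Pool.Agent.W_7742k_h74.BLog
import Pool.Agent.W_7742k_h74.BFix
import Pool.Agent.W_7742k_h74.BRam
import Pool.Agent.W_7742c_h74.Pos

/-! # The zeta function of a permutation representation

`H = C.comap (QuotientGroup.mk' U)`, `F`, `i` from `exists_field`.  `fxp C (mk g) = fxp H g`
(`(G ⧸ U) ⧸ C ≃ G ⧸ H`).  With `f` from `exists_zetaExt` put
`g σ = f σ * exp (-∑ dg F p k / (k p ^ (k σ)))`, the sum over the pairs `(p, k)` with `p` ramified; it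
converges for `σ > 0` because there are only finitely many such `p` (`finite_ramified`) and `dg_le`; it is
analytic by `H74E.dirichlet_analytic` and `H74E.mul_pk` in W_7742c_h74/Pos.lean. -/

set_option autoImplicit false

noncomputable section

open scoped Classical

namespace Pool.Agent.DZ74

open NumberField IsDedekindDomain Pool.Agent.Cheb
open Pool.Agent.H74E (pk)

/-- The number of the fixed points of the powers of the Frobenius elements, at the unramified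
primes. -/
def fx (𝔓 : Nat.Primes → Ideal (Zbar ℚ)) (Fr : Nat.Primes → AbsGal ℚ) (U : Subgroup (AbsGal ℚ))
    [U.Normal] (C : Subgroup (AbsGal ℚ ⧸ U)) (x : Nat.Primes × ℕ) : ℝ :=
  if inertiaAt (𝔓 x.1) ≤ U then
    (fxp C ((QuotientGroup.mk (Fr x.1) : AbsGal ℚ ⧸ U) ^ (x.2 + 1)) : ℝ) else 0

/-- The fixed points on the cosets of the preimage. -/
theorem BArt_fxp {G : Type} [Group G] (U : Subgroup G) [U.Normal] (C : Subgroup (G ⧸ U)) (g : G) :
    fxp C (QuotientGroup.mk g : G ⧸ U) = fxp (C.comap (QuotientGroup.mk' U)) g := by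
  unfold fxp
  obtain ⟨φ, hφ⟩ : ∃ φ : G ⧸ (C.comap (QuotientGroup.mk' U)) → (G ⧸ U) ⧸ C,
      ∀ x : G, φ (QuotientGroup.mk x) = QuotientGroup.mk (QuotientGroup.mk x : G ⧸ U) := by
    refine ⟨Quotient.lift (fun x : G => (QuotientGroup.mk (QuotientGroup.mk x : G ⧸ U) :
      (G ⧸ U) ⧸ C)) ?_, fun x => rfl⟩
    intro a b hab
    have h1 : a⁻¹ * b ∈ C.comap (QuotientGroup.mk' U) := QuotientGroup.leftRel_apply.1 hab
    refine QuotientGroup.eq.2 ?_
    exact h1
  have hinj : Function.Injective φ := by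
    intro a b
    induction a using QuotientGroup.induction_on with
    | H a =>
      induction b using QuotientGroup.induction_on with
      | H b =>
        intro h
        rw [hφ, hφ] at h
        have h1 := QuotientGroup.eq.1 h
        refine QuotientGroup.eq.2 ?_
        exact h1
  have hsurj : Function.Surjective φ := by
    intro y
    induction y using QuotientGroup.induction_on with
    | H y =>
      induction y using QuotientGroup.induction_on with
      | H y => exact ⟨QuotientGroup.mk y, hφ y⟩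
  have heq : ∀ y, φ (g • y) = (QuotientGroup.mk g : G ⧸ U) • φ y := by
    intro y
    induction y using QuotientGroup.induction_on with
    | H y =>
      have h1 : g • (QuotientGroup.mk y : G ⧸ (C.comap (QuotientGroup.mk' U))) =
          QuotientGroup.mk (g * y) := rfl
      rw [h1, hφ, hφ]
      rfl
  refine (Nat.card_congr ?_).symm
  refine (Equiv.ofBijective φ ⟨hinj, hsurj⟩).subtypeEquiv fun y => ?_
  show g • y = y ↔ (QuotientGroup.mk g : G ⧸ U) • φ y = φ y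
  rw [← heq]
  exact ⟨fun h => congrArg φ h, fun h => hinj h⟩

/-- The series over a finite set of primes. -/
theorem BArt_fin {R : Set Nat.Primes} (hR : R.Finite) {s : ℝ} (hs : 0 < s) :
    Summable fun x : Nat.Primes × ℕ => (if x.1 ∈ R then (1 : ℝ) else 0) * pk s x := by
  have hnn : ∀ x : Nat.Primes × ℕ, 0 ≤ (if x.1 ∈ R then (1 : ℝ) else 0) * pk s x := by
    intro x
    have := H74E.pk_nonneg s x
    split_ifs <;> simp [this]
  rw [summable_prod_of_nonneg hnn]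
  refine ⟨fun p => (H74E.hasSum_pk hs p).summable.mul_left (if p ∈ R then (1 : ℝ) else 0), ?_⟩
  have hfin : (Function.support fun p : Nat.Primes =>
      ∑' k : ℕ, (if p ∈ R then (1 : ℝ) else 0) * pk s (p, k)).Finite := by
    refine Set.Finite.subset hR ?_
    intro p hp
    by_contra hcon
    exact hp (by simp [hcon])
  exact summable_of_hasFiniteSupport hfin

theorem art_zeta (𝔓 : Nat.Primes → Ideal (Zbar ℚ)) (h𝔓 : ∀ p, (𝔓 p).IsPrime)
    (hp : ∀ p : Nat.Primes, ((p : ℕ) : Zbar ℚ) ∈ 𝔓 p) (Fr : Nat.Primes → AbsGal ℚ)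
    (hFr : ∀ p : Nat.Primes, IsFrobAt (𝔓 p) (p : ℕ) (Fr p))
    (U : Subgroup (AbsGal ℚ)) [U.Normal] (hU : IsOpen (U : Set (AbsGal ℚ)))
    (C : Subgroup (AbsGal ℚ ⧸ U)) :
    ∃ (F : Type) (_ : Field F) (_ : NumberField F) (i : F →+* AlgebraicClosure ℚ),
      IsFixedBy i (C.comap (QuotientGroup.mk' U)) ∧
      ∃ g : ℝ → ℝ, (∀ σ : ℝ, 0 < σ → AnalyticAt ℝ g σ) ∧ 0 < g 1 ∧
        (∀ β : ℝ, 0 ≤ β → ZeroFree F β → ∀ σ : ℝ, β < σ → σ < 1 → g σ ≠ 0) ∧
        ∀ σ : ℝ, 1 < σ → (Summable fun x => fx 𝔓 Fr U C x * pk σ x) ∧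
          g σ = (σ - 1) * Real.exp (∑' x, fx 𝔓 Fr U C x * pk σ x) := by
  obtain ⟨H, hHd⟩ : ∃ H : Subgroup (AbsGal ℚ), H = C.comap (QuotientGroup.mk' U) := ⟨_, rfl⟩
  have hUH : U ≤ H := by
    intro u hu
    rw [hHd]
    show QuotientGroup.mk' U u ∈ C
    have h1 : QuotientGroup.mk' U u = 1 := (QuotientGroup.eq_one_iff u).2 hu
    rw [h1]
    exact C.one_mem
  have hHo : IsOpen (H : Set (AbsGal ℚ)) := Subgroup.isOpen_mono hUH hU
  have hHc : IsClosed (H : Set (AbsGal ℚ)) := Subgroup.isClosed_of_isOpen H hHo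
  obtain ⟨F, iF, iN, i, hi⟩ := exists_field H hHo
  obtain ⟨f, hf, hf1⟩ := exists_zetaExt F
  obtain ⟨R, hRd⟩ : ∃ R : Set Nat.Primes, R = {p : Nat.Primes | ¬ inertiaAt (𝔓 p) ≤ U} := ⟨_, rfl⟩
  have hR : R.Finite := by
    rw [hRd]
    exact finite_ramified 𝔓 h𝔓 hp U hU
  obtain ⟨b, hb⟩ : ∃ b : Nat.Primes × ℕ → ℝ, b = fun x =>
      if inertiaAt (𝔓 x.1) ≤ U then 0 else (dg F (x.1 : ℕ) (x.2 + 1) : ℝ) := ⟨_, rfl⟩
  have hb0 : ∀ x, 0 ≤ b x := by
    intro x
    rw [hb]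
    show (0 : ℝ) ≤ if inertiaAt (𝔓 x.1) ≤ U then 0 else (dg F (x.1 : ℕ) (x.2 + 1) : ℝ)
    split_ifs
    · exact le_rfl
    · exact Nat.cast_nonneg _
  have hble : ∀ x : Nat.Primes × ℕ, b x ≤ (Module.finrank ℚ F : ℝ) *
      (if x.1 ∈ R then (1 : ℝ) else 0) := by
    intro x
    rw [hb]
    show (if inertiaAt (𝔓 x.1) ≤ U then (0 : ℝ) else (dg F (x.1 : ℕ) (x.2 + 1) : ℝ)) ≤ _
    by_cases hx : inertiaAt (𝔓 x.1) ≤ U
    · rw [if_pos hx]
      positivity
    · have hx2 : x.1 ∈ R := by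
        rw [hRd]
        exact hx
      rw [if_neg hx, if_pos hx2, mul_one]
      exact_mod_cast dg_le F x.1 (x.2 + 1)
  have hbs : ∀ σ : ℝ, 0 < σ → Summable fun x => b x * pk σ x := by
    intro σ hσ
    refine Summable.of_nonneg_of_le (fun x => mul_nonneg (hb0 x) (H74E.pk_nonneg σ x))
      (fun x => ?_) ((BArt_fin hR hσ).mul_left (Module.finrank ℚ F : ℝ))
    rw [← mul_assoc]
    exact mul_le_mul_of_nonneg_right (hble x) (H74E.pk_nonneg σ x)
  have hBan : ∀ s, 0 < s → AnalyticAt ℝ (fun s => ∑' x, b x * pk s x) s := by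
    intro s hs
    simp only [H74E.mul_pk]
    refine H74E.dirichlet_analytic _ (fun x => mul_nonneg (hb0 x) (by positivity)) _ 0 ?_ s hs
    intro τ hτ
    have := hbs τ hτ
    simpa only [H74E.mul_pk] using this
  have hfx : ∀ x : Nat.Primes × ℕ, (dg F (x.1 : ℕ) (x.2 + 1) : ℝ) = fx 𝔓 Fr U C x + b x := by
    intro x
    rw [hb]
    show (dg F (x.1 : ℕ) (x.2 + 1) : ℝ) = fx 𝔓 Fr U C x +
      (if inertiaAt (𝔓 x.1) ≤ U then (0 : ℝ) else (dg F (x.1 : ℕ) (x.2 + 1) : ℝ))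
    unfold fx
    by_cases hx : inertiaAt (𝔓 x.1) ≤ U
    · rw [if_pos hx, if_pos hx, add_zero]
      rw [dg_eq_fxp i U H hUH hHc hi x.1.2 (𝔓 x.1) (h𝔓 x.1) (hp x.1) (Fr x.1) (hFr x.1) hx
        (Nat.succ_pos x.2), hHd, ← BArt_fxp U C (Fr x.1 ^ (x.2 + 1))]
      rfl
    · rw [if_neg hx, if_neg hx, zero_add]
  refine ⟨F, iF, iN, i, hHd ▸ hi, fun σ => f σ * Real.exp (-∑' x, b x * pk σ x), ?_, ?_, ?_, ?_⟩
  · intro σ hσ
    exact (hf.1 σ hσ).mul (hBan σ hσ).neg.rexp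
  · exact mul_pos hf1 (Real.exp_pos _)
  · intro β hβ hz σ h1 h2
    exact mul_ne_zero (hz f hf σ h1 h2) (Real.exp_pos _).ne'
  · intro σ hσ
    have hσ0 : 0 < σ := by linarith
    obtain ⟨hs, hd⟩ := dg_log F hσ
    have hfs : Summable fun x => fx 𝔓 Fr U C x * pk σ x := by
      have h1 := hs.sub (hbs σ hσ0)
      refine h1.congr fun x => ?_
      rw [hfx x]
      ring
    refine ⟨hfs, ?_⟩
    have h2 : f σ = (σ - 1) *
        Real.exp (∑' x : Nat.Primes × ℕ, (dg F x.1 (x.2 + 1) : ℝ) * pk σ x) := by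
      have h3 := hf.2 σ hσ
      rw [hd] at h3
      exact_mod_cast h3
    have h4 : ∑' x : Nat.Primes × ℕ, (dg F x.1 (x.2 + 1) : ℝ) * pk σ x =
        ∑' x, fx 𝔓 Fr U C x * pk σ x + ∑' x, b x * pk σ x := by
      rw [← hfs.tsum_add (hbs σ hσ0)]
      refine tsum_congr fun x => ?_
      rw [hfx x]
      ring
    show f σ * Real.exp (-∑' x, b x * pk σ x) = _
    rw [h2, h4, mul_assoc, ← Real.exp_add]
    congr 2
    ring

end Pool.Agent.DZ74
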