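import Pool.Agent.W_7742k_h74.ADef
import Pool.Agent.Chebotarev_h15.AppDefs
import Pool.Agent.W_7742c_h74.Zeta

/-! # Frobenius elements and the Dedekind zeta function: definitions

`dg F p k`: the sum of the degrees `f` of the primes of `F` over `p` with `f ∣ k`, so that
`log ζ_F(σ) = ∑_p ∑_k dg F p k / (k p ^ (k σ))`.  `fxp C g`: the number of the fixed points of `g` on
`Γ ⧸ C`. -/

set_option autoImplicit false

noncomputable section

open scoped Classical

namespace Pool.Agent.DZ74

open NumberField IsDedekindDomain Pool.Agent.Cheb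
open Pool.Agent.H74E (pk)

/-- The sum of the degrees `f` of the primes over `p` with `f ∣ k`. -/
def dg (F : Type) [Field F] [NumberField F] (p k : ℕ) : ℕ :=
  ∑ᶠ P : HeightOneSpectrum (𝓞 F),
    if ∃ f : ℕ, Ideal.absNorm P.asIdeal = p ^ f ∧ f ∣ k then
      Nat.log p (Ideal.absNorm P.asIdeal) else 0

/-- The number of the fixed points of `g` on `Γ ⧸ C`. -/
def fxp {Γ : Type} [Group Γ] (C : Subgroup Γ) (g : Γ) : ℕ := Nat.card {y : Γ ⧸ C // g • y = y}

/-- The image of `i` is the set of the fixed points of `H`. -/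
def IsFixedBy {F : Type} [Field F] (i : F →+* AlgebraicClosure ℚ) (H : Subgroup (AbsGal ℚ)) :
    Prop :=
  ∀ x : AlgebraicClosure ℚ, x ∈ Set.range i ↔ ∀ g ∈ H, g x = x

/-- The map on the rings of integers. -/
def oi {F : Type} [Field F] (i : F →+* AlgebraicClosure ℚ) : 𝓞 F →+* Zbar ℚ :=
  (i.comp (algebraMap (𝓞 F) F)).codRestrict (integralClosure ℤ (AlgebraicClosure ℚ))
    fun a => map_isIntegral_int i (RingOfIntegers.isIntegral_coe a)

theorem oi_coe {F : Type} [Field F] (i : F →+* AlgebraicClosure ℚ) (a : 𝓞 F) :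
    ((oi i a : Zbar ℚ) : AlgebraicClosure ℚ) = i (a : F) := rfl

theorem smul_coe (g : AbsGal ℚ) (x : Zbar ℚ) :
    ((g • x : Zbar ℚ) : AlgebraicClosure ℚ) = g (x : AlgebraicClosure ℚ) := rfl

end Pool.Agent.DZ74
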