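import Pool.Agent.W_7742k_h74.BDef

/-! # Homomorphisms to a field of characteristic `p`

The kernel `P` of `φ : 𝓞 F → κ` is a prime ideal with `p ∈ P`, so nonzero and maximal;
`𝓞 F ⧸ P` is a finite field with `N(P) = p ^ f` elements, `f ≥ 1`; there are exactly `f` homomorphisms
from it to the algebraically closed field `κ` (`Field.finSepDegree`/`AlgHom.card` over `ZMod p`, or the
powers of the Frobenius automorphism), and `φ x ^ (p ^ k) = φ x` for all `x` iff `y ^ (p ^ k) = y` for all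
`y ∈ 𝓞 F ⧸ P` iff `f ∣ k`.  There are only finitely many such `P`.  Conversely the `P` with
`N(P) = p ^ f` contain `p`. -/

set_option autoImplicit false

noncomputable section

open scoped Classical

namespace Pool.Agent.DZ74

open NumberField IsDedekindDomain Pool.Agent.Cheb

theorem BHom_fin (p : ℕ) [Fact p.Prime] (K : Type) [Field K] [Finite K] [CharP K p]
    (κ : Type) [Field κ] [IsAlgClosed κ] [CharP κ p] {f : ℕ} (hf : Nat.card K = p ^ f) :
    Nat.card (K →+* κ) = f ∧ Finite (K →+* κ) ∧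
      ∀ k : ℕ, (∀ y : K, y ^ (p ^ k) = y) ↔ f ∣ k := by
  letI : Algebra (ZMod p) K := ZMod.algebra K p
  letI : Algebra (ZMod p) κ := ZMod.algebra κ p
  have hfin : Module.finrank (ZMod p) K = f := by
    have h1 := Module.natCard_eq_pow_finrank (K := ZMod p) (V := K)
    rw [hf, Nat.card_zmod] at h1
    exact (Nat.pow_right_injective (Fact.out (p := p.Prime)).two_le h1).symm
  have hcm : ∀ (φ : K →+* κ) (r : ZMod p), φ (algebraMap (ZMod p) K r) =
      algebraMap (ZMod p) κ r := by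
    intro φ r
    have h1 : φ.comp (algebraMap (ZMod p) K) = algebraMap (ZMod p) κ := Subsingleton.elim _ _
    exact RingHom.congr_fun h1 r
  let e : (K →+* κ) ≃ (K →ₐ[ZMod p] κ) :=
    { toFun := fun φ => { φ with commutes' := fun r => hcm φ r }
      invFun := fun φ => φ.toRingHom
      left_inv := fun φ => by ext x; rfl
      right_inv := fun φ => by ext x; rfl }
  refine ⟨?_, Finite.of_equiv _ e.symm, ?_⟩
  · rw [Nat.card_congr e, AlgHom.natCard_of_splits (ZMod p) K κ (fun _ => IsAlgClosed.splits _),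
      hfin]
  · intro k
    rw [← hfin, ← FiniteField.orderOf_frobeniusAlgHom (ZMod p) K, orderOf_dvd_iff_pow_eq_one]
    constructor
    · intro h
      refine AlgHom.ext fun x => ?_
      rw [AlgHom.coe_pow, FiniteField.coe_frobeniusAlgHom, pow_iterate, AlgHom.one_apply,
        ZMod.card]
      exact h x
    · intro h y
      have h1 := DFunLike.congr_fun h y
      rw [AlgHom.coe_pow, FiniteField.coe_frobeniusAlgHom, pow_iterate, AlgHom.one_apply,
        ZMod.card] at h1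
      exact h1

variable (F : Type) [Field F] [NumberField F]

theorem BHom_charP {p : ℕ} (hp : p.Prime) (P : HeightOneSpectrum (𝓞 F)) {f : ℕ}
    (hf : Ideal.absNorm P.asIdeal = p ^ f) : CharP (𝓞 F ⧸ P.asIdeal) p := by
  haveI := P.isPrime
  haveI : Nontrivial (𝓞 F ⧸ P.asIdeal) := Ideal.Quotient.nontrivial_iff.2 P.isPrime.ne_top
  rw [CharP.charP_iff_prime_eq_zero hp]
  have h1 : ((Ideal.absNorm P.asIdeal : ℕ) : 𝓞 F ⧸ P.asIdeal) = 0 := by
    have h2 := Ideal.absNorm_mem P.asIdeal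
    have h3 := Ideal.Quotient.eq_zero_iff_mem.2 h2
    rw [map_natCast] at h3
    exact h3
  rw [hf, Nat.cast_pow] at h1
  exact eq_zero_of_pow_eq_zero h1

/-- The homomorphisms with kernel `P`. -/
def BHom_equiv (κ : Type) [Field κ] (P : HeightOneSpectrum (𝓞 F)) :
    {φ : 𝓞 F →+* κ // RingHom.ker φ = P.asIdeal} ≃ ((𝓞 F ⧸ P.asIdeal) →+* κ) where
  toFun φ := Ideal.Quotient.lift P.asIdeal φ.1 fun a ha => by
    have h1 : a ∈ RingHom.ker φ.1 := by rw [φ.2]; exact ha
    exact h1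
  invFun ψ := ⟨ψ.comp (Ideal.Quotient.mk P.asIdeal), by
    haveI := P.isMaximal
    letI : Field (𝓞 F ⧸ P.asIdeal) := Ideal.Quotient.field P.asIdeal
    ext a
    rw [RingHom.mem_ker, RingHom.comp_apply, ← Ideal.Quotient.eq_zero_iff_mem]
    constructor
    · intro h
      exact (injective_iff_map_eq_zero ψ).1 ψ.injective _ h
    · intro h
      rw [h, map_zero]⟩
  left_inv φ := by
    apply Subtype.ext
    ext a
    rfl
  right_inv ψ := by
    apply Ideal.Quotient.ringHom_ext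
    ext a
    rfl

theorem BHom_one {p : ℕ} (hp : p.Prime) (κ : Type) [Field κ] [IsAlgClosed κ] [CharP κ p]
    (P : HeightOneSpectrum (𝓞 F)) {f : ℕ} (hf : Ideal.absNorm P.asIdeal = p ^ f) :
    Nat.card ((𝓞 F ⧸ P.asIdeal) →+* κ) = f ∧ Finite ((𝓞 F ⧸ P.asIdeal) →+* κ) ∧
      ∀ k : ℕ, (∀ y : 𝓞 F ⧸ P.asIdeal, y ^ (p ^ k) = y) ↔ f ∣ k := by
  haveI := P.isMaximal
  haveI : Fact p.Prime := ⟨hp⟩
  haveI := BHom_charP F hp P hf
  letI : Field (𝓞 F ⧸ P.asIdeal) := Ideal.Quotient.field P.asIdeal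
  have hc : Nat.card (𝓞 F ⧸ P.asIdeal) = p ^ f := by
    rw [← hf, Ideal.absNorm_apply, Submodule.cardQuot_apply]
  haveI : Finite (𝓞 F ⧸ P.asIdeal) := Nat.finite_of_card_ne_zero (by
    rw [hc]; exact pow_ne_zero _ hp.ne_zero)
  exact BHom_fin p (𝓞 F ⧸ P.asIdeal) κ hc

/-- The kernel of a homomorphism to a field of characteristic `p`. -/
def BHom_ker {p : ℕ} (hp : p.Prime) {κ : Type} [Field κ] [CharP κ p] (φ : 𝓞 F →+* κ) :
    HeightOneSpectrum (𝓞 F) where
  asIdeal := RingHom.ker φ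
  isPrime := RingHom.ker_isPrime φ
  ne_bot := by
    intro h
    have h1 : ((p : ℕ) : 𝓞 F) ∈ RingHom.ker φ := by
      rw [RingHom.mem_ker, map_natCast]
      exact CharP.cast_eq_zero κ p
    rw [h, Ideal.mem_bot] at h1
    exact hp.ne_zero (Nat.cast_eq_zero.1 h1)

theorem BHom_ker_norm {p : ℕ} (hp : p.Prime) {κ : Type} [Field κ] [CharP κ p]
    (φ : 𝓞 F →+* κ) : ∃ f : ℕ, Ideal.absNorm (BHom_ker F hp φ).asIdeal = p ^ f := by
  set P := BHom_ker F hp φ with hP
  haveI := P.isMaximal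
  letI : Field (𝓞 F ⧸ P.asIdeal) := Ideal.Quotient.field P.asIdeal
  haveI : Finite (𝓞 F ⧸ P.asIdeal) := by
    apply Nat.finite_of_card_ne_zero
    rw [← Submodule.cardQuot_apply, ← Ideal.absNorm_apply]
    exact Ideal.absNorm_ne_zero_of_nonZeroDivisors
      ⟨P.asIdeal, mem_nonZeroDivisors_of_ne_zero P.ne_bot⟩
  haveI : Fact p.Prime := ⟨hp⟩
  haveI : CharP (𝓞 F ⧸ P.asIdeal) p := by
    rw [CharP.charP_iff_prime_eq_zero hp]
    have h1 : ((p : ℕ) : 𝓞 F) ∈ P.asIdeal := by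
      show _ ∈ RingHom.ker φ
      rw [RingHom.mem_ker, map_natCast]
      exact CharP.cast_eq_zero κ p
    have h2 := Ideal.Quotient.eq_zero_iff_mem.2 h1
    rw [map_natCast] at h2
    exact h2
  letI : Algebra (ZMod p) (𝓞 F ⧸ P.asIdeal) := ZMod.algebra _ p
  refine ⟨Module.finrank (ZMod p) (𝓞 F ⧸ P.asIdeal), ?_⟩
  rw [Ideal.absNorm_apply, Submodule.cardQuot_apply]
  have h1 := Module.natCard_eq_pow_finrank (K := ZMod p) (V := 𝓞 F ⧸ P.asIdeal)
  rw [Nat.card_zmod] at h1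
  exact h1

theorem card_hom {p : ℕ} (hp : p.Prime) (κ : Type) [Field κ] [IsAlgClosed κ] [CharP κ p] {k : ℕ}
    (hk : 0 < k) : Nat.card {φ : 𝓞 F →+* κ // ∀ x, φ x ^ (p ^ k) = φ x} = dg F p k := by
  set S : Set (HeightOneSpectrum (𝓞 F)) :=
    {P | ∃ f : ℕ, Ideal.absNorm P.asIdeal = p ^ f ∧ f ∣ k} with hS
  have hSfin : S.Finite := by
    have h1 := Ideal.finite_setOfPred_absNorm_le (S := 𝓞 F) (p ^ k)
    refine Set.Finite.of_finite_image (f := fun P : HeightOneSpectrum (𝓞 F) => P.asIdeal)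
      (h1.subset ?_) (fun P _ Q _ h => HeightOneSpectrum.ext h)
    rintro _ ⟨P, ⟨f, hf, hfk⟩, rfl⟩
    show Ideal.absNorm P.asIdeal ≤ p ^ k
    rw [hf]
    exact Nat.pow_le_pow_right hp.pos (Nat.le_of_dvd hk hfk)
  haveI : Finite S := hSfin
  letI : Fintype S := Fintype.ofFinite S
  -- the right side
  have hR : dg F p k = ∑ P : S, Nat.log p (Ideal.absNorm P.1.asIdeal) := by
    have h1 : dg F p k = ∑ᶠ P ∈ S, Nat.log p (Ideal.absNorm P.asIdeal) := by
      rw [finsum_mem_def, dg]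
      apply finsum_congr
      intro P
      by_cases hP : P ∈ S
      · rw [Set.indicator_of_mem hP]
        exact if_pos hP
      · rw [Set.indicator_of_notMem hP]
        exact if_neg hP
    rw [h1, ← finsum_set_coe_eq_finsum_mem S, finsum_eq_sum_of_fintype]
  -- the condition
  have hcond : ∀ φ : 𝓞 F →+* κ, (∀ x, φ x ^ (p ^ k) = φ x) ↔ BHom_ker F hp φ ∈ S := by
    intro φ
    obtain ⟨f, hf⟩ := BHom_ker_norm F hp φ
    have h1 := (BHom_one F hp κ (BHom_ker F hp φ) hf).2.2 k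
    have h2 : (∀ x, φ x ^ (p ^ k) = φ x) ↔
        ∀ y : 𝓞 F ⧸ (BHom_ker F hp φ).asIdeal, y ^ (p ^ k) = y := by
      constructor
      · intro h y
        obtain ⟨x, rfl⟩ := Ideal.Quotient.mk_surjective y
        rw [← map_pow, Ideal.Quotient.eq]
        show x ^ (p ^ k) - x ∈ RingHom.ker φ
        rw [RingHom.mem_ker, map_sub, map_pow, h x, sub_self]
      · intro h x
        have h3 := h (Ideal.Quotient.mk _ x)
        rw [← map_pow, Ideal.Quotient.eq] at h3
        have h4 : x ^ (p ^ k) - x ∈ RingHom.ker φ := h3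
        rw [RingHom.mem_ker, map_sub, map_pow] at h4
        exact sub_eq_zero.1 h4
    rw [h2, h1]
    constructor
    · intro h
      exact ⟨f, hf, h⟩
    · rintro ⟨g, hg, hgk⟩
      rw [hf] at hg
      rw [Nat.pow_right_injective hp.two_le hg]
      exact hgk
  let q : {φ : 𝓞 F →+* κ // ∀ x, φ x ^ (p ^ k) = φ x} → S := fun φ =>
    ⟨BHom_ker F hp φ.1, (hcond φ.1).1 φ.2⟩
  have hfib : ∀ P : S, {φ : {φ : 𝓞 F →+* κ // ∀ x, φ x ^ (p ^ k) = φ x} // q φ = P} ≃
      {φ : 𝓞 F →+* κ // RingHom.ker φ = P.1.asIdeal} := fun P =>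
    { toFun := fun φ => ⟨φ.1.1, by
        have h1 : (q φ.1).1 = P.1 := congrArg Subtype.val φ.2
        exact congrArg HeightOneSpectrum.asIdeal h1⟩
      invFun := fun φ => ⟨⟨φ.1, (hcond φ.1).2 (by
          have h1 : BHom_ker F hp φ.1 = P.1 := HeightOneSpectrum.ext φ.2
          rw [h1]; exact P.2)⟩, by
        apply Subtype.ext
        exact HeightOneSpectrum.ext φ.2⟩
      left_inv := fun φ => by
        apply Subtype.ext
        apply Subtype.ext
        rfl
      right_inv := fun φ => by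
        apply Subtype.ext
        rfl }
  have hcard : ∀ P : S, Nat.card {φ : {φ : 𝓞 F →+* κ // ∀ x, φ x ^ (p ^ k) = φ x} // q φ = P} =
      Nat.log p (Ideal.absNorm P.1.asIdeal) ∧
      Finite {φ : {φ : 𝓞 F →+* κ // ∀ x, φ x ^ (p ^ k) = φ x} // q φ = P} := by
    intro P
    obtain ⟨f, hf, hfk⟩ := P.2
    obtain ⟨h1, h2, -⟩ := BHom_one F hp κ P.1 hf
    have e := (hfib P).trans (BHom_equiv F κ P.1)
    refine ⟨?_, Finite.of_equiv _ e.symm⟩
    rw [Nat.card_congr e, h1, hf, Nat.log_pow hp.one_lt]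
  haveI : ∀ P : S, Finite {φ : {φ : 𝓞 F →+* κ // ∀ x, φ x ^ (p ^ k) = φ x} // q φ = P} :=
    fun P => (hcard P).2
  rw [hR, ← Nat.card_congr (Equiv.sigmaFiberEquiv q), Nat.card_sigma]
  exact Finset.sum_congr rfl fun P _ => (hcard P).1

end Pool.Agent.DZ74
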