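import Pool.Agent.W_7742k_h74.BDef

/-! # Artin's induction theorem

`artin_induction`: let `Z x` be the cyclic subgroup generated by `x`.  `fxp C x ≠ 0` iff some conjugate of
`x` is in `C`; if `C` is cyclic of order `N` and `x` has order `≥ N` this means that `Z x` is conjugate to
`C` (and `x` has order `N`).  Induction on `N`: if `f x = 0` for all `x` of order `> N`, then with
`b C = f x / (fxp C x * number of the conjugates of C)` for the cyclic `C` of order `N` with generator
`x`, and `b C = 0` for the other `C`, the function `f - ∑_C b C * fxp C` is `0` at all `x` of order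
`≥ N`; it has the same invariance (`fxp C x = fxp C y` if `Z x = Z y`, and for conjugates).  Only
finitely many subgroups, so the finsums are finite sums.

`sum_fxp`: `MulAction.sum_card_fixedBy_eq_card_orbits_mul_card_group`, `Γ ⧸ C` has one orbit. -/

set_option autoImplicit false

noncomputable section

open scoped Classical

namespace Pool.Agent.DZ74

theorem CInd_zpowers {Γ : Type} [Group Γ] (C : Subgroup Γ) {x y : Γ}
    (h : Subgroup.zpowers x = Subgroup.zpowers y) : fxp C x = fxp C y := by
  unfold fxp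
  refine Nat.card_congr (Equiv.subtypeEquivRight fun z => ?_)
  have h1 : ∀ g : Γ, g • z = z ↔ Subgroup.zpowers g ≤ MulAction.stabilizer Γ z := fun g => by
    rw [Subgroup.zpowers_le, MulAction.mem_stabilizer_iff]
  rw [h1, h1, h]

theorem CInd_conj {Γ : Type} [Group Γ] (C : Subgroup Γ) (x y : Γ) :
    fxp C (y * x * y⁻¹) = fxp C x := by
  unfold fxp
  refine Nat.card_congr ((MulAction.toPerm y⁻¹ : Equiv.Perm (Γ ⧸ C)).subtypeEquiv fun z => ?_)
  rw [MulAction.toPerm_apply, mul_smul, mul_smul, smul_eq_iff_eq_inv_smul]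

theorem CInd_mem {Γ : Type} [Group Γ] (C : Subgroup Γ) (x : Γ) (h : fxp C x ≠ 0) :
    ∃ g : Γ, g⁻¹ * x * g ∈ C := by
  unfold fxp at h
  have h1 := (Nat.card_ne_zero.1 h).1
  obtain ⟨z, hz⟩ := h1
  induction z using QuotientGroup.induction_on with
  | H g =>
    refine ⟨g, ?_⟩
    have h2 : ((x * g : Γ) : Γ ⧸ C) = (g : Γ ⧸ C) := hz
    rw [QuotientGroup.eq] at h2
    have h3 := C.inv_mem h2
    simpa [mul_assoc] using h3

theorem CInd_self {Γ : Type} [Group Γ] [Finite Γ] (x : Γ) :
    fxp (Subgroup.zpowers x) x ≠ 0 := by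
  unfold fxp
  rw [Nat.card_ne_zero]
  refine ⟨⟨⟨((1 : Γ) : Γ ⧸ Subgroup.zpowers x), ?_⟩⟩, inferInstance⟩
  change ((x * 1 : Γ) : Γ ⧸ Subgroup.zpowers x) = ((1 : Γ) : Γ ⧸ Subgroup.zpowers x)
  rw [QuotientGroup.eq]
  simp

theorem CInd_orderOf {Γ : Type} [Group Γ] (x g : Γ) : orderOf (g⁻¹ * x * g) = orderOf x := by
  have h := (MulAut.conj g⁻¹).orderOf_eq x
  rwa [MulAut.conj_apply, inv_inv] at h

theorem CInd_step {Γ : Type} [Group Γ] [Finite Γ] [Fintype (Subgroup Γ)] (k : ℕ) :
    ∀ (f : Γ → ℚ) (_ : ∀ x y, Subgroup.zpowers x = Subgroup.zpowers y → f x = f y)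
    (_ : ∀ x y, f (y * x * y⁻¹) = f x) (_ : ∀ x, k < orderOf x → f x = 0),
    ∃ a : Subgroup Γ → ℚ, ∀ x, f x = ∑ C : Subgroup Γ, a C * (fxp C x : ℚ) := by
  induction k with
  | zero =>
    intro f _ _ h3
    refine ⟨fun _ => 0, fun x => ?_⟩
    rw [h3 x (orderOf_pos x)]
    simp
  | succ k ih =>
    intro f h1 h2 h3
    let P : Subgroup Γ → Γ → Prop := fun C x => Subgroup.zpowers x = C ∧ orderOf x = k + 1
    let D : Γ → ℚ := fun x => ∑ C : Subgroup Γ, if ∃ c, P C c then (fxp C x : ℚ) else 0
    have hD1 : ∀ x y, Subgroup.zpowers x = Subgroup.zpowers y → D x = D y := by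
      intro x y h
      refine Finset.sum_congr rfl fun C _ => ?_
      rw [CInd_zpowers C h]
    have hD2 : ∀ x y, D (y * x * y⁻¹) = D x := by
      intro x y
      refine Finset.sum_congr rfl fun C _ => ?_
      rw [CInd_conj C x y]
    let b : Subgroup Γ → ℚ := fun C =>
      if h : ∃ c, P C c then f h.choose / D h.choose else 0
    -- the value of `b`
    have hb : ∀ C x, (∃ c, P C c) → orderOf x = k + 1 → fxp C x ≠ 0 → b C = f x / D x := by
      intro C x hC hx hfx
      have hc := hC.choose_spec
      have hbC : b C = f hC.choose / D hC.choose := dif_pos hC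
      rw [hbC]
      generalize hC.choose = c at hc
      obtain ⟨g, hg⟩ := CInd_mem C x hfx
      have h4 : Subgroup.zpowers (g⁻¹ * x * g) = C := by
        apply Subgroup.eq_of_le_of_card_ge
        · rw [Subgroup.zpowers_le]
          exact hg
        · rw [Nat.card_zpowers, ← hc.1, Nat.card_zpowers, hc.2]
          rw [CInd_orderOf, hx]
      have h5 : Subgroup.zpowers (g⁻¹ * x * (g⁻¹)⁻¹) = Subgroup.zpowers c := by
        rw [inv_inv, h4, hc.1]
      have h6 : f c = f x := by rw [← h1 _ _ h5, h2]
      have h7 : D c = D x := by rw [← hD1 _ _ h5, hD2]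
      rw [h6, h7]
    have hDne : ∀ x, orderOf x = k + 1 → D x ≠ 0 := by
      intro x hx
      apply ne_of_gt
      have h4 : (0 : ℚ) < if ∃ c, P (Subgroup.zpowers x) c then
          (fxp (Subgroup.zpowers x) x : ℚ) else 0 := by
        rw [if_pos ⟨x, rfl, hx⟩]
        exact_mod_cast Nat.pos_of_ne_zero (CInd_self x)
      refine lt_of_lt_of_le h4 ?_
      refine Finset.single_le_sum
        (f := fun C : Subgroup Γ => if ∃ c, P C c then (fxp C x : ℚ) else 0)
        (fun C _ => ?_) (Finset.mem_univ _)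
      split_ifs
      · exact Nat.cast_nonneg _
      · exact le_refl _
    obtain ⟨a, ha⟩ := ih (fun x => f x - ∑ C : Subgroup Γ, b C * (fxp C x : ℚ)) (by
      intro x y h
      rw [h1 x y h]
      congr 1
      refine Finset.sum_congr rfl fun C _ => ?_
      rw [CInd_zpowers C h]) (by
      intro x y
      rw [h2 x y]
      congr 1
      refine Finset.sum_congr rfl fun C _ => ?_
      rw [CInd_conj C x y]) (by
      intro x hx
      rcases Nat.lt_or_ge (k + 1) (orderOf x) with h | h
      · rw [h3 x h, zero_sub, neg_eq_zero]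
        refine Finset.sum_eq_zero fun C _ => ?_
        by_cases hC : ∃ c, P C c
        · have h4 : fxp C x = 0 := by
            by_contra hne
            obtain ⟨g, hg⟩ := CInd_mem C x hne
            obtain ⟨c, hc⟩ := hC
            have h6 : orderOf (g⁻¹ * x * g) = orderOf x := CInd_orderOf x g
            have h7 : Subgroup.zpowers (g⁻¹ * x * g) ≤ C := by
              rw [Subgroup.zpowers_le]
              exact hg
            have h8 := Subgroup.card_le_of_le h7
            rw [Nat.card_zpowers, h6, ← hc.1, Nat.card_zpowers, hc.2] at h8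
            omega
          rw [h4, Nat.cast_zero, mul_zero]
        · have h4 : b C = 0 := dif_neg hC
          rw [h4, zero_mul]
      · have hx' : orderOf x = k + 1 := by omega
        have h4 : ∑ C : Subgroup Γ, b C * (fxp C x : ℚ) = (f x / D x) * D x := by
          rw [Finset.mul_sum]
          refine Finset.sum_congr rfl fun C _ => ?_
          by_cases hC : ∃ c, P C c
          · rw [if_pos hC]
            by_cases h0 : fxp C x = 0
            · rw [h0, Nat.cast_zero, mul_zero, mul_zero]
            · rw [hb C x hC hx' h0]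
          · rw [if_neg hC, mul_zero]
            have h5 : b C = 0 := dif_neg hC
            rw [h5, zero_mul]
        rw [h4, div_mul_cancel₀ _ (hDne x hx'), sub_self])
    refine ⟨fun C => a C + b C, fun x => ?_⟩
    have h4 := ha x
    simp only [add_mul, Finset.sum_add_distrib]
    rw [← h4]
    ring

theorem artin_induction {Γ : Type} [Group Γ] [Finite Γ] (f : Γ → ℚ)
    (h1 : ∀ x y, Subgroup.zpowers x = Subgroup.zpowers y → f x = f y)
    (h2 : ∀ x y, f (y * x * y⁻¹) = f x) :
    ∃ a : Subgroup Γ → ℚ, ∀ x, f x = ∑ᶠ C : Subgroup Γ, a C * (fxp C x : ℚ) := by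
  have := Fintype.ofFinite (Subgroup Γ)
  obtain ⟨a, ha⟩ := CInd_step (Γ := Γ) (Nat.card Γ) f h1 h2 (by
    intro x hx
    exact absurd hx (not_lt.2 (orderOf_le_card (x := x))))
  refine ⟨a, fun x => ?_⟩
  rw [ha x, finsum_eq_sum_of_fintype]

theorem sum_fxp {Γ : Type} [Group Γ] [Fintype Γ] (C : Subgroup Γ) :
    ∑ x, fxp C x = Fintype.card Γ := by
  have h := MulAction.sum_card_fixedBy_eq_card_orbits_mul_card_group Γ (Γ ⧸ C)
  have h1 : Fintype.card (Quotient (MulAction.orbitRel Γ (Γ ⧸ C))) = 1 := by
    rw [Fintype.card_eq_one_iff_nonempty_unique]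
    refine ⟨⟨⟨Quotient.mk _ ((1 : Γ) : Γ ⧸ C)⟩, fun q => ?_⟩⟩
    induction q using Quotient.inductionOn with
    | h z =>
      apply Quotient.sound
      exact MulAction.exists_smul_eq Γ _ _
  rw [h1, one_mul] at h
  rw [← h]
  refine Finset.sum_congr rfl fun x _ => ?_
  unfold fxp
  rw [Nat.card_eq_fintype_card]
  rfl

end Pool.Agent.DZ74
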