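import Pool.Agent.W_7742k_h74.BArt
import Pool.Agent.W_7742k_h74.CInd

/-! # The product of the zeta functions

`artin_induction` for `θ`: `θ x = ∑_C a C * fxp C x`.  For every subgroup `C` take `F_C`, `g_C` from
`art_zeta`; `g_C` is positive for `σ > β₀`: for `σ > 1` by the formula, at `1` by assumption, on
`(β₀, 1)` it is continuous and nowhere `0` (intermediate value theorem).  `Gf σ = ∏_C exp (a C * log (g_C σ))`.
The sum of the `a C` is `d`: sum over `x ∈ Γ`, `sum_fxp`.  For `σ > 1`: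
`Gf σ = (σ - 1) ^ (∑ a C) * exp (∑_C a C ∑' fx ...)`.  -/

set_option autoImplicit false

noncomputable section

open scoped Classical

namespace Pool.Agent.DZ74

open NumberField IsDedekindDomain Pool.Agent.Cheb
open Pool.Agent.H74E (pk)

/-- The values of `θ` at the powers of the Frobenius elements, at the unramified primes. -/
def th (𝔓 : Nat.Primes → Ideal (Zbar ℚ)) (Fr : Nat.Primes → AbsGal ℚ) (U : Subgroup (AbsGal ℚ))
    [U.Normal] (θ : AbsGal ℚ ⧸ U → ℝ) (x : Nat.Primes × ℕ) : ℝ :=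
  if inertiaAt (𝔓 x.1) ≤ U then θ ((QuotientGroup.mk (Fr x.1) : AbsGal ℚ ⧸ U) ^ (x.2 + 1)) else 0

/-- One subgroup: the zeta function with its positivity. -/
theorem gam_aux (𝔓 : Nat.Primes → Ideal (Zbar ℚ)) (h𝔓 : ∀ p, (𝔓 p).IsPrime)
    (hp : ∀ p : Nat.Primes, ((p : ℕ) : Zbar ℚ) ∈ 𝔓 p) (Fr : Nat.Primes → AbsGal ℚ)
    (hFr : ∀ p : Nat.Primes, IsFrobAt (𝔓 p) (p : ℕ) (Fr p))
    (U : Subgroup (AbsGal ℚ)) [U.Normal] (hU : IsOpen (U : Set (AbsGal ℚ)))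
    (β₀ : ℝ) (hβ : 0 ≤ β₀)
    (hZ : ∀ (F : Type) [Field F] [NumberField F] (i : F →+* AlgebraicClosure ℚ),
      (∀ g ∈ U, ∀ a : F, g (i a) = i a) → ZeroFree F β₀)
    (C : Subgroup (AbsGal ℚ ⧸ U)) :
    ∃ g : ℝ → ℝ, (∀ σ : ℝ, β₀ < σ → AnalyticAt ℝ g σ ∧ 0 < g σ) ∧
      ∀ σ : ℝ, 1 < σ → (Summable fun x => fx 𝔓 Fr U C x * pk σ x) ∧
        g σ = (σ - 1) * Real.exp (∑' x, fx 𝔓 Fr U C x * pk σ x) := by
  obtain ⟨F, hF1, hF2, i, hi, g, hg1, hg2, hg3, hg4⟩ := art_zeta 𝔓 h𝔓 hp Fr hFr U hU C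
  have hz : ZeroFree F β₀ := by
    refine hZ F i fun u hu a => ?_
    have h := (hi (i a)).1 ⟨a, rfl⟩
    refine h u ?_
    rw [Subgroup.mem_comap]
    have h0 : (QuotientGroup.mk' U) u = 1 := (QuotientGroup.eq_one_iff u).2 hu
    rw [h0]
    exact C.one_mem
  have hne := hg3 β₀ hβ hz
  refine ⟨g, fun σ hσ => ⟨hg1 σ (lt_of_le_of_lt hβ hσ), ?_⟩, hg4⟩
  rcases lt_trichotomy σ 1 with h | h | h
  · by_contra hle
    rw [not_lt] at hle
    have hcont : ContinuousOn g (Set.Icc σ 1) := fun t ht =>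
      (hg1 t (by linarith [ht.1])).continuousAt.continuousWithinAt
    obtain ⟨c, hc, hc0⟩ := intermediate_value_Icc h.le hcont ⟨hle, hg2.le⟩
    have hc1 : c ≠ 1 := by
      rintro rfl
      exact hg2.ne' hc0
    exact hne c (lt_of_lt_of_le hσ hc.1) (lt_of_le_of_ne hc.2 hc1) hc0
  · rw [h]
    exact hg2
  · rw [(hg4 σ h).2]
    exact mul_pos (by linarith) (Real.exp_pos _)

theorem gam (𝔓 : Nat.Primes → Ideal (Zbar ℚ)) (h𝔓 : ∀ p, (𝔓 p).IsPrime)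
    (hp : ∀ p : Nat.Primes, ((p : ℕ) : Zbar ℚ) ∈ 𝔓 p) (Fr : Nat.Primes → AbsGal ℚ)
    (hFr : ∀ p : Nat.Primes, IsFrobAt (𝔓 p) (p : ℕ) (Fr p))
    (U : Subgroup (AbsGal ℚ)) [U.Normal] (hU : IsOpen (U : Set (AbsGal ℚ)))
    [Fintype (AbsGal ℚ ⧸ U)] (θ : AbsGal ℚ ⧸ U → ℚ)
    (h1 : ∀ x y, Subgroup.zpowers x = Subgroup.zpowers y → θ x = θ y)
    (h2 : ∀ x y, θ (y * x * y⁻¹) = θ x) (d : ℕ)
    (h3 : ∑ x, θ x = (Fintype.card (AbsGal ℚ ⧸ U) : ℚ) * d)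
    (β₀ : ℝ) (hβ : 0 ≤ β₀)
    (hZ : ∀ (F : Type) [Field F] [NumberField F] (i : F →+* AlgebraicClosure ℚ),
      (∀ g ∈ U, ∀ a : F, g (i a) = i a) → ZeroFree F β₀) :
    ∃ Gf : ℝ → ℝ, (∀ σ : ℝ, β₀ < σ → AnalyticAt ℝ Gf σ ∧ 0 < Gf σ) ∧
      ∀ σ : ℝ, 1 < σ → (Summable fun x => th 𝔓 Fr U (fun y => (θ y : ℝ)) x * pk σ x) ∧
        Gf σ = (σ - 1) ^ d * Real.exp (∑' x, th 𝔓 Fr U (fun y => (θ y : ℝ)) x * pk σ x) := by
  obtain ⟨a, ha⟩ := artin_induction θ h1 h2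
  simp only [finsum_eq_sum_of_fintype] at ha
  choose g hg1 hg2 using gam_aux 𝔓 h𝔓 hp Fr hFr U hU β₀ hβ hZ
  have hcard : (Fintype.card (AbsGal ℚ ⧸ U) : ℚ) ≠ 0 := by
    exact_mod_cast Fintype.card_ne_zero
  have hsum : ∑ C, a C = d := by
    have h4 : (Fintype.card (AbsGal ℚ ⧸ U) : ℚ) * ∑ C, a C =
        (Fintype.card (AbsGal ℚ ⧸ U) : ℚ) * d := by
      rw [← h3, Finset.mul_sum]
      calc ∑ C, (Fintype.card (AbsGal ℚ ⧸ U) : ℚ) * a C
          = ∑ C : Subgroup (AbsGal ℚ ⧸ U), ∑ x, a C * (fxp C x : ℚ) := by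
            refine Finset.sum_congr rfl fun C _ => ?_
            rw [← Finset.mul_sum, ← sum_fxp C]
            push_cast
            ring
        _ = ∑ x, ∑ C : Subgroup (AbsGal ℚ ⧸ U), a C * (fxp C x : ℚ) := Finset.sum_comm
        _ = ∑ x, θ x := Finset.sum_congr rfl fun x _ => (ha x).symm
    exact mul_left_cancel₀ hcard h4
  have hsumR : ∑ C, (a C : ℝ) = d := by exact_mod_cast congrArg (fun q : ℚ => (q : ℝ)) hsum
  have hth : ∀ (σ : ℝ) (x : Nat.Primes × ℕ), th 𝔓 Fr U (fun y => (θ y : ℝ)) x * pk σ x =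
      ∑ C, (a C : ℝ) * (fx 𝔓 Fr U C x * pk σ x) := by
    intro σ x
    unfold th fx
    split_ifs with h
    · beta_reduce
      rw [ha, Rat.cast_sum, Finset.sum_mul]
      refine Finset.sum_congr rfl fun C _ => ?_
      push_cast
      ring
    · simp
  refine ⟨fun σ => Real.exp (∑ C, (a C : ℝ) * Real.log (g C σ)), fun σ hσ => ⟨?_, Real.exp_pos _⟩,
    fun σ hσ => ⟨?_, ?_⟩⟩
  · refine AnalyticAt.rexp' (Finset.analyticAt_fun_sum _ fun C _ => ?_)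
    exact analyticAt_const.mul ((analyticAt_log (hg1 C σ hσ).2).comp (hg1 C σ hσ).1)
  · simp only [hth]
    exact summable_sum fun C _ => (hg2 C σ hσ).1.mul_left _
  · have h5 : ∑' x, th 𝔓 Fr U (fun y => (θ y : ℝ)) x * pk σ x =
        ∑ C, (a C : ℝ) * ∑' x, fx 𝔓 Fr U C x * pk σ x := by
      simp only [hth]
      rw [Summable.tsum_finsetSum fun C _ => (hg2 C σ hσ).1.mul_left _]
      exact Finset.sum_congr rfl fun C _ => tsum_mul_left
    have h6 : ∀ C, Real.log (g C σ) = Real.log (σ - 1) + ∑' x, fx 𝔓 Fr U C x * pk σ x := by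
      intro C
      rw [(hg2 C σ hσ).2, Real.log_mul (by linarith) (Real.exp_pos _).ne', Real.log_exp]
    have h7 : ∑ C, (a C : ℝ) * Real.log (g C σ) = (d : ℝ) * Real.log (σ - 1) +
        ∑' x, th 𝔓 Fr U (fun y => (θ y : ℝ)) x * pk σ x := by
      rw [h5, ← hsumR, Finset.sum_mul, ← Finset.sum_add_distrib]
      refine Finset.sum_congr rfl fun C _ => ?_
      rw [h6, mul_add]
    show Real.exp _ = _
    rw [h7, Real.exp_add, mul_comm (d : ℝ), Real.exp_mul, Real.exp_log (by linarith),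
      Real.rpow_natCast]

end Pool.Agent.DZ74
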