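import Pool.Agent.W_7742k_h74.BDef
import Pool.Agent.W_7742y_h74.Fin
import Pool.Agent.W_7742y_h74.MeanGe
import Pool.Agent.W_7742z_h74.Fin

/-! # The sum of the squares of the absolute values of the conjugate characters

`theta x = ∑_s |s (β x)| ^ 2`, `s (β x)` the trace of `R_s x`, where `R_s x` has finite order.

* Rational: the complex conjugate of `s (β x)` is `s (β x⁻¹)` (`OneP74.conj_trace`), so `theta x` is the
  sum over `s` of `s (β x * β x⁻¹)`, the trace from `K` to `ℚ` (`Algebra.trace` and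
  `trace_eq_sum_embeddings`).
* Let `m` be the order of `Γ`, `ζ` a primitive root of unity of order `m`;
  `OneP74.exists_exponents`: `tr R_s (x ^ j) = ∑ i, ζ ^ (j * a_s i)`.  So
  `theta (x ^ j) = Q (ζ ^ j)` for a polynomial `Q` with integral coefficients (write `ζ ^ (-a)` as
  `ζ ^ (a * (m - 1))`).  If `Z x = Z y` then `y = x ^ j` with `j` prime to the order of `x`, and one
  can choose `j` prime to `m` (or use the order of `x` in place of `m` throughout).  `Q ζ = q` is
  rational and `ζ ^ j` has the same minimal polynomial as `ζ` (`IsPrimitiveRoot.minpoly_eq_pow_coprime`)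
  so `Q (ζ ^ j) = q`.
* `R_s` is a homomorphism, so `β` is a class function.

`sum_theta`: `∑_x |tr R_s x| ^ 2 = |Γ|` for each `s` (the first orthogonality relation;
`MeanGe.lean` and `W_7742e_h15/Irr.lean` have `∑ |tr| ^ 2 = |Γ| * dim` of the commutant; for an
irreducible representation the commutant is `ℂ` by Schur's lemma). -/

set_option autoImplicit false

noncomputable section

open scoped Classical

namespace Pool.Agent.DZ74

open NumberField

variable {K : Type} [Field K] [NumberField K]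

/-- The sum of the squares of the absolute values of the conjugates. -/
def tw (y : K) : ℝ := ∑ s : K →+* ℂ, ‖s y‖ ^ 2

theorem CInv_trace (y : K) : ((Algebra.trace ℚ K y : ℚ) : ℂ) = ∑ s : K →+* ℂ, s y := by
  have h := trace_eq_sum_embeddings (K := ℚ) (L := K) (E := ℂ) (x := y)
  rw [← Fintype.sum_equiv (RingHom.equivRatAlgHom K ℂ) (fun f => f y) (fun φ => φ y)
    (fun f => rfl)] at h
  rw [← h]
  rfl

theorem CInv_inj {a b : 𝓞 K} (s : K →+* ℂ) (h : s (a : K) = s (b : K)) : a = b :=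
  RingOfIntegers.ext (s.injective h)

theorem CInv_mul {Γ : Type} [Group Γ] [Finite Γ] {n : ℕ} (β : Γ → 𝓞 K)
    (h : ∀ s : K →+* ℂ, ∃ R : Γ →* Matrix (Fin n) (Fin n) ℂ, ∀ x, (R x).trace = s (β x : K))
    (x : Γ) : ((tw (β x : K) : ℝ) : ℂ) = ∑ s : K →+* ℂ, s (β x : K) * s (β x⁻¹ : K) := by
  unfold tw
  push_cast
  refine Finset.sum_congr rfl fun s _ => ?_
  obtain ⟨R, hR⟩ := h s
  have hRm : R x ^ Nat.card Γ = 1 := by
    rw [← map_pow, pow_card_eq_one', map_one]
  have h1 := OneP74.conj_trace Nat.card_pos (R x) hRm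
  have h2 : (R x)⁻¹ = R x⁻¹ := by
    apply Matrix.inv_eq_right_inv
    rw [← map_mul, mul_inv_cancel, map_one]
  rw [h2, hR, hR] at h1
  rw [← h1, Complex.mul_conj']

theorem CInv_exp {Γ : Type} [Group Γ] {n : ℕ} (R : Γ →* Matrix (Fin n) (Fin n) ℂ) (x : Γ)
    {m : ℕ} (hm : 0 < m) (hx : x ^ m = 1) {ζ : ℂ} (hζ : IsPrimitiveRoot ζ m) :
    ∃ a : Fin n → ℕ, ∀ j : ℕ, (R (x ^ j)).trace = ∑ i, ζ ^ (j * a i) := by
  obtain ⟨a, ha⟩ := OneP74.exists_exponents hm (R x) (by rw [← map_pow, hx, map_one]) ζ hζ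
  exact ⟨a, fun j => by rw [map_pow, ha j]⟩

theorem theta_inv {Γ : Type} [Group Γ] [Finite Γ] {n : ℕ} (β : Γ → 𝓞 K)
    (h : ∀ s : K →+* ℂ, ∃ R : Γ →* Matrix (Fin n) (Fin n) ℂ, ∀ x, (R x).trace = s (β x : K)) :
    ∃ θ : Γ → ℚ, (∀ x, (θ x : ℝ) = tw (β x : K)) ∧
      (∀ x y, Subgroup.zpowers x = Subgroup.zpowers y → θ x = θ y) ∧
      ∀ x y, θ (y * x * y⁻¹) = θ x := by
  have hθ : ∀ x, ((Algebra.trace ℚ K ((β x : K) * (β x⁻¹ : K)) : ℚ) : ℂ) =
      ∑ s : K →+* ℂ, s (β x : K) * s (β x⁻¹ : K) := by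
    intro x
    rw [CInv_trace]
    refine Finset.sum_congr rfl fun s _ => ?_
    rw [map_mul]
  refine ⟨fun x => Algebra.trace ℚ K ((β x : K) * (β x⁻¹ : K)), ?_, ?_, ?_⟩
  · intro x
    have h1 := (hθ x).trans (CInv_mul β h x).symm
    exact_mod_cast h1
  · intro x y hxy
    choose R hR using h
    have hm : 0 < orderOf x := orderOf_pos x
    have hord : orderOf y = orderOf x := by
      rw [← Nat.card_zpowers, ← Nat.card_zpowers, hxy]
    have hy : y ∈ Subgroup.zpowers x := by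
      rw [hxy]; exact Subgroup.mem_zpowers y
    obtain ⟨j, rfl⟩ := (mem_powers_iff_mem_zpowers (x := x) (y := y)).2 hy
    have hord' : orderOf (x ^ j) = orderOf x := hord
    have hcop : Nat.Coprime j (orderOf x) := by
      rw [orderOf_pow] at hord'
      have h1 : Nat.gcd (orderOf x) j ∣ orderOf x := Nat.gcd_dvd_left _ _
      have h2 : 0 < Nat.gcd (orderOf x) j := Nat.pos_of_dvd_of_pos h1 hm
      have h3 : Nat.gcd (orderOf x) j = 1 := by
        have h4 : orderOf x = orderOf x / Nat.gcd (orderOf x) j * Nat.gcd (orderOf x) j :=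
          (Nat.div_mul_cancel h1).symm
        rw [hord'] at h4
        have h5 : orderOf x * 1 = orderOf x * Nat.gcd (orderOf x) j := by rw [mul_one]; exact h4
        exact (Nat.eq_of_mul_eq_mul_left hm h5).symm
      rw [Nat.coprime_comm]
      exact h3
    set m := orderOf x with hmdef
    have hζ := Complex.isPrimitiveRoot_exp m hm.ne'
    set ζ := Complex.exp (2 * Real.pi * Complex.I / m) with hζdef
    have hζj : IsPrimitiveRoot (ζ ^ j) m := hζ.pow_of_coprime j hcop
    have hex : ∀ s : K →+* ℂ, ∃ a : Fin n → ℕ, ∀ j : ℕ,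
        (R s (x ^ j)).trace = ∑ i, ζ ^ (j * a i) := fun s =>
      CInv_exp (R s) x hm (pow_orderOf_eq_one x) hζ
    choose a ha using hex
    -- the polynomial
    let Q : Polynomial ℚ := ∑ s : K →+* ℂ, (∑ i, (Polynomial.X : Polynomial ℚ) ^ (a s i)) *
      ∑ i, (Polynomial.X : Polynomial ℚ) ^ ((m - 1) * a s i)
    have hinv : ∀ t : ℕ, (x ^ t)⁻¹ = x ^ (t * (m - 1)) := by
      intro t
      apply inv_eq_of_mul_eq_one_right
      rw [← pow_add]
      have : t + t * (m - 1) = m * t := by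
        obtain ⟨m', hm'⟩ : ∃ m', m = m' + 1 := ⟨m - 1, by omega⟩
        rw [hm', Nat.add_sub_cancel]
        ring
      rw [this, pow_mul, hmdef, pow_orderOf_eq_one, one_pow]
    have hQ : ∀ t : ℕ, Polynomial.aeval (ζ ^ t) Q =
        ((Algebra.trace ℚ K ((β (x ^ t) : K) * (β (x ^ t)⁻¹ : K)) : ℚ) : ℂ) := by
      intro t
      rw [hθ]
      simp only [Q, map_sum, map_mul, map_pow, Polynomial.aeval_X]
      refine Finset.sum_congr rfl fun s _ => ?_
      rw [← hR s, ← hR s, hinv t, ha s, ha s]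
      congr 1
      · refine Finset.sum_congr rfl fun i _ => ?_
        rw [← pow_mul]
      · refine Finset.sum_congr rfl fun i _ => ?_
        rw [← pow_mul, mul_assoc]
    have h1 := hQ 1
    rw [pow_one, pow_one] at h1
    have hj := hQ j
    set q := Algebra.trace ℚ K ((β x : K) * (β x⁻¹ : K)) with hq
    have h2 : Polynomial.aeval ζ (Q - Polynomial.C q) = 0 := by
      rw [map_sub, h1, Polynomial.aeval_C]
      simp
    have h3 : minpoly ℚ ζ ∣ Q - Polynomial.C q := minpoly.dvd ℚ ζ h2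
    rw [← Polynomial.cyclotomic_eq_minpoly_rat hζ hm,
      Polynomial.cyclotomic_eq_minpoly_rat hζj hm] at h3
    obtain ⟨P, hP⟩ := h3
    have h4 : Polynomial.aeval (ζ ^ j) (Q - Polynomial.C q) = 0 := by
      rw [hP, map_mul, minpoly.aeval, zero_mul]
    rw [map_sub, hj, Polynomial.aeval_C, sub_eq_zero] at h4
    change q = Algebra.trace ℚ K ((β (x ^ j) : K) * (β (x ^ j)⁻¹ : K))
    have h5 : ((Algebra.trace ℚ K ((β (x ^ j) : K) * (β (x ^ j)⁻¹ : K)) : ℚ) : ℂ) = ((q : ℚ) : ℂ) := h4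
    exact_mod_cast h5.symm
  · intro x y
    obtain ⟨s⟩ : Nonempty (K →+* ℂ) := inferInstance
    obtain ⟨R, hR⟩ := h s
    have hcl : ∀ z, β (y * z * y⁻¹) = β z := by
      intro z
      apply CInv_inj s
      rw [← hR, ← hR, map_mul, Matrix.trace_mul_comm, ← map_mul, ← mul_assoc, inv_mul_cancel,
        one_mul]
    have hinv : (y * x * y⁻¹)⁻¹ = y * x⁻¹ * y⁻¹ := by group
    change Algebra.trace ℚ K ((β (y * x * y⁻¹) : K) * (β (y * x * y⁻¹)⁻¹ : K)) = _
    rw [hinv, hcl, hcl]

theorem CInv_schur {Γ : Type} [Group Γ] [Fintype Γ] {n : ℕ} (hn : 0 < n)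
    (R : Γ →* Matrix (Fin n) (Fin n) ℂ)
    (hR : ∀ W : Submodule ℂ (Fin n → ℂ), (∀ g, ∀ w ∈ W, (R g).mulVec w ∈ W) → W = ⊥ ∨ W = ⊤) :
    ∑ g, ‖(R g).trace‖ ^ 2 = (Fintype.card Γ : ℝ) := by
  have hne : Nonempty (Fin n) := ⟨⟨0, hn⟩⟩
  let r : Representation ℂ Γ (Fin n → ℂ) :=
    (Matrix.toLinAlgEquiv' (R := ℂ) (n := Fin n)).toMonoidHom.comp R
  have hr : ∀ g v, r g v = (R g).mulVec v := fun g v => rfl
  have hchar : ∀ g, r.character g = (R g).trace := fun g => Matrix.trace_toLin'_eq (R g)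
  have hcard0 : (Nat.card Γ : ℂ) ≠ 0 := Nat.cast_ne_zero.2 Nat.card_pos.ne'
  let _ : Invertible (Nat.card Γ : ℂ) := invertibleOfNonzero hcard0
  have key := Representation.card_inv_mul_sum_char_eq_finrank (Representation.linHom r r)
  have hsum : ∑ g : Γ, (Representation.linHom r r).character g =
      ∑ g, star (R g).trace * (R g).trace := by
    refine Finset.sum_congr rfl fun g _ => ?_
    rw [Representation.char_linHom, hchar, hchar]
    have h1 : (R g⁻¹).trace = star (R g).trace := by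
      have := GalSide.irr_trace_inv_eq R g⁻¹
      rw [inv_inv] at this
      exact this.symm
    rw [h1]
  have hid : (LinearMap.id : (Fin n → ℂ) →ₗ[ℂ] (Fin n → ℂ)) ∈
      (Representation.linHom r r).invariants := by
    intro k
    rw [Representation.linHom_apply]
    refine LinearMap.ext fun v => ?_
    show r k (r k⁻¹ v) = v
    rw [← Module.End.mul_apply, ← map_mul, mul_inv_cancel, map_one, Module.End.one_apply]
  have hone : Module.finrank ℂ (Representation.linHom r r).invariants = 1 := by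
    refine (finrank_eq_one_iff_of_nonzero'
      (⟨LinearMap.id, hid⟩ : (Representation.linHom r r).invariants) ?_).2 ?_
    · intro h0
      have h1 := congrArg Subtype.val h0
      have h3 := LinearMap.congr_fun h1 (fun _ => 1)
      have h4 := congrFun h3 ⟨0, hn⟩
      simp at h4
    · rintro ⟨f, hf⟩
      obtain ⟨μ, hμ⟩ := Module.End.exists_eigenvalue (K := ℂ) (V := Fin n → ℂ) f
      have hcomm : ∀ g v, f (r g v) = r g (f v) := by
        intro g v
        have h1 := hf g
        rw [Representation.linHom_apply] at h1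
        have h2 := LinearMap.congr_fun h1 (r g v)
        have h3 : r g⁻¹ (r g v) = v := by
          rw [← Module.End.mul_apply, ← map_mul, inv_mul_cancel, map_one, Module.End.one_apply]
        have h4 : r g (f (r g⁻¹ (r g v))) = f (r g v) := h2
        rw [h3] at h4
        exact h4.symm
      rcases hR (Module.End.eigenspace f μ) (by
        intro g w hw
        rw [Module.End.mem_eigenspace_iff] at hw ⊢
        rw [← hr, hcomm, hw, map_smul]) with h1 | h1
      · exact absurd h1 hμ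
      · refine ⟨μ, Subtype.ext (LinearMap.ext fun v => ?_)⟩
        have h2 : v ∈ Module.End.eigenspace f μ := by rw [h1]; exact Submodule.mem_top
        rw [Module.End.mem_eigenspace_iff] at h2
        exact h2.symm
  rw [hsum, inv_mul_eq_iff_eq_mul₀ hcard0, hone] at key
  have h1 : ((∑ g, ‖(R g).trace‖ ^ 2 : ℝ) : ℂ) = ((Fintype.card Γ : ℝ) : ℂ) := by
    push_cast
    rw [← Nat.card_eq_fintype_card]
    refine Eq.trans ?_ (key.trans (by simp))
    refine Finset.sum_congr rfl fun g _ => ?_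
    exact (Complex.conj_mul' _).symm
  exact Complex.ofReal_injective h1

theorem sum_theta {Γ : Type} [Group Γ] [Fintype Γ] {n : ℕ} (hn : 0 < n) (β : Γ → 𝓞 K)
    (h : ∀ s : K →+* ℂ, ∃ R : Γ →* Matrix (Fin n) (Fin n) ℂ, (∀ x, (R x).trace = s (β x : K)) ∧
      ∀ W : Submodule ℂ (Fin n → ℂ), (∀ g, ∀ w ∈ W, (R g).mulVec w ∈ W) → W = ⊥ ∨ W = ⊤) :
    ∑ x, tw (β x : K) = (Fintype.card Γ : ℝ) * (Module.finrank ℚ K : ℝ) := by
  unfold tw
  rw [Finset.sum_comm]
  have h1 : ∀ s : K →+* ℂ, ∑ x, ‖s (β x : K)‖ ^ 2 = (Fintype.card Γ : ℝ) := by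
    intro s
    obtain ⟨R, hR, hW⟩ := h s
    rw [← CInv_schur hn R hW]
    refine Finset.sum_congr rfl fun x _ => ?_
    rw [hR]
  rw [Finset.sum_congr rfl fun s _ => h1 s, Finset.sum_const, Finset.card_univ,
    NumberField.Embeddings.card, nsmul_eq_mul]
  ring

theorem tw_le {Γ : Type} [Group Γ] [Finite Γ] {n : ℕ} (β : Γ → 𝓞 K)
    (h : ∀ s : K →+* ℂ, ∃ R : Γ →* Matrix (Fin n) (Fin n) ℂ, ∀ x, (R x).trace = s (β x : K))
    (x : Γ) : tw (β x : K) ≤ (Module.finrank ℚ K : ℝ) * (n : ℝ) ^ 2 := by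
  unfold tw
  have h1 : ∀ s : K →+* ℂ, ‖s (β x : K)‖ ^ 2 ≤ (n : ℝ) ^ 2 := by
    intro s
    obtain ⟨R, hR⟩ := h s
    rw [← hR]
    refine pow_le_pow_left₀ (norm_nonneg _) ?_ 2
    exact OneI74.norm_trace_le (Nat.card_pos (α := Γ)) (R x)
      (by rw [← map_pow, pow_card_eq_one', map_one])
  refine (Finset.sum_le_sum fun s _ => h1 s).trans ?_
  rw [Finset.sum_const, Finset.card_univ, NumberField.Embeddings.card, nsmul_eq_mul]

end Pool.Agent.DZ74
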