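import Pool.Agent.W_7742x_h74.NPos
import Pool.Agent.W_7742x_h74.ZDef

/-! # Comparison of two Dirichlet series

`T, th : Nat.Primes × ℕ → ℝ`, `(p, k)` stands for `p ^ (k + 1)`; `pk σ (p, k) = p ^ (-(k + 1) σ) / (k + 1)`.
Outside of the thin set `S0` (`thin`): either `T = th` at all powers of `p`, or there is `k < n` such that
`T = th` below `k` and `th + 1 ≤ T` at `k`; let `B` be the set of these `p` and `k1 p` this `k`.

* `bad th S0 k1`: `e x = th x` for `x.1 ∈ S0` and for `x.1 ∈ B`, `x.2 > k1 x.1`, otherwise `0`;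
  `c x = T x` for these `x`, `T x - th x` otherwise (it is `0` unless `x.1 ∈ B`, `x.2 = k1 x.1`).  So
  `c ≥ 0` and `T - th = c - e`.
* `landau`: let `β₀ ≤ σ1 ≤ 1` and suppose that `∑ e pk σ` converges for `σ > σ1`.  Then `∑ c pk σ`
  converges for `σ > σ1`: `positivity_lap` (NPos.lean) with `d = 0`, `bb = 0` and
  `g σ = G σ / Gf σ * exp (∑ e pk σ)`, analytic on `(σ1, b)` (`H74E.dirichlet_analytic`, `H74E.mul_pk`).
* `boot`: then `∑_{p ∈ B} p ^ (-(k1 p + 1) σ)` converges for `σ > σ1` because `c ≥ 1` at `(p, k1 p)`,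
  so `∑ e pk σ'` converges for `σ' > σ1 * n / (n + 1)`, `σ' > 0`: for `p ∈ B`
  `∑_{k > k1 p} th pk σ' ≤ M p ^ (-(k1 p + 2) σ') / (1 - 2 ^ (-σ'))` and
  `(k1 p + 2) σ' ≥ (k1 p + 1) σ` for `σ = σ' (n + 1) / n`; for `p ∈ S0` the sum over all `k` is
  at most `M p ^ (-σ') / (1 - 2 ^ (-σ'))`, so `thin` gives the convergence for `σ' > β₀`.
* Start with `σ1 = 1` and iterate: `∑ e pk σ` and `∑ c pk σ` converge for all `σ > β₀`. -/

set_option autoImplicit false

noncomputable section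

open scoped Classical

namespace Pool.Agent.DZ74

open MeasureTheory Set Filter
open Pool.Agent.H74E (pk)

structure Cmp (T th : Nat.Primes × ℕ → ℝ) (β₀ : ℝ) (n : ℕ) (S0 : Set Nat.Primes) : Prop where
  T_nonneg : ∀ x, 0 ≤ T x
  th_nonneg : ∀ x, 0 ≤ th x
  th_le : ∃ M : ℝ, ∀ x, th x ≤ M
  thin : ∀ σ : ℝ, β₀ < σ → Summable fun p : S0 => ((p.1 : ℕ) : ℝ) ^ (-σ)
  dich : ∀ p ∉ S0, (∀ k, T (p, k) = th (p, k)) ∨
    ∃ k < n, (∀ j < k, T (p, j) = th (p, j)) ∧ th (p, k) + 1 ≤ T (p, k)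
  beta : 0 ≤ β₀ ∧ β₀ < 1
  rs : ∃ b : ℝ, 1 < b ∧ ∃ μ : Measure ℝ, SFinite μ ∧ μ ≠ 0 ∧ ∃ (d : ℕ) (G Gf : ℝ → ℝ),
    (∀ σ ∈ Ioo 0 b, AnalyticAt ℝ G σ) ∧ (∀ σ : ℝ, β₀ < σ → AnalyticAt ℝ Gf σ ∧ 0 < Gf σ) ∧
    ∀ σ ∈ Ioo 1 b, (Summable fun x => T x * pk σ x) ∧ (Summable fun x => th x * pk σ x) ∧
      Integrable (fun x => Real.exp (σ * x)) μ ∧
      G σ = (σ - 1) ^ d * (∫ x, Real.exp (σ * x) ∂μ) * Real.exp (∑' x, T x * pk σ x) ∧
      Gf σ = (σ - 1) ^ d * Real.exp (∑' x, th x * pk σ x)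

variable {T th : Nat.Primes × ℕ → ℝ} {β₀ : ℝ} {n : ℕ} {S0 : Set Nat.Primes}

/-- The correction on the thin set and above the first difference. -/
def bad (T th : Nat.Primes × ℕ → ℝ) (S0 : Set Nat.Primes) (k1 : Nat.Primes → ℕ)
    (x : Nat.Primes × ℕ) : Prop :=
  x.1 ∈ S0 ∨ ((∃ k, T (x.1, k) ≠ th (x.1, k)) ∧ k1 x.1 < x.2)

def ee (T th : Nat.Primes × ℕ → ℝ) (S0 : Set Nat.Primes) (k1 : Nat.Primes → ℕ)
    (x : Nat.Primes × ℕ) : ℝ := if bad T th S0 k1 x then th x else 0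

def cc (T th : Nat.Primes × ℕ → ℝ) (S0 : Set Nat.Primes) (k1 : Nat.Primes → ℕ)
    (x : Nat.Primes × ℕ) : ℝ := T x - th x + ee T th S0 k1 x

/-- The property of the function of the first differences. -/
def First (T th : Nat.Primes × ℕ → ℝ) (n : ℕ) (S0 : Set Nat.Primes) (k1 : Nat.Primes → ℕ) :
    Prop :=
  ∀ p ∉ S0, (∃ k, T (p, k) ≠ th (p, k)) →
    k1 p < n ∧ (∀ j < k1 p, T (p, j) = th (p, j)) ∧ th (p, k1 p) + 1 ≤ T (p, k1 p)

theorem Cmp.exists_first (h : Cmp T th β₀ n S0) : ∃ k1, First T th n S0 k1 := by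
  have h1 : ∀ p : Nat.Primes, ∃ k, p ∉ S0 → (∃ k, T (p, k) ≠ th (p, k)) →
      k < n ∧ (∀ j < k, T (p, j) = th (p, j)) ∧ th (p, k) + 1 ≤ T (p, k) := by
    intro p
    by_cases hp : p ∉ S0 ∧ ∃ k, T (p, k) ≠ th (p, k)
    · rcases h.dich p hp.1 with h2 | ⟨k, hk, h3, h4⟩
      · obtain ⟨k, hk⟩ := hp.2
        exact absurd (h2 k) hk
      · exact ⟨k, fun _ _ => ⟨hk, h3, h4⟩⟩
    · exact ⟨0, fun h2 h3 => absurd ⟨h2, h3⟩ hp⟩
  choose k1 hk1 using h1
  exact ⟨k1, hk1⟩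

variable {k1 : Nat.Primes → ℕ}

theorem Cmp.ee_nonneg (h : Cmp T th β₀ n S0) (x : Nat.Primes × ℕ) : 0 ≤ ee T th S0 k1 x := by
  unfold ee
  split_ifs
  · exact h.th_nonneg x
  · exact le_rfl

theorem Cmp.ee_le (h : Cmp T th β₀ n S0) (x : Nat.Primes × ℕ) : ee T th S0 k1 x ≤ th x := by
  unfold ee
  split_ifs
  · exact le_rfl
  · exact h.th_nonneg x

theorem cc_bad {x : Nat.Primes × ℕ} (hx : bad T th S0 k1 x) : cc T th S0 k1 x = T x := by
  unfold cc ee
  rw [if_pos hx]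
  ring

theorem cc_not {x : Nat.Primes × ℕ} (hx : ¬ bad T th S0 k1 x) :
    cc T th S0 k1 x = T x - th x := by
  unfold cc ee
  rw [if_neg hx]
  ring

theorem Cmp.cc_nonneg (h : Cmp T th β₀ n S0) (hk : First T th n S0 k1) (x : Nat.Primes × ℕ) :
    0 ≤ cc T th S0 k1 x := by
  by_cases hx : bad T th S0 k1 x
  · rw [cc_bad hx]
    exact h.T_nonneg x
  · rw [cc_not hx]
    obtain ⟨p, k⟩ := x
    unfold bad at hx
    push Not at hx
    obtain ⟨h1, h2⟩ := hx
    by_cases h3 : ∃ k, T (p, k) ≠ th (p, k)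
    · have h4 := h2 h3
      obtain ⟨-, h5, h6⟩ := hk p h1 h3
      simp only at h4
      rcases h4.lt_or_eq with h7 | h7
      · rw [h5 k h7, sub_self]
      · subst h7
        linarith
    · push Not at h3
      rw [h3 k, sub_self]

theorem cc_first (hk : First T th n S0 k1) {p : Nat.Primes} (hp : p ∉ S0)
    (h3 : ∃ k, T (p, k) ≠ th (p, k)) : 1 ≤ cc T th S0 k1 (p, k1 p) := by
  have hx : ¬ bad T th S0 k1 (p, k1 p) := by
    unfold bad
    push Not
    exact ⟨hp, fun _ => le_rfl⟩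
  rw [cc_not hx]
  have := (hk p hp h3).2.2
  linarith

open Pool.Agent.H74E (pk_nonneg pk_anti) in
/-- Landau step. -/
theorem Cmp.landau (h : Cmp T th β₀ n S0) (hk : First T th n S0 k1) {σ1 : ℝ} (h0 : β₀ ≤ σ1)
    (h1 : σ1 ≤ 1) (he : ∀ σ, σ1 < σ → Summable fun x => ee T th S0 k1 x * pk σ x) :
    ∀ σ, σ1 < σ → Summable fun x => cc T th S0 k1 x * pk σ x := by
  obtain ⟨b, hb, μ, hμs, hμ, d, G, Gf, hG, hGf, hs⟩ := h.rs
  have hβ := h.beta.1
  have hc : ∀ x, 0 ≤ cc T th S0 k1 x := h.cc_nonneg hk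
  have hc1 : ∀ s ∈ Ioo 1 b, Summable fun x => cc T th S0 k1 x * pk s x := by
    intro s hsb
    obtain ⟨a1, a2, -⟩ := hs s hsb
    have a3 := he s (h1.trans_lt hsb.1)
    refine ((a1.sub a2).add a3).congr fun x => ?_
    unfold cc
    ring
  have hcs : ∀ s, 1 < s → Summable fun x => cc T th S0 k1 x * pk s x := by
    intro s hs1
    obtain ⟨r, hr1, hr2⟩ := exists_between (lt_min hs1 hb)
    refine Summable.of_nonneg_of_le (fun x => mul_nonneg (hc x) (pk_nonneg s x)) (fun x =>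
      mul_le_mul_of_nonneg_left (pk_anti (hr2.le.trans (min_le_left _ _)) x) (hc x))
      (hc1 r ⟨hr1, hr2.trans_le (min_le_right _ _)⟩)
  have hBan : ∀ s, σ1 < s → AnalyticAt ℝ (fun s => ∑' x, ee T th S0 k1 x * pk s x) s := by
    intro s hs
    simp only [Pool.Agent.H74E.mul_pk]
    refine Pool.Agent.H74E.dirichlet_analytic _
      (fun x => mul_nonneg (h.ee_nonneg x) (by positivity)) _ σ1 ?_ s hs
    intro τ hτ
    have := he τ hτ
    simpa only [Pool.Agent.H74E.mul_pk] using this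
  have key := Pool.Agent.GL74.positivity_lap (hβ.trans h0) h1 hb 0 (cc T th S0 k1) (fun _ => 0)
    hc (fun _ => le_rfl) (fun s _ => by simp only [zero_mul]; exact summable_zero) hcs μ hμ
    (fun s hsb => (hs s hsb).2.2.1)
    (fun s => G s / Gf s * Real.exp (∑' x, ee T th S0 k1 x * pk s x))
    (fun s hsb => by
      have h2 : 0 < s := (hβ.trans h0).trans_lt hsb.1
      have h3 := hGf s (h0.trans_lt hsb.1)
      exact ((hG s ⟨h2, hsb.2⟩).div h3.1 h3.2.ne').mul (hBan s hsb.1).rexp)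
    (fun s hsb => by
      obtain ⟨a1, a2, a3, a4, a5⟩ := hs s hsb
      have a6 := he s (h1.trans_lt hsb.1)
      have hne : (s - 1) ^ d ≠ 0 := pow_ne_zero _ (sub_ne_zero.2 hsb.1.ne')
      have hsum : ∑' x, (cc T th S0 k1 x + ((0 : ℕ) : ℝ) - ((0 : ℕ) : ℝ) * 0) * pk s x =
          ∑' x, T x * pk s x - ∑' x, th x * pk s x + ∑' x, ee T th S0 k1 x * pk s x := by
        rw [← a1.tsum_sub a2, ← (a1.sub a2).tsum_add a6]
        refine tsum_congr fun x => ?_
        unfold cc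
        push_cast
        ring
      rw [hsum, a4, a5, pow_zero, one_mul, Real.exp_add, Real.exp_sub, mul_assoc,
        mul_div_mul_left _ _ hne]
      ring)
  intro σ hσ
  exact (key σ hσ).1

theorem prime_log_pos (p : Nat.Primes) : 0 < Real.log ((p : ℕ) : ℝ) :=
  Real.log_pos (by exact_mod_cast p.2.one_lt)

/-- The sum over the first differences. -/
theorem sum_first (hk : First T th n S0 k1) {σ : ℝ}
    (hc : Summable fun x => cc T th S0 k1 x * pk σ x) :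
    Summable fun p : {p : Nat.Primes // p ∉ S0 ∧ ∃ k, T (p, k) ≠ th (p, k)} =>
      ((p.1 : ℕ) : ℝ) ^ (-((k1 p.1 + 1 : ℝ) * σ)) := by
  have hinj : Function.Injective
      (fun p : {p : Nat.Primes // p ∉ S0 ∧ ∃ k, T (p, k) ≠ th (p, k)} => (p.1, k1 p.1)) := by
    intro p q hpq
    exact Subtype.ext (Prod.ext_iff.1 hpq).1
  have h1 := (hc.comp_injective hinj).mul_left (n : ℝ)
  refine Summable.of_nonneg_of_le (fun p => by positivity) (fun p => ?_) h1
  obtain ⟨p, hp1, hp2⟩ := p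
  have h2 := cc_first hk hp1 hp2
  have h3 : ((k1 p : ℝ) + 1) ≤ n := by exact_mod_cast (hk p hp1 hp2).1
  have hp0 : (0 : ℝ) < ((p : ℕ) : ℝ) := by exact_mod_cast p.2.pos
  simp only [Function.comp]
  unfold pk
  have e : ((p : ℕ) : ℝ) ^ (-((k1 p + 1 : ℝ) * σ)) =
      Real.exp (-(σ * (((k1 p : ℝ) + 1) * Real.log ((p : ℕ) : ℝ)))) := by
    rw [Real.rpow_def_of_pos hp0]
    congr 1
    ring
  rw [e]
  have hE := Real.exp_pos (-(σ * (((k1 p : ℝ) + 1) * Real.log ((p : ℕ) : ℝ))))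
  set E := Real.exp (-(σ * (((k1 p : ℝ) + 1) * Real.log ((p : ℕ) : ℝ))))
  have hk0 : (0 : ℝ) < (k1 p : ℝ) + 1 := by positivity
  have h4 : 1 ≤ (n : ℝ) * ((k1 p : ℝ) + 1)⁻¹ := by
    rw [← div_eq_mul_inv, le_div_iff₀ hk0]
    linarith
  calc E = 1 * 1 * E := by ring
    _ ≤ ((n : ℝ) * ((k1 p : ℝ) + 1)⁻¹) * cc T th S0 k1 (p, k1 p) * E := by
        gcongr
    _ = _ := by ring

/-- The bootstrapping step. -/
theorem Cmp.boot (h : Cmp T th β₀ n S0) (hk : First T th n S0 k1) {σ1 : ℝ}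
    (hc : ∀ σ, σ1 < σ → Summable fun x => cc T th S0 k1 x * pk σ x) {σ : ℝ} (h0 : β₀ < σ)
    (h1 : σ1 * (n / (n + 1)) < σ) : Summable fun x => ee T th S0 k1 x * pk σ x := by
  obtain ⟨M, hM⟩ := h.th_le
  have hM0 : 0 ≤ M := (h.th_nonneg (⟨2, Nat.prime_two⟩, 0)).trans (hM _)
  have hσ : 0 < σ := h.beta.1.trans_lt h0
  -- the geometric ratio
  set r : ℝ := (2 : ℝ) ^ (-σ) with hr
  have hr0 : 0 < r := by positivity
  have hr1 : r < 1 := Real.rpow_lt_one_of_one_lt_of_neg (by norm_num) (by linarith)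
  have hrn : (r ^ n) * (r ^ n)⁻¹ = 1 := mul_inv_cancel₀ (by positivity)
  -- the sums over the primes
  have hS : Summable fun p : Nat.Primes => Set.indicator S0 (fun p => ((p : ℕ) : ℝ) ^ (-σ)) p :=
    summable_subtype_iff_indicator.1 (h.thin σ h0)
  set B : Set Nat.Primes := {p | p ∉ S0 ∧ ∃ k, T (p, k) ≠ th (p, k)} with hB
  have hBs : Summable fun p : Nat.Primes =>
      Set.indicator B (fun p => ((p : ℕ) : ℝ) ^ (-((k1 p + 2 : ℝ) * σ))) p := by
    refine summable_subtype_iff_indicator.1 ?_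
    rcases Nat.eq_zero_or_pos n with hn | hn
    · have : IsEmpty B := ⟨fun p => by
        have := (hk p.1 p.2.1 p.2.2).1
        omega⟩
      exact (hasSum_empty).summable
    · have hn0 : (0 : ℝ) < n := by exact_mod_cast hn
      have h2 : σ1 < σ * ((n + 1) / n) := by
        rw [← mul_div_assoc, lt_div_iff₀ hn0]
        rw [← mul_div_assoc, div_lt_iff₀ (by positivity)] at h1
        exact h1
      refine Summable.of_nonneg_of_le (fun p => ?_) (fun p => ?_)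
        (sum_first hk (hc _ h2))
      · simp only [Function.comp]
        positivity
      obtain ⟨p, hp1, hp2⟩ := p
      have h3 : ((k1 p : ℝ) + 1) ≤ n := by exact_mod_cast (hk p hp1 hp2).1
      have hp0 : (1 : ℝ) ≤ ((p : ℕ) : ℝ) := by exact_mod_cast p.2.one_lt.le
      simp only [Function.comp]
      refine Real.rpow_le_rpow_of_exponent_le hp0 (neg_le_neg ?_)
      have h4 : ((k1 p : ℝ) + 1) * ((n + 1) / n) ≤ k1 p + 2 := by
        rw [← mul_div_assoc, div_le_iff₀ hn0]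
        nlinarith
      calc ((k1 p : ℝ) + 1) * (σ * ((n + 1) / n)) = (((k1 p : ℝ) + 1) * ((n + 1) / n)) * σ := by
            ring
        _ ≤ (k1 p + 2) * σ := mul_le_mul_of_nonneg_right h4 hσ.le
  have hu := (hS.mul_left M).add (hBs.mul_left (M * (r ^ n)⁻¹))
  have hg := summable_geometric_of_lt_one hr0.le hr1
  have hprod := hu.mul_of_nonneg hg (fun p => by
    simp only [Pi.zero_apply]
    refine add_nonneg (mul_nonneg hM0 ?_) (mul_nonneg (by positivity) ?_)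
    · exact Set.indicator_nonneg (fun _ _ => by positivity) _
    · exact Set.indicator_nonneg (fun _ _ => by positivity) _) (fun k => by
    simp only [Pi.zero_apply]
    positivity)
  refine Summable.of_nonneg_of_le (fun x => mul_nonneg (h.ee_nonneg x)
    (Pool.Agent.H74E.pk_nonneg σ x)) (fun x => ?_) hprod
  obtain ⟨p, k⟩ := x
  have hp0 : (0 : ℝ) < ((p : ℕ) : ℝ) := by exact_mod_cast p.2.pos
  have hp2 : (2 : ℝ) ≤ ((p : ℕ) : ℝ) := by exact_mod_cast p.2.two_le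
  have hpr : ((p : ℕ) : ℝ) ^ (-σ) ≤ r := Real.rpow_le_rpow_of_nonpos (by norm_num) hp2
    (by linarith)
  have hy0 : 0 < ((p : ℕ) : ℝ) ^ (-σ) := Real.rpow_pos_of_pos hp0 _
  have hi1 : 0 ≤ Set.indicator S0 (fun p : Nat.Primes => ((p : ℕ) : ℝ) ^ (-σ)) p :=
    Set.indicator_nonneg (fun _ _ => by positivity) _
  have hi2 : 0 ≤ Set.indicator B (fun p : Nat.Primes => ((p : ℕ) : ℝ) ^ (-((k1 p + 2 : ℝ) * σ))) p :=
    Set.indicator_nonneg (fun _ _ => by positivity) _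
  have hpk : pk σ (p, k) ≤ (((p : ℕ) : ℝ) ^ (-σ)) ^ (k + 1) := by
    rw [Pool.Agent.H74E.pk_eq]
    refine div_le_self (by positivity) ?_
    have : (0 : ℝ) ≤ k := Nat.cast_nonneg k
    linarith
  simp only
  by_cases hx : bad T th S0 k1 (p, k)
  · have he : ee T th S0 k1 (p, k) ≤ M := (h.ee_le _).trans (hM _)
    have h5 : ee T th S0 k1 (p, k) * pk σ (p, k) ≤ M * (((p : ℕ) : ℝ) ^ (-σ)) ^ (k + 1) :=
      mul_le_mul he hpk (Pool.Agent.H74E.pk_nonneg _ _) hM0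
    refine h5.trans ?_
    by_cases hpS : p ∈ S0
    · rw [Set.indicator_of_mem hpS] at hi1 ⊢
      calc M * (((p : ℕ) : ℝ) ^ (-σ)) ^ (k + 1)
          = M * ((p : ℕ) : ℝ) ^ (-σ) * (((p : ℕ) : ℝ) ^ (-σ)) ^ k := by ring
        _ ≤ M * ((p : ℕ) : ℝ) ^ (-σ) * r ^ k := by gcongr
        _ ≤ (M * ((p : ℕ) : ℝ) ^ (-σ) + M * (r ^ n)⁻¹ * Set.indicator B
              (fun p : Nat.Primes => ((p : ℕ) : ℝ) ^ (-((k1 p + 2 : ℝ) * σ))) p) * r ^ k := by
            have : 0 ≤ M * (r ^ n)⁻¹ * Set.indicator B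
              (fun p : Nat.Primes => ((p : ℕ) : ℝ) ^ (-((k1 p + 2 : ℝ) * σ))) p :=
              mul_nonneg (by positivity) hi2
            gcongr
            linarith
    · rcases hx with hx | ⟨hx1, hx2⟩
      · exact absurd hx hpS
      · simp only at hx1 hx2
        have hpB : p ∈ B := ⟨hpS, hx1⟩
        rw [Set.indicator_of_mem hpB] at hi2 ⊢
        obtain ⟨j, hj⟩ := Nat.exists_eq_add_of_lt hx2
        have hkn : k1 p + 1 ≤ n := (hk p hpS hx1).1
        have e1 : (((p : ℕ) : ℝ) ^ (-σ)) ^ (k + 1) =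
            ((p : ℕ) : ℝ) ^ (-((k1 p + 2 : ℝ) * σ)) * (((p : ℕ) : ℝ) ^ (-σ)) ^ j := by
          have e2 : ((p : ℕ) : ℝ) ^ (-((k1 p + 2 : ℝ) * σ)) = (((p : ℕ) : ℝ) ^ (-σ)) ^ (k1 p + 2) := by
            rw [← Real.rpow_natCast, ← Real.rpow_mul hp0.le]
            congr 1
            push_cast
            ring
          rw [e2, ← pow_add]
          congr 1
          omega
        have e3 : r ^ j ≤ (r ^ n)⁻¹ * r ^ k := by
          rw [← div_eq_inv_mul, le_div_iff₀ (by positivity), ← pow_add]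
          exact pow_le_pow_of_le_one hr0.le hr1.le (by omega)
        calc M * (((p : ℕ) : ℝ) ^ (-σ)) ^ (k + 1)
            = M * (((p : ℕ) : ℝ) ^ (-((k1 p + 2 : ℝ) * σ)) * (((p : ℕ) : ℝ) ^ (-σ)) ^ j) := by
              rw [e1]
          _ ≤ M * (((p : ℕ) : ℝ) ^ (-((k1 p + 2 : ℝ) * σ)) * ((r ^ n)⁻¹ * r ^ k)) := by
              gcongr
              exact (pow_le_pow_left₀ hy0.le hpr j).trans e3
          _ = (M * (r ^ n)⁻¹ * ((p : ℕ) : ℝ) ^ (-((k1 p + 2 : ℝ) * σ))) * r ^ k := by ring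
          _ ≤ _ := by
              have : 0 ≤ M * Set.indicator S0 (fun p : Nat.Primes => ((p : ℕ) : ℝ) ^ (-σ)) p :=
                mul_nonneg hM0 hi1
              gcongr
              linarith
  · have : ee T th S0 k1 (p, k) = 0 := by
      unfold ee
      rw [if_neg hx]
    rw [this, zero_mul]
    refine mul_nonneg (add_nonneg (mul_nonneg hM0 hi1) (mul_nonneg (by positivity) hi2)) ?_
    positivity

/-- Everything converges above `β₀`. -/
theorem Cmp.sum_cc (h : Cmp T th β₀ n S0) (hk : First T th n S0 k1) :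
    ∀ σ, β₀ < σ → Summable fun x => cc T th S0 k1 x * pk σ x := by
  have hβ := h.beta.1
  set q : ℝ := (n : ℝ) / (n + 1) with hq
  have hq0 : 0 ≤ q := by positivity
  have hq1 : q < 1 := by
    rw [hq, div_lt_one (by positivity)]
    linarith
  have key : ∀ j : ℕ, ∀ σ, max β₀ (q ^ j) < σ → Summable fun x => ee T th S0 k1 x * pk σ x := by
    intro j
    induction j with
    | zero =>
      intro σ hσ
      rw [pow_zero] at hσ
      have h1 : 1 < σ := (le_max_right _ _).trans_lt hσ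
      obtain ⟨b, hb, μ, hμs, hμ, d, G, Gf, hG, hGf, hs⟩ := h.rs
      obtain ⟨r, hr1, hr2⟩ := exists_between (lt_min h1 hb)
      have h2 := (hs r ⟨hr1, hr2.trans_le (min_le_right _ _)⟩).2.1
      refine Summable.of_nonneg_of_le (fun x => mul_nonneg (h.ee_nonneg x)
        (Pool.Agent.H74E.pk_nonneg σ x)) (fun x => ?_) h2
      exact mul_le_mul (h.ee_le x) (Pool.Agent.H74E.pk_anti (hr2.le.trans (min_le_left _ _)) x)
        (Pool.Agent.H74E.pk_nonneg σ x) (h.th_nonneg x)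
    | succ j ih =>
      intro σ hσ
      have h1 : max β₀ (q ^ j) ≤ 1 := max_le h.beta.2.le (pow_le_one₀ hq0 hq1.le)
      have h2 := h.landau hk (le_max_left _ _) h1 ih
      refine h.boot hk h2 ((le_max_left _ _).trans_lt hσ) ?_
      refine lt_of_le_of_lt ?_ hσ
      rw [max_mul_of_nonneg _ _ hq0]
      refine max_le_max ?_ (le_of_eq (pow_succ q j).symm)
      exact mul_le_of_le_one_right hβ hq1.le
  refine h.landau hk le_rfl h.beta.2.le fun σ hσ => ?_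
  obtain ⟨j, hj⟩ := exists_pow_lt_of_lt_one (hβ.trans_lt hσ) hq1
  exact key j σ (max_lt hσ hj)

/-- The primes with a different coefficient at one of the first `m` powers. -/
theorem Cmp.sum_bad (h : Cmp T th β₀ n S0) {m : ℕ} (hm : 0 < m) {σ : ℝ} (hσ : β₀ < σ) :
    Summable fun p : {p : Nat.Primes // p ∉ S0 ∧ ∃ k < m, T (p, k) ≠ th (p, k)} =>
      ((p.1 : ℕ) : ℝ) ^ (-(m * σ)) := by
  obtain ⟨k1, hk⟩ := h.exists_first
  have hc := h.sum_cc hk σ hσ
  have hσ0 : 0 < σ := h.beta.1.trans_lt hσ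
  have h1 := sum_first hk hc
  have hinj : Function.Injective
      (fun p : {p : Nat.Primes // p ∉ S0 ∧ ∃ k < m, T (p, k) ≠ th (p, k)} =>
        (⟨p.1, p.2.1, p.2.2.imp fun _ hk => hk.2⟩ :
          {p : Nat.Primes // p ∉ S0 ∧ ∃ k, T (p, k) ≠ th (p, k)})) := by
    intro p q hpq
    exact Subtype.ext (congrArg (fun x => x.1) hpq)
  refine Summable.of_nonneg_of_le (fun p => by positivity) (fun p => ?_) (h1.comp_injective hinj)
  obtain ⟨p, hp1, k, hkm, hkp⟩ := p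
  have hp0 : (1 : ℝ) ≤ ((p : ℕ) : ℝ) := by exact_mod_cast p.2.one_lt.le
  have h2 : k1 p ≤ k := by
    by_contra h3
    push Not at h3
    exact hkp ((hk p hp1 ⟨k, hkp⟩).2.1 k h3)
  have h3 : ((k1 p : ℝ) + 1) ≤ m := by exact_mod_cast (by omega : k1 p + 1 ≤ m)
  simp only [Function.comp]
  exact Real.rpow_le_rpow_of_exponent_le hp0 (neg_le_neg (mul_le_mul_of_nonneg_right h3 hσ0.le))

/-- One prime. -/
theorem Cmp.single (h : Cmp T th β₀ n S0) {p : Nat.Primes}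
    (hp : p ∈ S0 ∨ ∃ k, T (p, k) ≠ th (p, k)) {σ : ℝ} (hσ : β₀ < σ) :
    Summable fun k : ℕ => T (p, k) * pk σ (p, k) := by
  obtain ⟨k1, hk⟩ := h.exists_first
  have hc := h.sum_cc hk σ hσ
  have hinj : Function.Injective (fun k : ℕ => (p, k)) := fun a b hab => (Prod.ext_iff.1 hab).2
  have h1 : Summable fun k : ℕ => cc T th S0 k1 (p, k) * pk σ (p, k) := hc.comp_injective hinj
  by_cases hpS : p ∈ S0
  · refine h1.congr fun k => ?_
    rw [cc_bad (Or.inl hpS)]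
  · have hp2 : ∃ k, T (p, k) ≠ th (p, k) := hp.resolve_left hpS
    refine (summable_nat_add_iff (k1 p + 1)).1 ?_
    refine ((summable_nat_add_iff (k1 p + 1)).2 h1).congr fun k => ?_
    rw [cc_bad (Or.inr ⟨hp2, ?_⟩)]
    simp only
    omega

end Pool.Agent.DZ74
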