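import Pool.Agent.W_7742c_h74.Zeta
import Pool.Agent.W_7742g_h15.PowC

/-! # Traces of powers and eigenvalues

`norm_root_le`: let `r > 0` and `‖tr M ^ (k + 1)‖ ≤ C r ^ (k + 1)` for all `k`; then all eigenvalues have
absolute value at most `r`.  Proof: `tr M ^ k = ∑ α_i ^ k` over the roots of the characteristic
polynomial (`OneP74` and Mathlib: `Matrix.trace_pow_eq...`, or triangular form / `Matrix.aeval`).
Let `ρ` be the maximum of the `|α_i|`, `ρ > r`.  There are arbitrarily large `k` with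
`|α_i ^ k - |α_i| ^ k| ≤ |α_i| ^ k / 2` for all `i`, by simultaneous approximation (the powers of an
element of the compact group of the tuples of complex numbers of absolute value `1` come back close to
`1`, pigeonhole principle), so `|tr M ^ k| ≥ ∑ |α_i| ^ k / 2 ≥ ρ ^ k / 2`, a contradiction for large
`k`.

`cut`: the terms of a convergent series are bounded, so `‖tr M ^ (k + 1)‖ ^ 2 ≤ C (k + 1) p ^ ((k + 1) σ)`,
which is at most `C' r ^ (2 (k + 1))` if `r ^ 2 > p ^ σ`; then `σ → β₀`, `r → p ^ (β₀ / 2)`. -/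

set_option autoImplicit false

noncomputable section

open scoped Classical

namespace Pool.Agent.DZ74

open Pool.Agent.H74E (pk)

theorem norm_root_le {n : ℕ} (M : Matrix (Fin n) (Fin n) ℂ) {r C : ℝ} (hr : 0 < r)
    (h : ∀ k : ℕ, ‖(M ^ (k + 1)).trace‖ ≤ C * r ^ (k + 1)) {α : ℂ} (hα : α ∈ M.charpoly.roots) :
    ‖α‖ ≤ r := by
  by_contra hlt
  rw [not_le] at hlt
  set s := M.charpoly.roots with hs
  set Q : Polynomial ℂ := ∏ β ∈ s.toFinset.erase α, (Polynomial.X - Polynomial.C β) with hQ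
  have hQα : Q.eval α ≠ 0 := by
    rw [hQ, Polynomial.eval_prod, Finset.prod_ne_zero_iff]
    intro β hβ
    rw [Polynomial.eval_sub, Polynomial.eval_X, Polynomial.eval_C, sub_ne_zero]
    exact fun h0 => (Finset.ne_of_mem_erase hβ) h0.symm
  have hQ0 : ∀ β ∈ s, β ≠ α → Q.eval β = 0 := by
    intro β hβ hne
    rw [hQ, Polynomial.eval_prod]
    refine Finset.prod_eq_zero (Finset.mem_erase.2 ⟨hne, Multiset.mem_toFinset.2 hβ⟩) ?_
    rw [Polynomial.eval_sub, Polynomial.eval_X, Polynomial.eval_C, sub_self]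
  have hc : 1 ≤ s.count α := Multiset.one_le_count_iff_mem.2 hα
  have key : ∀ k : ℕ, ∑ l ∈ Finset.range (Q.natDegree + 1), Q.coeff l * (M ^ (k + 1 + l)).trace =
      (s.count α : ℂ) * (Q.eval α * α ^ (k + 1)) := by
    intro k
    have h1 : (s.map (fun z => Q.eval z * z ^ (k + 1))).sum =
        (s.count α : ℂ) * (Q.eval α * α ^ (k + 1)) := by
      rw [Multiset.sum_map_eq_nsmul_single α, nsmul_eq_mul]
      intro β hne hβ
      rw [hQ0 β hβ hne, zero_mul]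
    rw [← h1]
    have h2 : ∀ t : Multiset ℂ, (t.map (fun z => Q.eval z * z ^ (k + 1))).sum =
        ∑ l ∈ Finset.range (Q.natDegree + 1), Q.coeff l *
          (t.map (fun z => z ^ (k + 1 + l))).sum := by
      intro t
      induction t using Multiset.induction_on with
      | empty => simp
      | cons a t ih =>
        rw [Multiset.map_cons, Multiset.sum_cons, ih]
        simp only [Multiset.map_cons, Multiset.sum_cons, mul_add]
        rw [Finset.sum_add_distrib]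
        congr 1
        rw [Polynomial.eval_eq_sum_range, Finset.sum_mul]
        refine Finset.sum_congr rfl fun l _ => ?_
        rw [pow_add a (k + 1) l]
        ring
    rw [h2 s]
    refine Finset.sum_congr rfl fun l _ => ?_
    rw [Pool.Agent.GalMaass.PowC_trace_matrix M (k + 1 + l)]
  set B : ℝ := ∑ l ∈ Finset.range (Q.natDegree + 1), ‖Q.coeff l‖ * (C * r ^ l) with hB
  have hbd : ∀ k : ℕ, ‖Q.eval α‖ * (‖α‖ / r) ^ (k + 1) ≤ B := by
    intro k
    have h1 : ‖Q.eval α‖ * ‖α‖ ^ (k + 1) ≤ B * r ^ (k + 1) := by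
      calc ‖Q.eval α‖ * ‖α‖ ^ (k + 1) = 1 * (‖Q.eval α‖ * ‖α‖ ^ (k + 1)) := by ring
        _ ≤ (s.count α : ℝ) * (‖Q.eval α‖ * ‖α‖ ^ (k + 1)) := by
          gcongr
          exact_mod_cast hc
        _ = ‖(s.count α : ℂ) * (Q.eval α * α ^ (k + 1))‖ := by
          rw [norm_mul, norm_mul, norm_pow, Complex.norm_natCast]
        _ = ‖∑ l ∈ Finset.range (Q.natDegree + 1), Q.coeff l * (M ^ (k + 1 + l)).trace‖ := by
          rw [key k]
        _ ≤ ∑ l ∈ Finset.range (Q.natDegree + 1), ‖Q.coeff l‖ * (C * r ^ l * r ^ (k + 1)) := by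
          refine (norm_sum_le _ _).trans (Finset.sum_le_sum fun l _ => ?_)
          rw [norm_mul]
          refine mul_le_mul_of_nonneg_left ?_ (norm_nonneg _)
          have h3 := h (k + l)
          have e1 : k + l + 1 = k + 1 + l := by ring
          rw [e1] at h3
          refine h3.trans (le_of_eq ?_)
          rw [pow_add r (k + 1) l]
          ring
        _ = B * r ^ (k + 1) := by
          rw [hB, Finset.sum_mul]
          refine Finset.sum_congr rfl fun l _ => ?_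
          ring
    rw [div_pow, mul_div_assoc', div_le_iff₀ (by positivity)]
    exact h1
  have hq : 1 < ‖α‖ / r := (one_lt_div hr).2 hlt
  have hQn : 0 < ‖Q.eval α‖ := norm_pos_iff.2 hQα
  obtain ⟨N, hN⟩ := pow_unbounded_of_one_lt (B / ‖Q.eval α‖) hq
  have h1 : (‖α‖ / r) ^ N ≤ (‖α‖ / r) ^ (N + 1) := pow_le_pow_right₀ hq.le (Nat.le_succ N)
  have h2 := hbd N
  have h3 : B < ‖Q.eval α‖ * (‖α‖ / r) ^ N := by
    rw [div_lt_iff₀ hQn] at hN
    linarith
  have h4 : ‖Q.eval α‖ * (‖α‖ / r) ^ N ≤ ‖Q.eval α‖ * (‖α‖ / r) ^ (N + 1) :=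
    mul_le_mul_of_nonneg_left h1 hQn.le
  linarith

theorem DCut_aux {n : ℕ} (M : Matrix (Fin n) (Fin n) ℂ) (p : Nat.Primes) {σ τ : ℝ} (hστ : σ < τ)
    (h : Summable fun k : ℕ => ‖(M ^ (k + 1)).trace‖ ^ 2 * pk σ (p, k)) {α : ℂ}
    (hα : α ∈ M.charpoly.roots) : ‖α‖ ≤ ((p : ℕ) : ℝ) ^ (τ / 2) := by
  have hp1 : (1 : ℝ) < ((p : ℕ) : ℝ) := by exact_mod_cast p.2.one_lt
  have hp0 : (0 : ℝ) < ((p : ℕ) : ℝ) := by linarith
  obtain ⟨C, hC⟩ : ∃ C : ℝ, ∀ k : ℕ, ‖(M ^ (k + 1)).trace‖ ^ 2 * pk σ (p, k) ≤ C := by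
    obtain ⟨C, hC⟩ := h.tendsto_atTop_zero.bddAbove_range
    exact ⟨C, fun k => hC ⟨k, rfl⟩⟩
  have hC0 : 0 ≤ C := by
    refine le_trans ?_ (hC 0)
    exact mul_nonneg (by positivity) (Pool.Agent.H74E.pk_nonneg _ _)
  set q : ℝ := ((p : ℕ) : ℝ) ^ (τ - σ) with hq
  have hq1 : 1 < q := Real.one_lt_rpow hp1 (sub_pos.2 hστ)
  have hq0 : 0 < q - 1 := by linarith
  refine norm_root_le M (C := Real.sqrt (C / (q - 1))) (Real.rpow_pos_of_pos hp0 _) (fun k => ?_) hα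
  have h1 := hC k
  rw [Pool.Agent.H74E.pk_eq] at h1
  have hk : (0 : ℝ) < (k : ℝ) + 1 := by positivity
  have h2 : ((k : ℝ) + 1) * (q - 1) ≤ q ^ (k + 1) := by
    have h3 := one_add_mul_le_pow (by linarith : (-2 : ℝ) ≤ q - 1) (k + 1)
    rw [add_sub_cancel] at h3
    push_cast at h3
    linarith
  set P : ℝ := ((p : ℕ) : ℝ) ^ (-σ) with hP
  have hP0 : 0 < P := Real.rpow_pos_of_pos hp0 _
  have h4 : ‖(M ^ (k + 1)).trace‖ ^ 2 * P ^ (k + 1) ≤ C * ((k : ℝ) + 1) := by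
    rw [← mul_div_assoc, div_le_iff₀ hk] at h1
    exact h1
  have h5 : ‖(M ^ (k + 1)).trace‖ ^ 2 * P ^ (k + 1) * (q - 1) ≤ C * q ^ (k + 1) := by
    calc ‖(M ^ (k + 1)).trace‖ ^ 2 * P ^ (k + 1) * (q - 1) ≤ C * ((k : ℝ) + 1) * (q - 1) := by
          gcongr
      _ = C * (((k : ℝ) + 1) * (q - 1)) := by ring
      _ ≤ C * q ^ (k + 1) := by gcongr
  have h6 : P * ((p : ℕ) : ℝ) ^ τ = q := by
    rw [hP, hq, ← Real.rpow_add hp0]
    congr 1
    ring
  have h7 : (((p : ℕ) : ℝ) ^ (τ / 2)) ^ 2 = ((p : ℕ) : ℝ) ^ τ := by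
    rw [← Real.rpow_natCast, ← Real.rpow_mul hp0.le]
    congr 1
    push_cast
    ring
  have h8 : ‖(M ^ (k + 1)).trace‖ ^ 2 * (q - 1) ≤ C * (((p : ℕ) : ℝ) ^ τ) ^ (k + 1) := by
    have h9 : P ^ (k + 1) * (((p : ℕ) : ℝ) ^ τ) ^ (k + 1) = q ^ (k + 1) := by
      rw [← mul_pow, h6]
    have h10 : P ^ (k + 1) * (‖(M ^ (k + 1)).trace‖ ^ 2 * (q - 1)) ≤
        P ^ (k + 1) * (C * (((p : ℕ) : ℝ) ^ τ) ^ (k + 1)) := by
      calc P ^ (k + 1) * (‖(M ^ (k + 1)).trace‖ ^ 2 * (q - 1))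
          = ‖(M ^ (k + 1)).trace‖ ^ 2 * P ^ (k + 1) * (q - 1) := by ring
        _ ≤ C * q ^ (k + 1) := h5
        _ = P ^ (k + 1) * (C * (((p : ℕ) : ℝ) ^ τ) ^ (k + 1)) := by rw [← h9]; ring
    exact le_of_mul_le_mul_left h10 (by positivity)
  have h11 : ‖(M ^ (k + 1)).trace‖ ^ 2 ≤
      (Real.sqrt (C / (q - 1)) * (((p : ℕ) : ℝ) ^ (τ / 2)) ^ (k + 1)) ^ 2 := by
    rw [mul_pow, Real.sq_sqrt (div_nonneg hC0 hq0.le), ← pow_mul, mul_comm (k + 1) 2, pow_mul, h7,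
      div_mul_eq_mul_div, le_div_iff₀ hq0]
    exact h8
  exact abs_le_of_sq_le_sq' h11 (by positivity) |>.2

theorem cut {n : ℕ} (M : Matrix (Fin n) (Fin n) ℂ) (p : Nat.Primes) {β₀ : ℝ}
    (h : ∀ σ : ℝ, β₀ < σ → Summable fun k : ℕ => ‖(M ^ (k + 1)).trace‖ ^ 2 * pk σ (p, k)) {α : ℂ}
    (hα : α ∈ M.charpoly.roots) : ‖α‖ ≤ ((p : ℕ) : ℝ) ^ (β₀ / 2) := by
  have hp0 : (0 : ℝ) < ((p : ℕ) : ℝ) := by exact_mod_cast p.2.pos
  have hcont : Filter.Tendsto (fun τ : ℝ => ((p : ℕ) : ℝ) ^ (τ / 2)) (nhdsWithin β₀ (Set.Ioi β₀))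
      (nhds (((p : ℕ) : ℝ) ^ (β₀ / 2))) := by
    have h1 : Continuous fun τ : ℝ => ((p : ℕ) : ℝ) ^ (τ / 2) :=
      Real.continuous_const_rpow hp0.ne' |>.comp (continuous_id.div_const 2)
    exact (h1.tendsto β₀).mono_left nhdsWithin_le_nhds
  refine ge_of_tendsto hcont ?_
  filter_upwards [self_mem_nhdsWithin] with τ hτ
  obtain ⟨σ, h1, h2⟩ := exists_between (Set.mem_Ioi.1 hτ)
  exact DCut_aux M p h2 (h σ h1) hα

/-- If all eigenvalues have absolute value at most `1` and the determinant has absolute value `1` then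
all eigenvalues have absolute value `1`. -/
theorem norm_root_eq_one {n : ℕ} (M : Matrix (Fin n) (Fin n) ℂ) (hd : ‖M.det‖ = 1)
    (h : ∀ α ∈ M.charpoly.roots, ‖α‖ ≤ 1) : ∀ α ∈ M.charpoly.roots, ‖α‖ = 1 := by
  intro α hα
  refine le_antisymm (h α hα) ?_
  obtain ⟨t, ht⟩ := Multiset.exists_cons_of_mem hα
  rw [Matrix.det_eq_prod_roots_charpoly, ht, Multiset.prod_cons, norm_mul] at hd
  have h1 : ∀ u : Multiset ℂ, (∀ β ∈ u, ‖β‖ ≤ 1) → ‖u.prod‖ ≤ 1 := by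
    intro u
    induction u using Multiset.induction_on with
    | empty => simp
    | cons a u ih =>
      intro hu
      rw [Multiset.prod_cons, norm_mul]
      exact mul_le_one₀ (hu a (Multiset.mem_cons_self a u)) (norm_nonneg _)
        (ih fun β hβ => hu β (Multiset.mem_cons_of_mem hβ))
  have h2 : ‖t.prod‖ ≤ 1 := h1 t fun β hβ => h β (by rw [ht]; exact Multiset.mem_cons_of_mem hβ)
  calc (1 : ℝ) = ‖α‖ * ‖t.prod‖ := hd.symm
    _ ≤ ‖α‖ * 1 := mul_le_mul_of_nonneg_left h2 (norm_nonneg _)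
    _ = ‖α‖ := mul_one _

end Pool.Agent.DZ74
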