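import Pool.Agent.W_7742v_h74.Van

/-! # The product of the Rankin-Selberg integrals of the conjugates

As in `GL74.posC_of_weakRS` (W_7742x_h74/ZPos.lean): `b` the minimum of the `b_s`, `μ` from `exists_prod`,
`G = ∏ G_s`. -/

set_option autoImplicit false

noncomputable section

open scoped Classical

namespace Pool.Agent.DZ74

open MeasureTheory Set Filter NumberField
open Pool.Agent.H74E (pk)
open Pool.Agent.GL74 (WeakRS)

theorem prod_weakRS {J : Type} [Fintype J] [Nonempty J] (T : J → Nat.Primes × ℕ → ℝ)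
    (h0 : ∀ s x, 0 ≤ T s x) (h : ∀ s, WeakRS (T s)) :
    ∃ b : ℝ, 1 < b ∧ ∃ μ : Measure ℝ, SFinite μ ∧ μ ≠ 0 ∧ ∃ G : ℝ → ℝ,
      (∀ σ ∈ Ioo 0 b, AnalyticAt ℝ G σ) ∧
      ∀ σ ∈ Ioo 1 b, (Summable fun x => (∑ s, T s x) * pk σ x) ∧
        Integrable (fun x => Real.exp (σ * x)) μ ∧
        G σ = (σ - 1) ^ (Fintype.card J) * (∫ x, Real.exp (σ * x) ∂μ) *
          Real.exp (∑' x, (∑ s, T s x) * pk σ x) := by
  have hT : ∀ j : J, ∀ s : ℝ, 1 < s → Summable fun x => T j x * pk s x :=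
    fun j s hs => (h j).summable (h0 j) hs
  choose b hb μ hμs hμ G hG h2 using h
  obtain ⟨b0, hb01, hb0⟩ : ∃ b0, 1 < b0 ∧ ∀ j : J, b0 ≤ b j := by
    refine ⟨Finset.univ.inf' Finset.univ_nonempty b, ?_,
      fun j => Finset.inf'_le _ (Finset.mem_univ j)⟩
    rw [Finset.lt_inf'_iff]
    exact fun j _ => hb j
  obtain ⟨ρ, hρs, hρ, hρe⟩ := GL74.exists_prod μ hμs hμ
  have hmem : ∀ {s : ℝ}, s ∈ Ioo 1 b0 → ∀ j, s ∈ Ioo 1 (b j) :=
    fun hs j => ⟨hs.1, hs.2.trans_le (hb0 j)⟩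
  have hint : ∀ {s : ℝ}, s ∈ Ioo 1 b0 → ∀ j, Integrable (fun x => Real.exp (s * x)) (μ j) :=
    fun hs j => (h2 j _ (hmem hs j)).2.1
  refine ⟨b0, hb01, ρ, hρs, hρ, fun s => ∏ j, G j s, ?_, ?_⟩
  · intro s hs
    have h3 : AnalyticAt ℝ (∏ j : J, G j) s :=
      Finset.analyticAt_prod _ fun j _ => hG j s ⟨hs.1, hs.2.trans_le (hb0 j)⟩
    refine h3.congr ?_
    filter_upwards with τ
    rw [Finset.prod_apply]
  · intro s hs
    have e2 : ∀ x, (∑ j, T j x) * pk s x = ∑ j, T j x * pk s x := fun x => Finset.sum_mul _ _ _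
    refine ⟨?_, (hρe s (hint hs)).1, ?_⟩
    · simp only [e2]
      exact summable_sum fun j _ => hT j s hs.1
    · have e1 : ∀ j : J, G j s = (s - 1) * (∫ x, Real.exp (s * x) ∂(μ j)) *
          Real.exp (∑' x, T j x * pk s x) := fun j => (h2 j s (hmem hs j)).2.2
      simp only [e1]
      rw [Finset.prod_mul_distrib, Finset.prod_mul_distrib, Finset.prod_const, Finset.card_univ,
        ← Real.exp_sum, ← Summable.tsum_finsetSum fun j _ => hT j s hs.1, (hρe s (hint hs)).2]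
      congr 2
      exact tsum_congr fun x => (e2 x).symm

end Pool.Agent.DZ74
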