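import Pool.Agent.W_7742k_h74.BDef
import Pool.Agent.W_7742g_h15.PowA
import Pool.Agent.W_7742g_h15.PowB

/-! # Characteristic polynomials and traces of powers

`trace_pow_eq`: the trace of `M ^ k` is a universal polynomial in the coefficients of the characteristic
polynomial.  Over a domain: pass to the algebraic closure of the field of fractions, where the trace of
`M ^ k` is the sum of the `k`-th powers of the roots of the characteristic polynomial.  Over a
commutative ring `A`: let `C` be the companion matrix of the characteristic polynomial `P` of `M`; the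
difference `tr (M ^ k) - tr (C ^ k)` is the value at the entries of `M` of a polynomial with integral
coefficients in `n ^ 2` variables, which is zero because it is zero for the generic matrix
(`Matrix.mvPolynomialX`) over the domain `ℤ[X_ij]`.

`exists_trace_pow`: apply it to `A p` over `K`, to the companion matrix `C` over `𝓞 K` of `P`, and to
`r (Fr p)` and `C.map ι` over `A`: `c k = tr (C ^ k)`.

`charpoly_eq_of_traces`: Newton's identities over a field of characteristic zero: if
`tr M ^ k = tr M' ^ k` for `1 ≤ k ≤ n` then the characteristic polynomials are equal (and then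
`tr M ^ k = tr M' ^ k` for all `k`). -/

set_option autoImplicit false

noncomputable section

open scoped Classical

namespace Pool.Agent.DZ74

open NumberField

theorem trace_pow_eq {A : Type} [CommRing A] {n : ℕ} (M M' : Matrix (Fin n) (Fin n) A)
    (h : M.charpoly = M'.charpoly) (k : ℕ) : (M ^ k).trace = (M' ^ k).trace := by
  exact Pool.Agent.GalMaass.trace_pow_congr M M' h k

theorem exists_trace_pow {K : Type} [Field K] [NumberField K] {n : ℕ}
    (M : Matrix (Fin n) (Fin n) K) {A : Type} [CommRing A] (ι : 𝓞 K →+* A)
    (N : Matrix (Fin n) (Fin n) A) (P : Polynomial (𝓞 K))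
    (h1 : P.map (algebraMap (𝓞 K) K) = M.charpoly) (h2 : P.map ι = N.charpoly) (k : ℕ) :
    ∃ c : 𝓞 K, (c : K) = (M ^ k).trace ∧ ι c = (N ^ k).trace := by
  have hinj : Function.Injective (algebraMap (𝓞 K) K) := RingOfIntegers.coe_injective
  have hmon : P.Monic := by
    apply Polynomial.monic_of_injective hinj
    rw [h1]
    exact Matrix.charpoly_monic M
  have hdeg : P.natDegree = n := by
    rw [← Polynomial.natDegree_map_eq_of_injective hinj P, h1, Matrix.charpoly_natDegree_eq_dim,
      Fintype.card_fin]
  obtain ⟨D, hD⟩ := Pool.Agent.GalMaass.exists_matrix_charpoly P hmon n hdeg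
  have hmap : ∀ {B : Type} [CommRing B] (φ : 𝓞 K →+* B), φ ((D ^ k).trace) =
      ((D.map φ) ^ k).trace := by
    intro B _ φ
    have e : (D.map φ) ^ k = (D ^ k).map φ := by
      rw [← RingHom.mapMatrix_apply, ← RingHom.mapMatrix_apply, map_pow]
    rw [e, Matrix.trace, Matrix.trace, map_sum]
    rfl
  refine ⟨(D ^ k).trace, ?_, ?_⟩
  · have h3 := hmap (algebraMap (𝓞 K) K)
    refine h3.trans (Pool.Agent.GalMaass.trace_pow_congr _ _ ?_ k)
    rw [Matrix.charpoly_map, hD, h1]
  · rw [hmap ι]
    refine Pool.Agent.GalMaass.trace_pow_congr _ _ ?_ k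
    rw [Matrix.charpoly_map, hD, h2]

theorem charpoly_eq_of_traces {E : Type} [Field E] [CharZero E] {n : ℕ}
    (M M' : Matrix (Fin n) (Fin n) E)
    (h : ∀ k, 0 < k → k ≤ n → (M ^ k).trace = (M' ^ k).trace) : M.charpoly = M'.charpoly := by
  classical
  obtain ⟨r, hr⟩ := Pool.Agent.GalMaass.powB_newton M n
  obtain ⟨s, hs⟩ := Pool.Agent.GalMaass.powB_newton M' n
  have hS : (∑ k ∈ Finset.range n, (Polynomial.X : Polynomial E) ^ k *
      Polynomial.C ((M ^ (k + 1)).trace)) =
      ∑ k ∈ Finset.range n, (Polynomial.X : Polynomial E) ^ k *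
      Polynomial.C ((M' ^ (k + 1)).trace) := by
    refine Finset.sum_congr rfl fun k hk => ?_
    rw [Finset.mem_range] at hk
    rw [h (k + 1) (Nat.succ_pos k) (by omega)]
  rw [hS] at hr
  set S : Polynomial E := ∑ k ∈ Finset.range n, (Polynomial.X : Polynomial E) ^ k *
      Polynomial.C ((M' ^ (k + 1)).trace)
  have h0 : ∀ Q : Matrix (Fin n) (Fin n) E, Q.charpolyRev.coeff 0 = 1 := fun Q => by
    rw [Polynomial.coeff_zero_eq_eval_zero, Matrix.eval_charpolyRev]
  have key : ∀ j, j ≤ n → ∀ i, i ≤ j → (M.charpolyRev - M'.charpolyRev).coeff i = 0 := by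
    intro j
    induction j with
    | zero =>
      intro _ i hi
      obtain rfl : i = 0 := by omega
      rw [Polynomial.coeff_sub, h0, h0, sub_self]
    | succ j ih =>
      intro hj i hi
      rcases Nat.lt_or_ge i (j + 1) with hi' | hi'
      · exact ih (by omega) i (by omega)
      obtain rfl : i = j + 1 := by omega
      have e : Polynomial.derivative (M.charpolyRev - M'.charpolyRev) =
          Polynomial.X ^ n * (r - s) - (M.charpolyRev - M'.charpolyRev) * S := by
        rw [Polynomial.derivative_sub]
        linear_combination hr - hs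
      have e1 := congrArg (fun q => Polynomial.coeff q j) e
      simp only [Polynomial.coeff_sub (Polynomial.X ^ n * (r - s)), Polynomial.coeff_derivative]
        at e1
      have e2 : (Polynomial.X ^ n * (r - s)).coeff j = 0 := by
        rw [mul_comm, Polynomial.coeff_mul_X_pow', if_neg (by omega)]
      have e3 : ((M.charpolyRev - M'.charpolyRev) * S).coeff j = 0 := by
        rw [Polynomial.coeff_mul]
        refine Finset.sum_eq_zero fun a ha => ?_
        rw [Finset.HasAntidiagonal.mem_antidiagonal] at ha
        rw [ih (by omega) a.1 (by omega), zero_mul]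
      rw [e2, e3, sub_zero] at e1
      have e4 : ((j : E) + 1) ≠ 0 := Nat.cast_add_one_ne_zero j
      exact (mul_eq_zero.1 e1).resolve_right e4
  have hrev : ∀ (Q : Matrix (Fin n) (Fin n) E) (i : ℕ), i ≤ n →
      Q.charpoly.coeff i = Q.charpolyRev.coeff (n - i) := by
    intro Q i hi
    rw [← Matrix.reverse_charpoly, Polynomial.coeff_reverse, Matrix.charpoly_natDegree_eq_dim,
      Fintype.card_fin, Polynomial.revAt_le (Nat.sub_le n i)]
    congr 1
    omega
  ext i
  rcases Nat.lt_or_ge n i with hi | hi
  · rw [Polynomial.coeff_eq_zero_of_natDegree_lt, Polynomial.coeff_eq_zero_of_natDegree_lt]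
    · rw [Matrix.charpoly_natDegree_eq_dim, Fintype.card_fin]
      exact hi
    · rw [Matrix.charpoly_natDegree_eq_dim, Fintype.card_fin]
      exact hi
  · rw [hrev M i hi, hrev M' i hi]
    have e := key n le_rfl (n - i) (Nat.sub_le n i)
    rw [Polynomial.coeff_sub] at e
    exact sub_eq_zero.1 e

end Pool.Agent.DZ74
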