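import Pool.Agent.W_7742k_h74.CInv
import Pool.Agent.W_7742k_h74.ENew
import Pool.Agent.W_7742g_h15.PowC
import Pool.Agent.W_7742z_h74.Sml

/-! # The dichotomy

`s (β x) = tr (R_s x)`, `R_s x` of finite order.  `c k - β (γ ^ k) ∈ 𝔟`.

* `dichotomy`: if `tr M ^ k = β (γ ^ k)` for `1 ≤ k ≤ n` then for every `s` the matrices `s (M)` and
  `R_s γ` have the same characteristic polynomial (`charpoly_eq_of_traces`) and so
  `s (tr M ^ k) = s (β (γ ^ k))` for all `k` (`trace_pow_eq`).  Otherwise let `k + 1 ≤ n` be the smallest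
  exponent with `y = tr M ^ (k + 1) ≠ β (γ ^ (k + 1)) = z`.  Then `0 ≠ y - z ∈ 𝔟`, so
  `|N(y - z)| ≥ N(𝔟) ≥ X ^ d`, so `∑_s |s (y - z)| ^ 2 ≥ d X ^ 2` (inequality of the means), and
  `∑_s |s z| ^ 2 ≤ d n ^ 2`, so `∑_s |s y| ^ 2 ≥ d (X - n) ^ 2 ≥ d (n + 1) ^ 2 ≥ d n ^ 2 + 1`
  (triangle inequality in `ℂ ^ d`).
* `eq_of_norm_le`: `|s (y - z)| ≤ 2 n < X` for all `s`, so `|N (y - z)| < X ^ d`, so `y = z`. -/

set_option autoImplicit false

noncomputable section

open scoped Classical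

namespace Pool.Agent.DZ74

open NumberField

variable {K : Type} [Field K] [NumberField K] {n : ℕ}

omit [NumberField K] in
theorem EDic_map_pow (M : Matrix (Fin n) (Fin n) K) (s : K →+* ℂ) (k : ℕ) :
    s (M ^ k).trace = ((M.map s) ^ k).trace := by
  have h := map_pow (RingHom.mapMatrix (m := Fin n) s) M k
  simp only [RingHom.mapMatrix_apply] at h
  rw [← h, Matrix.trace, Matrix.trace, map_sum]
  rfl

theorem EDic_trace_pow (B : Matrix (Fin n) (Fin n) ℂ) (k : ℕ) :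
    (B ^ k).trace = (B.charpoly.roots.map (fun z => z ^ k)).sum := by
  have h := GalMaass.PowC_trace_pow (Matrix.toLin' B) k
  rw [Matrix.charpoly_toLin', ← Matrix.toLin'_pow, Matrix.trace_toLin'_eq] at h
  exact h

theorem EDic_norm_trace (B : Matrix (Fin n) (Fin n) ℂ) (h : ∀ α ∈ B.charpoly.roots, ‖α‖ ≤ 1)
    (k : ℕ) : ‖(B ^ k).trace‖ ≤ n := by
  rw [EDic_trace_pow]
  have h1 : ∀ m : Multiset ℂ, (∀ α ∈ m, ‖α‖ ≤ 1) →
      ‖(m.map (fun z => z ^ k)).sum‖ ≤ (Multiset.card m : ℝ) := by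
    intro m
    induction m using Multiset.induction_on with
    | empty => simp
    | cons a m ih =>
      intro hm
      rw [Multiset.map_cons, Multiset.sum_cons, Multiset.card_cons]
      have h2 := ih fun α hα => hm α (Multiset.mem_cons_of_mem hα)
      have h3 : ‖a ^ k‖ ≤ 1 := by
        rw [norm_pow]
        exact pow_le_one₀ (norm_nonneg _) (hm a (Multiset.mem_cons_self a m))
      push_cast
      linarith [norm_add_le (a ^ k) (m.map (fun z => z ^ k)).sum]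
  refine (h1 _ h).trans ?_
  have h4 : Multiset.card B.charpoly.roots ≤ n := by
    have h5 := Polynomial.card_roots' B.charpoly
    rwa [Matrix.charpoly_natDegree_eq_dim, Fintype.card_fin] at h5
  exact_mod_cast h4

theorem EDic_norm_beta {Γ : Type} [Group Γ] [Finite Γ] (β : Γ → 𝓞 K)
    (hR : ∀ s : K →+* ℂ, ∃ R : Γ →* Matrix (Fin n) (Fin n) ℂ, ∀ x, (R x).trace = s (β x : K))
    (s : K →+* ℂ) (x : Γ) : ‖s (β x : K)‖ ≤ n := by
  obtain ⟨R, hR⟩ := hR s
  rw [← hR]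
  have hm : 0 < Nat.card Γ := Nat.card_pos
  refine OneI74.norm_trace_le hm (R x) ?_
  rw [← map_pow, pow_card_eq_one', map_one]

theorem dichotomy (hn : 0 < n) {Γ : Type} [Group Γ] [Finite Γ] (β : Γ → 𝓞 K)
    (hR : ∀ s : K →+* ℂ, ∃ R : Γ →* Matrix (Fin n) (Fin n) ℂ, ∀ x, (R x).trace = s (β x : K))
    (𝔟 : Ideal (𝓞 K)) {X : ℕ} (hX : 2 * n < X)
    (hb : X ^ Module.finrank ℚ K ≤ Ideal.absNorm 𝔟) (M : Matrix (Fin n) (Fin n) K) (γ : Γ)
    (c : ℕ → 𝓞 K) (hc : ∀ k, (c k : K) = (M ^ k).trace) (hcb : ∀ k, c k - β (γ ^ k) ∈ 𝔟) :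
    (∀ k, (M ^ k).trace = (β (γ ^ k) : K)) ∨
      ∃ k < n, (∀ j < k, (M ^ (j + 1)).trace = (β (γ ^ (j + 1)) : K)) ∧
        (M ^ (k + 1)).trace ≠ (β (γ ^ (k + 1)) : K) ∧
        tw (β (γ ^ (k + 1)) : K) + 1 ≤ tw ((M ^ (k + 1)).trace) := by
  classical
  by_cases hall : ∀ k, 0 < k → k ≤ n → (M ^ k).trace = (β (γ ^ k) : K)
  · left
    intro k
    obtain ⟨s⟩ : Nonempty (K →+* ℂ) := inferInstance
    obtain ⟨R, hR⟩ := hR s
    apply s.injective
    have h1 : (M.map s).charpoly = (R γ).charpoly := by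
      refine charpoly_eq_of_traces _ _ fun j hj hj' => ?_
      rw [← EDic_map_pow, hall j hj hj', ← hR, map_pow]
    have h2 := trace_pow_eq _ _ h1 k
    rw [EDic_map_pow, h2, ← hR, map_pow]
  · right
    have hex : ∃ k, k < n ∧ (M ^ (k + 1)).trace ≠ (β (γ ^ (k + 1)) : K) := by
      push Not at hall
      obtain ⟨k, hk0, hkn, hk⟩ := hall
      refine ⟨k - 1, by omega, ?_⟩
      rwa [Nat.sub_add_cancel hk0]
    obtain ⟨hk1, hk2⟩ := Nat.find_spec hex
    set k := Nat.find hex with hk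
    refine ⟨k, hk1, fun j hj => ?_, hk2, ?_⟩
    · by_contra hne
      exact Nat.find_min hex hj ⟨hj.trans hk1, hne⟩
    · set z : 𝓞 K := β (γ ^ (k + 1)) with hz
      set x : 𝓞 K := c (k + 1) - z with hx
      have hxb : x ∈ 𝔟 := hcb (k + 1)
      have hxc : (x : K) = (M ^ (k + 1)).trace - (z : K) := by
        rw [← hc (k + 1), hx]
        rfl
      have hx0 : x ≠ 0 := by
        intro h0
        rw [h0] at hxc
        apply hk2
        have h1 : ((0 : 𝓞 K) : K) = 0 := rfl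
        rw [h1] at hxc
        exact sub_eq_zero.1 hxc.symm
      have h1 := OneI74.sum_sq_ge 𝔟 hxb hx0 (c := (X : ℝ)) (Nat.cast_nonneg X)
        (by exact_mod_cast hb)
      have h2 := tw_le β hR (γ ^ (k + 1))
      set D : ℕ := Module.finrank ℚ K with hD
      have hD1 : (1 : ℝ) ≤ D := by
        have : 0 < D := Module.finrank_pos
        exact_mod_cast this
      let u : EuclideanSpace ℂ (K →+* ℂ) := WithLp.toLp 2 fun s => s (M ^ (k + 1)).trace
      let v : EuclideanSpace ℂ (K →+* ℂ) := WithLp.toLp 2 fun s => s (z : K)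
      have hu : ‖u‖ ^ 2 = tw ((M ^ (k + 1)).trace) := by
        rw [EuclideanSpace.norm_sq_eq]
        rfl
      have hv : ‖v‖ ^ 2 = tw (z : K) := by
        rw [EuclideanSpace.norm_sq_eq]
        rfl
      have huv : ‖u - v‖ ^ 2 = ∑ s : K →+* ℂ, ‖s (x : K)‖ ^ 2 := by
        rw [EuclideanSpace.norm_sq_eq]
        refine Finset.sum_congr rfl fun s _ => ?_
        rw [hxc, map_sub]
        rfl
      rw [← hu, ← hv]
      rw [← huv] at h1
      rw [← hz, ← hv] at h2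
      set r : ℝ := Real.sqrt D with hr
      have hr2 : r ^ 2 = D := Real.sq_sqrt (by positivity)
      have hr1 : 1 ≤ r := by
        rw [hr]
        exact Real.one_le_sqrt.2 hD1
      have hXr : (2 * n + 1 : ℝ) ≤ X := by exact_mod_cast hX
      have h3 : r * X ≤ ‖u - v‖ := by
        refine (pow_le_pow_iff_left₀ (by positivity) (norm_nonneg _) two_ne_zero).1 ?_
        rw [mul_pow, hr2]
        exact h1
      have h4 : ‖v‖ ≤ r * n := by
        refine (pow_le_pow_iff_left₀ (norm_nonneg _) (by positivity) two_ne_zero).1 ?_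
        rw [mul_pow, hr2]
        exact h2
      have h5 : ‖u - v‖ ≤ ‖u‖ + ‖v‖ := norm_sub_le u v
      have h6 : r * (n + 1) ≤ ‖u‖ := by nlinarith
      have h7 : (r * (n + 1)) ^ 2 ≤ ‖u‖ ^ 2 := by
        have : 0 ≤ r * ((n : ℝ) + 1) := by positivity
        exact pow_le_pow_left₀ this h6 2
      rw [mul_pow, hr2] at h7
      have h8 : (0 : ℝ) ≤ n := Nat.cast_nonneg n
      nlinarith

theorem eq_of_norm_le {Γ : Type} [Group Γ] [Finite Γ] (β : Γ → 𝓞 K)
    (hR : ∀ s : K →+* ℂ, ∃ R : Γ →* Matrix (Fin n) (Fin n) ℂ, ∀ x, (R x).trace = s (β x : K))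
    (𝔟 : Ideal (𝓞 K)) {X : ℕ} (hX : 2 * n < X)
    (hb : X ^ Module.finrank ℚ K ≤ Ideal.absNorm 𝔟) (M : Matrix (Fin n) (Fin n) K) (γ : Γ)
    (c : ℕ → 𝓞 K) (hc : ∀ k, (c k : K) = (M ^ k).trace) (hcb : ∀ k, c k - β (γ ^ k) ∈ 𝔟)
    (h1 : ∀ s : K →+* ℂ, ∀ α ∈ (M.charpoly.map s).roots, ‖α‖ ≤ 1) (k : ℕ) :
    (M ^ k).trace = (β (γ ^ k) : K) := by
  classical
  have h2 : c k - β (γ ^ k) = 0 := by
    refine OneI74.eq_zero_of_small 𝔟 (hcb k) (X := 2 * (n : ℝ)) (fun s => ?_) ?_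
    · have h3 : ((c k - β (γ ^ k) : 𝓞 K) : K) = (M ^ k).trace - (β (γ ^ k) : K) := by
        rw [← hc k]
        rfl
      rw [h3, map_sub]
      have h4 : ‖s (M ^ k).trace‖ ≤ n := by
        rw [EDic_map_pow]
        refine EDic_norm_trace _ (fun α hα => h1 s α ?_) k
        rwa [Matrix.charpoly_map] at hα
      have h5 := EDic_norm_beta β hR s (γ ^ k)
      have h6 := norm_sub_le (s (M ^ k).trace) (s (β (γ ^ k) : K))
      linarith
    · have hD : Module.finrank ℚ K ≠ 0 := Module.finrank_pos.ne'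
      calc (2 * (n : ℝ)) ^ Module.finrank ℚ K < (X : ℝ) ^ Module.finrank ℚ K := by
            refine pow_lt_pow_left₀ ?_ (by positivity) hD
            exact_mod_cast hX
        _ ≤ _ := by exact_mod_cast hb
  rw [← hc k, sub_eq_zero.1 h2]

/-- Kronecker's theorem. -/
theorem exists_pow_eq_one (M : Matrix (Fin n) (Fin n) K)
    (hi : ∀ i, IsIntegral ℤ (M.charpoly.coeff i))
    (h1 : ∀ s : K →+* ℂ, ∀ α ∈ (M.charpoly.map s).roots, ‖α‖ = 1) :
    ∃ m : ℕ, 0 < m ∧ ∀ s : K →+* ℂ, ∀ α ∈ (M.charpoly.map s).roots, α ^ m = 1 := by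
  classical
  set P := M.charpoly with hP
  have hPm : P.Monic := M.charpoly_monic
  let L := P.SplittingField
  haveI : NumberField L := NumberField.of_module_finite K L
  have hint : ∀ ρ ∈ (P.map (algebraMap K L)).roots, IsIntegral ℤ ρ := by
    intro ρ hρ
    have hl : P ∈ Polynomial.lifts (algebraMap (𝓞 K) K) := by
      rw [Polynomial.lifts_iff_coeff_lifts]
      exact fun i => ⟨⟨P.coeff i, hi i⟩, rfl⟩
    obtain ⟨q, hq1, -, hq2⟩ := Polynomial.lifts_and_natDegree_eq_and_monic hl hPm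
    have h2 : IsIntegral (𝓞 K) ρ := by
      refine ⟨q, hq2, ?_⟩
      have h3 : Polynomial.eval ρ (P.map (algebraMap K L)) = 0 := Polynomial.isRoot_of_mem_roots hρ
      have h4 : P.map (algebraMap K L) = q.map (algebraMap (𝓞 K) L) := by
        rw [IsScalarTower.algebraMap_eq (𝓞 K) K L, ← Polynomial.map_map, hq1]
      rw [h4, Polynomial.eval_map] at h3
      exact h3
    exact isIntegral_trans ρ h2
  have hone : ∀ ρ ∈ (P.map (algebraMap K L)).roots, ∃ m : ℕ, 0 < m ∧ ρ ^ m = 1 := by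
    intro ρ hρ
    obtain ⟨m, hm, h⟩ := Embeddings.pow_eq_one_of_norm_eq_one L ℂ (hint ρ hρ) (fun φ => by
      refine h1 (φ.comp (algebraMap K L)) (φ ρ) ?_
      rw [← Polynomial.map_map]
      exact (Polynomial.mem_roots ((hPm.map _).map _).ne_zero).2
        (Polynomial.isRoot_of_mem_roots hρ).map)
    exact ⟨m, hm, h⟩
  have hm : ∀ T : Multiset L, (∀ ρ ∈ T, ∃ m : ℕ, 0 < m ∧ ρ ^ m = 1) →
      ∃ m : ℕ, 0 < m ∧ ∀ ρ ∈ T, ρ ^ m = 1 := by
    intro T
    induction T using Multiset.induction_on with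
    | empty => exact fun _ => ⟨1, one_pos, by simp⟩
    | cons a T ih =>
      intro hT
      obtain ⟨m, hm, h⟩ := ih fun ρ hρ => hT ρ (Multiset.mem_cons_of_mem hρ)
      obtain ⟨m', hm', h'⟩ := hT a (Multiset.mem_cons_self a T)
      refine ⟨m * m', Nat.mul_pos hm hm', fun ρ hρ => ?_⟩
      rcases Multiset.mem_cons.1 hρ with rfl | hρ
      · rw [mul_comm, pow_mul, h', one_pow]
      · rw [pow_mul, h ρ hρ, one_pow]
  obtain ⟨m, hm0, hm1⟩ := hm _ hone
  refine ⟨m, hm0, fun s α hα => ?_⟩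
  letI : Algebra K ℂ := s.toAlgebra
  let φ : L →ₐ[K] ℂ := IsAlgClosed.lift
  have hφ : (φ : L →+* ℂ).comp (algebraMap K L) = s := φ.comp_algebraMap
  have hsp : (P.map (algebraMap K L)).Splits := Polynomial.SplittingField.splits P
  rw [← hφ, ← Polynomial.map_map, hsp.roots_map, Multiset.mem_map] at hα
  obtain ⟨ρ, hρ, rfl⟩ := hα
  rw [← map_pow, hm1 ρ hρ, map_one]

end Pool.Agent.DZ74
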