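import Pool.Agent.W_7742k_h74.ESta
import Pool.Agent.W_7742k_h74.ECof

/-! # The theorem for one ideal and all primes -/

set_option autoImplicit false

noncomputable section

open Filter Topology NumberField

namespace Pool.Agent.DZ74

open Pool.Agent.GalSide Pool.Agent.Cheb Pool.Agent.H74V Pool.Agent.OneI74

theorem thin_mono {S T : Set Nat.Primes} {x : ℝ} (h : Thin T x) (hST : S ⊆ T) : Thin S x :=
  h.comp_injective (i := fun p : S => (⟨p.1, hST p.2⟩ : T)) fun a b hab =>
    Subtype.ext (congrArg (fun z : T => z.1) hab)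

/-- One representation: the traces, the determinants, and for `n ≤ 3` the characteristic
polynomials. -/
theorem final_one_all {K : Type} [Field K] [NumberField K] {n : ℕ} (hn : 2 ≤ n)
    (π : SatakeSystem K n) (h : ∀ σ : K →+* ℂ, π.IsCuspidal σ)
    (Fr : Nat.Primes → AbsGal ℚ) (hFr : Pool.Agent.OneP74.IsFrobeniusFamily Fr)
    {A : Type} [CommRing A] (ι : 𝓞 K →+* A)
    (hN : bound n (Module.finrank ℚ K) ≤ Ideal.absNorm (RingHom.ker ι))
    (r : AbsGal ℚ →* GL (Fin n) A) (hr : IsOpen (r.ker : Set (AbsGal ℚ)))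
    (hc : Congruent π Fr ι fun g => (r g).val.trace) (s : K →+* ℂ) :
    ∃ R : AbsGal ℚ →* GL (Fin n) ℂ, IsArtin R ∧ r.ker ≤ R.ker ∧
      HasDensity {p : Nat.Primes | (R (Fr p)).val.trace ≠ s (π.A p).trace} 0 ∧
      LiftsTraces ι r s R ∧ LiftsDets ι r s R ∧
      (n ≤ 3 → DetCongruent π Fr ι r → HasDensity {p : Nat.Primes |
          (R (Fr p)).val.charpoly ≠ (π.A p).charpoly.map s} 0) ∧
      LiftsAll π Fr ι r s R := by
  classical
  have hne : Nonempty (Fin n) := ⟨⟨0, by omega⟩⟩
  obtain ⟨𝔟, U, hU, β, k1, k2, k3, k4, k5, k6, k7, k8, -⟩ :=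
    final hn π h Fr hFr ι hN ((Units.coeHom _).comp r) (isOpen_ker r hr) hc
  have hfin : Finite (AbsGal ℚ ⧸ U) := Subgroup.quotient_finite_of_isOpen U k3
  set m := Nat.card (AbsGal ℚ ⧸ U) with hm
  have hmp : 0 < m := Nat.card_pos
  have hd : 0 < Module.finrank ℚ K := Module.finrank_pos
  choose R hRt hRi using k8
  have hRm : ∀ σ x, R σ x ^ m = 1 := by
    intro σ x
    rw [← map_pow, hm, pow_card_eq_one', map_one]
  have hlev := Pool.Agent.OneP74.finite_level π.level_pos
  let R' : AbsGal ℚ →* GL (Fin n) ℂ := ((R s).comp (QuotientGroup.mk' U)).toHomUnits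
  have hR' : ∀ g, (R' g).val = R s (QuotientGroup.mk g) := fun g => rfl
  have hU1 : ∀ g ∈ U, R' g = 1 := by
    intro g hg
    apply Units.ext
    rw [hR', (QuotientGroup.eq_one_iff g).2 hg, map_one]
    rfl
  have hT : HasDensity {p : Nat.Primes | (R' (Fr p)).val.trace ≠ s (π.A p).trace} 0 := by
    refine Pool.Agent.OneP74.density_union k7 Set.finite_empty ?_
    intro p hp
    refine Or.inl fun hx => hp ?_
    rw [hR', hRt, hx]
  have hTg : ∀ (g : AbsGal ℚ) (x : 𝓞 K),
      (∀ σ : K →+* ℂ, ‖σ (x : K)‖ ≤ (XX n (Module.finrank ℚ K) : ℝ) / 2) →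
      (r g).val.trace = ι x → (R' g).val.trace = s (x : K) := by
    intro g x hx hrx
    have e1 := k6 g x hrx.symm
    have e2 : x - β (QuotientGroup.mk g) = 0 := by
      refine eq_zero_of_small 𝔟 e1
        (X := (XX n (Module.finrank ℚ K) : ℝ) / 2 + n) (fun σ => ?_) ?_
      · have e3 : ((x - β (QuotientGroup.mk g) : 𝓞 K) : K) =
            (x : K) - (β (QuotientGroup.mk g) : K) := by push_cast; ring
        rw [e3, map_sub]
        refine (norm_sub_le _ _).trans (add_le_add (hx σ) ?_)
        rw [← hRt σ]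
        exact norm_trace_le hmp _ (hRm σ _)
      · have e9 := lt_XX (n := n) (d := Module.finrank ℚ K) (by omega) hd (k := 1)
          (by omega)
        rw [pow_one, Nat.factorial_one, one_mul] at e9
        have e10 := le_hh (n := n) (d := Module.finrank ℚ K) (by omega) hd
        have e11 : (2 * n : ℝ) < (XX n (Module.finrank ℚ K) : ℝ) := by
          exact_mod_cast (show 2 * n < XX n (Module.finrank ℚ K) by omega)
        have e12 : (XX n (Module.finrank ℚ K) : ℝ) / 2 + n < (XX n (Module.finrank ℚ K) : ℝ) := by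
          linarith
        refine (pow_lt_pow_left₀ e12 (by positivity) hd.ne').trans_le ?_
        exact_mod_cast k2
    rw [hR', hRt, ← sub_eq_zero.1 e2]
  have hDg : ∀ (g : AbsGal ℚ) (x : 𝓞 K), (∀ σ : K →+* ℂ, ‖σ (x : K)‖ ≤ 1) →
      (r g).val.det = ι x → (R' g).val.det = s (x : K) := by
    intro g x hx hx2
    have e1 := beta_det ι (QuotientGroup.mk' U) ((Units.coeHom _).comp r) β k1 k5
      (fun g c hg => k6 g c hg) g (e := x) hx2.symm
    set γ : AbsGal ℚ ⧸ U := QuotientGroup.mk g with hγ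
    have e2 : ∀ σ : K →+* ℂ, σ ((pol β n (fun _ => γ) : 𝓞 K) : K) =
        (n.factorial : ℂ) * (R σ γ).det := by
      intro σ
      rw [← pol_trace_self (R σ γ)]
      have e3 := pol_map (σ.comp (algebraMap (𝓞 K) K)) β n (fun _ => γ)
      have e4 := pol_comp (fun y => R σ y) (fun y z => map_mul _ y z)
        (fun M : Matrix (Fin n) (Fin n) ℂ => M.trace) n (fun _ => γ)
      rw [← e4]
      refine e3.trans ?_
      congr 1
      funext y
      exact (hRt σ y).symm
    have e5 : ∀ σ : K →+* ℂ, ‖(R σ γ).det‖ = 1 := by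
      intro σ
      refine Complex.norm_eq_one_of_pow_eq_one (n := m) ?_ hmp.ne'
      rw [← Matrix.det_pow, hRm, Matrix.det_one]
    have e7 : (n.factorial : 𝓞 K) * x - pol β n (fun _ => γ) = 0 := by
      refine eq_zero_of_small 𝔟 e1 (X := (2 * n.factorial : ℕ)) (fun σ => ?_) ?_
      · have e8 : σ (((n.factorial : 𝓞 K) * x - pol β n (fun _ => γ) : 𝓞 K) : K) =
            (n.factorial : ℂ) * σ (x : K) - (n.factorial : ℂ) * (R σ γ).det := by
          rw [← e2 σ]
          push_cast
          rw [map_sub, map_mul, map_natCast]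
        rw [e8]
        refine (norm_sub_le _ _).trans ?_
        rw [norm_mul, norm_mul, e5, Complex.norm_natCast]
        push_cast
        have e6 := hx σ
        have e7 : (0 : ℝ) ≤ n.factorial := Nat.cast_nonneg _
        nlinarith
      · have e9 := lt_XX (n := n) (d := Module.finrank ℚ K) (by omega) hd (k := n)
          (by nlinarith)
        have e10 : 2 * n.factorial < XX n (Module.finrank ℚ K) := by
          refine lt_of_le_of_lt ?_ e9
          rw [mul_comm]
          refine Nat.mul_le_mul_left _ ?_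
          have e11 := hh_pos (n := n) (d := Module.finrank ℚ K) (by omega) hd
          calc 2 ≤ 2 * hh n (Module.finrank ℚ K) := by omega
            _ ≤ (2 * hh n (Module.finrank ℚ K)) ^ n := Nat.le_self_pow (by omega) _
        have e12 : (2 * n.factorial) ^ Module.finrank ℚ K < Ideal.absNorm 𝔟 :=
          (Nat.pow_lt_pow_left e10 hd.ne').trans_le k2
        exact_mod_cast e12
    have e13 := e2 s
    rw [sub_eq_zero] at e7
    rw [← e7] at e13
    have e14 : (n.factorial : ℂ) ≠ 0 := Nat.cast_ne_zero.2 (Nat.factorial_pos n).ne'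
    have e15 : (n.factorial : ℂ) * s (x : K) = (n.factorial : ℂ) * (R s γ).det := by
      rw [← e13]
      push_cast
      rw [map_mul, map_natCast]
    rw [hR']
    exact (mul_left_cancel₀ e14 e15).symm
  refine ⟨R', ⟨?_, ?_⟩, ?_, hT, hTg, hDg, fun hn3 hd => ?_, fun S β₀ hb0 hb1 hS hcS hZ => ?_⟩
  · exact Subgroup.isOpen_mono (H₁ := U) (fun g hg => MonoidHom.mem_ker.2 (hU1 g hg)) k3
  · intro W hW
    refine hRi s W fun g w hw => ?_
    obtain ⟨g, rfl⟩ := QuotientGroup.mk_surjective g
    exact hW g w hw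
  · intro g hg
    exact hU1 g (k4 g (congrArg Units.val (MonoidHom.mem_ker.1 hg)))
  · have hD : HasDensity {p : Nat.Primes | (R' (Fr p)).val.det ≠ s (π.A p).det} 0 := by
      refine Pool.Agent.OneP74.density_union hd hlev ?_
      intro p hp'
      by_cases hpl : (p : ℕ) ∣ π.level
      · exact Or.inr hpl
      · refine Or.inl fun hx => hp' ?_
        obtain ⟨x, hx1, hx2⟩ := hx
        rw [← hx1]
        refine hDg (Fr p) x (fun σ => ?_) hx2
        obtain ⟨k, hk, hk1⟩ := Pool.Agent.OneP74.det_pow hn π (h σ) (p := p) ⟨p.2, hpl⟩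
        refine (Complex.norm_eq_one_of_pow_eq_one (n := k) ?_ hk.ne').le
        rw [← map_pow, hx1, hk1, map_one]
    refine Pool.Agent.OneP74.density_union (Pool.Agent.OneP74.density_union' hT hD (subset_refl _)) hlev ?_
    intro p hp'
    by_cases hpl : (p : ℕ) ∣ π.level
    · exact Or.inr hpl
    · refine Or.inl ?_
      by_contra hcon
      rw [Set.mem_union, not_or] at hcon
      have e1 : (R' (Fr p)).val.trace = s (π.A p).trace := not_not.1 hcon.1
      have e2 : (R' (Fr p)).val.det = s (π.A p).det := not_not.1 hcon.2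
      apply hp'
      have hg : π.Good p := ⟨p.2, hpl⟩
      have hu : ((π.A p).map s).charpoly = (π.A p).charpoly.map s := Matrix.charpoly_map _ _
      rw [← hu]
      have hdm : ((π.A p).map s).det = s (π.A p).det := (RingHom.map_det s _).symm
      have htm : ((π.A p).map s).trace = s (π.A p).trace :=
        (AddMonoidHom.map_trace (s : K →+ ℂ) _).symm
      have hd0 : s (π.A p).det ≠ 0 := by
        intro h0
        exact π.det_ne_zero p p.2 hpl (s.injective (by rw [h0, map_zero]))
      refine Pool.Agent.OneP74.charpoly_eq_of_le_three hn3 _ _ ?_ ?_ ?_ ?_ ?_ ?_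
      · rw [e2]
        exact hd0
      · rw [hdm]
        exact hd0
      · exact Pool.Agent.OneP74.conj_trace hmp _ (hRm s _)
      · have e3 := (Pool.Agent.GL74.cuspidal_main hn (h s)).1 p hg 1
        rw [pow_one, pow_one] at e3
        rw [htm, e3]
        have e4 : ((π.A p).map s)⁻¹ = ((π.A p)⁻¹).map s := by
          apply Matrix.inv_eq_right_inv
          have e5 : (π.A p) * (π.A p)⁻¹ = 1 :=
            Matrix.mul_nonsing_inv _ (isUnit_iff_ne_zero.2 (π.det_ne_zero p p.2 hpl))
          rw [← Matrix.map_mul, e5, Matrix.map_one s (map_zero s) (map_one s)]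
        rw [e4]
        exact AddMonoidHom.map_trace (s : K →+ ℂ) _
      · rw [e1, htm]
      · rw [e2, hdm]
  · have hker : r.ker ≤ U := fun g hg => k4 g (congrArg Units.val (MonoidHom.mem_ker.1 hg))
    have hdat : Dat π Fr 𝔟 U β S β₀ := by
      refine ⟨hn, h, hFr, ⟨XX n (Module.finrank ℚ K), ?_, k2⟩, k3, ?_, ?_, hS, ⟨hb0, hb1⟩, ?_⟩
      · have e9 := lt_XX (n := n) (d := Module.finrank ℚ K) (by omega) hd (k := 1)
          (by omega)
        rw [pow_one, Nat.factorial_one, one_mul] at e9
        have e10 := le_hh (n := n) (d := Module.finrank ℚ K) (by omega) hd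
        omega
      · exact fun σ => ⟨R σ, hRt σ, hRi σ⟩
      · intro p hpS hpg k
        obtain ⟨P, hP1, hP2⟩ := hcS p hpS hpg
        obtain ⟨c, hc1, hc2⟩ := exists_trace_pow (π.A p) ι (r (Fr p)).val P hP1 hP2 k
        refine ⟨c, hc1, ?_⟩
        have e1 : ι c = (((Units.coeHom _).comp r) ((Fr p) ^ k)).trace := by
          rw [hc2, map_pow]
          rfl
        exact k6 _ c e1
      · intro F _ _ i hi
        exact hZ F i fun g hg a => hi g (hker hg) a
    have hRj : ∀ (p : Nat.Primes) (j : ℕ), ((R' (Fr p)).val ^ j).trace =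
        s (β ((QuotientGroup.mk (Fr p) : AbsGal ℚ ⧸ U) ^ j) : K) := by
      intro p j
      rw [hR', ← map_pow, hRt]
    have hAj : ∀ (p : ℕ) (j : ℕ), (((π.A p).map s) ^ j).trace = s (π.A p ^ j).trace := by
      intro p j
      have e1 : ((π.A p).map s) ^ j = (π.A p ^ j).map s := by
        rw [← RingHom.mapMatrix_apply, ← map_pow]
        rfl
      rw [e1]
      exact (AddMonoidHom.map_trace (s : K →+ ℂ) _).symm
    have hch : ∀ p : ℕ, ((π.A p).map s).charpoly = (π.A p).charpoly.map s := fun p =>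
      Matrix.charpoly_map _ _
    refine ⟨fun m hm hmn x hx => ?_, fun p hp α hα => hdat.bound_main hp s hα, fun hz p hp => ?_⟩
    · refine thin_mono (hdat.sum_main hm hx) ?_
      rintro p ⟨hpS, hpg, hj⟩
      refine ⟨hpS, hpg, ?_⟩
      by_contra hcon
      push Not at hcon
      obtain ⟨j, hj0, hjm, hj1⟩ := hj
      refine hj1 ?_
      have e1 := coeff_eq_of_traces hmn (R' (Fr p)).val ((π.A p).map s) (fun k hk hkm => by
        rw [hRj, hAj, hcon k hk hkm]) hj0 hjm
      rw [e1, hch, Polynomial.coeff_map]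
    · subst hz
      obtain ⟨⟨m, hm, hm1⟩, h2⟩ := hdat.all_main hp
      refine ⟨⟨m, hm, hm1 s⟩, fun hpS => ?_⟩
      rw [← hch]
      refine charpoly_eq_of_traces _ _ fun k hk hkn => ?_
      rw [hRj, hAj, h2 hpS k]

end Pool.Agent.DZ74
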