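import Pool.Agent.W_7742k_h74.EDic
import Pool.Agent.W_7742k_h74.CGam
import Pool.Agent.W_7742k_h74.CInv
import Pool.Agent.W_7742k_h74.DCmp
import Pool.Agent.W_7742k_h74.DCut
import Pool.Agent.W_7742k_h74.DPro
import Pool.Agent.W_7742z_h74.Fin

/-! # All primes

`𝔓` from `hFr`.  `th = th 𝔓 Fr U θ` (CGam.lean) with `θ` from `theta_inv`; `T x = tw (tr A_p ^ (k + 1))` for
`p` good (`∑_s π.T s x`), `0` otherwise.  `S0` is the union of `S`, the primes dividing the level and the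
ramified primes (`finite_ramified`).  `cmp`: the comparison data: `prod_weakRS` with
`weakRS_of_isCuspidal`, `gam` with `sum_theta`; `dich` from `dichotomy` with `c` from `hc`.

* `sum_main`: `Cmp.sum_bad`; for the ramified primes and the primes dividing the level: finitely many.
  If `tr A_p ^ j ≠ β (γ ^ j)` for some `1 ≤ j ≤ m` then by `dichotomy` `T ≠ th` at some `k < m`.
* `bound_main`: `p` good.  Either `p ∉ S0` and `T = th` at all powers: then by `dichotomy`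
  `s (A_p)` has the same traces of powers as `R_s γ`, so the same characteristic polynomial, all of whose
  roots are roots of unity.  Or `Cmp.single` and `cut`.
* `all_main`: `β₀ = 0`: `bound_main` and `eq_of_norm_le`. -/

set_option autoImplicit false

noncomputable section

open scoped Classical

namespace Pool.Agent.DZ74

open NumberField Pool.Agent.Cheb Pool.Agent.GalSide Pool.Agent.H74V
open Pool.Agent.H74E (pk)

/-- The Dedekind zeta functions of the number fields which have an embedding in the algebraic closure of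
`ℚ` with image fixed by `U` have no zeros in `(β₀, 1)`. -/
def NoZeros (U : Subgroup (AbsGal ℚ)) (β₀ : ℝ) : Prop :=
  ∀ (F : Type) [Field F] [NumberField F] (i : F →+* AlgebraicClosure ℚ),
    (∀ g ∈ U, ∀ a : F, g (i a) = i a) → ZeroFree F β₀

/-- The series of the `p ^ (-x)` over the primes in `S` converges. -/
def Thin (S : Set Nat.Primes) (x : ℝ) : Prop := Summable fun p : S => ((p.1 : ℕ) : ℝ) ^ (-x)

/-- What is used. -/
structure Dat {K : Type} [Field K] [NumberField K] {n : ℕ} (π : SatakeSystem K n)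
    (Fr : Nat.Primes → AbsGal ℚ) (𝔟 : Ideal (𝓞 K)) (U : Subgroup (AbsGal ℚ)) [U.Normal]
    (β : AbsGal ℚ ⧸ U → 𝓞 K) (S : Set Nat.Primes) (β₀ : ℝ) : Prop where
  two : 2 ≤ n
  cusp : ∀ σ : K →+* ℂ, π.IsCuspidal σ
  frob : Pool.Agent.OneP74.IsFrobeniusFamily Fr
  large : ∃ X : ℕ, 2 * n < X ∧ X ^ Module.finrank ℚ K ≤ Ideal.absNorm 𝔟
  opn : IsOpen (U : Set (AbsGal ℚ))
  rep : ∀ s : K →+* ℂ, ∃ R : AbsGal ℚ ⧸ U →* Matrix (Fin n) (Fin n) ℂ,
    (∀ x, (R x).trace = s (β x : K)) ∧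
    ∀ W : Submodule ℂ (Fin n → ℂ), (∀ g, ∀ w ∈ W, (R g).mulVec w ∈ W) → W = ⊥ ∨ W = ⊤
  cong : ∀ p : Nat.Primes, p ∉ S → π.Good p → ∀ k : ℕ, ∃ c : 𝓞 K,
    (c : K) = (π.A p ^ k).trace ∧ c - β ((QuotientGroup.mk (Fr p) : AbsGal ℚ ⧸ U) ^ k) ∈ 𝔟
  thin : ∀ x : ℝ, β₀ < x → Thin S x
  beta : 0 ≤ β₀ ∧ β₀ < 1
  zero : NoZeros U β₀

variable {K : Type} [Field K] [NumberField K] {n : ℕ} {π : SatakeSystem K n}
  {Fr : Nat.Primes → AbsGal ℚ} {𝔟 : Ideal (𝓞 K)} {U : Subgroup (AbsGal ℚ)} [U.Normal]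
  {β : AbsGal ℚ ⧸ U → 𝓞 K} {S : Set Nat.Primes} {β₀ : ℝ}

theorem thin_iff (S : Set Nat.Primes) (x : ℝ) :
    Thin S x ↔ Summable (S.indicator fun p : Nat.Primes => ((p : ℕ) : ℝ) ^ (-x)) :=
  summable_subtype_iff_indicator (f := fun p : Nat.Primes => ((p : ℕ) : ℝ) ^ (-x))

theorem thin_of_subset {A B F : Set Nat.Primes} {x : ℝ} (hB : Thin B x) (hF : F.Finite)
    (h : A ⊆ B ∪ F) : Thin A x := by
  rw [thin_iff] at hB ⊢
  have h1 : Summable (F.indicator fun p : Nat.Primes => ((p : ℕ) : ℝ) ^ (-x)) :=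
    summable_of_hasFiniteSupport (hF.subset Set.support_indicator_subset)
  refine Summable.of_nonneg_of_le (fun p => Set.indicator_nonneg (fun p _ => by positivity) p)
    (fun p => ?_) (hB.add h1)
  have h0 : (0 : ℝ) ≤ ((p : ℕ) : ℝ) ^ (-x) := by positivity
  by_cases hA : p ∈ A
  · rw [Set.indicator_of_mem hA]
    rcases h hA with hp | hp
    · rw [Set.indicator_of_mem hp]
      exact le_add_of_nonneg_right (Set.indicator_nonneg (fun p _ => by positivity) p)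
    · rw [Set.indicator_of_mem hp]
      exact le_add_of_nonneg_left (Set.indicator_nonneg (fun p _ => by positivity) p)
  · rw [Set.indicator_of_notMem hA]
    exact add_nonneg (Set.indicator_nonneg (fun p _ => by positivity) p)
      (Set.indicator_nonneg (fun p _ => by positivity) p)

theorem tw_nonneg (y : K) : 0 ≤ tw y := Finset.sum_nonneg fun _ _ => by positivity

/-- The sum of the coefficients of the logarithms of the Rankin-Selberg functions. -/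
def TT (π : SatakeSystem K n) (x : Nat.Primes × ℕ) : ℝ := ∑ s : K →+* ℂ, π.T s x

theorem TT_nonneg (π : SatakeSystem K n) (x : Nat.Primes × ℕ) : 0 ≤ TT π x :=
  Finset.sum_nonneg fun s _ => SatakeSystem.T_nonneg π s x

theorem T_good (π : SatakeSystem K n) (s : K →+* ℂ) {p : Nat.Primes} (hp : π.Good p) (k : ℕ) :
    π.T s (p, k) = ‖s (π.A p ^ (k + 1)).trace‖ ^ 2 := by
  unfold SatakeSystem.T SatakeSystem.coeff
  rw [if_pos hp]
  have h1 : ((k : ℝ) + 1) ≠ 0 := by positivity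
  push_cast
  field_simp

theorem TT_good (π : SatakeSystem K n) {p : Nat.Primes} (hp : π.Good p) (k : ℕ) :
    TT π (p, k) = tw (π.A p ^ (k + 1)).trace :=
  Finset.sum_congr rfl fun s _ => T_good π s hp k

/-- The data for the comparison. -/
theorem Dat.exists_cmp (h : Dat π Fr 𝔟 U β S β₀) :
    ∃ (th' : Nat.Primes × ℕ → ℝ) (F : Set Nat.Primes), F.Finite ∧
      Cmp (TT π) th' β₀ n (S ∪ F) ∧ ∀ p : Nat.Primes, p ∉ S → p ∉ F → π.Good p ∧
        (∀ k, th' (p, k) = tw (β ((QuotientGroup.mk (Fr p) : AbsGal ℚ ⧸ U) ^ (k + 1)) : K)) ∧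
        ((∀ k, (π.A p ^ k).trace = (β ((QuotientGroup.mk (Fr p) : AbsGal ℚ ⧸ U) ^ k) : K)) ∨
          ∃ k < n, (∀ j < k, (π.A p ^ (j + 1)).trace =
            (β ((QuotientGroup.mk (Fr p) : AbsGal ℚ ⧸ U) ^ (j + 1)) : K)) ∧
            (π.A p ^ (k + 1)).trace ≠
              (β ((QuotientGroup.mk (Fr p) : AbsGal ℚ ⧸ U) ^ (k + 1)) : K) ∧
            tw (β ((QuotientGroup.mk (Fr p) : AbsGal ℚ ⧸ U) ^ (k + 1)) : K) + 1 ≤
              tw ((π.A p ^ (k + 1)).trace)) := by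
  have hfr := h.frob
  choose 𝔓 h𝔓 hp hF using hfr
  have hn : 0 < n := by have := h.two; omega
  have hfin : Finite (AbsGal ℚ ⧸ U) := Subgroup.quotient_finite_of_isOpen U h.opn
  have hfty : Fintype (AbsGal ℚ ⧸ U) := Fintype.ofFinite _
  have hR : ∀ s : K →+* ℂ, ∃ R : AbsGal ℚ ⧸ U →* Matrix (Fin n) (Fin n) ℂ,
      ∀ x, (R x).trace = s (β x : K) := fun s => by
    obtain ⟨R, hR, -⟩ := h.rep s
    exact ⟨R, hR⟩
  obtain ⟨θ, hθ, hθ1, hθ2⟩ := theta_inv β hR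
  have hsum := sum_theta hn β h.rep
  have h3 : ∑ x, θ x = (Fintype.card (AbsGal ℚ ⧸ U) : ℚ) * (Module.finrank ℚ K : ℕ) := by
    have h4 : ((∑ x, θ x : ℚ) : ℝ) =
        (((Fintype.card (AbsGal ℚ ⧸ U) : ℚ) * (Module.finrank ℚ K : ℕ) : ℚ) : ℝ) := by
      push_cast
      rw [← hsum]
      exact Finset.sum_congr rfl fun x _ => hθ x
    exact_mod_cast h4
  obtain ⟨Gf, hGf1, hGf2⟩ := gam 𝔓 h𝔓 hp Fr hF U h.opn θ hθ1 hθ2 (Module.finrank ℚ K) h3 β₀
    h.beta.1 h.zero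
  obtain ⟨b, hb, μ, hμ1, hμ2, G, hG1, hG2⟩ := prod_weakRS (fun s : K →+* ℂ => π.T s)
    (fun s x => SatakeSystem.T_nonneg π s x)
    (fun s => SatakeSystem.weakRS_of_isCuspidal h.two (h.cusp s))
  obtain ⟨X, hX, hXb⟩ := h.large
  set F : Set Nat.Primes := {p | (p : ℕ) ∣ π.level} ∪ {p | ¬ inertiaAt (𝔓 p) ≤ U} with hFdef
  have hFf : F.Finite := (OneP74.finite_level π.level_pos).union (finite_ramified 𝔓 h𝔓 hp U h.opn)
  have hgood : ∀ p : Nat.Primes, p ∉ F → π.Good p := fun p hpF =>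
    ⟨p.2, fun hd => hpF (Or.inl hd)⟩
  have hth : ∀ p : Nat.Primes, p ∉ F → ∀ k, th 𝔓 Fr U (fun y => (θ y : ℝ)) (p, k) =
      tw (β ((QuotientGroup.mk (Fr p) : AbsGal ℚ ⧸ U) ^ (k + 1)) : K) := by
    intro p hpF k
    have hI : inertiaAt (𝔓 p) ≤ U := by
      by_contra hc
      exact hpF (Or.inr hc)
    unfold th
    rw [if_pos hI]
    exact hθ _
  have hdich : ∀ p : Nat.Primes, p ∉ S → p ∉ F →
      ((∀ k, (π.A p ^ k).trace = (β ((QuotientGroup.mk (Fr p) : AbsGal ℚ ⧸ U) ^ k) : K)) ∨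
          ∃ k < n, (∀ j < k, (π.A p ^ (j + 1)).trace =
            (β ((QuotientGroup.mk (Fr p) : AbsGal ℚ ⧸ U) ^ (j + 1)) : K)) ∧
            (π.A p ^ (k + 1)).trace ≠
              (β ((QuotientGroup.mk (Fr p) : AbsGal ℚ ⧸ U) ^ (k + 1)) : K) ∧
            tw (β ((QuotientGroup.mk (Fr p) : AbsGal ℚ ⧸ U) ^ (k + 1)) : K) + 1 ≤
              tw ((π.A p ^ (k + 1)).trace)) := by
    intro p hpS hpF
    choose c hc1 hc2 using h.cong p hpS (hgood p hpF)
    exact dichotomy hn β hR 𝔟 hX hXb (π.A p) _ c hc1 hc2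
  refine ⟨th 𝔓 Fr U (fun y => (θ y : ℝ)), F, hFf, ?_,
    fun p hpS hpF => ⟨hgood p hpF, hth p hpF, hdich p hpS hpF⟩⟩
  refine ⟨TT_nonneg π, ?_, ?_, ?_, ?_, h.beta, ?_⟩
  · intro x
    unfold th
    split_ifs
    · exact (tw_nonneg _).trans_eq (hθ _).symm
    · exact le_refl _
  · refine ⟨(Module.finrank ℚ K : ℝ) * (n : ℝ) ^ 2, fun x => ?_⟩
    unfold th
    split_ifs
    · exact (hθ _).trans_le (tw_le β hR _)
    · positivity
  · intro σ hσ
    exact thin_of_subset (h.thin σ hσ) hFf (subset_refl _)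
  · intro p hpSF
    have hpS : p ∉ S := fun hc => hpSF (Or.inl hc)
    have hpF : p ∉ F := fun hc => hpSF (Or.inr hc)
    rcases hdich p hpS hpF with h1 | ⟨k, hk, h1, -, h2⟩
    · refine Or.inl fun k => ?_
      rw [TT_good π (hgood p hpF), hth p hpF, h1]
    · refine Or.inr ⟨k, hk, fun j hj => ?_, ?_⟩
      · rw [TT_good π (hgood p hpF), hth p hpF, h1 j hj]
      · rw [TT_good π (hgood p hpF), hth p hpF]
        exact h2
  · refine ⟨b, hb, μ, hμ1, hμ2, Module.finrank ℚ K, G, Gf, hG1, hGf1, fun σ hσ => ?_⟩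
    obtain ⟨k1, k2, k3⟩ := hG2 σ hσ
    obtain ⟨k4, k5⟩ := hGf2 σ hσ.1
    rw [NumberField.Embeddings.card] at k3
    exact ⟨k1, k4, k2, k3, k5⟩

theorem Dat.sum_main (h : Dat π Fr 𝔟 U β S β₀) {m : ℕ} (hm : 0 < m) {x : ℝ} (hx : m * β₀ < x) :
    Thin {p : Nat.Primes | p ∉ S ∧ π.Good p ∧ ∃ j : ℕ, 0 < j ∧ j ≤ m ∧
      (β ((QuotientGroup.mk (Fr p) : AbsGal ℚ ⧸ U) ^ j) : K) ≠ (π.A p ^ j).trace} x := by
  obtain ⟨th', F, hF, hcmp, hmain⟩ := h.exists_cmp
  have hm0 : (0 : ℝ) < m := Nat.cast_pos.2 hm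
  have hσ : β₀ < x / m := by
    rw [lt_div_iff₀ hm0, mul_comm]
    exact hx
  have h1 := hcmp.sum_bad hm hσ
  have e : (m : ℝ) * (x / m) = x := mul_div_cancel₀ x hm0.ne'
  rw [e] at h1
  refine thin_of_subset (B := {p : Nat.Primes | p ∉ S ∪ F ∧ ∃ k < m, TT π (p, k) ≠ th' (p, k)})
    h1 hF ?_
  rintro p ⟨hpS, hpg, j, hj0, hjm, hj⟩
  by_cases hpF : p ∈ F
  · exact Or.inr hpF
  refine Or.inl ⟨fun hc => hc.elim hpS hpF, ?_⟩
  obtain ⟨-, hth, hd⟩ := hmain p hpS hpF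
  rcases hd with hd | ⟨k, -, hk1, hk2, hk3⟩
  · exact absurd (hd j).symm hj
  · refine ⟨k, ?_, ?_⟩
    · by_contra hkm
      obtain ⟨i, rfl⟩ : ∃ i, j = i + 1 := ⟨j - 1, by omega⟩
      exact hj (hk1 i (by omega)).symm
    · rw [TT_good π hpg, hth]
      intro hc
      rw [hc] at hk3
      linarith

theorem Dat.bound_main (h : Dat π Fr 𝔟 U β S β₀) {p : Nat.Primes} (hp : π.Good p) (s : K →+* ℂ)
    {α : ℂ} (hα : α ∈ ((π.A p).charpoly.map s).roots) : ‖α‖ ≤ ((p : ℕ) : ℝ) ^ (β₀ / 2) := by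
  obtain ⟨th', F, hF, hcmp, hmain⟩ := h.exists_cmp
  have hfin : Finite (AbsGal ℚ ⧸ U) := Subgroup.quotient_finite_of_isOpen U h.opn
  rw [← Matrix.charpoly_map] at hα
  have htr : ∀ k : ℕ, (((π.A p).map s) ^ k).trace = s (π.A p ^ k).trace := by
    intro k
    have e1 : ((π.A p).map s) ^ k = (π.A p ^ k).map s := by
      rw [← RingHom.mapMatrix_apply, ← RingHom.mapMatrix_apply, map_pow]
    rw [e1]
    exact (AddMonoidHom.map_trace (s : K →+ ℂ) _).symm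
  by_cases hc : p ∈ S ∪ F ∨ ∃ k, TT π (p, k) ≠ th' (p, k)
  · refine cut ((π.A p).map s) p (fun σ hσ => ?_) hα
    refine Summable.of_nonneg_of_le (fun k => mul_nonneg (by positivity)
      (Pool.Agent.H74E.pk_nonneg σ _)) (fun k => ?_) (hcmp.single hc hσ)
    refine mul_le_mul_of_nonneg_right ?_ (Pool.Agent.H74E.pk_nonneg σ _)
    rw [TT_good π hp, htr]
    exact Finset.single_le_sum (f := fun s : K →+* ℂ => ‖s (π.A p ^ (k + 1)).trace‖ ^ 2)
      (fun s _ => by positivity) (Finset.mem_univ s)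
  · rw [not_or] at hc
    have hpS : p ∉ S := fun h => hc.1 (Or.inl h)
    have hpF : p ∉ F := fun h => hc.1 (Or.inr h)
    obtain ⟨-, hth, hd⟩ := hmain p hpS hpF
    have hall : ∀ k, (π.A p ^ k).trace =
        (β ((QuotientGroup.mk (Fr p) : AbsGal ℚ ⧸ U) ^ k) : K) := by
      rcases hd with hd | ⟨k, -, -, -, hk3⟩
      · exact hd
      · exfalso
        refine hc.2 ⟨k, fun he => ?_⟩
        rw [TT_good π hp, hth] at he
        rw [he] at hk3
        linarith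
    obtain ⟨R, hR, -⟩ := h.rep s
    have h1 : ‖α‖ ≤ 1 := by
      refine norm_root_le ((π.A p).map s) one_pos (C := n) (fun k => ?_) hα
      rw [htr, hall, ← hR, one_pow, mul_one]
      refine OneI74.norm_trace_le (m := Nat.card (AbsGal ℚ ⧸ U)) Nat.card_pos _ ?_
      rw [← map_pow, pow_card_eq_one', map_one]
    refine h1.trans (Real.one_le_rpow ?_ (by linarith [h.beta.1]))
    exact_mod_cast p.2.one_lt.le

theorem Dat.all_main (h : Dat π Fr 𝔟 U β S 0) {p : Nat.Primes} (hp : π.Good p) :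
    (∃ m : ℕ, 0 < m ∧ ∀ s : K →+* ℂ, ∀ α ∈ ((π.A p).charpoly.map s).roots, α ^ m = 1) ∧
    (p ∉ S → ∀ k : ℕ,
      (π.A p ^ k).trace = (β ((QuotientGroup.mk (Fr p) : AbsGal ℚ ⧸ U) ^ k) : K)) := by
  have hn : 0 < n := by have := h.two; omega
  have hfin : Finite (AbsGal ℚ ⧸ U) := Subgroup.quotient_finite_of_isOpen U h.opn
  have h1 : ∀ s : K →+* ℂ, ∀ α ∈ ((π.A p).charpoly.map s).roots, ‖α‖ ≤ 1 := by
    intro s α hα
    have := h.bound_main hp s hα
    rwa [zero_div, Real.rpow_zero] at this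
  refine ⟨?_, fun hpS k => ?_⟩
  · refine exists_pow_eq_one (π.A p) (π.integral p hp.1 hp.2) fun s => ?_
    have hs := h1 s
    rw [← Matrix.charpoly_map] at hs ⊢
    refine norm_root_eq_one ((π.A p).map s) ?_ hs
    obtain ⟨m, hm, hdet⟩ := OneP74.det_pow h.two π (h.cusp s) hp
    have e1 : ((π.A p).map s).det = s (π.A p).det := (RingHom.map_det s _).symm
    rw [e1]
    refine Complex.norm_eq_one_of_pow_eq_one (n := m) ?_ hm.ne'
    rw [← map_pow, hdet, map_one]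
  · obtain ⟨X, hX, hXb⟩ := h.large
    choose c hc1 hc2 using h.cong p hpS hp
    have hR : ∀ s : K →+* ℂ, ∃ R : AbsGal ℚ ⧸ U →* Matrix (Fin n) (Fin n) ℂ,
        ∀ x, (R x).trace = s (β x : K) := fun s => by
      obtain ⟨R, hR, -⟩ := h.rep s
      exact ⟨R, hR⟩
    exact eq_of_norm_le β hR 𝔟 hX hXb (π.A p) _ c hc1 hc2 h1 k

end Pool.Agent.DZ74
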