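import Pool.Agent.W_7742k_h74.EMai

/-! # Definitions for the statement

Primes at which the representation is congruent to the system; the conclusion for all primes. -/

set_option autoImplicit false

noncomputable section

namespace Pool.Agent.DZ74

open NumberField Pool.Agent.Cheb Pool.Agent.GalSide Pool.Agent.H74V Pool.Agent.OneI74

variable {K : Type} [Field K] [NumberField K] {n : ℕ}

/-- The characteristic polynomial of `r (Fr p)` is the image under `ι` of that of `A p`, for all primes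
`p` outside `S` which do not divide the level. -/
def CongruentOutside (π : SatakeSystem K n) (Fr : Nat.Primes → AbsGal ℚ) {A : Type} [CommRing A]
    (ι : 𝓞 K →+* A) (r : AbsGal ℚ →* GL (Fin n) A) (S : Set Nat.Primes) : Prop :=
  ∀ p : Nat.Primes, p ∉ S → π.Good p → ∃ P : Polynomial (𝓞 K),
    P.map (algebraMap (𝓞 K) K) = (π.A p).charpoly ∧ P.map ι = (r (Fr p)).val.charpoly

/-- The conclusion for all primes which do not divide the level: the series of the `p ^ (-x)` over the
`p` outside `S` such that one of the first `m` coefficients (after the leading one) of the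
characteristic polynomials of `R (Fr p)` and `s (A p)` differs converges for `x > m * β₀`; the
eigenvalues of `s (A p)` have absolute value at most `p ^ (β₀ / 2)`; and if `β₀ = 0`, then all
eigenvalues of `A p` are roots of unity and, if `p` is outside `S`, the characteristic polynomials of
`R (Fr p)` and `s (A p)` are equal. -/
def AllPrimes (π : SatakeSystem K n) (Fr : Nat.Primes → AbsGal ℚ) (s : K →+* ℂ)
    (R : AbsGal ℚ →* GL (Fin n) ℂ) (S : Set Nat.Primes) (β₀ : ℝ) : Prop :=
  (∀ m : ℕ, 0 < m → m ≤ n → ∀ x : ℝ, m * β₀ < x →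
    Thin {p : Nat.Primes | p ∉ S ∧ π.Good p ∧ ∃ j : ℕ, 0 < j ∧ j ≤ m ∧
      (R (Fr p)).val.charpoly.coeff (n - j) ≠ s ((π.A p).charpoly.coeff (n - j))} x) ∧
  (∀ p : Nat.Primes, π.Good p → ∀ α ∈ ((π.A p).charpoly.map s).roots,
    ‖α‖ ≤ ((p : ℕ) : ℝ) ^ (β₀ / 2)) ∧
  (β₀ = 0 → ∀ p : Nat.Primes, π.Good p →
    (∃ m : ℕ, 0 < m ∧ ∀ α ∈ ((π.A p).charpoly.map s).roots, α ^ m = 1) ∧
    (p ∉ S → (R (Fr p)).val.charpoly = (π.A p).charpoly.map s))

/-- `CongruentOutside`, `NoZeros` imply `AllPrimes`. -/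
def LiftsAll (π : SatakeSystem K n) (Fr : Nat.Primes → AbsGal ℚ) {A : Type} [CommRing A]
    (ι : 𝓞 K →+* A) (r : AbsGal ℚ →* GL (Fin n) A) (s : K →+* ℂ)
    (R : AbsGal ℚ →* GL (Fin n) ℂ) : Prop :=
  ∀ (S : Set Nat.Primes) (β₀ : ℝ), 0 ≤ β₀ → β₀ < 1 → (∀ x : ℝ, β₀ < x → Thin S x) →
    CongruentOutside π Fr ι r S → NoZeros r.ker β₀ → AllPrimes π Fr s R S β₀

end Pool.Agent.DZ74
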