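import Pool.Agent.W_7742k_h74.FFam
import Pool.Agent.W_7742k_h74.CExi

/-! One Galois representation modulo one ideal of large norm suffices, for cusp forms on `GL_n` with
integral Satake polynomials; all primes. -/

namespace Pool.Agent.Results.MP_7742d9_nt.OneIdeal

open NumberField
open Pool.Agent.OneI74 Pool.Agent.GalSide Pool.Agent.Cheb Pool.Agent.H74V Pool.Agent.DZ74

/-- Let `K` be a number field of degree `d`, `n ≥ 2` and `π` a system of Satake classes of rank `n`
whose characteristic polynomials are integral over `K`, such that for every embedding `σ` of `K` the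
conjugate `π^σ` is the system of Satake classes of a cusp form on `GL_n` over `ℚ`.

(0) Let `E` be a field of any characteristic, `ψ : 𝓞 K → E` a ring homomorphism and
`r : G_ℚ → GL_n(E)` a representation with open kernel such that `tr r(Fr p) = ψ (tr A p)` for all
primes `p` outside a set of density zero.  Then there are at most `ord n d` functions
`h ↦ tr r(g h)`, `g ∈ G_ℚ`.

Let `A` be a commutative ring and `ι : 𝓞 K → A` a ring homomorphism whose kernel has norm at least
`bound n d`; for instance the quotient of `𝓞 K` by a large prime ideal, or by a high power of a small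
one, or a ring extension of it.

(1) Let `r : G_ℚ → GL_n(A)` be a representation with open kernel such that
`tr r(Fr p) = ι (tr A p)` for all primes `p` outside a set of density zero.  Then for every embedding
`s : K → ℂ` there is an irreducible representation `R : G_ℚ → GL_n(ℂ)` with open kernel containing the
kernel of `r` such that `tr R(Fr p) = s (tr A p)` for all `p` outside a set of density zero.

Moreover (`LiftsTr`, `LiftsDets`, `LiftsCh`), for all `g ∈ G_ℚ`, `x ∈ 𝓞 K` and monic polynomials `P` of
degree `n` over `𝓞 K`: if `tr r(g) = ι x` and all conjugates of `x` have absolute value at most `B`, where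
`(B + n) ^ (d (n ^ 2 + 1)) < norm of ker ι`, then `tr R(g) = s x`; if `det r(g) = ι x` and all conjugates
of `x` have absolute value at most `1` then `det R(g) = s x`; if `char r(g) = ι P` and the roots of all
conjugates of `P` have absolute value at most `ρ`, where `ρ ≥ 1` and
`(n (ρ ^ n + 1)) ^ (d (n ^ 2 + 1)) < norm of ker ι`, then `char R(g) = s P` (by (4) this applies to
`P = char A p`, `ρ = p ^ (1 / 2)`).
If `n ≤ 3` and `det r(Fr p) = ι (det A p)` for all `p` outside a set of density zero then the
characteristic polynomials of `R(Fr p)` and `s (A p)` are equal for all `p` outside a set of density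
zero.

All primes (`LiftsAll`): suppose that `char r(Fr p) = ι (char A p)` for all `p` which do not divide the
level, outside a set `S` (for instance a finite set) such that the series of the `p ^ (-x)`, `p ∈ S`,
converges for all `x > β₀`, where `0 ≤ β₀ < 1` and the Dedekind zeta functions of all subfields of the
field which belongs to the kernel of `r` have no zeros in the interval `(β₀, 1)`; by (5) such `β₀`
always exist.  Then for `1 ≤ m ≤ n` the series of the `p ^ (-x)` over the `p` not dividing the level,
`p ∉ S`, such that one of the first `m` coefficients of the characteristic polynomials of `R(Fr p)` and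
`s (A p)` differs converges for all `x > m β₀`; the eigenvalues of `s (A p)` have absolute value at most
`p ^ (β₀ / 2)` for all `p` not dividing the level; if `β₀ = 0` then for all `p` not dividing the level
they are roots of unity and, for `p ∉ S`, `char R(Fr p) = s (char A p)`.

(2) There are no representations `r₁`, `r₂` of `G_ℚ` over `A` of dimensions `a, b ≥ 1`, `a + b = n`,
with open kernels such that `tr r₁(Fr p) + tr r₂(Fr p) = ι (tr A p)` for all `p` outside a set of
density zero.

(3) Let `r j : G_ℚ → GL_n(A j)`, `j ∈ J`, be representations with open kernels over commutative rings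
`A j` and `ι j : 𝓞 K → A j` ring homomorphisms whose kernels have unbounded norms, such that
`tr r_j(Fr p) = ι_j (tr A p)` for all `p` outside a set of density zero (which may depend on `j`).  Then
for every embedding `s` there is one irreducible representation `R : G_ℚ → GL_n(ℂ)` with open kernel,
containing the kernel of `r j` for all `j` such that the norm of `ker ι_j` is at least `bound n d`, such
that `char R(g) = s P` for all `g ∈ G_ℚ` and all monic polynomials `P` of degree `n` over `𝓞 K` such that
`char r_j(g) = ι_j P` for `j` with `ker ι_j` of arbitrarily large norm.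

(4) The eigenvalues of `s (A p)` have absolute value at most `p ^ (1 / 2)`, for all `s` and all `p` not
dividing the level.

(5) For every `r` with open kernel there is `β₀ < 1` as above. -/
theorem result (K : Type) [Field K] [NumberField K] (n : ℕ) (hn : 2 ≤ n) (π : SatakeSystem K n)
    (h : ∀ σ : K →+* ℂ, π.IsCuspidal σ) (Fr : Nat.Primes → AbsGal ℚ)
    (hFr : Pool.Agent.OneP74.IsFrobeniusFamily Fr) :
    (∀ (E : Type) [Field E] (ψ : 𝓞 K →+* E) (r : AbsGal ℚ →* GL (Fin n) E),
      IsOpen (r.ker : Set (AbsGal ℚ)) → Congruent π Fr ψ (fun g => (r g).val.trace) →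
        (Set.range (translate r)).Finite ∧
        (Set.range (translate r)).ncard ≤ Pool.Agent.OneP74.ord n (Module.finrank ℚ K)) ∧
    (∀ (A : Type) [CommRing A] (ι : 𝓞 K →+* A),
      bound n (Module.finrank ℚ K) ≤ Ideal.absNorm (RingHom.ker ι) →
      (∀ r : AbsGal ℚ →* GL (Fin n) A, IsOpen (r.ker : Set (AbsGal ℚ)) →
        Congruent π Fr ι (fun g => (r g).val.trace) → ∀ s : K →+* ℂ,
          ∃ R : AbsGal ℚ →* GL (Fin n) ℂ, IsArtin R ∧ r.ker ≤ R.ker ∧
            HasDensity {p : Nat.Primes | (R (Fr p)).val.trace ≠ s (π.A p).trace} 0 ∧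
            LiftsTr ι r s R ∧ LiftsDets ι r s R ∧
            (n ≤ 3 → DetCongruent π Fr ι r → HasDensity {p : Nat.Primes |
                (R (Fr p)).val.charpoly ≠ (π.A p).charpoly.map s} 0) ∧
            LiftsCh ι r s R ∧ LiftsAll π Fr ι r s R) ∧
      ∀ a b : ℕ, 0 < a → 0 < b → a + b = n → ∀ (r₁ : AbsGal ℚ →* GL (Fin a) A)
        (r₂ : AbsGal ℚ →* GL (Fin b) A), IsOpen (r₁.ker : Set (AbsGal ℚ)) →
          IsOpen (r₂.ker : Set (AbsGal ℚ)) →
          ¬ Congruent π Fr ι (fun g => (r₁ g).val.trace + (r₂ g).val.trace)) ∧
    (∀ (J : Type) (A : J → Type) [∀ j, CommRing (A j)] (ι : ∀ j, 𝓞 K →+* A j),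
      (∀ B : ℕ, ∃ j, B ≤ Ideal.absNorm (RingHom.ker (ι j))) →
      ∀ r : ∀ j, AbsGal ℚ →* GL (Fin n) (A j),
        (∀ j, IsOpen ((r j).ker : Set (AbsGal ℚ))) →
        (∀ j, Congruent π Fr (ι j) fun g => (r j g).val.trace) → ∀ s : K →+* ℂ,
          ∃ R : AbsGal ℚ →* GL (Fin n) ℂ, IsArtin R ∧
            (∀ j, bound n (Module.finrank ℚ K) ≤ Ideal.absNorm (RingHom.ker (ι j)) →
              (r j).ker ≤ R.ker) ∧
            ∀ (g : AbsGal ℚ) (P : Polynomial (𝓞 K)), P.Monic → P.natDegree = n →
              (∀ B : ℕ, ∃ j, B ≤ Ideal.absNorm (RingHom.ker (ι j)) ∧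
                (r j g).val.charpoly = P.map (ι j)) →
              (R g).val.charpoly = (P.map (algebraMap (𝓞 K) K)).map s) ∧
    (∀ (s : K →+* ℂ) (p : Nat.Primes), π.Good p → ∀ α ∈ ((π.A p).charpoly.map s).roots,
      ‖α‖ ≤ ((p : ℕ) : ℝ) ^ ((1 : ℝ) / 2)) ∧
    ∀ (A : Type) [CommRing A] (r : AbsGal ℚ →* GL (Fin n) A), IsOpen (r.ker : Set (AbsGal ℚ)) →
      ∃ β₀ : ℝ, 0 ≤ β₀ ∧ β₀ < 1 ∧ NoZeros r.ker β₀ :=
  ⟨fun _ _ ψ r hr hc => final_image hn π h Fr hFr ψ r hr hc, fun _ _ ι hN =>
    ⟨fun r hr hc s => final_one_two hn π h Fr hFr ι hN r hr hc s,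
      fun _ _ ha hb hab r₁ r₂ h₁ h₂ hc =>
        final_two hn π h Fr hFr ι hN ha hb hab r₁ r₂ h₁ h₂ hc⟩,
    fun _ A _ ι hN r hr hc s => final_family hn π h Fr hFr A ι hN r hr hc s,
    fun s _ hp _ hα => js_bound hn (h s) hp hα,
    fun _ _ r hr => exists_zeroFree r.ker hr⟩

end Pool.Agent.Results.MP_7742d9_nt.OneIdeal
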